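import Pool.Agent.Work.MP_46fa68_23.Mo8b

/-!
# The main theorem of the checker
-/

set_option autoImplicit false

open Finset

namespace Pool.NW

open Pool.NV Pool.OB Pool.JM

/-- the error budgets of one function (units), for `m = m1`; `t` lifts -/
structure Bud (D : Dat) (F : FD) (sel : N3 → ℕ) (m t den : ℕ) : Prop where
  ht : (t : ℤ) + F.u = m
  ht1 : 1 ≤ t
  low : ∀ (k L b s : ℕ) (B : Finset ℕ), Two k L b s B → L + b + s = 2 * m →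
    |lD F m t den (k + 2) B (k + b)| * (S : ℕ) ≤ (sel D.low : ℝ)
  lows : ∀ (k L b s : ℕ) (B : Finset ℕ), Two k L b s B → L + b + s = 2 * m →
    |lD F m t den (k + 2) B (k + b)| * (S : ℕ) ≤ (sel (D.lows.getD s D.low) : ℝ)
  far : ∀ (k L b s : ℕ) (B : Finset ℕ) (i1 : ℕ), Two k L b s B → L + b + s = 2 * m →
    (i1 : ℤ) = (m : ℤ) - L + D.o → i1 < D.n1 → ((D.J2.getD i1 0 : ℕ) : ℤ) < (m : ℤ) + 1 - b + D.o →
    |xD F m t den (k + 2) B (k + b)| * (S : ℕ) ≤ (sel (D.far.getD i1 z3) : ℝ)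
  farn : ∀ (k L b s : ℕ) (B : Finset ℕ), Two k L b s B → L + b + s = 2 * m → (m : ℤ) - L + D.o < 0 →
    |xD F m t den (k + 2) B (k + b)| * (S : ℕ) ≤ (sel D.farn : ℝ)
  deep : ∀ (k L b s : ℕ) (B : Finset ℕ), Two k L b s B → L + b + s = 2 * m →
    (D.n1 : ℤ) ≤ (m : ℤ) - L + D.o →
    (|xD F m t den (k + 2) B (k + 1 + L)| + |xD F m t den (k + 2) B (k + b)|) * (S : ℕ) ≤ (sel D.deep : ℝ)

/-- far first bead -/
theorem deep_fun {F : FD} {m t den k L b s lo fr : ℕ} {B : Finset ℕ} (h : Two k L b s B)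
    (hlo : |lD F m t den (k + 2) B (k + b)| * (S : ℕ) ≤ (lo : ℝ))
    (hfr : (|xD F m t den (k + 2) B (k + 1 + L)| + |xD F m t den (k + 2) B (k + b)|) * (S : ℕ) ≤ (fr : ℝ)) :
    |fD F m t den (k + 2) B - pev F.c0 (1 / m)| * (S : ℕ) ≤ ((lo + fr : ℕ) : ℝ) := by
  have hS := S_posR
  rw [fD_two h, Nat.cast_add]
  have key : |pev F.c0 (1 / m) + (xD F m t den (k + 2) B (k + 1 + L) + xD F m t den (k + 2) B (k + b)) +
      lD F m t den (k + 2) B (k + b) - pev F.c0 (1 / m)| ≤ |lD F m t den (k + 2) B (k + b)| +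
      (|xD F m t den (k + 2) B (k + 1 + L)| + |xD F m t den (k + 2) B (k + b)|) := by
    refine le_trans (le_of_eq ?_) ((abs_add_le _ _).trans (add_le_add le_rfl (abs_add_le _ _)))
    congr 1
    ring
  have h3 := mul_le_mul_of_nonneg_right key hS.le
  rw [add_mul] at h3
  linarith

/-- constant first row -/
theorem const_fun {F : FD} {m t den k L b s lo fr : ℕ} {B : Finset ℕ} (h : Two k L b s B) (hm : 0 < m)
    (ht : (t : ℤ) + F.u = m) (ht1 : 1 ≤ t) (hden : 0 < den)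
    (hj : (m : ℤ) - L - 1 + F.cf.v.length ≤ 0)
    (hlo : |lD F m t den (k + 2) B (k + b)| * (S : ℕ) ≤ (lo : ℝ))
    (hfr : |xD F m t den (k + 2) B (k + b)| * (S : ℕ) ≤ (fr : ℝ)) :
    |fD F m t den (k + 2) B - (pev F.c0 (1 / m) + pev F.cf.tau (1 / m))| * (S : ℕ) ≤
      ((lo + fr : ℕ) : ℝ) := by
  have hS := S_posR
  have hc := const_row (cf := F.cf) hm ht ht1 hden h hj
  rw [fD_two h, Nat.cast_add]
  have key : |pev F.c0 (1 / m) + (xD F m t den (k + 2) B (k + 1 + L) + xD F m t den (k + 2) B (k + b)) +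
      lD F m t den (k + 2) B (k + b) - (pev F.c0 (1 / m) + pev F.cf.tau (1 / m))| ≤
      |lD F m t den (k + 2) B (k + b)| + |xD F m t den (k + 2) B (k + b)| := by
    refine le_trans (le_of_eq ?_) (abs_add_le _ _)
    congr 1
    have hc' : xD F m t den (k + 2) B (k + 1 + L) = pev F.cf.tau (1 / m) := hc
    rw [hc']
    ring
  have h3 := mul_le_mul_of_nonneg_right key hS.le
  rw [add_mul] at h3
  linarith

theorem tP_spec {Fa Fk Fb : FD} {X : NI} {j1 j2 : ℤ} {D s b1 b2 : ℕ} {lo : N3}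
    (h : tP Fa Fk Fb X j1 j2 D s b1 b2 lo = true) :
    okP X j1 j2 D s b1 = true ∧ (LVt Fa X j1 b1 = true ∧ LVt Fa X j2 b2 = true ∧ LVt Fk X j1 b1 = true ∧
      LVt Fk X j2 b2 = true ∧ LVt Fb X j1 b1 = true ∧ LVt Fb X j2 b2 = true) ∧
    box ⟨vP Fa X j1 j2 b1 b2 D, vP Fk X j1 j2 b1 b2 D, vP Fb X j1 j2 b1 b2 D⟩
      ⟨wP1 Fa X j1 b1 (parP X j1 j2 D s b2), wP1 Fk X j1 b1 (parP X j1 j2 D s b2),
        wP1 Fb X j1 b1 (parP X j1 j2 D s b2)⟩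
      ⟨wP2 Fa X j1 b1 (parP X j1 j2 D s b2), wP2 Fk X j1 b1 (parP X j1 j2 D s b2),
        wP2 Fb X j1 b1 (parP X j1 j2 D s b2)⟩
      ⟨wP3 Fa X j2 b2 D (parP X j1 j2 D s b2), wP3 Fk X j2 b2 D (parP X j1 j2 D s b2),
        wP3 Fb X j2 b2 D (parP X j1 j2 D s b2)⟩
      ⟨erP Fa X j1 j2 b1 b2 D (parP X j1 j2 D s b2) + lo.a, erP Fk X j1 j2 b1 b2 D (parP X j1 j2 D s b2) + lo.k,
        erP Fb X j1 j2 b1 b2 D (parP X j1 j2 D s b2) + lo.b⟩ = true := by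
  unfold tP at h
  simp only [Bool.and_eq_true] at h
  obtain ⟨h1, ⟨h2, h3, h4, h5, h6, h7⟩, h8⟩ := h
  exact ⟨h1, ⟨h2, h3, h4, h5, h6, h7⟩, h8⟩

theorem tF_spec {Fa Fk Fb : FD} {X : NI} {j1 : ℤ} {D0 b1 : ℕ} {lo fr : N3}
    (h : tF Fa Fk Fb X j1 D0 b1 lo fr = true) :
    okF X j1 D0 b1 = true ∧ (LVt Fa X j1 b1 = true ∧ LVt Fk X j1 b1 = true ∧ LVt Fb X j1 b1 = true) ∧
    box ⟨vF Fa X j1 b1 (parF X j1 D0), vF Fk X j1 b1 (parF X j1 D0), vF Fb X j1 b1 (parF X j1 D0)⟩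
      ⟨wP1 Fa X j1 b1 (parF X j1 D0), wP1 Fk X j1 b1 (parF X j1 D0), wP1 Fb X j1 b1 (parF X j1 D0)⟩
      ⟨wP2 Fa X j1 b1 (parF X j1 D0), wP2 Fk X j1 b1 (parF X j1 D0), wP2 Fb X j1 b1 (parF X j1 D0)⟩
      zero3
      ⟨erF Fa X j1 b1 (parF X j1 D0) + (lo.a + fr.a), erF Fk X j1 b1 (parF X j1 D0) + (lo.k + fr.k),
        erF Fb X j1 b1 (parF X j1 D0) + (lo.b + fr.b)⟩ = true := by
  unfold tF at h
  simp only [Bool.and_eq_true] at h
  obtain ⟨h1, ⟨h2, h3, h4⟩, h5⟩ := h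
  exact ⟨h1, ⟨h2, h3, h4⟩, h5⟩

theorem all_range {n : ℕ} {f : ℕ → Bool} (h : (List.range n).all f = true) {i : ℕ} (hi : i < n) :
    f i = true := by
  rw [List.all_eq_true] at h
  exact h i (List.mem_range.2 hi)

/-- **THE MAIN THEOREM.** -/
theorem chk_sound {D : Dat} {X : NI} (hc : chk D X = true) {m den ta tk tb : ℕ} (hm : 0 < m)
    (hden : 0 < den) (hx : Mem (1 / (m : ℝ)) X) (Ha : Bud D D.a N3.a m ta den)
    (Hk : Bud D D.k N3.k m tk den) (Hb : Bud D D.b N3.b m tb den) {k L b s : ℕ} {B : Finset ℕ}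
    (h : Two k L b s B) (hN : L + b + s = 2 * m)
    (hR : ∀ i1 i2 : ℕ, (i1 : ℤ) = (m : ℤ) - L + D.o → (i2 : ℤ) = (m : ℤ) + 1 - b + D.o →
      memR D.R i1 i2 = false) :
    0 ≤ fD D.a m ta den (k + 2) B ∧ 0 ≤ fD D.k m tk den (k + 2) B ∧
      fD D.b m tb den (k + 2) B ^ 2 ≤ fD D.a m ta den (k + 2) B * fD D.k m tk den (k + 2) B := by
  have hbL := h.hbL
  unfold chk at hc
  rw [Bool.and_eq_true] at hc
  obtain ⟨hend, hrows⟩ := hc
  unfold chkEnd at hend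
  rw [Bool.and_eq_true, Bool.and_eq_true, Bool.and_eq_true, Bool.and_eq_true, Nat.ble_eq, Nat.ble_eq,
    Nat.ble_eq] at hend
  obtain ⟨la, lk, lb, hC, hD⟩ := hend
  rcases lt_or_ge ((m : ℤ) - L + D.o) 0 with hneg | hpos
  · -- constant first row
    unfold tC at hC
    have hcone := Rc_of_tst (v := ⟨pev D.a.c0 (1 / m) + pev D.a.cf.tau (1 / m),
      pev D.k.c0 (1 / m) + pev D.k.cf.tau (1 / m), pev D.b.c0 (1 / m) + pev D.b.cf.tau (1 / m)⟩)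
      ⟨memS_add (memS_pev hx _) (memS_pev hx _), memS_add (memS_pev hx _) (memS_pev hx _),
        memS_add (memS_pev hx _) (memS_pev hx _)⟩ hC
    exact hcone.cone (F := ⟨fD D.a m ta den (k + 2) B, fD D.k m tk den (k + 2) B,
      fD D.b m tb den (k + 2) B⟩)
      (const_fun h hm Ha.ht Ha.ht1 hden (by omega) (Ha.low k L b s B h hN) (Ha.farn k L b s B h hN hneg))
      (const_fun h hm Hk.ht Hk.ht1 hden (by omega) (Hk.low k L b s B h hN) (Hk.farn k L b s B h hN hneg))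
      (const_fun h hm Hb.ht Hb.ht1 hden (by omega) (Hb.low k L b s B h hN) (Hb.farn k L b s B h hN hneg))
  rcases lt_or_ge ((m : ℤ) - L + D.o) (D.n1 : ℤ) with hlt | hge
  swap
  · -- far first bead
    unfold tD at hD
    have hcone := Rc_of_tst (v := ⟨pev D.a.c0 (1 / m), pev D.k.c0 (1 / m), pev D.b.c0 (1 / m)⟩)
      ⟨memS_pev hx _, memS_pev hx _, memS_pev hx _⟩ hD
    exact hcone.cone (F := ⟨fD D.a m ta den (k + 2) B, fD D.k m tk den (k + 2) B,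
      fD D.b m tb den (k + 2) B⟩)
      (deep_fun h (Ha.low k L b s B h hN) (Ha.deep k L b s B h hN hge))
      (deep_fun h (Hk.low k L b s B h hN) (Hk.deep k L b s B h hN hge))
      (deep_fun h (Hb.low k L b s B h hN) (Hb.deep k L b s B h hN hge))
  -- a row
  obtain ⟨i1, hi1⟩ : ∃ i1 : ℕ, (i1 : ℤ) = (m : ℤ) - L + D.o := ⟨((m : ℤ) - L + D.o).toNat, by omega⟩
  obtain ⟨i2, hi2⟩ : ∃ i2 : ℕ, (i2 : ℤ) = (m : ℤ) + 1 - b + D.o :=
    ⟨((m : ℤ) + 1 - b + D.o).toNat, by omega⟩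
  have hi1n : i1 < D.n1 := by omega
  have hrow := all_range hrows hi1n
  unfold chkRow at hrow
  rw [Bool.and_eq_true] at hrow
  obtain ⟨hpairs, hfar⟩ := hrow
  have j1e : jj D.o i1 = (m : ℤ) - L := by unfold jj; omega
  have j2e : jj D.o i2 = (m : ℤ) + 1 - b := by unfold jj; omega
  rcases Nat.lt_or_ge i2 (D.J2.getD i1 0 + 1) with hJ | hJ
  · -- pair class
    have hp := all_range hpairs hJ
    unfold chkP at hp
    rw [Bool.or_eq_true, Bool.or_eq_true, Bool.or_eq_true, Nat.ble_eq, Nat.ble_eq,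
      hR i1 i2 hi1 hi2] at hp
    rcases hp with hp | hp | hp | hp
    · omega
    · omega
    · exact absurd hp (by simp)
    have es : i1 + i2 - 2 * D.o - 1 = s := by omega
    have eD : i2 - i1 = L + 1 - b := by omega
    rw [es, eD, j1e, j2e] at hp
    obtain ⟨hok, ⟨a1, a2, k1, k2, b1', b2'⟩, hbox⟩ := tP_spec hp
    have hD0 : 0 < L + 1 - b := by omega
    obtain ⟨x1, x2, x3, hx1, hx2, hx3, hall⟩ := pair_rows (b2 := D.bet.getD i2 100) hm hx h hN rfl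
      (lvt_spec a2).2.2.1 (lvt_spec a2).2.1 (lvt_spec a1).2.1 hok
    have hRa1 := Rng_of hx (lvt_spec a1).1
    have hRa2 := Rng_of hx (lvt_spec a2).1
    have hRk1 := Rng_of hx (lvt_spec k1).1
    have hRk2 := Rng_of hx (lvt_spec k2).1
    have hRb1 := Rng_of hx (lvt_spec b1').1
    have hRb2 := Rng_of hx (lvt_spec b2').1
    have ra := pair_fun hx hD0 h a1 a2 (hall D.a.cf ta den D.a.u Ha.ht Ha.ht1 hden (lvt_spec a1).2.2.2 hRa1 hRa2)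
      (Ha.lows k L b s B h hN)
    have rk := pair_fun hx hD0 h k1 k2 (hall D.k.cf tk den D.k.u Hk.ht Hk.ht1 hden (lvt_spec k1).2.2.2 hRk1 hRk2)
      (Hk.lows k L b s B h hN)
    have rb := pair_fun hx hD0 h b1' b2' (hall D.b.cf tb den D.b.u Hb.ht Hb.ht1 hden (lvt_spec b1').2.2.2 hRb1 hRb2)
      (Hb.lows k L b s B h hN)
    exact box_sound hbox (v := ⟨cP D.a (1 / m) ((m : ℤ) - L) ((m : ℤ) + 1 - b) (L + 1 - b),
        cP D.k (1 / m) ((m : ℤ) - L) ((m : ℤ) + 1 - b) (L + 1 - b),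
        cP D.b (1 / m) ((m : ℤ) - L) ((m : ℤ) + 1 - b) (L + 1 - b)⟩)
      (w1 := ⟨g1P D.a (1 / m) ((m : ℤ) - L) _, g1P D.k (1 / m) ((m : ℤ) - L) _,
        g1P D.b (1 / m) ((m : ℤ) - L) _⟩)
      (w2 := ⟨g2P D.a (1 / m) ((m : ℤ) - L) _, g2P D.k (1 / m) ((m : ℤ) - L) _,
        g2P D.b (1 / m) ((m : ℤ) - L) _⟩)
      (w3 := ⟨g3P D.a (1 / m) ((m : ℤ) + 1 - b) (L + 1 - b) _, g3P D.k (1 / m) ((m : ℤ) + 1 - b) (L + 1 - b) _,
        g3P D.b (1 / m) ((m : ℤ) + 1 - b) (L + 1 - b) _⟩)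
      ⟨mem_vP hx hD0 a1 a2, mem_vP hx hD0 k1 k2, mem_vP hx hD0 b1' b2'⟩
      ⟨mem_wP1 hx a1, mem_wP1 hx k1, mem_wP1 hx b1'⟩
      ⟨mem_wP2 hx a1, mem_wP2 hx k1, mem_wP2 hx b1'⟩
      ⟨mem_wP3 hx hD0 a2, mem_wP3 hx hD0 k2, mem_wP3 hx hD0 b2'⟩ hx1 hx2 hx3
      (F := ⟨fD D.a m ta den (k + 2) B, fD D.k m tk den (k + 2) B, fD D.b m tb den (k + 2) B⟩) ra rk rb
  · -- far second bead
    rw [j1e] at hfar
    obtain ⟨hok, ⟨a1, k1, b1'⟩, hbox⟩ := tF_spec hfar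
    have hJ' : ((D.J2.getD i1 0 : ℕ) : ℤ) < (m : ℤ) + 1 - b + D.o := by omega
    have hDD : D.J2.getD i1 0 + 1 - i1 ≤ L + 1 - b := by omega
    obtain ⟨x1, x2, hx1, hx2, hall⟩ := far_row hm hx h hN hDD (lvt_spec a1).2.1 hok
    have hRa1 := Rng_of hx (lvt_spec a1).1
    have hRk1 := Rng_of hx (lvt_spec k1).1
    have hRb1 := Rng_of hx (lvt_spec b1').1
    have ra := far_fun (x3 := 0) hx h a1
      (hall D.a.cf ta den D.a.u Ha.ht Ha.ht1 hden (lvt_spec a1).2.2.2 hRa1)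
      (Ha.low k L b s B h hN) (Ha.far k L b s B i1 h hN hi1 hi1n hJ')
    have rk := far_fun (x3 := 0) hx h k1
      (hall D.k.cf tk den D.k.u Hk.ht Hk.ht1 hden (lvt_spec k1).2.2.2 hRk1)
      (Hk.low k L b s B h hN) (Hk.far k L b s B i1 h hN hi1 hi1n hJ')
    have rb := far_fun (x3 := 0) hx h b1'
      (hall D.b.cf tb den D.b.u Hb.ht Hb.ht1 hden (lvt_spec b1').2.2.2 hRb1)
      (Hb.low k L b s B h hN) (Hb.far k L b s B i1 h hN hi1 hi1n hJ')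
    exact box_sound hbox (v := ⟨cF D.a (1 / m) ((m : ℤ) - L) _, cF D.k (1 / m) ((m : ℤ) - L) _,
        cF D.b (1 / m) ((m : ℤ) - L) _⟩)
      (w1 := ⟨g1P D.a (1 / m) ((m : ℤ) - L) _, g1P D.k (1 / m) ((m : ℤ) - L) _,
        g1P D.b (1 / m) ((m : ℤ) - L) _⟩)
      (w2 := ⟨g2P D.a (1 / m) ((m : ℤ) - L) _, g2P D.k (1 / m) ((m : ℤ) - L) _,
        g2P D.b (1 / m) ((m : ℤ) - L) _⟩)
      (w3 := ⟨0, 0, 0⟩)
      ⟨mem_vF hx a1, mem_vF hx k1, mem_vF hx b1'⟩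
      ⟨mem_wP1 hx a1, mem_wP1 hx k1, mem_wP1 hx b1'⟩
      ⟨mem_wP2 hx a1, mem_wP2 hx k1, mem_wP2 hx b1'⟩
      ⟨memS_zero, memS_zero, memS_zero⟩ hx1 hx2 (x3 := 0) ⟨le_rfl, by norm_num⟩
      (F := ⟨fD D.a m ta den (k + 2) B, fD D.k m tk den (k + 2) B, fD D.b m tb den (k + 2) B⟩) ra rk rb

end Pool.NW
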