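import Pool.Agent.Work.MP_46fa68_23.Mo3
import Pool.Agent.Work.MP_46fa68_35.Top2

/-!
# The two top beads in terms of the moments

`row_lin`: a one-bead sum with multipliers near `1 + d A + d (d-1) B`.
`HIx_row1`, `HIx_row2`: helper47's `HIx` at the two top beads as such sums.
-/

set_option autoImplicit false

open Finset

namespace Pool.NW

open Pool.NV Pool.OB Pool.JM

theorem w2_cast (d : ℕ) : ((w2 d : ℕ) : ℝ) = (d : ℝ) * (d - 1) := by
  unfold w2
  rcases d with _ | d
  · simp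
  · push_cast [Nat.succ_sub_one]
    ring

theorem w3_cast (d : ℕ) : ((w3 d : ℕ) : ℝ) = (d : ℝ) * (d - 1) * (d - 2) := by
  unfold w3
  rcases d with _ | _ | d
  · simp
  · simp
  · have e1 : d + 1 + 1 - 1 = d + 1 := rfl
    have e2 : d + 1 + 1 - 2 = d := rfl
    rw [e1, e2]
    push_cast
    ring

/-- the one-bead sum with multipliers `g` -/
noncomputable def rowG (cf : Cf) (u : ℤ) (x : ℝ) (j : ℤ) (g : ℕ → ℝ) : ℝ :=
  ∑' d, Pd u x j d * kap cf u x j d * g d

/-- **Linearisation of a row.** -/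
theorem row_lin {cf : Cf} {u : ℤ} {x : ℝ} {j : ℤ} (h : Rng u x j) (hu : u ≤ 29) {β : ℝ} (hb : 0 ≤ β)
    (hb2 : β ≤ 5 / 4) {A Bq c1 c2 c3 : ℝ} {g : ℕ → ℝ}
    (hg : ∀ d : ℕ, |g d - (1 + d * A + d * (d - 1) * Bq)| ≤ (c1 * w1 d + c2 * w2 d + c3 * w3 d) * β ^ d) :
    |rowG cf u x j g - (mW cf u x j w0 + A * mW cf u x j w1 + Bq * mW cf u x j w2)| ≤
      c1 * mB cf u x j β w1 + c2 * mB cf u x j β w2 + c3 * mB cf u x j β w3 := by
  have s0 := summable_trW (cf := cf) h hu Wt_w0
  have s1 := summable_trW (cf := cf) h hu Wt_w1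
  have s2 := summable_trW (cf := cf) h hu Wt_w2
  have t1 := summable_trB (cf := cf) h hu hb hb2 Wt_w1
  have t2 := summable_trB (cf := cf) h hu hb hb2 Wt_w2
  have t3 := summable_trB (cf := cf) h hu hb hb2 Wt_w3
  have hdiff : ∀ d, |Pd u x j d * kap cf u x j d * (g d - (1 + d * A + d * (d - 1) * Bq))| ≤
      c1 * trB cf u x j β w1 d + c2 * trB cf u x j β w2 d + c3 * trB cf u x j β w3 d := by
    intro d
    unfold trB
    rw [abs_mul, abs_mul, abs_of_nonneg (Pd_nonneg h d)]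
    calc Pd u x j d * |kap cf u x j d| * |g d - (1 + d * A + d * (d - 1) * Bq)|
        ≤ Pd u x j d * |kap cf u x j d| * ((c1 * w1 d + c2 * w2 d + c3 * w3 d) * β ^ d) :=
          mul_le_mul_of_nonneg_left (hg d) (mul_nonneg (Pd_nonneg h d) (abs_nonneg _))
      _ = _ := by ring
  have sR : Summable fun d => c1 * trB cf u x j β w1 d + c2 * trB cf u x j β w2 d +
      c3 * trB cf u x j β w3 d := ((t1.mul_left c1).add (t2.mul_left c2)).add (t3.mul_left c3)
  have sd : Summable fun d => Pd u x j d * kap cf u x j d * (g d - (1 + d * A + d * (d - 1) * Bq)) :=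
    Summable.of_norm_bounded sR fun d => by
      rw [Real.norm_eq_abs]
      exact hdiff d
  have hlin : ∀ d, Pd u x j d * kap cf u x j d * g d =
      (trW cf u x j w0 d + A * trW cf u x j w1 d + Bq * trW cf u x j w2 d) +
        Pd u x j d * kap cf u x j d * (g d - (1 + d * A + d * (d - 1) * Bq)) := by
    intro d
    unfold trW
    rw [w2_cast]
    unfold w0 w1
    push_cast
    ring
  have sl : Summable fun d => trW cf u x j w0 d + A * trW cf u x j w1 d + Bq * trW cf u x j w2 d :=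
    (s0.add (s1.mul_left A)).add (s2.mul_left Bq)
  have e : rowG cf u x j g = (mW cf u x j w0 + A * mW cf u x j w1 + Bq * mW cf u x j w2) +
      ∑' d, Pd u x j d * kap cf u x j d * (g d - (1 + d * A + d * (d - 1) * Bq)) := by
    unfold rowG mW
    rw [tsum_congr hlin, sl.tsum_add sd, (s0.add (s1.mul_left A)).tsum_add (s2.mul_left Bq),
      s0.tsum_add (s1.mul_left A), tsum_mul_left, tsum_mul_left]
  rw [e, add_sub_cancel_left]
  refine (norm_tsum_le_tsum_norm sd.norm).trans ?_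
  unfold mB
  rw [← tsum_mul_left, ← tsum_mul_left, ← tsum_mul_left, ← (t1.mul_left c1).tsum_add (t2.mul_left c2),
    ← ((t1.mul_left c1).add (t2.mul_left c2)).tsum_add (t3.mul_left c3)]
  exact Summable.tsum_le_tsum (fun d => hdiff d) sd.norm sR

/-! ### the beads -/

/-- **row one** -/
theorem HIx_row1 {cf : Cf} {m t den k L b s : ℕ} {u : ℤ} {B : Finset ℕ} (hm : 0 < m) (ht : (t : ℤ) + u = m)
    (ht1 : 1 ≤ t) (hden : 0 < den) (h : Two k L b s B) :
    HIx (k + 2) m t cf.v.length (vC cf m den) (tauC cf m den) B (k + 1 + L) * den =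
      rowG cf u (1 / m) ((m : ℤ) - L) (gs B k L b) := by
  unfold HIx rowG
  rw [← tsum_mul_right]
  refine tsum_congr fun d => ?_
  have ej : (((k + 2 - 1 + m : ℕ) : ℤ) - ((k + 1 + L : ℕ) : ℤ)) = (m : ℤ) - L := by
    have : k + 2 - 1 = k + 1 := rfl
    rw [this]
    push_cast
    ring
  rw [ej, Rr_gs h]
  have h1 := kl_eq (cf := cf) (den := den) (M' := L + 1) (j := (m : ℤ) - L) hm ht ht1 hden
    (by push_cast; ring) (by omega) d
  rw [← h1]
  ring

/-- the normalized sequence of the second bead -/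
noncomputable def hs (B : Finset ℕ) (k L b q : ℕ) : ℝ :=
  (1 - (q : ℝ) / ((L : ℝ) + 1 - b)) * Th2 B k L b q

/-- **row two** -/
theorem HIx_row2 {cf : Cf} {m t den k L b s : ℕ} {u : ℤ} {B : Finset ℕ} (hm : 0 < m) (ht : (t : ℤ) + u = m)
    (ht1 : 1 ≤ t) (hden : 0 < den) (hb : 1 ≤ b) (h : Two k L b s B) :
    HIx (k + 2) m t cf.v.length (vC cf m den) (tauC cf m den) B (k + b) * den =
      rowG cf u (1 / m) ((m : ℤ) + 1 - b) (hs B k L b) := by
  unfold HIx rowG
  rw [← tsum_mul_right]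
  refine tsum_congr fun d => ?_
  have ej : (((k + 2 - 1 + m : ℕ) : ℤ) - ((k + b : ℕ) : ℤ)) = (m : ℤ) + 1 - b := by
    have : k + 2 - 1 = k + 1 := rfl
    rw [this]
    push_cast
    ring
  rw [ej, h.row2]
  have h1 := kl_eq (cf := cf) (den := den) (M' := b) (j := (m : ℤ) + 1 - b) hm ht ht1 hden
    (by ring) hb d
  rw [← h1]
  unfold hs
  ring

end Pool.NW
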