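import Pool.Agent.Work.MP_46fa68_23.Mo8c
import Pool.Agent.Work.MP_46fa68_38.Far10

/-!
# The budgets of the engine from helper38's numbers, and the constant functions
-/

set_option autoImplicit false

open Finset

namespace Pool.NW

open Pool.NV Pool.OB Pool.JM Pool.JM.FR

/-- rows `≥ 3`, cap `Lc` -/
def oLow (F : FD) (μ nC : ℕ) (X : NI) (Lc v : ℕ) : Bool :=
  okBL F.u μ Lc nC (F.cf.v.length + 2) && Nat.ble (budLow F.u μ F.cf X Lc nC) v

/-- far row -/
def oFar (F : FD) (μ c : ℕ) (X : NI) (J v : ℕ) : Bool :=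
  okBF F.u μ c J (F.cf.v.length + 2) && Nat.ble (budF F.u μ c F.cf X J) v

/-- first entry empty if `u = 1` -/
def oZ (F : FD) : Bool :=
  match F.cf.v with
  | ([], []) :: _ => true
  | _ => decide (F.u ≠ 1)

/-- all the numbers of `D` for the function `F` at the base `μ` -/
def okBud (D : Dat) (F : FD) (sel : N3 → ℕ) (μ nC : ℕ) (X : NI) : Bool :=
  (decide (F.u = -1 ∨ F.u = 0 ∨ F.u = 1) && (Nat.ble 17 μ && (oZ F && Nat.ble (D.o + 2) D.n1))) &&
  ((oLow F μ nC X (2 * μ / 3) (sel D.low) &&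
    (List.range D.lows.length).all fun s => oLow F μ nC X (max 3 s) (sel (D.lows.getD s D.low))) &&
  (((List.range D.n1).all fun i1 => Nat.ble (D.o + 1) (D.J2.getD i1 0) &&
      oFar F μ 1 X (((D.J2.getD i1 0 - D.o : ℕ) : ℤ) + F.u).toNat (sel (D.far.getD i1 z3))) &&
    (oFar F μ 1 X (((D.o + 1 : ℕ) : ℤ) + F.u).toNat (sel D.farn) &&
      (okBF F.u μ 0 (((D.n1 - 1 - D.o : ℕ) : ℤ) + F.u).toNat (F.cf.v.length + 2) &&
        (okBF F.u μ 1 (((D.n1 - D.o : ℕ) : ℤ) + F.u).toNat (F.cf.v.length + 2) &&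
          Nat.ble (budF F.u μ 0 F.cf X (((D.n1 - 1 - D.o : ℕ) : ℤ) + F.u).toNat +
            budF F.u μ 1 F.cf X (((D.n1 - D.o : ℕ) : ℤ) + F.u).toNat) (sel D.deep))))))

theorem oZ_spec {F : FD} (h : oZ F = true) (hu : F.u = 1) :
    F.cf.v.getD 0 ([], []) = ([], []) ∧ 1 ≤ F.cf.v.length := by
  unfold oZ at h
  split at h
  · rename_i l hl
    rw [hl]
    simp
  · rw [decide_eq_true_eq] at h
    exact absurd hu h

/-- **the budgets** -/
theorem bud_of {D : Dat} {F : FD} {sel : N3 → ℕ} {μ nC : ℕ} {X : NI} (hok : okBud D F sel μ nC X = true)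
    {den d t : ℕ} (hden : 0 < den) (ht : (t : ℤ) + F.u = ((μ + d : ℕ) : ℤ))
    (hX : Mem (1 / ((μ + d : ℕ) : ℝ)) X) : Bud D F sel (μ + d) t den := by
  unfold okBud at hok
  simp only [Bool.and_eq_true] at hok
  obtain ⟨⟨hu, h17, hZ, hn⟩, ⟨hlow, hlows⟩, hfar, hfarn, hd0, hd1, hd2⟩ := hok
  rw [decide_eq_true_eq] at hu
  rw [Nat.ble_eq] at h17 hn hd2
  have hA : Adm F.u F.cf μ d t := ⟨hu, h17, ht, fun h1 => (oZ_spec hZ h1).1⟩
  have hlen : F.u = 1 → 1 ≤ F.cf.v.length := fun h1 => (oZ_spec hZ h1).2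
  have hS := S_posR
  have hden0 : (0 : ℝ) ≤ den := Nat.cast_nonneg den
  have eL : ∀ (K : ℕ) (B : Finset ℕ) (x : ℕ), |lD F (μ + d) t den K B x| =
      |HL K (μ + d) t F.cf.v.length (vC F.cf (μ + d) den) (tauC F.cf (μ + d) den) B x| * den := by
    intro K B x
    unfold lD
    rw [abs_mul, abs_of_nonneg hden0]
  have eX : ∀ (K : ℕ) (B : Finset ℕ) (x : ℕ), |xD F (μ + d) t den K B x| =
      |HIx K (μ + d) t F.cf.v.length (vC F.cf (μ + d) den) (tauC F.cf (μ + d) den) B x| * den := by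
    intro K B x
    unfold xD
    rw [abs_mul, abs_of_nonneg hden0]
  have lowB : ∀ (Lc v : ℕ), oLow F μ nC X Lc v = true → ∀ (k L b s : ℕ) (B : Finset ℕ), Two k L b s B →
      L + b + s = 2 * (μ + d) → (s ≤ Lc + d ∨ (2 * μ) / 3 ≤ Lc) →
      |lD F (μ + d) t den (k + 2) B (k + b)| * (S : ℕ) ≤ (v : ℝ) := by
    intro Lc v h k L b s B hT hN hs
    unfold oLow at h
    rw [Bool.and_eq_true, Nat.ble_eq] at h
    rw [eL]
    refine (bud_low hA hden hX hlen h.1 hT hN hs).trans ?_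
    exact_mod_cast h.2
  have farB : ∀ (J v : ℕ), 1 ≤ J → oFar F μ 1 X (((J : ℕ) : ℤ) + F.u).toNat v = true →
      ∀ (k L b s : ℕ) (B : Finset ℕ), Two k L b s B → L + b + s = 2 * (μ + d) → b + J ≤ μ + d →
      |xD F (μ + d) t den (k + 2) B (k + b)| * (S : ℕ) ≤ (v : ℝ) := by
    intro J v hJ1 h k L b s B hT hN hJ
    unfold oFar at h
    rw [Bool.and_eq_true, Nat.ble_eq] at h
    rw [eX]
    refine (bud_far2 hA hden hX hlen hT hN (J := J) (by omega) h.1 hJ).trans ?_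
    exact_mod_cast h.2
  refine ⟨ht, by omega, ?_, ?_, ?_, ?_, ?_⟩
  · intro k L b s B hT hN
    exact lowB _ _ hlow k L b s B hT hN (Or.inr le_rfl)
  · intro k L b s B hT hN
    rcases Nat.lt_or_ge s D.lows.length with hs | hs
    · exact lowB _ _ (all_range hlows hs) k L b s B hT hN
        (Or.inl ((le_max_right 3 s).trans (Nat.le_add_right _ _)))
    · rw [List.getD_eq_default _ _ hs]
      exact lowB _ _ hlow k L b s B hT hN (Or.inr le_rfl)
  · intro k L b s B i1 hT hN hi1 hi1n hJ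
    have h := all_range hfar hi1n
    rw [Bool.and_eq_true, Nat.ble_eq] at h
    exact farB _ _ (by omega) h.2 k L b s B hT hN (by omega)
  · intro k L b s B hT hN hneg
    exact farB _ _ (by omega) hfarn k L b s B hT hN (by omega)
  · intro k L b s B hT hN hge
    have hbL := hT.hbL
    rw [eX, eX]
    have e1 := bud_far1 (J := D.n1 - 1 - D.o) hA hden hX hlen hT hN (by omega) hd0 (by omega)
    have e2 := bud_far2 (J := D.n1 - D.o) hA hden hX hlen hT hN (by omega) hd1 (by omega)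
    have e3 : ((budF F.u μ 0 F.cf X (((D.n1 - 1 - D.o : ℕ) : ℤ) + F.u).toNat +
            budF F.u μ 1 F.cf X (((D.n1 - D.o : ℕ) : ℤ) + F.u).toNat : ℕ) : ℝ) ≤ (sel D.deep : ℝ) := by
      exact_mod_cast hd2
    push_cast at e3
    linarith

/-! ### constants -/

theorem HI_nil (K m t den : ℕ) (B : Finset ℕ) :
    HI K m t 0 (vC ⟨[], []⟩ m den) (tauC ⟨[], []⟩ m den) B = 0 := by
  have e1 : tauC ⟨[], []⟩ m den = 0 := by simp [tauC, pev]
  have e2 : vC ⟨[], []⟩ m den = fun _ _ => 0 := by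
    funext q p
    unfold vC
    simp [pev]
  rw [e1, e2]
  unfold HI HIx kl
  simp

/-- a constant function -/
def cst (l : List ℤ) : FD := ⟨⟨[], []⟩, 0, l⟩

theorem fD_cst (l : List ℤ) (m t den K : ℕ) (B : Finset ℕ) :
    fD (cst l) m t den K B = pev l (1 / m) := by
  unfold fD cst
  change _ + HI K m t 0 (vC ⟨[], []⟩ m den) (tauC ⟨[], []⟩ m den) B * den = _
  rw [HI_nil]
  ring

end Pool.NW
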