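import Mathlib

/-!
# Interval arithmetic in the kernel (fixed point, outward rounding)

An interval is a pair of integers `lo`, `hi`; it stands for the reals `x` with `lo ≤ x * 2 ^ 40 ≤ hi`.
All the operations are computable with `Int` operations only (the kernel evaluates them with `decide`),
all of them are proved sound.
-/

set_option autoImplicit false

namespace Pool.IV

/-- the scale `2 ^ 40` -/
def sc : ℤ := 1099511627776

theorem sc_pos : (0 : ℤ) < sc := by decide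

theorem sc_posR : (0 : ℝ) < (sc : ℤ) := by exact_mod_cast sc_pos

structure Ivl where
  lo : ℤ
  hi : ℤ
deriving DecidableEq

/-- the real `x` lies in the interval -/
def Mem (x : ℝ) (I : Ivl) : Prop := ((I.lo : ℤ) : ℝ) ≤ x * (sc : ℤ) ∧ x * (sc : ℤ) ≤ ((I.hi : ℤ) : ℝ)

/-- floor of `a / sc` -/
def fl (a : ℤ) : ℤ := a / sc

/-- ceiling of `a / sc` -/
def ce (a : ℤ) : ℤ := -(-a / sc)

theorem fl_le (a : ℤ) : ((fl a : ℤ) : ℝ) * (sc : ℤ) ≤ a := by
  have h := Int.ediv_mul_le a (by decide : sc ≠ 0)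
  unfold fl
  exact_mod_cast h

theorem le_ce (a : ℤ) : (a : ℝ) ≤ ((ce a : ℤ) : ℝ) * (sc : ℤ) := by
  have h := Int.ediv_mul_le (-a) (by decide : sc ≠ 0)
  have h' : a ≤ ce a * sc := by
    unfold ce
    nlinarith
  exact_mod_cast h'

/-- general floor and ceiling division by a positive integer -/
def fd (a b : ℤ) : ℤ := a / b

def cd (a b : ℤ) : ℤ := -(-a / b)

theorem fd_le {a b : ℤ} (hb : 0 < b) : ((fd a b : ℤ) : ℝ) * b ≤ a := by
  have h := Int.ediv_mul_le a hb.ne'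
  unfold fd
  exact_mod_cast h

theorem le_cd {a b : ℤ} (hb : 0 < b) : (a : ℝ) ≤ ((cd a b : ℤ) : ℝ) * b := by
  have h := Int.ediv_mul_le (-a) hb.ne'
  have h' : a ≤ cd a b * b := by
    unfold cd
    nlinarith
  exact_mod_cast h'

/-! ### constants -/

/-- the rational `p / q` -/
def cst (p : ℤ) (q : ℤ) : Ivl := ⟨fd (p * sc) q, cd (p * sc) q⟩

theorem mem_cst {p q : ℤ} (hq : 0 < q) : Mem ((p : ℝ) / q) (cst p q) := by
  have hq' : (0 : ℝ) < q := by exact_mod_cast hq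
  have h1 := fd_le (a := p * sc) hq
  have h2 := le_cd (a := p * sc) hq
  push_cast at h1 h2
  constructor
  · rw [div_mul_eq_mul_div, le_div_iff₀ hq']
    exact h1
  · rw [div_mul_eq_mul_div, div_le_iff₀ hq']
    exact h2

/-- an integer -/
def ofI (p : ℤ) : Ivl := ⟨p * sc, p * sc⟩

theorem mem_ofI (p : ℤ) : Mem (p : ℝ) (ofI p) := by
  constructor <;> simp [ofI]

/-! ### ring operations -/

def add (A B : Ivl) : Ivl := ⟨A.lo + B.lo, A.hi + B.hi⟩

theorem mem_add {x y : ℝ} {A B : Ivl} (hx : Mem x A) (hy : Mem y B) : Mem (x + y) (add A B) := by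
  obtain ⟨h1, h2⟩ := hx
  obtain ⟨h3, h4⟩ := hy
  constructor
  · change (((A.lo + B.lo : ℤ)) : ℝ) ≤ _
    rw [add_mul]; push_cast at *; linarith
  · change _ ≤ (((A.hi + B.hi : ℤ)) : ℝ)
    rw [add_mul]; push_cast at *; linarith

def neg (A : Ivl) : Ivl := ⟨-A.hi, -A.lo⟩

theorem mem_neg {x : ℝ} {A : Ivl} (hx : Mem x A) : Mem (-x) (neg A) := by
  obtain ⟨h1, h2⟩ := hx
  constructor
  · change (((-A.hi : ℤ)) : ℝ) ≤ _
    rw [neg_mul]; push_cast at *; linarith
  · change _ ≤ (((-A.lo : ℤ)) : ℝ)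
    rw [neg_mul]; push_cast at *; linarith

def sub (A B : Ivl) : Ivl := ⟨A.lo - B.hi, A.hi - B.lo⟩

theorem mem_sub {x y : ℝ} {A B : Ivl} (hx : Mem x A) (hy : Mem y B) : Mem (x - y) (sub A B) := by
  obtain ⟨h1, h2⟩ := hx
  obtain ⟨h3, h4⟩ := hy
  constructor
  · change (((A.lo - B.hi : ℤ)) : ℝ) ≤ _
    rw [sub_mul]; push_cast at *; linarith
  · change _ ≤ (((A.hi - B.lo : ℤ)) : ℝ)
    rw [sub_mul]; push_cast at *; linarith

/-- multiplication by an integer constant -/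
def smul (k : ℤ) (A : Ivl) : Ivl := if 0 ≤ k then ⟨k * A.lo, k * A.hi⟩ else ⟨k * A.hi, k * A.lo⟩

theorem mem_smul {x : ℝ} {A : Ivl} (k : ℤ) (hx : Mem x A) : Mem (k * x) (smul k A) := by
  obtain ⟨h1, h2⟩ := hx
  unfold smul
  split_ifs with hk
  · have hk' : (0 : ℝ) ≤ k := by exact_mod_cast hk
    constructor
    · change (((k * A.lo : ℤ)) : ℝ) ≤ _
      have := mul_le_mul_of_nonneg_left h1 hk'
      push_cast at *; linarith
    · change _ ≤ (((k * A.hi : ℤ)) : ℝ)
      have := mul_le_mul_of_nonneg_left h2 hk'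
      push_cast at *; linarith
  · have hk' : (k : ℝ) ≤ 0 := by exact_mod_cast (not_le.1 hk).le
    constructor
    · change (((k * A.hi : ℤ)) : ℝ) ≤ _
      have := mul_le_mul_of_nonpos_left h2 hk'
      push_cast at *; linarith
    · change _ ≤ (((k * A.lo : ℤ)) : ℝ)
      have := mul_le_mul_of_nonpos_left h1 hk'
      push_cast at *; linarith

/-- bilinear bounds -/
theorem mul_bound {x y a b c d : ℝ} (h1 : a ≤ x) (h2 : x ≤ b) (h3 : c ≤ y) (h4 : y ≤ d) :
    min (min (a * c) (a * d)) (min (b * c) (b * d)) ≤ x * y ∧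
      x * y ≤ max (max (a * c) (a * d)) (max (b * c) (b * d)) := by
  have e1 : min (a * c) (a * d) ≤ a * y := by
    rcases le_total 0 a with h | h
    · exact (min_le_left _ _).trans (mul_le_mul_of_nonneg_left h3 h)
    · exact (min_le_right _ _).trans (mul_le_mul_of_nonpos_left h4 h)
  have e2 : min (b * c) (b * d) ≤ b * y := by
    rcases le_total 0 b with h | h
    · exact (min_le_left _ _).trans (mul_le_mul_of_nonneg_left h3 h)
    · exact (min_le_right _ _).trans (mul_le_mul_of_nonpos_left h4 h)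
  have f1 : a * y ≤ max (a * c) (a * d) := by
    rcases le_total 0 a with h | h
    · exact (mul_le_mul_of_nonneg_left h4 h).trans (le_max_right _ _)
    · exact (mul_le_mul_of_nonpos_left h3 h).trans (le_max_left _ _)
  have f2 : b * y ≤ max (b * c) (b * d) := by
    rcases le_total 0 b with h | h
    · exact (mul_le_mul_of_nonneg_left h4 h).trans (le_max_right _ _)
    · exact (mul_le_mul_of_nonpos_left h3 h).trans (le_max_left _ _)
  constructor
  · rcases le_total 0 y with h | h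
    · exact (min_le_left _ _).trans (e1.trans (mul_le_mul_of_nonneg_right h1 h))
    · exact (min_le_right _ _).trans (e2.trans (mul_le_mul_of_nonpos_right h2 h))
  · rcases le_total 0 y with h | h
    · exact (mul_le_mul_of_nonneg_right h2 h).trans (f2.trans (le_max_right _ _))
    · exact (mul_le_mul_of_nonpos_right h1 h).trans (f1.trans (le_max_left _ _))

def mul (A B : Ivl) : Ivl :=
  ⟨fl (min (min (A.lo * B.lo) (A.lo * B.hi)) (min (A.hi * B.lo) (A.hi * B.hi))),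
    ce (max (max (A.lo * B.lo) (A.lo * B.hi)) (max (A.hi * B.lo) (A.hi * B.hi)))⟩

theorem mem_mul {x y : ℝ} {A B : Ivl} (hx : Mem x A) (hy : Mem y B) : Mem (x * y) (mul A B) := by
  obtain ⟨h1, h2⟩ := mul_bound hx.1 hx.2 hy.1 hy.2
  have hs := sc_posR
  have e : x * (sc : ℤ) * (y * (sc : ℤ)) = x * y * (sc : ℤ) * (sc : ℤ) := by ring
  constructor
  · have h3 := fl_le (min (min (A.lo * B.lo) (A.lo * B.hi)) (min (A.hi * B.lo) (A.hi * B.hi)))
    have h4 := h3.trans (by push_cast; exact h1)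
    rw [e] at h4
    exact le_of_mul_le_mul_right h4 hs
  · have h3 := le_ce (max (max (A.lo * B.lo) (A.lo * B.hi)) (max (A.hi * B.lo) (A.hi * B.hi)))
    have h4 := h2.trans (by push_cast at h3; exact h3)
    rw [e] at h4
    exact le_of_mul_le_mul_right h4 hs

/-- multiplication of nonnegative intervals -/
def mulP (A B : Ivl) : Ivl := ⟨fl (A.lo * B.lo), ce (A.hi * B.hi)⟩

theorem mem_mulP {x y : ℝ} {A B : Ivl} (hA : 0 ≤ A.lo) (hB : 0 ≤ B.lo) (hx : Mem x A)
    (hy : Mem y B) : Mem (x * y) (mulP A B) := by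
  obtain ⟨h1, h2⟩ := hx
  obtain ⟨h3, h4⟩ := hy
  have hs := sc_posR
  have hA' : (0 : ℝ) ≤ A.lo := by exact_mod_cast hA
  have hB' : (0 : ℝ) ≤ B.lo := by exact_mod_cast hB
  have e : x * (sc : ℤ) * (y * (sc : ℤ)) = x * y * (sc : ℤ) * (sc : ℤ) := by ring
  constructor
  · have h5 := fl_le (A.lo * B.lo)
    have h6 : ((A.lo * B.lo : ℤ) : ℝ) ≤ x * y * (sc : ℤ) * (sc : ℤ) := by
      rw [← e]
      push_cast
      exact mul_le_mul h1 h3 hB' (hA'.trans h1)
    exact le_of_mul_le_mul_right (h5.trans h6) hs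
  · have h5 := le_ce (A.hi * B.hi)
    have h6 : x * y * (sc : ℤ) * (sc : ℤ) ≤ ((A.hi * B.hi : ℤ) : ℝ) := by
      rw [← e]
      push_cast
      exact mul_le_mul h2 h4 (hB'.trans h3) ((hA'.trans h1).trans h2)
    exact le_of_mul_le_mul_right (h6.trans h5) hs

/-! ### inverse and quotient -/

/-- inverse of a positive interval -/
def inv (A : Ivl) : Ivl := ⟨fd (sc * sc) A.hi, cd (sc * sc) A.lo⟩

theorem mem_inv {x : ℝ} {A : Ivl} (hA : 0 < A.lo) (hx : Mem x A) : Mem x⁻¹ (inv A) := by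
  obtain ⟨h1, h2⟩ := hx
  have hs := sc_posR
  have hA' : (0 : ℝ) < A.lo := by exact_mod_cast hA
  have hx0 : 0 < x := by
    by_contra h
    have : x * (sc : ℤ) ≤ 0 := mul_nonpos_of_nonpos_of_nonneg (not_lt.1 h) hs.le
    linarith
  have hhi : (0 : ℝ) < A.hi := lt_of_lt_of_le (by positivity) h2
  have hhi' : 0 < A.hi := by exact_mod_cast hhi
  constructor
  · change ((fd (sc * sc) A.hi : ℤ) : ℝ) ≤ _
    have h3 := fd_le (a := sc * sc) hhi'
    rw [inv_mul_eq_div, le_div_iff₀ hx0]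
    push_cast at h3
    by_cases hf : (0 : ℝ) ≤ ((fd (sc * sc) A.hi : ℤ) : ℝ)
    · have h4 := mul_le_mul_of_nonneg_left h2 hf
      have h5 : ((fd (sc * sc) A.hi : ℤ) : ℝ) * (x * (sc : ℤ)) ≤ (sc : ℤ) * (sc : ℤ) :=
        h4.trans h3
      have h6 : (((fd (sc * sc) A.hi : ℤ) : ℝ) * x) * (sc : ℤ) ≤ (sc : ℤ) * (sc : ℤ) := by
        linarith
      exact le_of_mul_le_mul_right h6 hs
    · have : ((fd (sc * sc) A.hi : ℤ) : ℝ) * x ≤ 0 :=
        mul_nonpos_of_nonpos_of_nonneg (not_le.1 hf).le hx0.le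
      linarith
  · change _ ≤ ((cd (sc * sc) A.lo : ℤ) : ℝ)
    have h3 := le_cd (a := sc * sc) hA
    push_cast at h3
    rw [inv_mul_eq_div, div_le_iff₀ hx0]
    have hc : (0 : ℝ) ≤ ((cd (sc * sc) A.lo : ℤ) : ℝ) := by
      by_contra h
      have : ((cd (sc * sc) A.lo : ℤ) : ℝ) * A.lo ≤ 0 :=
        mul_nonpos_of_nonpos_of_nonneg (not_le.1 h).le hA'.le
      have h5 : (0 : ℝ) < (sc : ℤ) * (sc : ℤ) := mul_pos hs hs
      linarith
    have h4 := mul_le_mul_of_nonneg_left h1 hc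
    have h5 : (((sc : ℤ) : ℝ)) * (sc : ℤ) ≤ (((cd (sc * sc) A.lo : ℤ) : ℝ) * x) * (sc : ℤ) := by
      linarith
    exact le_of_mul_le_mul_right h5 hs

def div (A B : Ivl) : Ivl := mul A (inv B)

theorem mem_div {x y : ℝ} {A B : Ivl} (hB : 0 < B.lo) (hx : Mem x A) (hy : Mem y B) :
    Mem (x / y) (div A B) := by
  rw [div_eq_mul_inv]
  exact mem_mul hx (mem_inv hB hy)

/-! ### squares, powers -/

def sqr (A : Ivl) : Ivl :=
  if 0 ≤ A.lo then ⟨fl (A.lo * A.lo), ce (A.hi * A.hi)⟩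
  else if A.hi ≤ 0 then ⟨fl (A.hi * A.hi), ce (A.lo * A.lo)⟩
  else ⟨0, ce (max (A.lo * A.lo) (A.hi * A.hi))⟩

theorem mem_sqr {x : ℝ} {A : Ivl} (hx : Mem x A) : Mem (x ^ 2) (sqr A) := by
  obtain ⟨h1, h2⟩ := hx
  have hs := sc_posR
  have e : (x * (sc : ℤ)) ^ 2 = x ^ 2 * (sc : ℤ) * (sc : ℤ) := by ring
  unfold sqr
  split_ifs with h3 h4
  · have h3' : (0 : ℝ) ≤ A.lo := by exact_mod_cast h3
    constructor
    · have h5 := fl_le (A.lo * A.lo)
      have h6 : ((A.lo * A.lo : ℤ) : ℝ) ≤ x ^ 2 * (sc : ℤ) * (sc : ℤ) := by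
        rw [← e]; push_cast at *; nlinarith
      exact le_of_mul_le_mul_right (h5.trans h6) hs
    · have h5 := le_ce (A.hi * A.hi)
      have h6 : x ^ 2 * (sc : ℤ) * (sc : ℤ) ≤ ((A.hi * A.hi : ℤ) : ℝ) := by
        rw [← e]; push_cast at *; nlinarith
      exact le_of_mul_le_mul_right (h6.trans h5) hs
  · have h4' : ((A.hi : ℤ) : ℝ) ≤ 0 := by exact_mod_cast h4
    constructor
    · have h5 := fl_le (A.hi * A.hi)
      have h6 : ((A.hi * A.hi : ℤ) : ℝ) ≤ x ^ 2 * (sc : ℤ) * (sc : ℤ) := by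
        rw [← e]; push_cast at *; nlinarith
      exact le_of_mul_le_mul_right (h5.trans h6) hs
    · have h5 := le_ce (A.lo * A.lo)
      have h6 : x ^ 2 * (sc : ℤ) * (sc : ℤ) ≤ ((A.lo * A.lo : ℤ) : ℝ) := by
        rw [← e]; push_cast at *; nlinarith
      exact le_of_mul_le_mul_right (h6.trans h5) hs
  · constructor
    · simp only [Int.cast_zero]
      positivity
    · have h5 := le_ce (max (A.lo * A.lo) (A.hi * A.hi))
      have h6 : x ^ 2 * (sc : ℤ) * (sc : ℤ) ≤ ((max (A.lo * A.lo) (A.hi * A.hi) : ℤ) : ℝ) := by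
        rw [← e]
        push_cast
        rcases le_total 0 (x * (sc : ℤ)) with h | h
        · exact le_max_of_le_right (by push_cast at *; nlinarith)
        · exact le_max_of_le_left (by push_cast at *; nlinarith)
      exact le_of_mul_le_mul_right (h6.trans h5) hs

def pow (A : Ivl) : ℕ → Ivl
  | 0 => ofI 1
  | n + 1 => mul (pow A n) A

theorem mem_pow {x : ℝ} {A : Ivl} (hx : Mem x A) : ∀ n : ℕ, Mem (x ^ n) (pow A n)
  | 0 => by rw [pow_zero]; exact_mod_cast mem_ofI 1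
  | n + 1 => by rw [pow_succ]; exact mem_mul (mem_pow hx n) hx

/-! ### finite sums and products -/

/-- sum of the intervals `f 0, …, f (n-1)` -/
def sumR (f : ℕ → Ivl) : ℕ → Ivl
  | 0 => ⟨0, 0⟩
  | n + 1 => add (sumR f n) (f n)

theorem mem_sumR {g : ℕ → ℝ} {f : ℕ → Ivl} :
    ∀ n : ℕ, (∀ i, i < n → Mem (g i) (f i)) → Mem (∑ i ∈ Finset.range n, g i) (sumR f n)
  | 0, _ => by constructor <;> simp [sumR]
  | n + 1, h => by
    rw [Finset.sum_range_succ]
    exact mem_add (mem_sumR n fun i hi => h i (by omega)) (h n (by omega))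

/-- product of the intervals `f 0, …, f (n-1)` -/
def prodR (f : ℕ → Ivl) : ℕ → Ivl
  | 0 => ofI 1
  | n + 1 => mul (prodR f n) (f n)

theorem mem_prodR {g : ℕ → ℝ} {f : ℕ → Ivl} :
    ∀ n : ℕ, (∀ i, i < n → Mem (g i) (f i)) → Mem (∏ i ∈ Finset.range n, g i) (prodR f n)
  | 0, _ => by
    rw [Finset.prod_range_zero]
    exact_mod_cast mem_ofI 1
  | n + 1, h => by
    rw [Finset.prod_range_succ]
    exact mem_mul (mem_prodR n fun i hi => h i (by omega)) (h n (by omega))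

/-- the accumulating loop for `∑_{p<n} (∏_{l<p} q l) * c p`: state `(product, sum)` -/
def loopR (q c : ℕ → Ivl) : ℕ → Ivl × Ivl
  | 0 => (ofI 1, ⟨0, 0⟩)
  | n + 1 =>
    let s := loopR q c n
    (mul s.1 (q n), add s.2 (mul s.1 (c n)))

theorem mem_loopR {a b : ℕ → ℝ} {q c : ℕ → Ivl} :
    ∀ n : ℕ, (∀ i, i < n → Mem (a i) (q i)) → (∀ i, i < n → Mem (b i) (c i)) →
      Mem (∏ i ∈ Finset.range n, a i) (loopR q c n).1 ∧
      Mem (∑ p ∈ Finset.range n, (∏ i ∈ Finset.range p, a i) * b p) (loopR q c n).2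
  | 0, _, _ => by
    refine ⟨?_, ?_⟩
    · rw [Finset.prod_range_zero]
      exact_mod_cast mem_ofI 1
    · constructor <;> simp [loopR]
  | n + 1, h1, h2 => by
    obtain ⟨h3, h4⟩ := mem_loopR n (fun i hi => h1 i (by omega)) (fun i hi => h2 i (by omega))
    refine ⟨?_, ?_⟩
    · rw [Finset.prod_range_succ]
      exact mem_mul h3 (h1 n (by omega))
    · rw [Finset.sum_range_succ]
      exact mem_add h4 (mem_mul h3 (h2 n (by omega)))

/-! ### hulls, comparison -/

/-- the hull of two intervals -/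
def hull (A B : Ivl) : Ivl := ⟨min A.lo B.lo, max A.hi B.hi⟩

theorem mem_hull_left {x : ℝ} {A B : Ivl} (h : Mem x A) : Mem x (hull A B) := by
  obtain ⟨h1, h2⟩ := h
  constructor
  · refine le_trans ?_ h1
    exact_mod_cast min_le_left _ _
  · refine h2.trans ?_
    exact_mod_cast le_max_left _ _

theorem mem_hull_right {x : ℝ} {A B : Ivl} (h : Mem x B) : Mem x (hull A B) := by
  obtain ⟨h1, h2⟩ := h
  constructor
  · refine le_trans ?_ h1
    exact_mod_cast min_le_right _ _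
  · refine h2.trans ?_
    exact_mod_cast le_max_right _ _

theorem mem_mono {x : ℝ} {A B : Ivl} (h : Mem x A) (h1 : B.lo ≤ A.lo) (h2 : A.hi ≤ B.hi) :
    Mem x B := by
  obtain ⟨h3, h4⟩ := h
  constructor
  · refine le_trans ?_ h3
    exact_mod_cast h1
  · refine h4.trans ?_
    exact_mod_cast h2

/-- the interval between two intervals -/
def span (A B : Ivl) : Ivl := ⟨A.lo, B.hi⟩

theorem mem_span {x y z : ℝ} {A B : Ivl} (hx : Mem x A) (hy : Mem y B) (h1 : x ≤ z) (h2 : z ≤ y) :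
    Mem z (span A B) := by
  have hs := sc_posR
  exact ⟨hx.1.trans (mul_le_mul_of_nonneg_right h1 hs.le),
    (mul_le_mul_of_nonneg_right h2 hs.le).trans hy.2⟩

theorem lt_of_mem {x y : ℝ} {A B : Ivl} (hx : Mem x A) (hy : Mem y B) (h : A.hi < B.lo) : x < y := by
  have hs := sc_posR
  have h' : ((A.hi : ℤ) : ℝ) < B.lo := by exact_mod_cast h
  have := lt_of_le_of_lt hx.2 (lt_of_lt_of_le h' hy.1)
  exact lt_of_mul_lt_mul_right this hs.le

theorem le_of_mem {x y : ℝ} {A B : Ivl} (hx : Mem x A) (hy : Mem y B) (h : A.hi ≤ B.lo) : x ≤ y := by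
  have hs := sc_posR
  have h' : ((A.hi : ℤ) : ℝ) ≤ B.lo := by exact_mod_cast h
  have := hx.2.trans (h'.trans hy.1)
  exact le_of_mul_le_mul_right this hs

theorem pos_of_mem {x : ℝ} {A : Ivl} (hx : Mem x A) (h : 0 < A.lo) : 0 < x := by
  have hs := sc_posR
  have h' : (0 : ℝ) < A.lo := by exact_mod_cast h
  by_contra hc
  have := mul_nonpos_of_nonpos_of_nonneg (not_lt.1 hc) hs.le
  linarith [hx.1]

theorem nonneg_of_mem {x : ℝ} {A : Ivl} (hx : Mem x A) (h : 0 ≤ A.lo) : 0 ≤ x := by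
  have hs := sc_posR
  have h' : (0 : ℝ) ≤ A.lo := by exact_mod_cast h
  by_contra hc
  have := mul_neg_of_neg_of_pos (not_le.1 hc) hs
  linarith [hx.1]

/-! ### subdivision -/

/-- the `i`-th cell of width `1 / k` -/
def cell (k : ℕ) (i : ℕ) : Ivl := span (cst i k) (cst (i + 1) k)

/-- a real of `[0, n / k]` lies in one of the first `n` cells of width `1 / k` -/
theorem exists_cell {k n : ℕ} (hk : 0 < k) (hn : 0 < n) {x : ℝ} (h0 : 0 ≤ x) (h1 : x ≤ n / k) :
    ∃ i, i < n ∧ (i : ℝ) / k ≤ x ∧ x ≤ ((i : ℝ) + 1) / k ∧ Mem x (cell k i) := by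
  have hk' : (0 : ℝ) < k := by exact_mod_cast hk
  have hkz : (0 : ℤ) < k := by exact_mod_cast hk
  have key : ∃ i : ℕ, i < n ∧ (i : ℝ) ≤ x * k ∧ x * k ≤ i + 1 := by
    by_cases hx : x * k < n
    · refine ⟨⌊x * k⌋₊, ?_, Nat.floor_le (by positivity), (Nat.lt_floor_add_one _).le⟩
      rw [Nat.floor_lt (by positivity)]
      exact hx
    · refine ⟨n - 1, by omega, ?_, ?_⟩
      · rw [Nat.cast_sub hn]
        push_cast
        linarith [not_lt.1 hx]
      · rw [Nat.cast_sub hn]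
        push_cast
        have := (le_div_iff₀ hk').1 h1
        linarith
  obtain ⟨i, hi, h2, h3⟩ := key
  have h4 : (i : ℝ) / k ≤ x := by rw [div_le_iff₀ hk']; exact h2
  have h5 : x ≤ ((i : ℝ) + 1) / k := by rw [le_div_iff₀ hk']; exact h3
  refine ⟨i, hi, h4, h5, ?_⟩
  have c1 := mem_cst (p := (i : ℤ)) hkz
  have c2 := mem_cst (p := (i : ℤ) + 1) hkz
  push_cast at c1 c2
  exact mem_span c1 c2 h4 h5

end Pool.IV
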