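import Pool.Agent.Work.MP_46fa68_23.Mom4

/-!
# Moments of the one-bead weights, number of lifts `t = m - u`, one pass for all the moments of a layer

As in `Mom`, but `t + u = m` with `u ≥ 0` (`u = 0`, i.e. `t = m`, is allowed), general weights `w d ≤ d ^ 3`:
`P_d = ∏_{i<d} (t+i) / ((i+1) (m+2-j+i))`, `mW cf u x j w = ∑'_d P_d kap_d w_d`,
`mB cf u x j b w = ∑'_d P_d b^d |kap_d| w_d`.
-/

set_option autoImplicit false

open Finset

namespace Pool.NW

open Pool.NV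

/-! ### signed quantities -/

/-- opposite -/
def negS (X : PN) : PN := ⟨X.n, X.p⟩

theorem memS_neg {x : ℝ} {X : PN} (hx : MemS x X) : MemS (-x) (negS X) := by
  obtain ⟨a, b, h1, h2, rfl⟩ := hx
  exact ⟨b, a, h2, h1, by ring⟩

/-- normal form: positive and negative part -/
def nrm (X : PN) : PN :=
  ⟨⟨X.p.lo - X.n.hi, X.p.hi - X.n.lo⟩, ⟨X.n.lo - X.p.hi, X.n.hi - X.p.lo⟩⟩

theorem memS_nrm {x : ℝ} {X : PN} (hx : MemS x X) : MemS x (nrm X) := by
  obtain ⟨a, b, h1, h2, rfl⟩ := hx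
  have key : ∀ {u v : ℝ} {U V : NI}, Mem u U → Mem v V →
      Mem (max (u - v) 0) ⟨U.lo - V.hi, U.hi - V.lo⟩ := by
    intro u v U V hu hv
    have hs := S_posR
    have c1 := hu.1
    have c2 := hu.2
    have c3 := hv.1
    have c4 := hv.2
    constructor
    · change (((U.lo - V.hi : ℕ)) : ℝ) ≤ _
      rcases le_total V.hi U.lo with h | h
      · rw [Nat.cast_sub h]
        have : (u - v) * (S : ℕ) ≤ max (u - v) 0 * (S : ℕ) :=
          mul_le_mul_of_nonneg_right (le_max_left _ _) hs.le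
        linarith
      · rw [Nat.sub_eq_zero_of_le h, Nat.cast_zero]
        exact mul_nonneg (le_max_right _ _) hs.le
    · change _ ≤ (((U.hi - V.lo : ℕ)) : ℝ)
      have h3 := cast_tsub_ge U.hi V.lo
      have h4 : (0 : ℝ) ≤ (((U.hi - V.lo : ℕ)) : ℝ) := Nat.cast_nonneg _
      rcases le_total 0 (u - v) with h | h
      · rw [max_eq_left h]
        linarith
      · rw [max_eq_right h, zero_mul]
        exact h4
  refine ⟨max (a - b) 0, max (b - a) 0, key h1 h2, key h2 h1, ?_⟩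
  rcases le_total 0 (a - b) with h | h
  · rw [max_eq_left h, max_eq_right (by linarith : b - a ≤ 0)]
    ring
  · rw [max_eq_right h, max_eq_left (by linarith : 0 ≤ b - a)]
    ring

/-- lower bound (0 if not positive), units -/
def loS (X : PN) : ℕ := X.p.lo - X.n.hi

theorem loS_le {x : ℝ} {X : PN} (hx : MemS x X) (h : 0 < loS X) : ((loS X : ℕ) : ℝ) ≤ x * (S : ℕ) := by
  obtain ⟨a, b, h1, h2, rfl⟩ := hx
  unfold loS at h ⊢
  rw [Nat.cast_sub (by omega)]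
  have := h1.1
  have := h2.2
  linarith

/-- upper bound of the absolute value, units -/
def abS (X : PN) : ℕ := max (X.p.hi - X.n.lo) (X.n.hi - X.p.lo)

theorem le_abS {x : ℝ} {X : PN} (hx : MemS x X) : |x| * (S : ℕ) ≤ ((abS X : ℕ) : ℝ) := by
  obtain ⟨a, b, h1, h2, rfl⟩ := hx
  unfold abS
  have c1 := h1.1
  have c2 := h1.2
  have c3 := h2.1
  have c4 := h2.2
  have d1 := cast_tsub_ge X.p.hi X.n.lo
  have d2 := cast_tsub_ge X.n.hi X.p.lo
  rw [Nat.cast_max]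
  rcases le_total 0 (a - b) with h | h
  · rw [abs_of_nonneg h]
    refine le_trans ?_ (le_max_left _ _)
    linarith
  · rw [abs_of_nonpos h]
    refine le_trans ?_ (le_max_right _ _)
    linarith

/-! ### the weights -/

/-- the factor `d / (1 + (d - 1 - u) rho)` of the sources with displacement one -/
noncomputable def fac (u : ℤ) (x : ℝ) (d : ℕ) : ℝ := d / (1 + (((d : ℤ) - 1 - u : ℤ) : ℝ) * x)

/-- contribution of the sources `q, q+1, ..` at the layer with `i = q - 1 + j` -/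
noncomputable def kapv (u : ℤ) (x : ℝ) (d : ℕ) : List (List ℤ × List ℤ) → ℤ → ℝ
  | [], _ => 0
  | c :: l, i => bin i d * pev c.1 x + bin i (d - 1) * (fac u x d * pev c.2 x) + kapv u x d l (i + 1)

/-- `kap_d` at the layer `j` -/
noncomputable def kap (cf : Cf) (u : ℤ) (x : ℝ) (j : ℤ) (d : ℕ) : ℝ :=
  kapv u x d cf.v (j - 1) + tlw (j - 1 + cf.v.length) d * pev cf.tau x

def facI (u : ℤ) (X : NI) (d : ℕ) : NI := div (nat d) (lin ((d : ℤ) - 1 - u) X)

def kapvI (F : NI) (d : ℕ) : List (PN × PN) → ℤ → PN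
  | [], _ => zeroS
  | c :: l, i => addS (addS (zmulS (bin i d) c.1) (zmulS (bin i (d - 1)) (mulS F c.2)))
      (kapvI F d l (i + 1))

def kapI (C : CI) (u : ℤ) (X : NI) (j : ℤ) (d : ℕ) : PN :=
  addS (kapvI (facI u X d) d C.v (j - 1)) (zmulS (tlw (j - 1 + C.len) d) C.tau)

/-- `rho` is small for the layer `j` -/
def SmallJ (u : ℤ) (X : NI) (j : ℤ) : Prop := (u + 1).toNat * X.hi < S ∧ (j - 2).toNat * X.hi < S

instance (u : ℤ) (X : NI) (j : ℤ) : Decidable (SmallJ u X j) := inferInstanceAs (Decidable (_ ∧ _))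

theorem mem_facI {u : ℤ} {x : ℝ} {X : NI} (hx : Mem x X) (hX : (u + 1).toNat * X.hi < S) (d : ℕ) :
    Mem (fac u x d) (facI u X d) := by
  unfold fac facI
  have hb : (-((d : ℤ) - 1 - u)).toNat ≤ (u + 1).toNat := by omega
  have h1 := mem_lin hx ((d : ℤ) - 1 - u) ((Nat.mul_le_mul_right _ hb).trans hX.le)
  refine mem_div ?_ (mem_nat d) h1
  rcases hcase : (d : ℤ) - 1 - u with c | c
  · change 0 < S + c * X.lo
    have := S_pos
    omega
  · change 0 < S - (c + 1) * X.hi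
    have h2 : c + 1 ≤ (u + 1).toNat := by
      have : (-((d : ℤ) - 1 - u)).toNat = c + 1 := by rw [hcase]; simp
      omega
    have h3 := (Nat.mul_le_mul_right X.hi h2)
    omega

theorem memS_kapvI {u : ℤ} {x : ℝ} {X : NI} (hx : Mem x X) (hX : (u + 1).toNat * X.hi < S) (d : ℕ) :
    ∀ (l : List (List ℤ × List ℤ)) (i : ℤ),
      MemS (kapv u x d l i) (kapvI (facI u X d) d (l.map fun c => (pevI c.1 X, pevI c.2 X)) i)
  | [], _ => memS_zero
  | c :: l, i => by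
    refine memS_add (memS_add (memS_zmul _ (memS_pev hx c.1)) (memS_zmul _ ?_)) (memS_kapvI hx hX d l (i + 1))
    exact memS_mul (mem_facI hx hX d) (memS_pev hx c.2)

theorem memS_kapI {cf : Cf} {u : ℤ} {x : ℝ} {X : NI} (hx : Mem x X) (hX : (u + 1).toNat * X.hi < S) (j : ℤ) (d : ℕ) :
    MemS (kap cf u x j d) (kapI (evC cf X) u X j d) :=
  memS_add (memS_kapvI hx hX d cf.v (j - 1)) (memS_zmul _ (memS_pev hx cf.tau))

/-! ### the steps -/

/-- `(t + i) / ((i + 1) (m + 2 - j + i))` in terms of `rho` -/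
noncomputable def stp (u : ℤ) (x : ℝ) (j : ℤ) (i : ℕ) : ℝ :=
  (1 + (((i : ℤ) - u : ℤ) : ℝ) * x) / ((i + 1 : ℕ) * (1 + (((i : ℤ) + 2 - j : ℤ) : ℝ) * x))

def stpI (u : ℤ) (X : NI) (j : ℤ) (i : ℕ) : NI :=
  div (lin ((i : ℤ) - u) X) (smul (i + 1) (lin ((i : ℤ) + 2 - j) X))

theorem mem_stpI {u : ℤ} {x : ℝ} {X : NI} {j : ℤ} (hx : Mem x X) (hX : SmallJ u X j) (i : ℕ) :
    Mem (stp u x j i) (stpI u X j i) := by
  obtain ⟨hX1, hX2⟩ := hX
  unfold stp stpI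
  have hb : (-((i : ℤ) - u)).toNat ≤ (u + 1).toNat := by omega
  have hb2 : (-((i : ℤ) + 2 - j)).toNat ≤ (j - 2).toNat := by omega
  have h1 := mem_lin hx ((i : ℤ) - u) ((Nat.mul_le_mul_right _ hb).trans hX1.le)
  have h2 := mem_lin hx ((i : ℤ) + 2 - j) ((Nat.mul_le_mul_right _ hb2).trans hX2.le)
  refine mem_div ?_ h1 (mem_smul (i + 1) h2)
  change 0 < (i + 1) * (lin ((i : ℤ) + 2 - j) X).lo
  refine Nat.mul_pos (Nat.succ_pos i) ?_
  rcases hcase : (i : ℤ) + 2 - j with c | c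
  · change 0 < S + c * X.lo
    have := S_pos
    omega
  · change 0 < S - (c + 1) * X.hi
    have h2 : c + 1 ≤ (j - 2).toNat := by
      have : (-((i : ℤ) + 2 - j)).toNat = c + 1 := by rw [hcase]; simp
      omega
    have h3 := (Nat.mul_le_mul_right X.hi h2)
    omega

/-- `P_d` -/
noncomputable def Pd (u : ℤ) (x : ℝ) (j : ℤ) (d : ℕ) : ℝ := ∏ i ∈ range d, stp u x j i

theorem Pd_succ (u : ℤ) (x : ℝ) (j : ℤ) (d : ℕ) : Pd u x j (d + 1) = Pd u x j d * stp u x j d :=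
  prod_range_succ _ _

/-! ### sizes -/

/-- `rho` and `j` are in the range of the tail estimate -/
def Rng (u : ℤ) (x : ℝ) (j : ℤ) : Prop :=
  0 ≤ x ∧ (u : ℝ) * x ≤ 1 ∧ ((j : ℝ) - 2) * x < 1 ∧ (2 * (j : ℝ) - 4 - u) * x ≤ 1

theorem stp_nonneg {u : ℤ} {x : ℝ} {j : ℤ} (h : Rng u x j) (i : ℕ) : 0 ≤ stp u x j i := by
  obtain ⟨hx, h1, h2, -⟩ := h
  unfold stp
  have hi : (0 : ℝ) ≤ (i : ℝ) * x := mul_nonneg (Nat.cast_nonneg _) hx
  refine div_nonneg ?_ (mul_nonneg (Nat.cast_nonneg _) ?_)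
  · push_cast
    nlinarith
  · push_cast
    nlinarith

theorem stp_le {u : ℤ} {x : ℝ} {j : ℤ} (h : Rng u x j) (i : ℕ) : stp u x j i ≤ 2 / (i + 1 : ℕ) := by
  obtain ⟨hx, -, h2, h3⟩ := h
  unfold stp
  have hi : (0 : ℝ) ≤ (i : ℝ) * x := mul_nonneg (Nat.cast_nonneg _) hx
  have hi1 : (0 : ℝ) < ((i + 1 : ℕ) : ℝ) := by positivity
  have hd : (0 : ℝ) < 1 + (((i : ℤ) + 2 - j : ℤ) : ℝ) * x := by
    push_cast
    nlinarith
  rw [div_le_div_iff₀ (mul_pos hi1 hd) hi1]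
  have : (1 + (((i : ℤ) - u : ℤ) : ℝ) * x) ≤ 2 * (1 + (((i : ℤ) + 2 - j : ℤ) : ℝ) * x) := by
    push_cast
    nlinarith
  nlinarith

theorem Pd_nonneg {u : ℤ} {x : ℝ} {j : ℤ} (h : Rng u x j) (d : ℕ) : 0 ≤ Pd u x j d :=
  prod_nonneg fun i _ => stp_nonneg h i

theorem Pd_le {u : ℤ} {x : ℝ} {j : ℤ} (h : Rng u x j) : ∀ d : ℕ, Pd u x j d ≤ 2 ^ d / d.factorial
  | 0 => by simp [Pd]
  | d + 1 => by
    have ih := Pd_le h d
    rw [Pd_succ]
    have hf : (0 : ℝ) < d.factorial := by exact_mod_cast d.factorial_pos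
    calc Pd u x j d * stp u x j d ≤ 2 ^ d / d.factorial * (2 / (d + 1 : ℕ)) :=
          mul_le_mul ih (stp_le h d) (stp_nonneg h d) (by positivity)
      _ = 2 ^ (d + 1) / (d + 1).factorial := by
          rw [Nat.factorial_succ, pow_succ]
          push_cast
          field_simp

theorem abs_kapv_le {u : ℤ} {x : ℝ} {d : ℕ} (hx : 0 ≤ x) (hd : u + 1 ≤ (d : ℤ)) (hd1 : 1 ≤ d) :
    ∀ (l : List (List ℤ × List ℤ)) (i : ℤ),
      |kapv u x d l i| ≤ (l.map fun c => |pev c.1 x| + |pev c.2 x|).sum * (d * 2 ^ d)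
  | [], i => by simp [kapv]
  | c :: l, i => by
    have ih := abs_kapv_le hx hd hd1 l (i + 1)
    have hd1' : (1 : ℝ) ≤ d := by exact_mod_cast hd1
    have h2d : (0 : ℝ) < 2 ^ d := by positivity
    have hden : (1 : ℝ) ≤ 1 + (((d : ℤ) - 1 - u : ℤ) : ℝ) * x := by
      have h0 : (0 : ℝ) ≤ (((d : ℤ) - 1 - u : ℤ) : ℝ) := by
        exact_mod_cast (by omega : (0 : ℤ) ≤ (d : ℤ) - 1 - u)
      have := mul_nonneg h0 hx
      linarith
    have hfac : |fac u x d| ≤ d := by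
      unfold fac
      rw [abs_div, abs_of_nonneg (Nat.cast_nonneg d), abs_of_pos (by linarith)]
      exact div_le_self (Nat.cast_nonneg d) hden
    have b1 : |(bin i d : ℝ) * pev c.1 x| ≤ |pev c.1 x| * (d * 2 ^ d) := by
      rw [abs_mul, mul_comm]
      refine mul_le_mul_of_nonneg_left ?_ (abs_nonneg _)
      refine (abs_bin_le i d).trans ?_
      nlinarith
    have b2 : |(bin i (d - 1) : ℝ) * (fac u x d * pev c.2 x)| ≤ |pev c.2 x| * (d * 2 ^ d) := by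
      rw [abs_mul, abs_mul]
      have h1 := abs_bin_le i (d - 1)
      have h2 : (2 : ℝ) ^ (d - 1) ≤ 2 ^ d := pow_le_pow_right₀ (by norm_num) (by omega)
      calc |(bin i (d - 1) : ℝ)| * (|fac u x d| * |pev c.2 x|) ≤ 2 ^ d * (d * |pev c.2 x|) :=
            mul_le_mul (h1.trans h2) (mul_le_mul_of_nonneg_right hfac (abs_nonneg _))
              (by positivity) h2d.le
        _ = _ := by ring
    unfold kapv
    rw [List.map_cons, List.sum_cons]
    calc |(bin i d : ℝ) * pev c.1 x + (bin i (d - 1) : ℝ) * (fac u x d * pev c.2 x) + kapv u x d l (i + 1)|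
        ≤ |(bin i d : ℝ) * pev c.1 x| + |(bin i (d - 1) : ℝ) * (fac u x d * pev c.2 x)| +
          |kapv u x d l (i + 1)| := abs_add_three _ _ _
      _ ≤ |pev c.1 x| * (d * 2 ^ d) + |pev c.2 x| * (d * 2 ^ d) +
          (l.map fun c => |pev c.1 x| + |pev c.2 x|).sum * (d * 2 ^ d) := by linarith
      _ = _ := by ring

theorem abs_kap_le {cf : Cf} {u : ℤ} {x : ℝ} {j : ℤ} {d : ℕ} (hx : 0 ≤ x) (hd : u + 1 ≤ (d : ℤ)) (hd1 : 1 ≤ d) :
    |kap cf u x j d| ≤ VR cf x * (d * 2 ^ d) := by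
  have hd1' : (1 : ℝ) ≤ d := by exact_mod_cast hd1
  have h2d : (0 : ℝ) < 2 ^ d := by positivity
  unfold kap VR
  have h1 := abs_kapv_le (u := u) hx hd hd1 cf.v (j - 1)
  have h2 : |(tlw (j - 1 + cf.v.length) d : ℝ) * pev cf.tau x| ≤ |pev cf.tau x| * (d * 2 ^ d) := by
    rw [abs_mul, mul_comm]
    refine mul_le_mul_of_nonneg_left ?_ (abs_nonneg _)
    refine (abs_tlw_le _ d).trans ?_
    nlinarith
  calc _ ≤ |kapv u x d cf.v (j - 1)| + |(tlw (j - 1 + cf.v.length) d : ℝ) * pev cf.tau x| := abs_add_le _ _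
    _ ≤ _ := by rw [add_mul]; linarith

/-! ### the tail function for `b ≤ 5/4` -/

/-- `5^d d^4 / d!` -/
noncomputable def g5 (d : ℕ) : ℝ := 5 ^ d * (d : ℝ) ^ 4 / d.factorial

theorem g5_succ {d : ℕ} (hd : 30 ≤ d) : g5 (d + 1) ≤ g5 d / 2 := by
  unfold g5
  have hf : (0 : ℝ) < d.factorial := by exact_mod_cast d.factorial_pos
  have hd' : (30 : ℝ) ≤ d := by exact_mod_cast hd
  have hd0 : (0 : ℝ) < d := by linarith
  rw [Nat.factorial_succ]
  push_cast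
  have key : ((d : ℝ) + 1) ^ 4 ≤ (31 / 30) ^ 4 * (d : ℝ) ^ 4 := by
    have h1 : ((d : ℝ) + 1) ≤ 31 / 30 * d := by linarith
    calc ((d : ℝ) + 1) ^ 4 ≤ (31 / 30 * d) ^ 4 := pow_le_pow_left₀ (by linarith) h1 _
      _ = _ := mul_pow _ _ _
  rw [div_div, div_le_div_iff₀ (by positivity) (by positivity)]
  have h4 : (0 : ℝ) < 5 ^ d := by positivity
  calc 5 ^ (d + 1) * ((d : ℝ) + 1) ^ 4 * (d.factorial * 2)
      = 10 * 5 ^ d * d.factorial * ((d : ℝ) + 1) ^ 4 := by ring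
    _ ≤ 10 * 5 ^ d * d.factorial * ((31 / 30) ^ 4 * (d : ℝ) ^ 4) :=
        mul_le_mul_of_nonneg_left key (by positivity)
    _ = (10 * (31 / 30) ^ 4) * (5 ^ d * (d : ℝ) ^ 4 * d.factorial) := by ring
    _ ≤ ((d : ℝ) + 1) * (5 ^ d * (d : ℝ) ^ 4 * d.factorial) := by
        refine mul_le_mul_of_nonneg_right ?_ (by positivity)
        norm_num
        linarith
    _ = _ := by ring

theorem g5_geo : ∀ i : ℕ, g5 (30 + i) ≤ g5 30 * (1 / 2) ^ i
  | 0 => by simp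
  | i + 1 => by
    have h := g5_succ (d := 30 + i) (by omega)
    have ih := g5_geo i
    rw [show 30 + (i + 1) = 30 + i + 1 by ring, pow_succ]
    linarith

theorem g5_30 : 2 * g5 30 * (S : ℕ) ≤ 6300000 := by
  unfold g5
  have hf : ((30 : ℕ).factorial : ℝ) = 265252859812191058636308480000000 := by
    norm_num [Nat.factorial]
  have hS : ((S : ℕ) : ℝ) = 1099511627776 := by norm_num [S]
  rw [hf, hS]
  norm_num

/-! ### the series -/

/-- admissible weights -/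
def Wt (w : ℕ → ℕ) : Prop := ∀ d, 1 ≤ d → w d ≤ d ^ 3

/-- one signed term -/
noncomputable def trW (cf : Cf) (u : ℤ) (x : ℝ) (j : ℤ) (w : ℕ → ℕ) (d : ℕ) : ℝ :=
  Pd u x j d * kap cf u x j d * w d

/-- one absolute term -/
noncomputable def trB (cf : Cf) (u : ℤ) (x : ℝ) (j : ℤ) (b : ℝ) (w : ℕ → ℕ) (d : ℕ) : ℝ :=
  (Pd u x j d * b ^ d) * (|kap cf u x j d| * w d)

noncomputable def mW (cf : Cf) (u : ℤ) (x : ℝ) (j : ℤ) (w : ℕ → ℕ) : ℝ := ∑' d, trW cf u x j w d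

noncomputable def mB (cf : Cf) (u : ℤ) (x : ℝ) (j : ℤ) (b : ℝ) (w : ℕ → ℕ) : ℝ :=
  ∑' d, trB cf u x j b w d

theorem trB_nonneg {cf : Cf} {u : ℤ} {x : ℝ} {j : ℤ} (h : Rng u x j) {b : ℝ} (hb : 0 ≤ b)
    (w : ℕ → ℕ) (d : ℕ) : 0 ≤ trB cf u x j b w d :=
  mul_nonneg (mul_nonneg (Pd_nonneg h d) (pow_nonneg hb _))
    (mul_nonneg (abs_nonneg _) (Nat.cast_nonneg _))

theorem abs_trW_le {cf : Cf} {u : ℤ} {x : ℝ} {j : ℤ} (h : Rng u x j) {b : ℝ} (hb : 1 ≤ b)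
    (w : ℕ → ℕ) (d : ℕ) : |trW cf u x j w d| ≤ trB cf u x j b w d := by
  unfold trW trB
  have hP := Pd_nonneg h d
  have hw : (0 : ℝ) ≤ ((w d : ℕ) : ℝ) := Nat.cast_nonneg _
  rw [abs_mul, abs_mul, abs_of_nonneg hP, abs_of_nonneg hw, mul_assoc]
  refine mul_le_mul_of_nonneg_right ?_ (mul_nonneg (abs_nonneg _) hw)
  have : 1 ≤ b ^ d := one_le_pow₀ hb
  nlinarith

theorem trB_le {cf : Cf} {u : ℤ} {x : ℝ} {j : ℤ} (h : Rng u x j) {b : ℝ} (hb : 0 ≤ b)
    (hb2 : b ≤ 5 / 4) {w : ℕ → ℕ} (hw : Wt w) {d : ℕ} (hd : u + 1 ≤ (d : ℤ)) (hd1 : 1 ≤ d) :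
    trB cf u x j b w d ≤ VR cf x * g5 d := by
  unfold trB g5
  have hf : (0 : ℝ) < d.factorial := by exact_mod_cast d.factorial_pos
  have hwd : ((w d : ℕ) : ℝ) ≤ (d : ℝ) ^ 3 := by exact_mod_cast hw d (by omega)
  have hbp : b ^ d ≤ (5 / 4) ^ d := pow_le_pow_left₀ hb hb2 d
  calc (Pd u x j d * b ^ d) * (|kap cf u x j d| * w d)
      ≤ (2 ^ d / d.factorial * (5 / 4) ^ d) * ((VR cf x * (d * 2 ^ d)) * (d : ℝ) ^ 3) := by
        refine mul_le_mul ?_ ?_ (by positivity) (by positivity)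
        · exact mul_le_mul (Pd_le h d) hbp (pow_nonneg hb _) (by positivity)
        · exact mul_le_mul (abs_kap_le h.1 hd hd1) hwd (Nat.cast_nonneg _)
            (mul_nonneg (VR_nonneg _ _) (by positivity))
    _ = VR cf x * (5 ^ d * (d : ℝ) ^ 4 / d.factorial) := by
        have e : (5 : ℝ) ^ d = 2 ^ d * 2 ^ d * (5 / 4) ^ d := by
          rw [← mul_pow, ← mul_pow]; norm_num
        rw [e]
        ring

theorem trB_tail {cf : Cf} {u : ℤ} {x : ℝ} {j : ℤ} (h : Rng u x j) (hu : u ≤ 29) {b : ℝ} (hb : 0 ≤ b)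
    (hb2 : b ≤ 5 / 4) {w : ℕ → ℕ} (hw : Wt w) (i : ℕ) :
    trB cf u x j b w (i + 30) ≤ VR cf x * g5 30 * (1 / 2) ^ i := by
  rw [show i + 30 = 30 + i by ring]
  refine (trB_le h hb hb2 hw (by push_cast; omega) (by omega)).trans ?_
  rw [mul_assoc]
  exact mul_le_mul_of_nonneg_left (g5_geo i) (VR_nonneg _ _)

theorem summable_trB {cf : Cf} {u : ℤ} {x : ℝ} {j : ℤ} (h : Rng u x j) (hu : u ≤ 29) {b : ℝ}
    (hb : 0 ≤ b) (hb2 : b ≤ 5 / 4) {w : ℕ → ℕ} (hw : Wt w) :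
    Summable fun d => trB cf u x j b w d := by
  rw [← summable_nat_add_iff 30]
  refine Summable.of_nonneg_of_le (fun i => trB_nonneg h hb w _) (fun i => trB_tail h hu hb hb2 hw i) ?_
  exact (summable_geometric_of_lt_one (by norm_num) (by norm_num)).mul_left _

theorem summable_trW {cf : Cf} {u : ℤ} {x : ℝ} {j : ℤ} (h : Rng u x j) (hu : u ≤ 29)
    {w : ℕ → ℕ} (hw : Wt w) : Summable fun d => trW cf u x j w d :=
  Summable.of_norm_bounded (summable_trB h hu (b := 1) (by norm_num) (by norm_num) hw) fun d => by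
    rw [Real.norm_eq_abs]
    exact abs_trW_le h le_rfl w d

theorem trB_tail_le {cf : Cf} {u : ℤ} {x : ℝ} {j : ℤ} (h : Rng u x j) (hu : u ≤ 29) {b : ℝ}
    (hb : 0 ≤ b) (hb2 : b ≤ 5 / 4) {w : ℕ → ℕ} (hw : Wt w) :
    (∑' i, trB cf u x j b w (i + 30)) * (S : ℕ) ≤ VR cf x * 6300000 := by
  have h1 : ∑' i, trB cf u x j b w (i + 30) ≤ ∑' i : ℕ, VR cf x * g5 30 * (1 / 2) ^ i := by
    refine Summable.tsum_le_tsum (fun i => trB_tail h hu hb hb2 hw i) ?_ ?_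
    · exact (summable_nat_add_iff 30).2 (summable_trB h hu hb hb2 hw)
    · exact (summable_geometric_of_lt_one (by norm_num) (by norm_num)).mul_left _
  rw [tsum_mul_left, tsum_geometric_of_lt_one (by norm_num) (by norm_num)] at h1
  have h2 := g5_30
  have h3 := VR_nonneg cf x
  have hS := S_posR
  calc (∑' i, trB cf u x j b w (i + 30)) * (S : ℕ)
      ≤ (VR cf x * g5 30 * (1 - 1 / 2)⁻¹) * (S : ℕ) := mul_le_mul_of_nonneg_right h1 hS.le
    _ = VR cf x * (2 * g5 30 * (S : ℕ)) := by norm_num; ring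
    _ ≤ VR cf x * 6300000 := mul_le_mul_of_nonneg_left h2 h3

theorem trW_tail {cf : Cf} {u : ℤ} {x : ℝ} {j : ℤ} (h : Rng u x j) (hu : u ≤ 29)
    {w : ℕ → ℕ} (hw : Wt w) (i : ℕ) :
    trB cf u x j 1 w (i + 30) ≤ VR cf x * gb 30 * (1 / 2) ^ i := by
  have h1 : ∀ d : ℕ, u + 1 ≤ (d : ℤ) → 1 ≤ d → trB cf u x j 1 w d ≤ VR cf x * gb d := by
    intro d hd hd1
    unfold trB gb
    have hf : (0 : ℝ) < d.factorial := by exact_mod_cast d.factorial_pos
    have hwd : ((w d : ℕ) : ℝ) ≤ (d : ℝ) ^ 3 := by exact_mod_cast hw d (by omega)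
    calc (Pd u x j d * 1 ^ d) * (|kap cf u x j d| * w d)
        ≤ (2 ^ d / d.factorial * (11 / 10) ^ d) * ((VR cf x * (d * 2 ^ d)) * (d : ℝ) ^ 3) := by
          refine mul_le_mul ?_ ?_ (by positivity) (by positivity)
          · exact mul_le_mul (Pd_le h d) (pow_le_pow_left₀ (by norm_num) (by norm_num) d)
              (by positivity) (by positivity)
          · exact mul_le_mul (abs_kap_le h.1 hd hd1) hwd (Nat.cast_nonneg _)
              (mul_nonneg (VR_nonneg _ _) (by positivity))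
      _ = VR cf x * ((22 / 5) ^ d * (d : ℝ) ^ 4 / d.factorial) := by
          have e : (22 / 5 : ℝ) ^ d = 2 ^ d * 2 ^ d * (11 / 10) ^ d := by
            rw [← mul_pow, ← mul_pow]; norm_num
          rw [e]
          ring
  rw [show i + 30 = 30 + i by ring]
  refine (h1 _ (by push_cast; omega) (by omega)).trans ?_
  rw [mul_assoc]
  exact mul_le_mul_of_nonneg_left (gb_geo i) (VR_nonneg _ _)

theorem mW_tail_le {cf : Cf} {u : ℤ} {x : ℝ} {j : ℤ} (h : Rng u x j) (hu : u ≤ 29)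
    {w : ℕ → ℕ} (hw : Wt w) :
    |mW cf u x j w - ∑ d ∈ range 30, trW cf u x j w d| * (S : ℕ) ≤ VR cf x * 200000 := by
  have h0 := summable_trW (cf := cf) h hu hw
  have hB := summable_trB (cf := cf) h hu (b := 1) (by norm_num) (by norm_num) hw
  have h1 : mW cf u x j w = ∑ d ∈ range 30, trW cf u x j w d + ∑' i, trW cf u x j w (i + 30) :=
    (h0.sum_add_tsum_nat_add 30).symm
  rw [h1, add_sub_cancel_left]
  have sB : Summable fun i => trB cf u x j 1 w (i + 30) := (summable_nat_add_iff 30).2 hB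
  have s1 : Summable fun i => ‖trW cf u x j w (i + 30)‖ :=
    Summable.of_nonneg_of_le (fun _ => norm_nonneg _) (fun i => by
      rw [Real.norm_eq_abs]
      exact abs_trW_le h le_rfl w _) sB
  have sG : Summable fun i : ℕ => VR cf x * gb 30 * (1 / 2) ^ i :=
    (summable_geometric_of_lt_one (by norm_num) (by norm_num)).mul_left _
  have h2 : |∑' i, trW cf u x j w (i + 30)| ≤ ∑' i : ℕ, VR cf x * gb 30 * (1 / 2) ^ i := by
    refine (norm_tsum_le_tsum_norm s1).trans ?_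
    refine Summable.tsum_le_tsum (fun i => ?_) s1 sG
    rw [Real.norm_eq_abs]
    exact (abs_trW_le h le_rfl w _).trans (trW_tail h hu hw i)
  rw [tsum_mul_left, tsum_geometric_of_lt_one (by norm_num) (by norm_num)] at h2
  have h3 := gb_30
  have h4 := VR_nonneg cf x
  have hS := S_posR
  calc _ ≤ (VR cf x * gb 30 * (1 - 1 / 2)⁻¹) * (S : ℕ) := mul_le_mul_of_nonneg_right h2 hS.le
    _ = VR cf x * (2 * gb 30 * (S : ℕ)) := by norm_num; ring
    _ ≤ VR cf x * 200000 := mul_le_mul_of_nonneg_left h3 h4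

/-! ### one pass -/

/-- the weights `1, d, d (d-1), d (d-1) (d-2)` -/
def w0 (_ : ℕ) : ℕ := 1
def w1 (d : ℕ) : ℕ := d
def w2 (d : ℕ) : ℕ := d * (d - 1)
def w3 (d : ℕ) : ℕ := d * (d - 1) * (d - 2)

theorem Wt_w0 : Wt w0 := fun _ hd => Nat.one_le_pow _ _ hd
theorem Wt_w1 : Wt w1 := fun d hd => by
  unfold w1
  calc d = d ^ 1 := (pow_one d).symm
    _ ≤ d ^ 3 := Nat.pow_le_pow_right hd (by norm_num)
theorem Wt_w2 : Wt w2 := fun d hd => by
  unfold w2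
  calc d * (d - 1) ≤ d * d := Nat.mul_le_mul_left _ (Nat.sub_le _ _)
    _ ≤ d * d * d := Nat.le_mul_of_pos_right _ hd
    _ = d ^ 3 := by ring
theorem Wt_w3 : Wt w3 := fun d _ => by
  unfold w3
  calc d * (d - 1) * (d - 2) ≤ d * d * d :=
        Nat.mul_le_mul (Nat.mul_le_mul_left _ (Nat.sub_le _ _)) (Nat.sub_le _ _)
    _ = d ^ 3 := by ring

/-- state of the pass: `P`, an upper bound of `P b^d`, the signed sums, the absolute sums -/
structure St where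
  P : NI
  B : ℕ
  f0 : PN
  f1 : PN
  f2 : PN
  b1 : ℕ
  b2 : ℕ
  b3 : ℕ

def st0 : St := ⟨one, S, zeroS, zeroS, zeroS, 0, 0, 0⟩

/-- one step with the weight `K` and the step `s` -/
def stStep (A : St) (d : ℕ) (K : PN) (s : NI) (bn bd : ℕ) : St :=
  let T := mulS A.P K
  let v := A.B * (max K.p.hi K.n.hi) / S + 1
  ⟨mul A.P s, A.B * (s.hi * bn / bd + 1) / S + 1,
    addS A.f0 T, addS A.f1 (zmulS (d : ℤ) T), addS A.f2 (zmulS ((d * (d - 1) : ℕ) : ℤ) T),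
    A.b1 + w1 d * v, A.b2 + w2 d * v, A.b3 + w3 d * v⟩

def pass (C : CI) (u : ℤ) (X : NI) (j : ℤ) (bn bd : ℕ) : ℕ → St
  | 0 => st0
  | n + 1 => stStep (pass C u X j bn bd n) n (nrm (kapI C u X j n)) (stpI u X j n) bn bd

/-- soundness of the state -/
structure Ok (cf : Cf) (u : ℤ) (x : ℝ) (j : ℤ) (b : ℝ) (n : ℕ) (A : St) : Prop where
  hP : Mem (Pd u x j n) A.P
  hB : Pd u x j n * b ^ n * (S : ℕ) ≤ ((A.B : ℕ) : ℝ)
  h0 : MemS (∑ d ∈ range n, trW cf u x j w0 d) A.f0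
  h1 : MemS (∑ d ∈ range n, trW cf u x j w1 d) A.f1
  h2 : MemS (∑ d ∈ range n, trW cf u x j w2 d) A.f2
  h5 : (∑ d ∈ range n, trB cf u x j b w1 d) * (S : ℕ) ≤ ((A.b1 : ℕ) : ℝ)
  h3 : (∑ d ∈ range n, trB cf u x j b w2 d) * (S : ℕ) ≤ ((A.b2 : ℕ) : ℝ)
  h4 : (∑ d ∈ range n, trB cf u x j b w3 d) * (S : ℕ) ≤ ((A.b3 : ℕ) : ℝ)

theorem abs_le_max {x : ℝ} {X : PN} (hx : MemS x X) :
    |x| * (S : ℕ) ≤ ((max X.p.hi X.n.hi : ℕ) : ℝ) := by
  obtain ⟨a, b, h1, h2, rfl⟩ := hx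
  have c1 := h1.nonneg
  have c2 := h2.nonneg
  have hs := S_posR
  rw [Nat.cast_max]
  rcases le_total 0 (a - b) with h | h
  · rw [abs_of_nonneg h]
    refine le_trans ?_ (le_max_left _ _)
    have := h1.2
    nlinarith
  · rw [abs_of_nonpos h]
    refine le_trans ?_ (le_max_right _ _)
    have := h2.2
    nlinarith

theorem ok_step {cf : Cf} {u : ℤ} {x : ℝ} {j : ℤ} {n : ℕ} {A : St} {K : PN} {s : NI} {bn bd : ℕ}
    (hbd : 0 < bd) (hR : Rng u x j) (h : Ok cf u x j ((bn : ℝ) / bd) n A)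
    (hK : MemS (kap cf u x j n) K) (hs : Mem (stp u x j n) s) :
    Ok cf u x j ((bn : ℝ) / bd) (n + 1) (stStep A n K s bn bd) := by
  have hS := S_posR
  have hbd' : (0 : ℝ) < bd := by exact_mod_cast hbd
  have hb0 : (0 : ℝ) ≤ (bn : ℝ) / bd := by positivity
  have hPn := Pd_nonneg hR n
  have hT : MemS (Pd u x j n * kap cf u x j n) (mulS A.P K) := memS_mul h.hP hK
  have hPB0 : 0 ≤ Pd u x j n * ((bn : ℝ) / bd) ^ n := mul_nonneg hPn (pow_nonneg hb0 _)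
  have hv : Pd u x j n * ((bn : ℝ) / bd) ^ n * |kap cf u x j n| * (S : ℕ) ≤
      ((A.B * (max K.p.hi K.n.hi) / S + 1 : ℕ) : ℝ) := by
    have c1 := abs_le_max hK
    have c2 := div_ceil (a := A.B * (max K.p.hi K.n.hi)) S_pos
    have c3 : Pd u x j n * ((bn : ℝ) / bd) ^ n * |kap cf u x j n| * (S : ℕ) * (S : ℕ) ≤
        ((A.B * (max K.p.hi K.n.hi) : ℕ) : ℝ) := by
      rw [Nat.cast_mul]
      calc _ = (Pd u x j n * ((bn : ℝ) / bd) ^ n * (S : ℕ)) * (|kap cf u x j n| * (S : ℕ)) := by ring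
        _ ≤ _ := mul_le_mul h.hB c1 (by positivity) (Nat.cast_nonneg _)
    exact le_of_mul_le_mul_right (c3.trans c2) hS
  constructor
  · rw [Pd_succ]
    exact mem_mul h.hP hs
  · rw [Pd_succ, pow_succ]
    change _ ≤ ((A.B * (s.hi * bn / bd + 1) / S + 1 : ℕ) : ℝ)
    have c1 := div_ceil (a := s.hi * bn) hbd
    have c2 := div_ceil (a := A.B * (s.hi * bn / bd + 1)) S_pos
    have c3 : stp u x j n * ((bn : ℝ) / bd) * (S : ℕ) ≤ ((s.hi * bn / bd + 1 : ℕ) : ℝ) := by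
      have c4 : stp u x j n * (S : ℕ) * bn ≤ ((s.hi * bn : ℕ) : ℝ) := by
        rw [Nat.cast_mul]
        exact mul_le_mul_of_nonneg_right hs.2 (Nat.cast_nonneg _)
      have c5 : stp u x j n * ((bn : ℝ) / bd) * (S : ℕ) * bd ≤ ((s.hi * bn / bd + 1 : ℕ) : ℝ) * bd := by
        refine le_trans (le_of_eq ?_) (c4.trans c1)
        field_simp
      exact le_of_mul_le_mul_right c5 hbd'
    have c6 : Pd u x j n * stp u x j n * (((bn : ℝ) / bd) ^ n * ((bn : ℝ) / bd)) * (S : ℕ) * (S : ℕ) ≤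
        ((A.B * (s.hi * bn / bd + 1) : ℕ) : ℝ) := by
      rw [Nat.cast_mul]
      calc _ = (Pd u x j n * ((bn : ℝ) / bd) ^ n * (S : ℕ)) * (stp u x j n * ((bn : ℝ) / bd) * (S : ℕ)) := by
            ring
        _ ≤ _ := mul_le_mul h.hB c3 (mul_nonneg (mul_nonneg (stp_nonneg hR n) hb0) hS.le)
            (Nat.cast_nonneg _)
    exact le_of_mul_le_mul_right (c6.trans c2) hS
  · rw [sum_range_succ]
    have e : trW cf u x j w0 n = Pd u x j n * kap cf u x j n := by simp [trW, w0]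
    rw [e]
    exact memS_add h.h0 hT
  · rw [sum_range_succ]
    have e : trW cf u x j w1 n = ((n : ℤ) : ℝ) * (Pd u x j n * kap cf u x j n) := by
      unfold trW w1
      push_cast
      ring
    rw [e]
    exact memS_add h.h1 (memS_zmul _ hT)
  · rw [sum_range_succ]
    have e : trW cf u x j w2 n = (((n * (n - 1) : ℕ) : ℤ) : ℝ) * (Pd u x j n * kap cf u x j n) := by
      unfold trW w2
      rw [Int.cast_natCast]
      ring
    rw [e]
    exact memS_add h.h2 (memS_zmul _ hT)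
  · rw [sum_range_succ, add_mul]
    change _ ≤ ((A.b1 + w1 n * (A.B * (max K.p.hi K.n.hi) / S + 1) : ℕ) : ℝ)
    rw [Nat.cast_add, Nat.cast_mul]
    refine add_le_add h.h5 ?_
    unfold trB
    calc _ = ((w1 n : ℕ) : ℝ) * (Pd u x j n * ((bn : ℝ) / bd) ^ n * |kap cf u x j n| * (S : ℕ)) := by ring
      _ ≤ _ := mul_le_mul_of_nonneg_left hv (Nat.cast_nonneg _)
  · rw [sum_range_succ, add_mul]
    change _ ≤ ((A.b2 + w2 n * (A.B * (max K.p.hi K.n.hi) / S + 1) : ℕ) : ℝ)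
    rw [Nat.cast_add, Nat.cast_mul]
    refine add_le_add h.h3 ?_
    unfold trB
    calc _ = ((w2 n : ℕ) : ℝ) * (Pd u x j n * ((bn : ℝ) / bd) ^ n * |kap cf u x j n| * (S : ℕ)) := by ring
      _ ≤ _ := mul_le_mul_of_nonneg_left hv (Nat.cast_nonneg _)
  · rw [sum_range_succ, add_mul]
    change _ ≤ ((A.b3 + w3 n * (A.B * (max K.p.hi K.n.hi) / S + 1) : ℕ) : ℝ)
    rw [Nat.cast_add, Nat.cast_mul]
    refine add_le_add h.h4 ?_
    unfold trB
    calc _ = ((w3 n : ℕ) : ℝ) * (Pd u x j n * ((bn : ℝ) / bd) ^ n * |kap cf u x j n| * (S : ℕ)) := by ring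
      _ ≤ _ := mul_le_mul_of_nonneg_left hv (Nat.cast_nonneg _)

theorem ok_pass {cf : Cf} {u : ℤ} {x : ℝ} {X : NI} {j : ℤ} {bn bd : ℕ} (hx : Mem x X)
    (hX : SmallJ u X j) (hbd : 0 < bd) (hR : Rng u x j) : ∀ n : ℕ,
    Ok cf u x j ((bn : ℝ) / bd) n (pass (evC cf X) u X j bn bd n)
  | 0 => by
    constructor
    · have : Pd u x j 0 = ((1 : ℕ) : ℝ) := by simp [Pd]
      rw [this]
      exact mem_nat 1
    · simp [Pd, pass, st0]
    · rw [range_zero, sum_empty]; exact memS_zero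
    · rw [range_zero, sum_empty]; exact memS_zero
    · rw [range_zero, sum_empty]; exact memS_zero
    · simp [pass, st0]
    · simp [pass, st0]
    · simp [pass, st0]
  | n + 1 => ok_step hbd hR (ok_pass hx hX hbd hR n) (memS_nrm (memS_kapI hx hX.1 j n)) (mem_stpI hx hX n)

/-! ### the result of a pass -/

/-- widen a signed quantity by `e` units -/
def widS (X : PN) (e : ℕ) : PN := ⟨⟨X.p.lo, X.p.hi + e⟩, ⟨X.n.lo, X.n.hi + e⟩⟩

theorem memS_wid {x y : ℝ} {X : PN} {e : ℕ} (hx : MemS x X) (h : |y - x| * (S : ℕ) ≤ e) :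
    MemS y (widS X e) := by
  obtain ⟨a, b, h1, h2, rfl⟩ := hx
  have hs := S_posR
  have he : (0 : ℝ) ≤ e := Nat.cast_nonneg e
  rcases le_total 0 (y - (a - b)) with hc | hc
  · rw [abs_of_nonneg hc] at h
    refine ⟨a + (y - (a - b)), b, ⟨?_, ?_⟩, ⟨h2.1, ?_⟩, by ring⟩
    · change ((X.p.lo : ℕ) : ℝ) ≤ _
      have := h1.1
      nlinarith
    · change _ ≤ ((X.p.hi + e : ℕ) : ℝ)
      have := h1.2
      push_cast
      nlinarith
    · change _ ≤ ((X.n.hi + e : ℕ) : ℝ)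
      have := h2.2
      push_cast
      linarith
  · rw [abs_of_nonpos hc] at h
    refine ⟨a, b + ((a - b) - y), ⟨h1.1, ?_⟩, ⟨?_, ?_⟩, by ring⟩
    · change _ ≤ ((X.p.hi + e : ℕ) : ℝ)
      have := h1.2
      push_cast
      linarith
    · change ((X.n.lo : ℕ) : ℝ) ≤ _
      have := h2.1
      nlinarith
    · change _ ≤ ((X.n.hi + e : ℕ) : ℝ)
      have := h2.2
      push_cast
      nlinarith

/-- moments of one layer: signed `w0, w1, w2`, absolute `w2, w3` -/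
structure Ly where
  f0 : PN
  f1 : PN
  f2 : PN
  b1 : ℕ
  b2 : ℕ
  b3 : ℕ

def tlu (C : CI) : ℕ := (VN C / S + 1) * 200000

theorem VR_tlu {cf : Cf} {x : ℝ} {X : NI} (hx : Mem x X) : VR cf x * 200000 ≤ ((tlu (evC cf X) : ℕ) : ℝ) := by
  have h2 := VR_tl (cf := cf) hx 0
  unfold tl at h2
  rw [pow_zero, mul_one, pow_zero, mul_one] at h2
  unfold tlu
  push_cast at h2 ⊢
  nlinarith

def tlb (C : CI) : ℕ := (VN C / S + 1) * 6300000

theorem VR_tlb {cf : Cf} {x : ℝ} {X : NI} (hx : Mem x X) : VR cf x * 6300000 ≤ ((tlb (evC cf X) : ℕ) : ℝ) := by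
  have h2 := VR_tl (cf := cf) hx 0
  unfold tl at h2
  rw [pow_zero, mul_one, pow_zero, mul_one] at h2
  unfold tlb
  push_cast at h2 ⊢
  nlinarith

def lay (C : CI) (u : ℤ) (X : NI) (j : ℤ) (bn bd : ℕ) : Ly :=
  let A := pass C u X j bn bd 30
  let e := tlu C
  let e2 := tlb C
  ⟨nrm (widS A.f0 e), nrm (widS A.f1 e), nrm (widS A.f2 e), A.b1 + e2, A.b2 + e2, A.b3 + e2⟩

/-- decidable range condition -/
def RngI (u : ℤ) (X : NI) (j : ℤ) : Prop := SmallJ u X j ∧ (2 * j - 4 - u).toNat * X.hi ≤ S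

instance (u : ℤ) (X : NI) (j : ℤ) : Decidable (RngI u X j) := inferInstanceAs (Decidable (_ ∧ _))

theorem Rng_of {u : ℤ} {x : ℝ} {X : NI} {j : ℤ} (hx : Mem x X) (h : RngI u X j) : Rng u x j := by
  obtain ⟨⟨h1, h2⟩, h3⟩ := h
  have h0 := hx.nonneg
  have hS := S_posR
  have hh := hx.2
  refine ⟨h0, ?_, ?_, ?_⟩
  · have h4 : (((u + 1).toNat * X.hi : ℕ) : ℝ) < (S : ℕ) := by exact_mod_cast h1
    push_cast at h4
    have h7 : (u : ℝ) ≤ (((u + 1).toNat : ℕ) : ℝ) := by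
      have : u ≤ ((u + 1).toNat : ℤ) := by omega
      exact_mod_cast this
    have h5 : ((u : ℝ) * x) * (S : ℕ) ≤ 1 * (S : ℕ) := by
      have h6 : (u : ℝ) * (x * (S : ℕ)) ≤ (((u + 1).toNat : ℕ) : ℝ) * X.hi := by
        refine (mul_le_mul_of_nonneg_right h7 (mul_nonneg h0 hS.le)).trans ?_
        exact mul_le_mul_of_nonneg_left hh (Nat.cast_nonneg _)
      rw [mul_assoc, one_mul]
      exact (lt_of_le_of_lt h6 h4).le
    exact le_of_mul_le_mul_right h5 hS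
  · have h4 : (((j - 2).toNat * X.hi : ℕ) : ℝ) < (S : ℕ) := by exact_mod_cast h2
    push_cast at h4
    have h7 : ((j : ℝ) - 2) ≤ (((j - 2).toNat : ℕ) : ℝ) := by
      have : j - 2 ≤ ((j - 2).toNat : ℤ) := Int.self_le_toNat _
      exact_mod_cast this
    have h5 : (((j : ℝ) - 2) * x) * (S : ℕ) < 1 * (S : ℕ) := by
      have h6 : ((j : ℝ) - 2) * (x * (S : ℕ)) ≤ (((j - 2).toNat : ℕ) : ℝ) * X.hi := by
        refine (mul_le_mul_of_nonneg_right h7 (mul_nonneg h0 hS.le)).trans ?_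
        exact mul_le_mul_of_nonneg_left hh (Nat.cast_nonneg _)
      rw [mul_assoc, one_mul]
      exact lt_of_le_of_lt h6 h4
    exact lt_of_mul_lt_mul_right h5 hS.le
  · have h4 : (((2 * j - 4 - u).toNat * X.hi : ℕ) : ℝ) ≤ (S : ℕ) := by exact_mod_cast h3
    push_cast at h4
    have h7 : (2 * (j : ℝ) - 4 - u) ≤ (((2 * j - 4 - u).toNat : ℕ) : ℝ) := by
      have : 2 * j - 4 - u ≤ ((2 * j - 4 - u).toNat : ℤ) := Int.self_le_toNat _
      exact_mod_cast this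
    have h5 : ((2 * (j : ℝ) - 4 - u) * x) * (S : ℕ) ≤ 1 * (S : ℕ) := by
      have h6 : (2 * (j : ℝ) - 4 - u) * (x * (S : ℕ)) ≤ (((2 * j - 4 - u).toNat : ℕ) : ℝ) * X.hi := by
        refine (mul_le_mul_of_nonneg_right h7 (mul_nonneg h0 hS.le)).trans ?_
        exact mul_le_mul_of_nonneg_left hh (Nat.cast_nonneg _)
      rw [mul_assoc, one_mul]
      exact h6.trans h4
    exact le_of_mul_le_mul_right h5 hS

/-- the content of `lay` -/
structure LyOk (cf : Cf) (u : ℤ) (x : ℝ) (j : ℤ) (b : ℝ) (A : Ly) : Prop where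
  h0 : MemS (mW cf u x j w0) A.f0
  h1 : MemS (mW cf u x j w1) A.f1
  h2 : MemS (mW cf u x j w2) A.f2
  h5 : mB cf u x j b w1 * (S : ℕ) ≤ ((A.b1 : ℕ) : ℝ)
  h3 : mB cf u x j b w2 * (S : ℕ) ≤ ((A.b2 : ℕ) : ℝ)
  h4 : mB cf u x j b w3 * (S : ℕ) ≤ ((A.b3 : ℕ) : ℝ)

theorem lay_ok {cf : Cf} {u : ℤ} {x : ℝ} {X : NI} {j : ℤ} {bn bd : ℕ} (hx : Mem x X)
    (hX : RngI u X j) (hu : u ≤ 29) (hbd : 0 < bd) (hb : 4 * bn ≤ 5 * bd) :
    LyOk cf u x j ((bn : ℝ) / bd) (lay (evC cf X) u X j bn bd) := by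
  have hR := Rng_of hx hX
  have h := ok_pass (cf := cf) (bn := bn) hx hX.1 hbd hR 30
  have hbd' : (0 : ℝ) < bd := by exact_mod_cast hbd
  have hb0 : (0 : ℝ) ≤ (bn : ℝ) / bd := by positivity
  have hb1 : (bn : ℝ) / bd ≤ 5 / 4 := by
    rw [div_le_div_iff₀ hbd' (by norm_num)]
    have : ((4 * bn : ℕ) : ℝ) ≤ ((5 * bd : ℕ) : ℝ) := by exact_mod_cast hb
    push_cast at this
    linarith
  have hv := VR_tlu (cf := cf) hx
  have hvb := VR_tlb (cf := cf) hx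
  have key : ∀ w, Wt w → |mW cf u x j w - ∑ d ∈ range 30, trW cf u x j w d| * (S : ℕ) ≤
      ((tlu (evC cf X) : ℕ) : ℝ) := fun w hw => (mW_tail_le hR hu hw).trans hv
  have keyB : ∀ w, Wt w → ∀ e : ℕ, (∑ d ∈ range 30, trB cf u x j ((bn : ℝ) / bd) w d) * (S : ℕ) ≤ (e : ℝ) →
      mB cf u x j ((bn : ℝ) / bd) w * (S : ℕ) ≤ ((e + tlb (evC cf X) : ℕ) : ℝ) := by
    intro w hw e he
    have h0 := summable_trB (cf := cf) hR hu hb0 hb1 hw
    have h1 : mB cf u x j ((bn : ℝ) / bd) w = ∑ d ∈ range 30, trB cf u x j ((bn : ℝ) / bd) w d +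
        ∑' i, trB cf u x j ((bn : ℝ) / bd) w (i + 30) := (h0.sum_add_tsum_nat_add 30).symm
    rw [h1, add_mul, Nat.cast_add]
    exact add_le_add he ((trB_tail_le hR hu hb0 hb1 hw).trans hvb)
  constructor
  · exact memS_nrm (memS_wid h.h0 (key w0 Wt_w0))
  · exact memS_nrm (memS_wid h.h1 (key w1 Wt_w1))
  · exact memS_nrm (memS_wid h.h2 (key w2 Wt_w2))
  · exact keyB w1 Wt_w1 _ h.h5
  · exact keyB w2 Wt_w2 _ h.h3
  · exact keyB w3 Wt_w3 _ h.h4

end Pool.NW
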