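import Pool.Agent.Work.MP_46fa68_23.Mom2
import Pool.Agent.Work.MP_46fa68_47.Inf

/-!
# The bridge between the moments and helper47's one-bead functions

`t = m - 1 - s`, layer `j`, `M' = m + 1 - j` (natural): `kl .. j p * M'! / (M'+p)! * den = P_p kap_p`.
-/

set_option autoImplicit false

open Finset

namespace Pool.NV

open Pool.OB

/-- the sources of the coefficient table `cf` (common denominator `den`) -/
noncomputable def vC (cf : Cf) (m den q p : ℕ) : ℝ :=
  if p = 0 then pev (cf.v.getD q ([], [])).1 (1 / m) / den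
  else if p = 1 then m * pev (cf.v.getD q ([], [])).2 (1 / m) / den else 0

noncomputable def tauC (cf : Cf) (m den : ℕ) : ℝ := pev cf.tau (1 / m) / den

theorem vC_two {cf : Cf} {m den q p : ℕ} (hp : 2 ≤ p) : vC cf m den q p = 0 := by
  unfold vC
  rw [if_neg (by omega), if_neg (by omega)]

theorem Pd_eq {m s t M' : ℕ} {j : ℤ} (hm : 0 < m) (ht : t + 1 + s = m) (ht1 : 1 ≤ t)
    (hM : (M' : ℤ) = m + 1 - j) (hM1 : 1 ≤ M') : ∀ p : ℕ,
    Pd s (1 / m) j p = ((t + p - 1).choose p : ℝ) * (M'.factorial / (M' + p).factorial)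
  | 0 => by
    have h : (M'.factorial : ℝ) ≠ 0 := by exact_mod_cast M'.factorial_ne_zero
    simp [Pd, h]
  | p + 1 => by
    have ih := Pd_eq hm ht ht1 hM hM1 p
    have e : Pd s (1 / m) j (p + 1) = Pd s (1 / m) j p * stp s (1 / m) j p := prod_range_succ _ _
    have hm' : (0 : ℝ) < m := by exact_mod_cast hm
    have hMR : (M' : ℝ) = m + 1 - j := by exact_mod_cast hM
    have htR : (t : ℝ) = m - 1 - s := by
      have : (t : ℝ) + 1 + s = m := by exact_mod_cast ht
      linarith
    have hM1R : (1 : ℝ) ≤ M' := by exact_mod_cast hM1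
    have hp0 : (0 : ℝ) ≤ p := Nat.cast_nonneg _
    have hs : stp s (1 / m) j p = ((t : ℝ) + p) / (((p : ℝ) + 1) * ((M' : ℝ) + 1 + p)) := by
      unfold stp
      rw [htR, hMR]
      have h1 : (0 : ℝ) < (m : ℝ) + 1 - j + 1 + p := by rw [← hMR]; linarith
      have h3 : (0 : ℝ) < m + (p + 2 - j) := by linarith
      have h2 : 1 + (((p : ℤ) + 2 - j : ℤ) : ℝ) * (1 / m) = (m + (p + 2 - j)) / m := by
        push_cast
        field_simp
      have h4 : 1 + (((p : ℤ) - 1 - s : ℤ) : ℝ) * (1 / m) = (m + (p - 1 - s)) / m := by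
        push_cast
        field_simp
      rw [h2, h4]
      push_cast
      rw [div_eq_div_iff (by positivity) (by positivity)]
      field_simp
      ring
    have hc : ((t + (p + 1) - 1).choose (p + 1) : ℝ) * ((p : ℝ) + 1) =
        ((t : ℝ) + p) * ((t + p - 1).choose p : ℝ) := by
      have h := Nat.add_one_mul_choose_eq (t + p - 1) p
      have e1 : t + p - 1 + 1 = t + p := by omega
      have e2 : t + (p + 1) - 1 = t + p := by omega
      rw [e1] at h
      rw [e2]
      have h' : ((t + p : ℕ) : ℝ) * ((t + p - 1).choose p : ℝ) =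
          ((t + p).choose (p + 1) : ℝ) * ((p + 1 : ℕ) : ℝ) := by exact_mod_cast h
      push_cast at h'
      linarith
    rw [e, ih, hs]
    have hf : ((M' + (p + 1)).factorial : ℝ) = ((M' : ℝ) + 1 + p) * (M' + p).factorial := by
      rw [show M' + (p + 1) = (M' + p) + 1 by ring, Nat.factorial_succ]
      push_cast
      ring
    have hf0 : ((M' + p).factorial : ℝ) ≠ 0 := by exact_mod_cast (M' + p).factorial_ne_zero
    have hd : (M' : ℝ) + 1 + p ≠ 0 := by positivity
    have hp1 : (p : ℝ) + 1 ≠ 0 := by positivity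
    rw [hf]
    set c1 : ℝ := ((t + (p + 1) - 1).choose (p + 1) : ℝ) with hc1
    set c0 : ℝ := ((t + p - 1).choose p : ℝ) with hc0
    have hc2 : c1 = ((t : ℝ) + p) * c0 / ((p : ℝ) + 1) := by
      rw [eq_div_iff hp1]
      exact hc
    rw [hc2]
    field_simp

theorem bin_cast (i a : ℕ) : ((bin (i : ℤ) a : ℤ) : ℝ) = (-1) ^ i * (a.choose i : ℝ) := by
  change (((if i % 2 = 0 then (a.choose i : ℤ) else -(a.choose i : ℤ)) : ℤ) : ℝ) = _
  split_ifs with h
  · rw [(Nat.even_iff.2 h).neg_one_pow]
    push_cast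
    ring
  · rw [(Nat.odd_iff.2 (by omega)).neg_one_pow]
    push_cast
    ring

theorem bin_neg {i : ℤ} (h : i < 0) (a : ℕ) : bin i a = 0 := by
  obtain ⟨n, hn⟩ : ∃ n : ℕ, i = Int.negSucc n := ⟨(-i - 1).toNat, by omega⟩
  subst hn
  rfl

theorem tlw_cast (t p : ℕ) (i : ℤ) :
    ((t + p - 1).choose p : ℝ) * ((tlw i p : ℤ) : ℝ) = wt t i.toNat p := by
  unfold wt
  rcases i with i | i
  · cases i with
    | zero =>
      change ((t + p - 1).choose p : ℝ) * ((((if p = 0 then 1 else 0) : ℤ)) : ℝ) = _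
      have e0 : (Int.ofNat 0).toNat = 0 := rfl
      rw [if_pos e0]
      by_cases hp : p = 0
      · subst hp
        simp
      · rw [if_neg hp, if_neg hp]
        simp
    | succ i =>
      rw [if_neg (by simp)]
      cases p with
      | zero =>
        simp [tlw]
      | succ p =>
        rw [if_neg (Nat.succ_ne_zero p)]
        have e : (Int.ofNat (i + 1)).toNat = i + 1 := by simp
        rw [e, Nat.add_sub_cancel, Nat.add_sub_cancel]
        change ((t + (p + 1) - 1).choose (p + 1) : ℝ) *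
          (((if i % 2 = 0 then -(p.choose i : ℤ) else (p.choose i : ℤ)) : ℤ) : ℝ) = _
        rw [pow_succ]
        split_ifs with h
        · rw [(Nat.even_iff.2 h).neg_one_pow]
          push_cast
          ring
        · rw [(Nat.odd_iff.2 (by omega)).neg_one_pow]
          push_cast
          ring
  · have e : (Int.negSucc i).toNat = 0 := by simp
    rw [e, if_pos rfl]
    change ((t + p - 1).choose p : ℝ) * ((((if p = 0 then 1 else 0) : ℤ)) : ℝ) = _
    by_cases hp : p = 0
    · subst hp
      simp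
    · rw [if_neg hp, if_neg hp]
      simp

theorem fac_eq {m s t p : ℕ} (hm : 0 < m) (ht : t + 1 + s = m) (ht1 : 1 ≤ t) (hp : 1 ≤ p) :
    ((t + p - 1).choose p : ℝ) * fac s (1 / m) p = m * ((t + (p - 1) - 1).choose (p - 1) : ℝ) := by
  have hm' : (0 : ℝ) < m := by exact_mod_cast hm
  have htR : (t : ℝ) = m - 1 - s := by
    have : (t : ℝ) + 1 + s = m := by exact_mod_cast ht
    linarith
  have hpR : (1 : ℝ) ≤ p := by exact_mod_cast hp
  have htR1 : (1 : ℝ) ≤ t := by exact_mod_cast ht1
  have h1 : 1 + (((p : ℤ) - 2 - s : ℤ) : ℝ) * (1 / m) = (t + p - 1) / m := by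
    rw [htR]
    push_cast
    field_simp
    ring
  have hc : ((t + p - 1).choose p : ℝ) * p = ((t : ℝ) + p - 1) * ((t + (p - 1) - 1).choose (p - 1) : ℝ) := by
    obtain ⟨k, rfl⟩ : ∃ k, p = k + 1 := ⟨p - 1, by omega⟩
    have h := Nat.add_one_mul_choose_eq (t + k - 1) k
    have e1 : t + k - 1 + 1 = t + (k + 1) - 1 := by omega
    rw [e1] at h
    rw [Nat.add_sub_cancel]
    have h' : ((t + (k + 1) - 1 : ℕ) : ℝ) * ((t + k - 1).choose k : ℝ) =
        ((t + (k + 1) - 1).choose (k + 1) : ℝ) * ((k + 1 : ℕ) : ℝ) := by exact_mod_cast h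
    have e2 : ((t + (k + 1) - 1 : ℕ) : ℝ) = (t : ℝ) + k := by
      rw [show t + (k + 1) - 1 = t + k by omega]
      push_cast
      ring
    rw [e2] at h'
    push_cast at h' ⊢
    linarith
  unfold fac
  rw [h1]
  have h2 : (0 : ℝ) < t + p - 1 := by linarith
  rw [div_div_eq_mul_div, mul_div_assoc', div_eq_iff h2.ne']
  linear_combination (m : ℝ) * hc

/-- **one source list.** -/
theorem kapv_eq {m s t M' den : ℕ} {j : ℤ} (hm : 0 < m) (ht : t + 1 + s = m) (ht1 : 1 ≤ t)
    (p : ℕ) : ∀ (l : List (List ℤ × List ℤ)) (i : ℤ),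
    ((t + p - 1).choose p : ℝ) * kapv s (1 / m) p l i =
      ∑ q ∈ range l.length, if 0 ≤ i + q then
        (wq t (i + q).toNat p * pev (l.getD q ([], [])).1 (1 / m) +
          if p = 0 then 0 else wq t (i + q).toNat (p - 1) * (m * pev (l.getD q ([], [])).2 (1 / m)))
        else 0
  | [], i => by simp [kapv]
  | c :: l, i => by
    have ih := kapv_eq (M' := M') (den := den) (j := j) hm ht ht1 p l (i + 1)
    rw [List.length_cons, sum_range_succ']
    unfold kapv
    have e1 : ∀ q : ℕ, (c :: l).getD (q + 1) ([], []) = l.getD q ([], []) := fun q => by simp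
    have e2 : (c :: l).getD 0 ([], []) = c := by simp
    rw [mul_add, ih]
    have e3 : ∀ q : ℕ, i + ((q + 1 : ℕ) : ℤ) = i + 1 + q := fun q => by push_cast; ring
    simp only [e1, e3]
    rw [add_comm]
    congr 1
    rw [e2]
    have e4 : i + ((0 : ℕ) : ℤ) = i := by simp
    rw [e4]
    split_ifs with h hp
    · obtain ⟨n, rfl⟩ := Int.eq_ofNat_of_zero_le h
      subst hp
      have e5 : ((n : ℤ)).toNat = n := by simp
      rw [e5, bin_cast]
      have e6 : fac s (1 / (m : ℝ)) 0 = 0 := by simp [fac]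
      rw [e6]
      unfold wq
      ring
    · obtain ⟨n, rfl⟩ := Int.eq_ofNat_of_zero_le h
      have e5 : ((n : ℤ)).toNat = n := by simp
      have h1 := fac_eq (p := p) hm ht ht1 (by omega)
      rw [e5, bin_cast, bin_cast]
      unfold wq
      linear_combination ((-1 : ℝ) ^ n * ((p - 1).choose n : ℝ) * pev c.2 (1 / m)) * h1
    · rw [bin_neg (not_le.1 h), bin_neg (not_le.1 h)]
      simp

/-- **the weights in terms of the moments.** -/
theorem kl_eq {cf : Cf} {m s t M' den : ℕ} {j : ℤ} (hm : 0 < m) (ht : t + 1 + s = m) (ht1 : 1 ≤ t)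
    (hden : 0 < den) (hM : (M' : ℤ) = m + 1 - j) (hM1 : 1 ≤ M') (p : ℕ) :
    kl t cf.v.length (vC cf m den) (tauC cf m den) j p * (M'.factorial / (M' + p).factorial) * den =
      Pd s (1 / m) j p * kap cf s (1 / m) j p := by
  have hden' : (den : ℝ) ≠ 0 := by exact_mod_cast hden.ne'
  have h1 : kl t cf.v.length (vC cf m den) (tauC cf m den) j p * den =
      ((t + p - 1).choose p : ℝ) * kap cf s (1 / m) j p := by
    unfold kl kap
    rw [mul_add, kapv_eq (M' := M') (den := den) (j := j) hm ht ht1 p cf.v (j - 1), add_mul, sum_mul]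
    have e3 : ∀ q : ℕ, (q : ℤ) - 1 + j = j - 1 + q := fun q => by ring
    congr 1
    · refine sum_congr rfl fun q _ => ?_
      rw [e3 q]
      split_ifs with h hp
      · rw [inner_two t _ (vC cf m den q) (fun p hp => vC_two hp)]
        subst hp
        rw [if_pos rfl, add_zero, add_zero]
        unfold vC
        rw [if_pos rfl]
        field_simp
      · rw [inner_two t _ (vC cf m den q) (fun p hp => vC_two hp), if_neg hp]
        unfold vC
        rw [if_pos rfl, if_neg (by norm_num), if_pos rfl]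
        field_simp
      · rw [zero_mul]
    · have h2 := tlw_cast t p (j - 1 + cf.v.length)
      rw [show ((cf.v.length : ℕ) : ℤ) - 1 + j = j - 1 + cf.v.length by ring, ← h2]
      unfold tauC
      field_simp
  rw [Pd_eq hm ht ht1 hM hM1 p]
  calc _ = (kl t cf.v.length (vC cf m den) (tauC cf m den) j p * den) *
        (M'.factorial / (M' + p).factorial) := by ring
    _ = _ := by rw [h1]; ring

end Pool.NV
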