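import Pool.Agent.Work.MP_46fa68_23.Mo4
import Pool.Agent.Work.MP_46fa68_35.Bot2

/-!
# The cone with error bars, the constant layer

`Rb Ea Ek Eb a k b`: the form `a X^2 + 2 b X Y + k Y^2` stays nonnegative after changes of `a`, `k`, `b` by at
most `Ea`, `Ek`, `Eb`.  Convex along segments (`Rb.seg`), decided in units by `Rb.of_units`.
-/

set_option autoImplicit false

open Finset

namespace Pool.NW

open Pool.NV Pool.OB Pool.JM

/-- cone condition with error bars -/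
def Rb (Ea Ek Eb a k b : ℝ) : Prop :=
  0 ≤ a - Ea ∧ 0 ≤ k - Ek ∧ (|b| + Eb) ^ 2 ≤ (a - Ea) * (k - Ek)

/-- the cone is convex -/
theorem cone_mix {A0 A1 K0 K1 p q v w : ℝ} (hv : 0 ≤ v) (hw : 0 ≤ w) (hA0 : 0 ≤ A0) (hA1 : 0 ≤ A1)
    (hK0 : 0 ≤ K0) (hK1 : 0 ≤ K1) (hp : 0 ≤ p) (hq : 0 ≤ q)
    (h0 : p ^ 2 ≤ A0 * K0) (h1 : q ^ 2 ≤ A1 * K1) :
    (v * p + w * q) ^ 2 ≤ (v * A0 + w * A1) * (v * K0 + w * K1) := by
  have hm : 2 * (p * q) ≤ A0 * K1 + A1 * K0 := by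
    have h2 : (2 * (p * q)) ^ 2 ≤ (A0 * K1 + A1 * K0) ^ 2 := by
      have h3 : p ^ 2 * q ^ 2 ≤ (A0 * K0) * (A1 * K1) :=
        mul_le_mul h0 h1 (sq_nonneg q) (mul_nonneg hA0 hK0)
      nlinarith [sq_nonneg (A0 * K1 - A1 * K0)]
    exact (sq_le_sq₀ (by positivity) (by positivity)).1 h2
  have e1 : v ^ 2 * p ^ 2 ≤ v ^ 2 * (A0 * K0) := mul_le_mul_of_nonneg_left h0 (sq_nonneg v)
  have e2 : w ^ 2 * q ^ 2 ≤ w ^ 2 * (A1 * K1) := mul_le_mul_of_nonneg_left h1 (sq_nonneg w)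
  have e3 : (v * w) * (2 * (p * q)) ≤ (v * w) * (A0 * K1 + A1 * K0) :=
    mul_le_mul_of_nonneg_left hm (mul_nonneg hv hw)
  nlinarith

theorem Rb.seg {Ea Ek Eb a0 a1 k0 k1 b0 b1 x0 x1 x : ℝ} (hEb : 0 ≤ Eb) (h0 : x0 ≤ x) (h1 : x ≤ x1)
    (H0 : Rb Ea Ek Eb (a0 + x0 * a1) (k0 + x0 * k1) (b0 + x0 * b1))
    (H1 : Rb Ea Ek Eb (a0 + x1 * a1) (k0 + x1 * k1) (b0 + x1 * b1)) :
    Rb Ea Ek Eb (a0 + x * a1) (k0 + x * k1) (b0 + x * b1) := by
  rcases eq_or_lt_of_le (h0.trans h1) with he | hlt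
  · have : x = x0 := le_antisymm (by rw [he]; exact h1) h0
    rw [this]
    exact H0
  obtain ⟨p1, p2, p3⟩ := H0
  obtain ⟨q1, q2, q3⟩ := H1
  have hd : 0 < x1 - x0 := by linarith
  obtain ⟨w, hwd⟩ : ∃ w, w = (x - x0) / (x1 - x0) := ⟨_, rfl⟩
  have hw0 : 0 ≤ w := by rw [hwd]; exact div_nonneg (by linarith) hd.le
  have hw1 : w ≤ 1 := by rw [hwd, div_le_one hd]; linarith
  have hx : x = (1 - w) * x0 + w * x1 := by
    have : w * (x1 - x0) = x - x0 := by rw [hwd, div_mul_cancel₀ _ hd.ne']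
    linarith
  have hv0 : 0 ≤ 1 - w := by linarith
  have ea : a0 + x * a1 - Ea = (1 - w) * (a0 + x0 * a1 - Ea) + w * (a0 + x1 * a1 - Ea) := by
    rw [hx]; ring
  have ek : k0 + x * k1 - Ek = (1 - w) * (k0 + x0 * k1 - Ek) + w * (k0 + x1 * k1 - Ek) := by
    rw [hx]; ring
  have eb : |b0 + x * b1| + Eb ≤ (1 - w) * (|b0 + x0 * b1| + Eb) + w * (|b0 + x1 * b1| + Eb) := by
    have e : b0 + x * b1 = (1 - w) * (b0 + x0 * b1) + w * (b0 + x1 * b1) := by rw [hx]; ring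
    have h2 : |b0 + x * b1| ≤ (1 - w) * |b0 + x0 * b1| + w * |b0 + x1 * b1| := by
      rw [e]
      refine (abs_add_le _ _).trans ?_
      rw [abs_mul, abs_mul, abs_of_nonneg hv0, abs_of_nonneg hw0]
    linarith
  refine ⟨?_, ?_, ?_⟩
  · rw [ea]; positivity
  · rw [ek]; positivity
  · have hb0 : 0 ≤ |b0 + x * b1| + Eb := by positivity
    refine (pow_le_pow_left₀ hb0 eb 2).trans ?_
    rw [ea, ek]
    exact cone_mix hv0 hw0 p1 q1 p2 q2 (by positivity) (by positivity) p3 q3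

theorem Rb.cone {Ea Ek Eb a k b a' k' b' : ℝ} (h : Rb Ea Ek Eb a k b) (ha : |a' - a| ≤ Ea)
    (hk : |k' - k| ≤ Ek) (hb : |b' - b| ≤ Eb) : 0 ≤ a' ∧ 0 ≤ k' ∧ b' ^ 2 ≤ a' * k' := by
  obtain ⟨h1, h2, h3⟩ := h
  have a1 : a - Ea ≤ a' := by have := (abs_le.1 ha).1; linarith
  have k1 : k - Ek ≤ k' := by have := (abs_le.1 hk).1; linarith
  refine ⟨h1.trans a1, h2.trans k1, ?_⟩
  have b1 : |b'| ≤ |b| + Eb := by
    have h4 : |b'| ≤ |b' - b| + |b| := by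
      have := abs_add_le (b' - b) b
      rwa [sub_add_cancel] at this
    linarith
  calc b' ^ 2 = |b'| ^ 2 := (sq_abs b').symm
    _ ≤ (|b| + Eb) ^ 2 := pow_le_pow_left₀ (abs_nonneg _) b1 2
    _ ≤ (a - Ea) * (k - Ek) := h3
    _ ≤ a' * k' := mul_le_mul a1 k1 h2 (h1.trans a1)

/-- the kernel test (units) -/
theorem Rb.of_units {A K Bv : PN} {a k b Ea Ek Eb : ℝ} {eA eK eB : ℕ} (hA : MemS a A) (hK : MemS k K)
    (hB : MemS b Bv) (hEa : Ea * (S : ℕ) ≤ eA) (hEk : Ek * (S : ℕ) ≤ eK) (hEb : Eb * (S : ℕ) ≤ eB)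
    (hEb0 : 0 ≤ Eb) (h1 : eA < loS A) (h2 : eK < loS K)
    (h3 : (abS Bv + eB) * (abS Bv + eB) ≤ (loS A - eA) * (loS K - eK)) : Rb Ea Ek Eb a k b := by
  have hS := S_posR
  have cA := loS_le hA (by omega)
  have cK := loS_le hK (by omega)
  have cB := le_abS hB
  have dA : (((loS A - eA : ℕ)) : ℝ) ≤ (a - Ea) * (S : ℕ) := by
    rw [Nat.cast_sub h1.le]
    linarith
  have dK : (((loS K - eK : ℕ)) : ℝ) ≤ (k - Ek) * (S : ℕ) := by
    rw [Nat.cast_sub h2.le]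
    linarith
  have dB : (|b| + Eb) * (S : ℕ) ≤ ((abS Bv + eB : ℕ) : ℝ) := by
    push_cast
    linarith
  have h3' : ((abS Bv + eB : ℕ) : ℝ) * ((abS Bv + eB : ℕ) : ℝ) ≤
      (((loS A - eA : ℕ)) : ℝ) * (((loS K - eK : ℕ)) : ℝ) := by exact_mod_cast h3
  have nA : 0 ≤ (a - Ea) * (S : ℕ) := (Nat.cast_nonneg _).trans dA
  have nK : 0 ≤ (k - Ek) * (S : ℕ) := (Nat.cast_nonneg _).trans dK
  refine ⟨nonneg_of_mul_nonneg_left nA hS, nonneg_of_mul_nonneg_left nK hS, ?_⟩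
  have hb0 : 0 ≤ (|b| + Eb) * (S : ℕ) := by positivity
  have h4 : ((|b| + Eb) * (S : ℕ)) ^ 2 ≤ ((a - Ea) * (S : ℕ)) * ((k - Ek) * (S : ℕ)) := by
    calc ((|b| + Eb) * (S : ℕ)) ^ 2 ≤ ((abS Bv + eB : ℕ) : ℝ) ^ 2 := pow_le_pow_left₀ hb0 dB 2
      _ = ((abS Bv + eB : ℕ) : ℝ) * ((abS Bv + eB : ℕ) : ℝ) := sq _
      _ ≤ _ := h3'
      _ ≤ _ := mul_le_mul dA dK (Nat.cast_nonneg _) nA
  have h5 : (|b| + Eb) ^ 2 * ((S : ℕ) : ℝ) ^ 2 ≤ ((a - Ea) * (k - Ek)) * ((S : ℕ) : ℝ) ^ 2 := by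
    calc (|b| + Eb) ^ 2 * ((S : ℕ) : ℝ) ^ 2 = ((|b| + Eb) * (S : ℕ)) ^ 2 := by ring
      _ ≤ _ := h4
      _ = _ := by ring
  exact le_of_mul_le_mul_right h5 (by positivity)

/-! ### the constant layer -/

theorem kapv_const {u : ℤ} {x : ℝ} (d : ℕ) : ∀ (l : List (List ℤ × List ℤ)) (i : ℤ),
    i + l.length ≤ 0 → kapv u x d l i = 0
  | [], _, _ => rfl
  | c :: l, i, h => by
    have hlen : ((c :: l).length : ℤ) = l.length + 1 := by
      rw [List.length_cons]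
      push_cast
      ring
    rw [hlen] at h
    have hi : i < 0 := by
      have : (0 : ℤ) ≤ l.length := Int.natCast_nonneg _
      omega
    unfold kapv
    rw [bin_neg hi, bin_neg hi, kapv_const d l (i + 1) (by omega)]
    simp

theorem tlw_const {i : ℤ} (h : i ≤ 0) (d : ℕ) : tlw i d = if d = 0 then 1 else 0 := by
  rcases i with i | i
  · have hi : i = 0 := by
      have h2 : (i : ℤ) ≤ 0 := h
      omega
    subst hi
    rfl
  · rfl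

/-- the constant layer -/
theorem kap_const {cf : Cf} {u : ℤ} {x : ℝ} {j : ℤ} (h : j - 1 + cf.v.length ≤ 0) (d : ℕ) :
    kap cf u x j d = if d = 0 then pev cf.tau x else 0 := by
  unfold kap
  rw [kapv_const d cf.v (j - 1) h, tlw_const h d]
  split_ifs <;> simp

theorem mW_const {cf : Cf} {u : ℤ} {x : ℝ} {j : ℤ} (h : j - 1 + cf.v.length ≤ 0) (w : ℕ → ℕ) :
    mW cf u x j w = pev cf.tau x * w 0 := by
  unfold mW
  rw [tsum_eq_single 0 (fun d hd => by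
    unfold trW
    rw [kap_const h, if_neg hd]
    simp)]
  unfold trW
  rw [kap_const h, if_pos rfl]
  simp [Pd]

theorem mB_const {cf : Cf} {u : ℤ} {x : ℝ} {j : ℤ} (h : j - 1 + cf.v.length ≤ 0) (b : ℝ) (w : ℕ → ℕ) :
    mB cf u x j b w = |pev cf.tau x| * w 0 := by
  unfold mB
  rw [tsum_eq_single 0 (fun d hd => by
    unfold trB
    rw [kap_const h, if_neg hd]
    simp)]
  unfold trB
  rw [kap_const h, if_pos rfl]
  simp [Pd]

theorem lay_const {cf : Cf} {u : ℤ} {x : ℝ} {X : NI} {j : ℤ} {b : ℝ} (hx : Mem x X)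
    (h : j - 1 + cf.v.length ≤ 0) :
    LyOk cf u x j b ⟨nrm (pevI cf.tau X), zeroS, zeroS, 0, 0, 0⟩ := by
  constructor
  · rw [mW_const h]
    have e : pev cf.tau x * ((w0 0 : ℕ) : ℝ) = pev cf.tau x := by simp [w0]
    rw [e]
    exact memS_nrm (memS_pev hx cf.tau)
  · rw [mW_const h]
    have e : pev cf.tau x * ((w1 0 : ℕ) : ℝ) = 0 := by simp [w1]
    rw [e]
    exact memS_zero
  · rw [mW_const h]
    have e : pev cf.tau x * ((w2 0 : ℕ) : ℝ) = 0 := by simp [w2]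
    rw [e]
    exact memS_zero
  · rw [mB_const h]
    simp [w1]
  · rw [mB_const h]
    simp [w2]
  · rw [mB_const h]
    simp [w3]

end Pool.NW
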