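import Pool.Agent.Work.MP_46fa68_23.Mo4
import Pool.Agent.Work.MP_46fa68_35.Bot2

/-! # The values of the two rows in terms of the moments (helper31) -/

set_option autoImplicit false

open Finset

namespace Pool.NW

open Pool.NV Pool.OB Pool.JM

theorem row1_val {cf : Cf} {m t den k L b s : ℕ} {u : ℤ} {B : Finset ℕ} (hm : 0 < m)
    (ht : (t : ℤ) + u = m) (ht1 : 1 ≤ t) (hden : 0 < den) (hu : u ≤ 29) (h : Two k L b s B)
    (hR : Rng u (1 / m) ((m : ℤ) - L)) {E δ1 kc μ3 β : ℝ} (hE : ee B k L b ≤ E)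
    (hδ : dl B k L b ≤ δ1) (hkc : E * (1 + E) ^ 2 ≤ kc) (h3 : kc * δ1 ≤ μ3)
    (h3' : δ1 ≤ μ3 * ((L : ℝ) + 3)) (hβ : 1 + E ≤ β) (hβ2 : β ≤ 5 / 4) :
    |HIx (k + 2) m t cf.v.length (vC cf m den) (tauC cf m den) B (k + 1 + L) * den -
      (mW cf u (1 / m) ((m : ℤ) - L) w0 + dl B k L b * mW cf u (1 / m) ((m : ℤ) - L) w1 +
        kp B k L b * mW cf u (1 / m) ((m : ℤ) - L) w2)| ≤
      E * μ3 * mB cf u (1 / m) ((m : ℤ) - L) β w3 := by
  have he0 := ee_nonneg h
  have hE0 : 0 ≤ E := he0.trans hE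
  obtain ⟨hk0, hk1⟩ := kp_bounds h
  have hd0 : 0 ≤ dl B k L b := by
    have h1 := dl_lower h
    have h2 := two_D h
    have h4 : 0 ≤ 1 / ((L : ℝ) + 1 - b) := by positivity
    linarith
  have hd1 : 0 ≤ δ1 := hd0.trans hδ
  have hkμ : kp B k L b ≤ μ3 := by
    calc kp B k L b ≤ dl B k L b * ee B k L b * (1 + ee B k L b) ^ 2 := hk1
      _ = dl B k L b * (ee B k L b * (1 + ee B k L b) ^ 2) := by ring
      _ ≤ δ1 * (E * (1 + E) ^ 2) := by
          refine mul_le_mul hδ ?_ (by positivity) hd1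
          refine mul_le_mul hE ?_ (by positivity) hE0
          exact pow_le_pow_left₀ (by linarith) (by linarith) 2
      _ ≤ δ1 * kc := mul_le_mul_of_nonneg_left hkc hd1
      _ = kc * δ1 := by ring
      _ ≤ μ3 := h3
  have hμ0 : 0 ≤ μ3 := hk0.trans hkμ
  rw [HIx_row1 hm ht ht1 hden h]
  have key := row_lin (cf := cf) hR hu (β := β) (by linarith) hβ2 (A := dl B k L b)
    (Bq := kp B k L b) (c1 := 0) (c2 := 0) (c3 := E * μ3) (g := gs B k L b) (by
      intro d
      refine (gs_second h hkμ (hδ.trans h3') d).trans ?_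
      rw [w3_cast]
      have hq := qqq_nonneg d
      have e1 : (0 : ℝ) * (w1 d : ℕ) + 0 * (w2 d : ℕ) + E * μ3 * ((d : ℝ) * (d - 1) * (d - 2)) =
          (d : ℝ) * (d - 1) * (d - 2) * (E * μ3) := by ring
      rw [e1]
      refine mul_le_mul (mul_le_mul_of_nonneg_left (mul_le_mul_of_nonneg_right hE hμ0) hq) ?_
        (by positivity) (mul_nonneg hq (mul_nonneg hE0 hμ0))
      exact pow_le_pow_left₀ (by linarith) (by linarith) d)
  rw [zero_mul, zero_mul, zero_add, zero_add] at key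
  exact key

theorem abs_one_sub {y : ℝ} (h0 : 0 ≤ y) (h1 : y ≤ 1) {q : ℝ} (hq : 0 ≤ q) (c : ℝ)
    (hc : c ≤ 2) (_ : 0 ≤ c) : |1 - q * y| ≤ 1 + (q - c) * y ∨ q < c := by
  by_cases h : q < c
  · exact Or.inr h
  · left
    rw [not_lt] at h
    have h2 : 0 ≤ (q - c) * y := mul_nonneg (by linarith) h0
    have h3 : 0 ≤ q * y := mul_nonneg hq h0
    rw [abs_le]
    constructor
    · nlinarith
    · linarith

theorem row2_val {cf : Cf} {m t den k L b s : ℕ} {u : ℤ} {B : Finset ℕ} (hm : 0 < m)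
    (ht : (t : ℤ) + u = m) (ht1 : 1 ≤ t) (hden : 0 < den) (hu : u ≤ 29) (hb : 1 ≤ b)
    (h : Two k L b s B) (hR : Rng u (1 / m) ((m : ℤ) + 1 - b)) {E μ2 β y : ℝ}
    (hy : y = 1 / ((L : ℝ) + 1 - b)) (hE : ep B k L b ≤ E) (h2 : E ≤ μ2)
    (h2' : 1 ≤ μ2 * ((b : ℝ) + 1)) (hβ : 1 + E ≤ β) (hβ2 : β ≤ 5 / 4) :
    |HIx (k + 2) m t cf.v.length (vC cf m den) (tauC cf m den) B (k + b) * den -
      (mW cf u (1 / m) ((m : ℤ) + 1 - b) w0 - y * mW cf u (1 / m) ((m : ℤ) + 1 - b) w1 +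
        ep B k L b * ((1 - y) * mW cf u (1 / m) ((m : ℤ) + 1 - b) w1 -
          y * mW cf u (1 / m) ((m : ℤ) + 1 - b) w2))| ≤
      E * μ2 * (mB cf u (1 / m) ((m : ℤ) + 1 - b) β w2 +
        y * mB cf u (1 / m) ((m : ℤ) + 1 - b) β w3) := by
  have he0 := ep_nonneg h
  have hE0 : 0 ≤ E := he0.trans hE
  have hμ0 : 0 ≤ μ2 := hE0.trans h2
  have hD := two_D h
  have hy0 : 0 ≤ y := by rw [hy]; positivity
  have hy1 : y ≤ 1 := by
    rw [hy, div_le_one (by linarith)]
    exact hD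
  rw [HIx_row2 hm ht ht1 hden hb h]
  set ε := ep B k L b with hε
  have key := row_lin (cf := cf) hR hu (β := β) (by linarith) hβ2 (A := -y + ε * (1 - y))
    (Bq := -(y * ε)) (c1 := 0) (c2 := E * μ2) (c3 := E * μ2 * y) (g := hs B k L b) (by
      intro d
      have hd0 : (0 : ℝ) ≤ d := Nat.cast_nonneg d
      have h5 := th_first h (hE.trans h2) h2' d
      rw [← hε] at h5
      set r := Th2 B k L b d - (1 + d * ε) with hr
      have e1 : hs B k L b d - (1 + d * (-y + ε * (1 - y)) + d * (d - 1) * -(y * ε)) =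
          (1 - d * y) * r := by
        unfold hs
        rw [hr, hy]
        ring
      rw [e1, abs_mul, w2_cast, w3_cast]
      have hqq := qq_nonneg d
      have h6 : |r| ≤ (d : ℝ) * (d - 1) * (E * μ2) * β ^ d := by
        refine h5.trans ?_
        refine mul_le_mul (mul_le_mul_of_nonneg_left (mul_le_mul_of_nonneg_right hE hμ0) hqq) ?_
          (by positivity) (mul_nonneg hqq (mul_nonneg hE0 hμ0))
        exact pow_le_pow_left₀ (by linarith) (by linarith) d
      have hβ0 : 0 ≤ β ^ d := pow_nonneg (by linarith) d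
      rcases abs_one_sub hy0 hy1 hd0 2 le_rfl (by norm_num) with h7 | h7
      · have h8 : 0 ≤ 1 + ((d : ℝ) - 2) * y := (abs_nonneg _).trans h7
        calc |1 - d * y| * |r| ≤ (1 + ((d : ℝ) - 2) * y) * ((d : ℝ) * (d - 1) * (E * μ2) * β ^ d) :=
              mul_le_mul h7 h6 (abs_nonneg _) h8
          _ = _ := by ring
      · -- d = 0 or d = 1
        have h8 : (d : ℝ) * (d - 1) = 0 := by
          have h9 : d < 2 := by exact_mod_cast h7
          interval_cases d <;> norm_num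
        rw [h8, zero_mul, zero_mul] at h6
        rw [h8, zero_mul]
        have h10 : |r| = 0 := le_antisymm h6 (abs_nonneg _)
        rw [h10, mul_zero]
        exact le_of_eq (by ring))
  have e2 : mW cf u (1 / m) ((m : ℤ) + 1 - b) w0 - y * mW cf u (1 / m) ((m : ℤ) + 1 - b) w1 +
        ε * ((1 - y) * mW cf u (1 / m) ((m : ℤ) + 1 - b) w1 -
          y * mW cf u (1 / m) ((m : ℤ) + 1 - b) w2) =
      mW cf u (1 / m) ((m : ℤ) + 1 - b) w0 +
        (-y + ε * (1 - y)) * mW cf u (1 / m) ((m : ℤ) + 1 - b) w1 +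
        -(y * ε) * mW cf u (1 / m) ((m : ℤ) + 1 - b) w2 := by ring
  rw [e2]
  refine key.trans (le_of_eq ?_)
  ring

theorem row2_val1 {cf : Cf} {m t den k L b s : ℕ} {u : ℤ} {B : Finset ℕ} (hm : 0 < m)
    (ht : (t : ℤ) + u = m) (ht1 : 1 ≤ t) (hden : 0 < den) (hu : u ≤ 29) (hb : 1 ≤ b)
    (h : Two k L b s B) (hs : s ≤ b) (hR : Rng u (1 / m) ((m : ℤ) + 1 - b)) {η β y : ℝ}
    (hy : y = 1 / ((L : ℝ) + 1 - b)) (hη : s / (((b : ℝ) + 1 - s) * (b + 1)) ≤ η)
    (hβ : 1 ≤ β) (hβ2 : β ≤ 5 / 4) :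
    |HIx (k + 2) m t cf.v.length (vC cf m den) (tauC cf m den) B (k + b) * den -
      (mW cf u (1 / m) ((m : ℤ) + 1 - b) w0 - y * mW cf u (1 / m) ((m : ℤ) + 1 - b) w1)| ≤
      η * (mB cf u (1 / m) ((m : ℤ) + 1 - b) β w1 +
        y * mB cf u (1 / m) ((m : ℤ) + 1 - b) β w2) := by
  have hD := two_D h
  have hy0 : 0 ≤ y := by rw [hy]; positivity
  have hy1 : y ≤ 1 := by
    rw [hy, div_le_one (by linarith)]
    exact hD
  have hsR : (s : ℝ) ≤ b := by exact_mod_cast hs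
  have hb0 : (0 : ℝ) ≤ b := Nat.cast_nonneg b
  have hs0 : (0 : ℝ) ≤ s := Nat.cast_nonneg s
  have hbs : 0 < (b : ℝ) + 1 - s := by linarith
  have hη0 : 0 ≤ η := le_trans (by positivity) hη
  rw [HIx_row2 hm ht ht1 hden hb h]
  have key := row_lin (cf := cf) hR hu (β := β) (by linarith) hβ2 (A := -y)
    (Bq := 0) (c1 := η) (c2 := η * y) (c3 := 0) (g := Pool.NW.hs B k L b) (by
      intro d
      have hd0 : (0 : ℝ) ≤ d := Nat.cast_nonneg d
      have h5 := h.one_le_Th2 d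
      have h6 := h.Th2_le_row hs d
      set r := Th2 B k L b d - 1 with hr
      have hr0 : 0 ≤ r := by rw [hr]; linarith
      have hr1 : r ≤ d * η := by
        have h7 : (1 + (d : ℝ) / ((b : ℝ) + 1 - s)) / (1 + (d : ℝ) / ((b : ℝ) + 1)) - 1 ≤
            d * (s / (((b : ℝ) + 1 - s) * (b + 1))) := by
          have n0 : 0 < 1 + (d : ℝ) / ((b : ℝ) + 1) := by positivity
          rw [sub_le_iff_le_add, div_le_iff₀ n0]
          have n1 : (b : ℝ) + 1 - s ≠ 0 := hbs.ne'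
          have n2 : (b : ℝ) + 1 ≠ 0 := by positivity
          have e3 : (d : ℝ) / ((b : ℝ) + 1 - s) = d / ((b : ℝ) + 1) +
              d * (s / (((b : ℝ) + 1 - s) * (b + 1))) := by
            field_simp
            ring
          rw [e3]
          have n3 : 0 ≤ (d : ℝ) * (s / (((b : ℝ) + 1 - s) * (b + 1))) := by positivity
          have n4 : 0 ≤ (d : ℝ) / ((b : ℝ) + 1) := by positivity
          nlinarith
        have h8 : (d : ℝ) * (s / (((b : ℝ) + 1 - s) * (b + 1))) ≤ d * η :=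
          mul_le_mul_of_nonneg_left hη hd0
        rw [hr]
        linarith
      have e1 : Pool.NW.hs B k L b d - (1 + d * -y + d * (d - 1) * 0) = (1 - d * y) * r := by
        unfold Pool.NW.hs
        rw [hr, hy]
        ring
      rw [e1, abs_mul, abs_of_nonneg hr0, w2_cast]
      have hβ1 : 1 ≤ β ^ d := one_le_pow₀ hβ
      have e4 : ((w1 d : ℕ) : ℝ) = d := by
        unfold w1
        rfl
      rw [e4]
      rcases abs_one_sub hy0 hy1 hd0 1 (by norm_num) zero_le_one with h7 | h7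
      · have h8 : 0 ≤ 1 + ((d : ℝ) - 1) * y := (abs_nonneg _).trans h7
        have h9 : |1 - d * y| * r ≤ (1 + ((d : ℝ) - 1) * y) * (d * η) :=
          mul_le_mul h7 hr1 hr0 h8
        have h10 : 0 ≤ (1 + ((d : ℝ) - 1) * y) * (d * η) := (mul_nonneg (abs_nonneg _) hr0).trans h9
        calc |1 - d * y| * r ≤ (1 + ((d : ℝ) - 1) * y) * (d * η) := h9
          _ ≤ (1 + ((d : ℝ) - 1) * y) * (d * η) * β ^ d := le_mul_of_one_le_right h10 hβ1
          _ = _ := by ring
      · have h9 : d = 0 := by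
          have h10 : d < 1 := by exact_mod_cast h7
          omega
        have h11 : r ≤ 0 := by
          rw [h9] at hr1
          simpa [h9] using hr1
        have h12 : r = 0 := le_antisymm h11 hr0
        rw [h12, mul_zero, h9]
        simp)
  have e2 : mW cf u (1 / m) ((m : ℤ) + 1 - b) w0 - y * mW cf u (1 / m) ((m : ℤ) + 1 - b) w1 =
      mW cf u (1 / m) ((m : ℤ) + 1 - b) w0 + -y * mW cf u (1 / m) ((m : ℤ) + 1 - b) w1 +
        0 * mW cf u (1 / m) ((m : ℤ) + 1 - b) w2 := by ring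
  rw [e2]
  refine key.trans (le_of_eq ?_)
  ring

end Pool.NW
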