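import Pool.Agent.Work.MP_46fa68_23.Mo4
import Pool.Agent.Work.MP_46fa68_35.Bot2

/-!
# Mo5C: the parameters of a class

`m1 = m`, `j1 = m - L`, `N = 2 m`, `D = L + 1 - b`.
-/

set_option autoImplicit false

open Finset

namespace Pool.NW

open Pool.NV Pool.OB Pool.JM

/-- lower end of `dl` -/
theorem dl_ge {k L b s : ℕ} {B : Finset ℕ} (h : Two k L b s B) :
    1 / ((L : ℝ) + 1) ≤ dl B k L b := by
  refine le_trans ?_ (dl_lower h)
  have hD := two_D h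
  have hb : (0 : ℝ) ≤ b := Nat.cast_nonneg b
  exact one_div_le_one_div_of_le (by linarith) (by linarith)

/-- the upper end of `dl` -/
theorem dl_le {k L b s D0 : ℕ} {B : Finset ℕ} (h : Two k L b s B) {E : ℝ} (hE : ee B k L b ≤ E)
    (hD0 : 1 ≤ D0) (hD : D0 ≤ L + 1 - b) : dl B k L b ≤ (1 + 1 / D0) * (1 + E) - 1 := by
  have h1 := dl_eq B k L b
  have hbL := h.hbL
  have hD0R : (1 : ℝ) ≤ D0 := by exact_mod_cast hD0
  have hDR : (D0 : ℝ) ≤ (L : ℝ) + 1 - b := by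
    have h2 : D0 + b ≤ L + 1 := by omega
    have h3 : ((D0 : ℝ) + b) ≤ (L : ℝ) + 1 := by exact_mod_cast h2
    linarith
  have h4 : 1 / ((L : ℝ) + 1 - b) ≤ 1 / D0 := one_div_le_one_div_of_le (by linarith) hDR
  have he := ee_nonneg h
  have h5 : 0 ≤ 1 / ((L : ℝ) + 1 - b) := by
    have : 0 < (L : ℝ) + 1 - b := by linarith
    positivity
  have h6 : (1 + 1 / ((L : ℝ) + 1 - b)) * (1 + ee B k L b) ≤ (1 + 1 / D0) * (1 + E) :=
    mul_le_mul (by linarith) (by linarith) (by linarith) (by linarith)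
  linarith

theorem ee_le_of {e x z : ℝ} (he : 0 ≤ e) (h : (1 + e) * (1 - x) ≤ 1) (hxz : x ≤ z) (hz : z < 1) :
    e ≤ z / (1 - z) := by
  refine e_of_z (le_trans ?_ h) hz
  exact mul_le_mul_of_nonneg_left (by linarith) (by linarith)

theorem ee_le_z {k L b s : ℕ} {B : Finset ℕ} (h : Two k L b s B) {z : ℝ} (hz : z < 1)
    (h1 : s / (((L : ℝ) + 2 - b) * (L + 3)) ≤ z ∨ (s ≤ L + 1 ∧ s / (((L : ℝ) + 2 - s) * (L + 3)) ≤ z)) :
    ee B k L b ≤ z / (1 - z) := by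
  rcases h1 with h1 | ⟨hs, h1⟩
  · exact ee_le_of (ee_nonneg h) (ee_le h) h1 hz
  · exact ee_le_of (ee_nonneg h) (ee_le' h hs) h1 hz

/-- far class: `L + b + s = 2 m`, `D ≥ D0` -/
theorem ee_le_far {k L b s m D0 : ℕ} {B : Finset ℕ} (h : Two k L b s B) (hN : L + b + s = 2 * m)
    (hD0 : 1 ≤ D0) (hD : D0 ≤ L + 1 - b) {r z : ℝ} (hz : z < 1) (hr1 : 1 ≤ r)
    (hr2 : (D0 : ℝ) + 2 * ((m : ℝ) - L) - 1 ≤ r * (D0 + 1)) (h1 : r / ((L : ℝ) + 3) ≤ z) :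
    ee B k L b ≤ z / (1 - z) := by
  refine ee_le_of (ee_nonneg h) (ee_le h) ?_ hz
  have hbL := h.hbL
  have hD0R : (1 : ℝ) ≤ D0 := by exact_mod_cast hD0
  have hDR : (D0 : ℝ) ≤ (L : ℝ) + 1 - b := by
    have h2 : D0 + b ≤ L + 1 := by omega
    have h3 : ((D0 : ℝ) + b) ≤ (L : ℝ) + 1 := by exact_mod_cast h2
    linarith
  have hsR : (L : ℝ) + b + s = 2 * m := by exact_mod_cast hN
  have hs : (s : ℝ) ≤ r * ((L : ℝ) + 2 - b) := by
    have e1 : r * ((L : ℝ) + 2 - b) = r * (D0 + 1) + r * ((L : ℝ) + 1 - b - D0) := by ring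
    have e2 : (L : ℝ) + 1 - b - D0 ≤ r * ((L : ℝ) + 1 - b - D0) := by nlinarith
    linarith
  refine le_trans ?_ h1
  have p1 : (0 : ℝ) < (L : ℝ) + 2 - b := by linarith
  have p2 : (0 : ℝ) < (L : ℝ) + 3 := by positivity
  rw [div_le_div_iff₀ (mul_pos p1 p2) p2]
  calc (s : ℝ) * ((L : ℝ) + 3) ≤ r * ((L : ℝ) + 2 - b) * ((L : ℝ) + 3) :=
        mul_le_mul_of_nonneg_right hs p2.le
    _ = r * (((L : ℝ) + 2 - b) * (L + 3)) := by ring

/-- `kp = μ kc dl` with `μ ∈ [0,1]` -/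
theorem exists_mu {k L b s : ℕ} {B : Finset ℕ} (h : Two k L b s B) {E kc : ℝ} (hE : ee B k L b ≤ E)
    (hkc : E * (1 + E) ^ 2 ≤ kc) :
    ∃ μ : ℝ, 0 ≤ μ ∧ μ ≤ 1 ∧ kp B k L b = μ * (kc * dl B k L b) := by
  obtain ⟨k1, k2⟩ := kp_bounds h
  have he := ee_nonneg h
  have hdl : 0 < dl B k L b := by
    have h1 := dl_ge h
    have h2 : (0 : ℝ) < 1 / ((L : ℝ) + 1) := by positivity
    linarith
  have h3 : ee B k L b * (1 + ee B k L b) ^ 2 ≤ kc := by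
    refine le_trans ?_ hkc
    exact mul_le_mul hE (pow_le_pow_left₀ (by linarith) (by linarith) 2) (by positivity)
      (by linarith)
  have h4 : kp B k L b ≤ kc * dl B k L b := by
    calc kp B k L b ≤ dl B k L b * ee B k L b * (1 + ee B k L b) ^ 2 := k2
      _ = (ee B k L b * (1 + ee B k L b) ^ 2) * dl B k L b := by ring
      _ ≤ kc * dl B k L b := mul_le_mul_of_nonneg_right h3 hdl.le
  have h5 : 0 ≤ kc * dl B k L b := k1.trans h4
  rcases eq_or_lt_of_le h5 with h6 | h6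
  · refine ⟨0, le_rfl, zero_le_one, ?_⟩
    rw [zero_mul]
    rw [← h6] at h4
    exact le_antisymm h4 k1
  · refine ⟨kp B k L b / (kc * dl B k L b), div_nonneg k1 h5, (div_le_one h6).2 h4, ?_⟩
    rw [div_mul_cancel₀ _ h6.ne']

end Pool.NW
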