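import Pool.Agent.Work.MP_46fa68_23.Mo4
import Pool.Agent.Work.MP_46fa68_35.Bot2

/-! STATEMENTS ONLY (to be proved in Mo5A, Mo5B, Mo5C) -/

set_option autoImplicit false

open Finset

namespace Pool.NW

open Pool.NV Pool.OB Pool.JM

/-! ### Mo5A (helper82): the cone with error bars -/

/-- cone condition with error bars -/
def Rb (Ea Ek Eb a k b : ℝ) : Prop :=
  0 ≤ a - Ea ∧ 0 ≤ k - Ek ∧ (|b| + Eb) ^ 2 ≤ (a - Ea) * (k - Ek)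

theorem Rb.seg {Ea Ek Eb a0 a1 k0 k1 b0 b1 x0 x1 x : ℝ} (hEb : 0 ≤ Eb) (h0 : x0 ≤ x) (h1 : x ≤ x1)
    (H0 : Rb Ea Ek Eb (a0 + x0 * a1) (k0 + x0 * k1) (b0 + x0 * b1))
    (H1 : Rb Ea Ek Eb (a0 + x1 * a1) (k0 + x1 * k1) (b0 + x1 * b1)) :
    Rb Ea Ek Eb (a0 + x * a1) (k0 + x * k1) (b0 + x * b1) := sorry

theorem Rb.cone {Ea Ek Eb a k b a' k' b' : ℝ} (h : Rb Ea Ek Eb a k b) (ha : |a' - a| ≤ Ea)
    (hk : |k' - k| ≤ Ek) (hb : |b' - b| ≤ Eb) : 0 ≤ a' ∧ 0 ≤ k' ∧ b' ^ 2 ≤ a' * k' := sorry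

/-- the kernel test (units): `la = loS A - eA` etc. -/
theorem Rb.of_units {A K Bv : PN} {a k b Ea Ek Eb : ℝ} {eA eK eB : ℕ} (hA : MemS a A) (hK : MemS k K)
    (hB : MemS b Bv) (hEa : Ea * (S : ℕ) ≤ eA) (hEk : Ek * (S : ℕ) ≤ eK) (hEb : Eb * (S : ℕ) ≤ eB)
    (hEb0 : 0 ≤ Eb) (h1 : eA < loS A) (h2 : eK < loS K)
    (h3 : (abS Bv + eB) * (abS Bv + eB) ≤ (loS A - eA) * (loS K - eK)) :
    Rb Ea Ek Eb a k b := sorry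

/-- the constant layer -/
theorem kap_const {cf : Cf} {u : ℤ} {x : ℝ} {j : ℤ} (h : j - 1 + cf.v.length ≤ 0) (d : ℕ) :
    kap cf u x j d = if d = 0 then pev cf.tau x else 0 := sorry

theorem lay_const {cf : Cf} {u : ℤ} {x : ℝ} {X : NI} {j : ℤ} {b : ℝ} (hx : Mem x X)
    (h : j - 1 + cf.v.length ≤ 0) :
    LyOk cf u x j b ⟨nrm (pevI cf.tau X), zeroS, zeroS, 0, 0, 0⟩ := sorry

/-! ### Mo5B (helper31): the values of the two rows -/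

theorem row1_val {cf : Cf} {m t den k L b s : ℕ} {u : ℤ} {B : Finset ℕ} (hm : 0 < m)
    (ht : (t : ℤ) + u = m) (ht1 : 1 ≤ t) (hden : 0 < den) (hu : u ≤ 29) (h : Two k L b s B)
    (hR : Rng u (1 / m) ((m : ℤ) - L)) {E δ1 kc μ3 β : ℝ} (hE : ee B k L b ≤ E)
    (hδ : dl B k L b ≤ δ1) (hkc : E * (1 + E) ^ 2 ≤ kc) (h3 : kc * δ1 ≤ μ3)
    (h3' : δ1 ≤ μ3 * ((L : ℝ) + 3)) (hβ : 1 + E ≤ β) (hβ2 : β ≤ 5 / 4) :
    |HIx (k + 2) m t cf.v.length (vC cf m den) (tauC cf m den) B (k + 1 + L) * den -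
      (mW cf u (1 / m) ((m : ℤ) - L) w0 + dl B k L b * mW cf u (1 / m) ((m : ℤ) - L) w1 +
        kp B k L b * mW cf u (1 / m) ((m : ℤ) - L) w2)| ≤
      E * μ3 * mB cf u (1 / m) ((m : ℤ) - L) β w3 := sorry

theorem row2_val {cf : Cf} {m t den k L b s : ℕ} {u : ℤ} {B : Finset ℕ} (hm : 0 < m)
    (ht : (t : ℤ) + u = m) (ht1 : 1 ≤ t) (hden : 0 < den) (hu : u ≤ 29) (hb : 1 ≤ b)
    (h : Two k L b s B) (hR : Rng u (1 / m) ((m : ℤ) + 1 - b)) {E μ2 β y : ℝ}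
    (hy : y = 1 / ((L : ℝ) + 1 - b)) (hE : ep B k L b ≤ E) (h2 : E ≤ μ2)
    (h2' : 1 ≤ μ2 * ((b : ℝ) + 1)) (hβ : 1 + E ≤ β) (hβ2 : β ≤ 5 / 4) :
    |HIx (k + 2) m t cf.v.length (vC cf m den) (tauC cf m den) B (k + b) * den -
      (mW cf u (1 / m) ((m : ℤ) + 1 - b) w0 - y * mW cf u (1 / m) ((m : ℤ) + 1 - b) w1 +
        ep B k L b * ((1 - y) * mW cf u (1 / m) ((m : ℤ) + 1 - b) w1 -
          y * mW cf u (1 / m) ((m : ℤ) + 1 - b) w2))| ≤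
      E * μ2 * (mB cf u (1 / m) ((m : ℤ) + 1 - b) β w2 +
        y * mB cf u (1 / m) ((m : ℤ) + 1 - b) β w3) := sorry

theorem row2_val1 {cf : Cf} {m t den k L b s : ℕ} {u : ℤ} {B : Finset ℕ} (hm : 0 < m)
    (ht : (t : ℤ) + u = m) (ht1 : 1 ≤ t) (hden : 0 < den) (hu : u ≤ 29) (hb : 1 ≤ b)
    (h : Two k L b s B) (hs : s ≤ b) (hR : Rng u (1 / m) ((m : ℤ) + 1 - b)) {η β y : ℝ}
    (hy : y = 1 / ((L : ℝ) + 1 - b)) (hη : s / (((b : ℝ) + 1 - s) * (b + 1)) ≤ η)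
    (hβ : 1 ≤ β) (hβ2 : β ≤ 5 / 4) :
    |HIx (k + 2) m t cf.v.length (vC cf m den) (tauC cf m den) B (k + b) * den -
      (mW cf u (1 / m) ((m : ℤ) + 1 - b) w0 - y * mW cf u (1 / m) ((m : ℤ) + 1 - b) w1)| ≤
      η * (mB cf u (1 / m) ((m : ℤ) + 1 - b) β w1 +
        y * mB cf u (1 / m) ((m : ℤ) + 1 - b) β w2) := sorry

/-! ### Mo5C (helper35): the parameters of a class.  `m1 = m`, `j1 = m - L`, `N = 2 m`, `D = L + 1 - b` -/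

/-- lower end of `dl` -/
theorem dl_ge {k L b s : ℕ} {B : Finset ℕ} (h : Two k L b s B) : 1 / ((L : ℝ) + 1) ≤ dl B k L b := sorry

/-- `z ≥ s/((D+1)(L+3))` or `z ≥ s/((L+2-s)(L+3))` gives `ee ≤ z/(1-z)`, and the upper end of `dl` -/
theorem dl_le {k L b s D0 : ℕ} {B : Finset ℕ} (h : Two k L b s B) {E : ℝ} (hE : ee B k L b ≤ E)
    (hD0 : 1 ≤ D0) (hD : D0 ≤ L + 1 - b) : dl B k L b ≤ (1 + 1 / D0) * (1 + E) - 1 := sorry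

theorem ee_le_z {k L b s : ℕ} {B : Finset ℕ} (h : Two k L b s B) {z : ℝ} (hz : z < 1)
    (h1 : s / (((L : ℝ) + 2 - b) * (L + 3)) ≤ z ∨ (s ≤ L + 1 ∧ s / (((L : ℝ) + 2 - s) * (L + 3)) ≤ z)) :
    ee B k L b ≤ z / (1 - z) := sorry

/-- far class: `L + b + s = 2 m`, `D ≥ D0` -/
theorem ee_le_far {k L b s m D0 : ℕ} {B : Finset ℕ} (h : Two k L b s B) (hN : L + b + s = 2 * m)
    (hD0 : 1 ≤ D0) (hD : D0 ≤ L + 1 - b) {r z : ℝ} (hz : z < 1) (hr1 : 1 ≤ r)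
    (hr2 : (D0 : ℝ) + 2 * ((m : ℝ) - L) - 1 ≤ r * (D0 + 1)) (h1 : r / ((L : ℝ) + 3) ≤ z) :
    ee B k L b ≤ z / (1 - z) := sorry

/-- `kp = μ kc dl` with `μ ∈ [0,1]` -/
theorem exists_mu {k L b s : ℕ} {B : Finset ℕ} (h : Two k L b s B) {E kc : ℝ} (hE : ee B k L b ≤ E)
    (hkc : E * (1 + E) ^ 2 ≤ kc) : ∃ μ : ℝ, 0 ≤ μ ∧ μ ≤ 1 ∧ kp B k L b = μ * (kc * dl B k L b) := sorry

end Pool.NW
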