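import Pool.Agent.Work.MP_46fa68_23.Mo1

/-!
# The kernel checker for a triple of functions `(a, k, b)`: `0 ≤ a`, `0 ≤ k`, `b ^ 2 ≤ a k` (definitions)

`X` = cell of `rho = 1 / m1`.  Layers have the index `i` (natural), `j = i - o`.
Classes of shapes: pairs of layers, far second bead, far first bead.
-/

set_option autoImplicit false

namespace Pool.NW

open Pool.NV

/-- one function: `den * f = c0(rho) + HI (cf)`, number of lifts `m1 - u` -/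
structure FD where
  cf : Cf
  u : ℤ
  c0 : List ℤ

/-- a triple of naturals -/
structure N3 where
  a : ℕ
  k : ℕ
  b : ℕ

/-- a triple of signed intervals -/
structure P3 where
  a : PN
  k : PN
  b : PN

def add3 (V W : P3) : P3 := ⟨addS V.a W.a, addS V.k W.k, addS V.b W.b⟩

def ad3 (V W : N3) : N3 := ⟨V.a + W.a, V.k + W.k, V.b + W.b⟩

def abs3 (V : P3) : N3 := ⟨abS V.a, abS V.k, abS V.b⟩

/-- the cone test -/
def tst (V : P3) (e : N3) : Bool :=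
  Nat.ble (e.a + 1) (loS V.a) && (Nat.ble (e.k + 1) (loS V.k) &&
    Nat.ble ((abS V.b + e.b) * (abS V.b + e.b)) ((loS V.a - e.a) * (loS V.k - e.k)))

/-- the cone test for `V + x1 W1 + x2 W2 + x3 W3`, `x_i ∈ [0,1]` -/
def box (V W1 W2 W3 : P3) (e : N3) : Bool :=
  tst (add3 (add3 V V) (add3 W1 (add3 W2 W3))) (ad3 (ad3 e e) (ad3 (abs3 W1) (ad3 (abs3 W2) (abs3 W3)))) ||
  ((((tst V e && tst (add3 V W3) e) && (tst (add3 V W2) e && tst (add3 (add3 V W2) W3) e)) &&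
    ((tst (add3 V W1) e && tst (add3 (add3 V W1) W3) e) &&
     (tst (add3 (add3 V W1) W2) e && tst (add3 (add3 (add3 V W1) W2) W3) e))))

/-- division of a signed quantity by a natural -/
def sdivS (X : PN) (k : ℕ) : PN := ⟨sdiv X.p k, sdiv X.n k⟩

/-- multiplication with `n` units -/
def unS (n : ℕ) (X : PN) : PN := mulS ⟨n, n⟩ X

/-- the layer values; constant layers are not computed -/
def LV (F : FD) (X : NI) (j : ℤ) (bt : ℕ) : Ly :=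
  if j - 1 + (F.cf.v.length : ℤ) ≤ 0 then ⟨nrm (pevI F.cf.tau X), zeroS, zeroS, 0, 0, 0⟩
  else lay (evC F.cf X) F.u X j bt 100

/-- range conditions of the layer -/
def LVt (F : FD) (X : NI) (j : ℤ) (bt : ℕ) : Bool :=
  decide (RngI F.u X j) && (Nat.ble (4 * bt) 500 && (Nat.ble 100 bt && decide (F.u ≤ 29)))

/-- interval of `1 / (m1 + c)` -/
def iv (c : ℤ) (X : NI) : NI := div X (lin c X)

/-- `z / (1 - z)` in units -/
def mkE (z : ℕ) : ℕ := z * S / (S - z) + 1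

/-- `(1 + 1/D) (1 + E) - 1` -/
def mkd (D E : ℕ) : ℕ := (D + 1) * (S + E) / D + 1 - S

/-- `E (1 + E)^2` -/
def mkkc (E : ℕ) : ℕ := E * ((S + E) * (S + E)) / (S * S) + 1

/-- coefficients of a class: generators `dw, kw, ew`, errors: `c3` (row 1, third order), `g1`, `g2` (row 2),
`dl` lower end of the first order coefficient in the far classes -/
structure Par where
  dl : ℕ
  dw : ℕ
  kw : ℕ
  ew : ℕ
  c3 : ℕ
  g1 : ℕ
  g2 : ℕ

/-- size of the effect of the rows `≥ 3` on row 1, pair class -/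
def zP (X : NI) (j1 : ℤ) (D s : ℕ) : ℕ :=
  if Nat.ble 1 (lin (2 - j1 - s) X).lo then
    min (s * (iv (3 - j1) X).hi / (D + 1) + 1) (s * ((iv (2 - j1 - s) X).hi * (iv (3 - j1) X).hi) / S + 1)
  else s * (iv (3 - j1) X).hi / (D + 1) + 1

/-- size of the effect on row 2 -/
def epP (X : NI) (j2 : ℤ) (s : ℕ) : ℕ :=
  s * ((iv (2 - j2) X).hi * (iv (2 - j2 - s) X).hi) / S + 1

def mkc3 (E kw dh iL : ℕ) : ℕ := E * (max kw (dh * iL / S + 1)) / S + 1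

def parP (X : NI) (j1 j2 : ℤ) (D s b2 : ℕ) : Par :=
  let E := mkE (zP X j1 D s)
  let dh := mkd D E
  let kw := mkkc E * dh / S + 1
  let c3 := mkc3 E kw dh (iv (3 - j1) X).hi
  let ep := epP X j2 s
  if Nat.ble ((S + ep) * 100) (b2 * S) then
    ⟨0, dh - S / D, kw, ep, c3, 0, ep * (max ep (iv (2 - j2) X).hi) / S + 1⟩
  else ⟨0, dh - S / D, kw, 0, c3, ep, 0⟩

def okP (X : NI) (j1 j2 : ℤ) (D s b1 : ℕ) : Bool :=
  Nat.ble 1 (lin (3 - j1) X).lo && (Nat.ble (zP X j1 D s + 1) S && (Nat.ble 1 (lin (2 - j2) X).lo &&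
    (Nat.ble 1 (lin (2 - j2 - s) X).lo && (Nat.ble 1 (lin (1 - j2) X).lo &&
      Nat.ble ((S + mkE (zP X j1 D s)) * 100) (b1 * S)))))

def vP (F : FD) (X : NI) (j1 j2 : ℤ) (b1 b2 D : ℕ) : PN :=
  addS (pevI F.c0 X) (addS (addS (LV F X j1 b1).f0 (LV F X j2 b2).f0)
    (sdivS (addS (LV F X j1 b1).f1 (negS (LV F X j2 b2).f1)) D))

def wP1 (F : FD) (X : NI) (j1 : ℤ) (b1 : ℕ) (P : Par) : PN := unS P.dw (LV F X j1 b1).f1
def wP2 (F : FD) (X : NI) (j1 : ℤ) (b1 : ℕ) (P : Par) : PN := unS P.kw (LV F X j1 b1).f2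
def wP3 (F : FD) (X : NI) (j2 : ℤ) (b2 D : ℕ) (P : Par) : PN :=
  unS P.ew (addS (LV F X j2 b2).f1 (negS (sdivS (addS (LV F X j2 b2).f1 (LV F X j2 b2).f2) D)))

def erP (F : FD) (X : NI) (j1 j2 : ℤ) (b1 b2 D : ℕ) (P : Par) : ℕ :=
  (P.c3 * (LV F X j1 b1).b3 / S + 1) +
    ((P.g1 * ((LV F X j2 b2).b1 + ((LV F X j2 b2).b2 / D + 1)) / S + 1) +
      (P.g2 * ((LV F X j2 b2).b2 + ((LV F X j2 b2).b3 / D + 1)) / S + 1))

/-- pair class -/
def tP (Fa Fk Fb : FD) (X : NI) (j1 j2 : ℤ) (D s b1 b2 : ℕ) (lo : N3) : Bool :=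
  okP X j1 j2 D s b1 &&
  ((LVt Fa X j1 b1 && (LVt Fa X j2 b2 && (LVt Fk X j1 b1 && (LVt Fk X j2 b2 &&
    (LVt Fb X j1 b1 && LVt Fb X j2 b2))))) &&
  box ⟨vP Fa X j1 j2 b1 b2 D, vP Fk X j1 j2 b1 b2 D, vP Fb X j1 j2 b1 b2 D⟩
    ⟨wP1 Fa X j1 b1 (parP X j1 j2 D s b2), wP1 Fk X j1 b1 (parP X j1 j2 D s b2),
      wP1 Fb X j1 b1 (parP X j1 j2 D s b2)⟩
    ⟨wP2 Fa X j1 b1 (parP X j1 j2 D s b2), wP2 Fk X j1 b1 (parP X j1 j2 D s b2),
      wP2 Fb X j1 b1 (parP X j1 j2 D s b2)⟩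
    ⟨wP3 Fa X j2 b2 D (parP X j1 j2 D s b2), wP3 Fk X j2 b2 D (parP X j1 j2 D s b2),
      wP3 Fb X j2 b2 D (parP X j1 j2 D s b2)⟩
    ⟨erP Fa X j1 j2 b1 b2 D (parP X j1 j2 D s b2) + lo.a, erP Fk X j1 j2 b1 b2 D (parP X j1 j2 D s b2) + lo.k,
      erP Fb X j1 j2 b1 b2 D (parP X j1 j2 D s b2) + lo.b⟩)

/-! ### far second bead -/

/-- `z` of a far class: `r / (L + 3)`, `r = max 1 ((D0 + 2 j1 - 1) / (D0 + 1))` -/
def zF (X : NI) (j1 : ℤ) (D0 : ℕ) : ℕ :=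
  max (iv (3 - j1) X).hi (((D0 : ℤ) + 2 * j1 - 1).toNat * (iv (3 - j1) X).hi / (D0 + 1) + 1)

def parF (X : NI) (j1 : ℤ) (D0 : ℕ) : Par :=
  let E := mkE (zF X j1 D0)
  let dh := mkd D0 E
  let kw := mkkc E * dh / S + 1
  ⟨(iv (1 - j1) X).lo, dh - (iv (1 - j1) X).lo, kw, 0, mkc3 E kw dh (iv (3 - j1) X).hi, 0, 0⟩

def okF (X : NI) (j1 : ℤ) (D0 b1 : ℕ) : Bool :=
  Nat.ble 1 D0 && (Nat.ble 1 (lin (3 - j1) X).lo && (Nat.ble 1 (lin (1 - j1) X).lo &&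
    (Nat.ble (zF X j1 D0 + 1) S && Nat.ble ((S + mkE (zF X j1 D0)) * 100) (b1 * S))))

def vF (F : FD) (X : NI) (j1 : ℤ) (b1 : ℕ) (P : Par) : PN :=
  addS (pevI F.c0 X) (addS (LV F X j1 b1).f0 (unS P.dl (LV F X j1 b1).f1))

def erF (F : FD) (X : NI) (j1 : ℤ) (b1 : ℕ) (P : Par) : ℕ := P.c3 * (LV F X j1 b1).b3 / S + 1

def zero3 : P3 := ⟨zeroS, zeroS, zeroS⟩

def tF (Fa Fk Fb : FD) (X : NI) (j1 : ℤ) (D0 b1 : ℕ) (lo fr : N3) : Bool :=
  okF X j1 D0 b1 &&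
  ((LVt Fa X j1 b1 && (LVt Fk X j1 b1 && LVt Fb X j1 b1)) &&
  box ⟨vF Fa X j1 b1 (parF X j1 D0), vF Fk X j1 b1 (parF X j1 D0), vF Fb X j1 b1 (parF X j1 D0)⟩
    ⟨wP1 Fa X j1 b1 (parF X j1 D0), wP1 Fk X j1 b1 (parF X j1 D0), wP1 Fb X j1 b1 (parF X j1 D0)⟩
    ⟨wP2 Fa X j1 b1 (parF X j1 D0), wP2 Fk X j1 b1 (parF X j1 D0), wP2 Fb X j1 b1 (parF X j1 D0)⟩
    zero3
    ⟨erF Fa X j1 b1 (parF X j1 D0) + (lo.a + fr.a), erF Fk X j1 b1 (parF X j1 D0) + (lo.k + fr.k),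
      erF Fb X j1 b1 (parF X j1 D0) + (lo.b + fr.b)⟩)

/-- constant first row, far second bead -/
def tC (Fa Fk Fb : FD) (X : NI) (lo fr : N3) : Bool :=
  tst ⟨addS (pevI Fa.c0 X) (pevI Fa.cf.tau X), addS (pevI Fk.c0 X) (pevI Fk.cf.tau X),
    addS (pevI Fb.c0 X) (pevI Fb.cf.tau X)⟩ (ad3 lo fr)

/-- far first bead -/
def tD (Fa Fk Fb : FD) (X : NI) (lo fr : N3) : Bool :=
  tst ⟨pevI Fa.c0 X, pevI Fk.c0 X, pevI Fb.c0 X⟩ (ad3 lo fr)

/-! ### everything -/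

/-- excluded pairs -/
def memR : List (ℕ × ℕ) → ℕ → ℕ → Bool
  | [], _, _ => false
  | p :: l, i, j => (Nat.beq p.1 i && Nat.beq p.2 j) || memR l i j

/-- the data of a run -/
structure Dat where
  a : FD
  k : FD
  b : FD
  /-- offset: layer `j` has the index `j + o` -/
  o : ℕ
  /-- number of rows `j1 = -o, .., n1 - 1 - o` -/
  n1 : ℕ
  /-- largest index of the second layer, per row -/
  J2 : List ℕ
  /-- growth factor in per cent, per index -/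
  bet : List ℕ
  /-- rows `≥ 3`, per `s` -/
  lows : List N3
  /-- rows `≥ 3` -/
  low : N3
  /-- far second bead, per row -/
  far : List N3
  /-- far second bead, first row below `-o` -/
  farn : N3
  /-- far first bead -/
  deep : N3
  /-- excluded pairs of indices -/
  R : List (ℕ × ℕ)

def z3 : N3 := ⟨0, 0, 0⟩

def jj (o i : ℕ) : ℤ := (i : ℤ) - (o : ℤ)

/-- one pair -/
def chkP (D : Dat) (X : NI) (i1 i2 : ℕ) : Bool :=
  Nat.ble i2 i1 || (Nat.ble (i1 + i2) (2 * D.o) || (memR D.R i1 i2 ||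
    tP D.a D.k D.b X (jj D.o i1) (jj D.o i2) (i2 - i1) (i1 + i2 - 2 * D.o - 1)
      (D.bet.getD i1 100) (D.bet.getD i2 100) (D.lows.getD (i1 + i2 - 2 * D.o - 1) D.low)))

/-- one row -/
def chkRow (D : Dat) (X : NI) (i1 : ℕ) : Bool :=
  ((List.range (D.J2.getD i1 0 + 1)).all fun i2 => chkP D X i1 i2) &&
  tF D.a D.k D.b X (jj D.o i1) (D.J2.getD i1 0 + 1 - i1) (D.bet.getD i1 100) D.low (D.far.getD i1 z3)

/-- everything but the rows -/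
def chkEnd (D : Dat) (X : NI) : Bool :=
  Nat.ble D.a.cf.v.length (D.o + 2) && (Nat.ble D.k.cf.v.length (D.o + 2) && (Nat.ble D.b.cf.v.length (D.o + 2) &&
    (tC D.a D.k D.b X D.low D.farn && tD D.a D.k D.b X D.low D.deep)))

def chk (D : Dat) (X : NI) : Bool :=
  chkEnd D X && (List.range D.n1).all fun i1 => chkRow D X i1

end Pool.NW
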