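import Pool.Agent.Work.MP_46fa68_23.Mo6
import Pool.Agent.Work.MP_46fa68_23.Mo5B
import Pool.Agent.Work.MP_46fa68_23.Mo5C

/-!
# Mo7A: soundness of the parameters of a pair class
-/

set_option autoImplicit false

open Finset

namespace Pool.NW

open Pool.NV Pool.OB Pool.JM

attribute [local irreducible] Pool.NV.S

/-! ## units -/

theorem exists_frac {y w : ℝ} (h0 : 0 ≤ y) (h1 : y ≤ w) : ∃ x : ℝ, (0 ≤ x ∧ x ≤ 1) ∧ y = x * w := by
  rcases eq_or_lt_of_le (h0.trans h1) with h | h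
  · refine ⟨0, ⟨le_rfl, zero_le_one⟩, ?_⟩
    rw [← h] at h1
    rw [zero_mul]
    exact le_antisymm h1 h0
  · exact ⟨y / w, ⟨div_nonneg h0 h.le, (div_le_one h).2 h1⟩, (div_mul_cancel₀ y h.ne').symm⟩

theorem up_div {a b : ℕ} (hb : 0 < b) : (a : ℝ) / b ≤ ((a / b + 1 : ℕ) : ℝ) := by
  have hb' : (0 : ℝ) < b := by exact_mod_cast hb
  rw [div_le_iff₀ hb']
  exact div_ceil hb

theorem mul_up (a b : ℕ) :
    ((a : ℝ) / (S : ℕ)) * ((b : ℝ) / (S : ℕ)) ≤ ((a * b / S + 1 : ℕ) : ℝ) / (S : ℕ) := by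
  have hs := S_posR
  have h := up_div (a := a * b) S_pos
  calc ((a : ℝ) / (S : ℕ)) * ((b : ℝ) / (S : ℕ)) = ((a * b : ℕ) : ℝ) / (S : ℕ) / (S : ℕ) := by
        push_cast
        field_simp
    _ ≤ _ := div_le_div_of_nonneg_right h hs.le

theorem mkE_ge {z : ℕ} (h : z < S) :
    ((z : ℝ) / (S : ℕ)) / (1 - (z : ℝ) / (S : ℕ)) ≤ (mkE z : ℝ) / (S : ℕ) := by
  have hs := S_posR
  have hz : (z : ℝ) < (S : ℕ) := by exact_mod_cast h
  have h1 := up_div (a := z * S) (b := S - z) (by omega)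
  rw [Nat.cast_sub h.le] at h1
  have hd : (0 : ℝ) < ((S : ℕ) : ℝ) - z := by linarith
  have e1 : ((z : ℝ) / (S : ℕ)) / (1 - (z : ℝ) / (S : ℕ)) =
      ((z * S : ℕ) : ℝ) / (((S : ℕ) : ℝ) - z) / (S : ℕ) := by
    have n1 : ((S : ℕ) : ℝ) ≠ 0 := hs.ne'
    have n2 : ((S : ℕ) : ℝ) - z ≠ 0 := hd.ne'
    have e2 : 1 - (z : ℝ) / (S : ℕ) = (((S : ℕ) : ℝ) - z) / (S : ℕ) := by
      field_simp
    rw [e2]
    push_cast
    field_simp
  rw [e1]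
  exact div_le_div_of_nonneg_right h1 hs.le

theorem mkd_ge {D E : ℕ} (hD : 1 ≤ D) :
    (1 + 1 / (D : ℝ)) * (1 + (E : ℝ) / (S : ℕ)) - 1 ≤ (mkd D E : ℝ) / (S : ℕ) := by
  have hs := S_posR
  have hD' : (0 : ℝ) < D := by exact_mod_cast hD
  have h1 := up_div (a := (D + 1) * (S + E)) (b := D) hD
  have h2 := cast_tsub_ge ((D + 1) * (S + E) / D + 1) S
  rw [le_div_iff₀ hs]
  have e1 : ((1 + 1 / (D : ℝ)) * (1 + (E : ℝ) / (S : ℕ)) - 1) * (S : ℕ) =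
      (((D + 1) * (S + E) : ℕ) : ℝ) / D - (S : ℕ) := by
    have n1 : ((S : ℕ) : ℝ) ≠ 0 := hs.ne'
    have n2 : (D : ℝ) ≠ 0 := hD'.ne'
    push_cast
    field_simp
  rw [e1]
  unfold mkd
  linarith

theorem mkkc_ge (E : ℕ) :
    ((E : ℝ) / (S : ℕ)) * (1 + (E : ℝ) / (S : ℕ)) ^ 2 ≤ (mkkc E : ℝ) / (S : ℕ) := by
  have hs := S_posR
  have h1 := up_div (a := E * ((S + E) * (S + E))) (b := S * S) (Nat.mul_pos S_pos S_pos)
  rw [le_div_iff₀ hs]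
  have e1 : ((E : ℝ) / (S : ℕ)) * (1 + (E : ℝ) / (S : ℕ)) ^ 2 * (S : ℕ) =
      ((E * ((S + E) * (S + E)) : ℕ) : ℝ) / ((S * S : ℕ) : ℝ) := by
    have n1 : ((S : ℕ) : ℝ) ≠ 0 := hs.ne'
    push_cast
    field_simp
  rw [e1]
  exact h1

/-! ## intervals of `1 / (m + c)` -/

/-- `lin` and `iv` -/
theorem iv_ok {c : ℤ} {m : ℕ} {X : NI} (hm : 0 < m) (hx : Mem (1 / (m : ℝ)) X)
    (h : 1 ≤ (lin c X).lo) : 0 < (m : ℝ) + c ∧ Mem (1 / ((m : ℝ) + c)) (iv c X) := by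
  have hm' : (0 : ℝ) < m := by exact_mod_cast hm
  have hc : (-c).toNat * X.hi ≤ S := by
    cases c with
    | ofNat c =>
      have e : (-(Int.ofNat c)).toNat = 0 := by
        rw [Int.toNat_eq_zero]
        simp
      rw [e, zero_mul]
      exact Nat.zero_le _
    | negSucc c =>
      have e0 : (-(Int.negSucc c)).toNat = c + 1 := by simp
      rw [e0]
      have h2 : 1 ≤ S - (c + 1) * X.hi := h
      omega
  have h1 := mem_lin hx c hc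
  have h2 : 0 < 1 + (c : ℝ) * (1 / (m : ℝ)) := pos_of_mem h1 h
  have e1 : (m : ℝ) + c = m * (1 + (c : ℝ) * (1 / (m : ℝ))) := by
    field_simp
  have h3 : 0 < (m : ℝ) + c := by
    rw [e1]
    exact mul_pos hm' h2
  refine ⟨h3, ?_⟩
  have e2 : 1 / ((m : ℝ) + c) = (1 / (m : ℝ)) / (1 + (c : ℝ) * (1 / (m : ℝ))) := by
    have n1 : (m : ℝ) ≠ 0 := hm'.ne'
    rw [e1, div_div]
  rw [e2]
  exact mem_div h hx h1

/-- upper end in units -/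
theorem iv_hi {c : ℤ} {m : ℕ} {X : NI} (hm : 0 < m) (hx : Mem (1 / (m : ℝ)) X)
    (h : 1 ≤ (lin c X).lo) : 1 / ((m : ℝ) + c) ≤ ((iv c X).hi : ℝ) / (S : ℕ) := by
  rw [le_div_iff₀ S_posR]
  exact (iv_ok hm hx h).2.2

theorem zP_ok {m L b s D : ℕ} {X : NI} (hm : 0 < m) (hx : Mem (1 / (m : ℝ)) X)
    (hD : (D : ℝ) + 1 = (L : ℝ) + 2 - b) (h1 : 1 ≤ (lin (3 - ((m : ℤ) - L)) X).lo) :
    s / (((L : ℝ) + 2 - b) * (L + 3)) ≤ (zP X ((m : ℤ) - L) D s : ℝ) / (S : ℕ) ∨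
      (s ≤ L + 1 ∧ s / (((L : ℝ) + 2 - s) * (L + 3)) ≤ (zP X ((m : ℤ) - L) D s : ℝ) / (S : ℕ)) := by
  have hs := S_posR
  have e3 : (m : ℝ) + ((3 - ((m : ℤ) - L) : ℤ) : ℝ) = (L : ℝ) + 3 := by
    push_cast
    ring
  have i3 := iv_hi hm hx h1
  rw [e3] at i3
  have hL3 : (0 : ℝ) < (L : ℝ) + 3 := by positivity
  have hD1 : (0 : ℝ) < (D : ℝ) + 1 := by positivity
  have hs0 : (0 : ℝ) ≤ s := Nat.cast_nonneg s
  -- the first bound
  have hA : (s : ℝ) / (((L : ℝ) + 2 - b) * (L + 3)) ≤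
      ((s * (iv (3 - ((m : ℤ) - L)) X).hi / (D + 1) + 1 : ℕ) : ℝ) / (S : ℕ) := by
    have u1 := up_div (a := s * (iv (3 - ((m : ℤ) - L)) X).hi) (b := D + 1) (Nat.succ_pos D)
    rw [← hD, le_div_iff₀ hs]
    refine le_trans ?_ u1
    have e4 : (s : ℝ) / (((D : ℝ) + 1) * (L + 3)) * (S : ℕ) =
        s * (1 / ((L : ℝ) + 3) * (S : ℕ)) / ((D : ℝ) + 1) := by
      field_simp
    rw [e4]
    push_cast
    refine div_le_div_of_nonneg_right (mul_le_mul_of_nonneg_left ?_ hs0) hD1.le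
    rwa [le_div_iff₀ hs] at i3
  unfold zP
  split_ifs with hc
  · have h2 : 1 ≤ (lin (2 - ((m : ℤ) - L) - s) X).lo := Nat.ble_eq.mp hc
    have i2 := iv_ok hm hx h2
    have e2 : (m : ℝ) + ((2 - ((m : ℤ) - L) - s : ℤ) : ℝ) = (L : ℝ) + 2 - s := by
      push_cast
      ring
    have i2' := iv_hi hm hx h2
    rw [e2] at i2 i2'
    have hLs : (0 : ℝ) < (L : ℝ) + 2 - s := i2.1
    have hsL : s ≤ L + 1 := by
      have : (s : ℝ) < (L : ℝ) + 2 := by linarith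
      have : s < L + 2 := by exact_mod_cast this
      omega
    rcases min_choice (s * (iv (3 - ((m : ℤ) - L)) X).hi / (D + 1) + 1)
      (s * ((iv (2 - ((m : ℤ) - L) - s) X).hi * (iv (3 - ((m : ℤ) - L)) X).hi) / S + 1) with hmn | hmn
    · left
      rw [hmn]
      exact hA
    · right
      refine ⟨hsL, ?_⟩
      rw [hmn]
      have u1 := up_div (a := s * ((iv (2 - ((m : ℤ) - L) - s) X).hi *
        (iv (3 - ((m : ℤ) - L)) X).hi)) S_pos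
      refine le_trans ?_ (div_le_div_of_nonneg_right u1 hs.le)
      have e4 : (s : ℝ) / (((L : ℝ) + 2 - s) * (L + 3)) =
          s * ((1 / ((L : ℝ) + 2 - s)) * (1 / ((L : ℝ) + 3))) := by
        field_simp
      have e5 : ((s * ((iv (2 - ((m : ℤ) - L) - s) X).hi * (iv (3 - ((m : ℤ) - L)) X).hi) : ℕ) : ℝ) /
          (S : ℕ) / (S : ℕ) = s * ((((iv (2 - ((m : ℤ) - L) - s) X).hi : ℝ) / (S : ℕ)) *
            (((iv (3 - ((m : ℤ) - L)) X).hi : ℝ) / (S : ℕ))) := by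
        push_cast
        field_simp
      rw [e4, e5]
      refine mul_le_mul_of_nonneg_left ?_ hs0
      exact mul_le_mul i2' i3 (by positivity) (by positivity)
  · left
    exact hA

theorem epP_ok {m b s : ℕ} {X : NI} (hm : 0 < m) (hx : Mem (1 / (m : ℝ)) X)
    (h1 : 1 ≤ (lin (2 - ((m : ℤ) + 1 - b)) X).lo) (h2 : 1 ≤ (lin (2 - ((m : ℤ) + 1 - b) - s) X).lo) :
    s ≤ b ∧ s / (((b : ℝ) + 1 - s) * (b + 1)) ≤ (epP X ((m : ℤ) + 1 - b) s : ℝ) / (S : ℕ) ∧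
      1 / ((b : ℝ) + 1) ≤ ((iv (2 - ((m : ℤ) + 1 - b)) X).hi : ℝ) / (S : ℕ) := by
  have hs := S_posR
  have e1 : (m : ℝ) + ((2 - ((m : ℤ) + 1 - b) : ℤ) : ℝ) = (b : ℝ) + 1 := by
    push_cast
    ring
  have e2 : (m : ℝ) + ((2 - ((m : ℤ) + 1 - b) - s : ℤ) : ℝ) = (b : ℝ) + 1 - s := by
    push_cast
    ring
  have i1 := iv_hi hm hx h1
  have i2 := iv_hi hm hx h2
  have i2' := (iv_ok hm hx h2).1
  rw [e1] at i1
  rw [e2] at i2 i2'
  have hsb : s ≤ b := by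
    have : (s : ℝ) < (b : ℝ) + 1 := by linarith
    have : s < b + 1 := by exact_mod_cast this
    omega
  refine ⟨hsb, ?_, i1⟩
  unfold epP
  have u1 := up_div (a := s * ((iv (2 - ((m : ℤ) + 1 - b)) X).hi *
    (iv (2 - ((m : ℤ) + 1 - b) - s) X).hi)) S_pos
  refine le_trans ?_ (div_le_div_of_nonneg_right u1 hs.le)
  have hb1 : (0 : ℝ) < (b : ℝ) + 1 := by positivity
  have e4 : (s : ℝ) / (((b : ℝ) + 1 - s) * (b + 1)) =
      s * ((1 / ((b : ℝ) + 1)) * (1 / ((b : ℝ) + 1 - s))) := by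
    have n1 : (b : ℝ) + 1 - s ≠ 0 := i2'.ne'
    field_simp
  have e5 : ((s * ((iv (2 - ((m : ℤ) + 1 - b)) X).hi * (iv (2 - ((m : ℤ) + 1 - b) - s) X).hi) : ℕ) : ℝ) /
      (S : ℕ) / (S : ℕ) = s * ((((iv (2 - ((m : ℤ) + 1 - b)) X).hi : ℝ) / (S : ℕ)) *
        (((iv (2 - ((m : ℤ) + 1 - b) - s) X).hi : ℝ) / (S : ℕ))) := by
    push_cast
    field_simp
  rw [e4, e5]
  refine mul_le_mul_of_nonneg_left ?_ (Nat.cast_nonneg s)
  refine mul_le_mul i1 i2 ?_ (by positivity)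
  have : 0 < (b : ℝ) + 1 - s := i2'
  positivity

theorem mB_nonneg' {cf : Cf} {u : ℤ} {x : ℝ} {j : ℤ} (h : Rng u x j) {b : ℝ} (hb : 0 ≤ b)
    (w : ℕ → ℕ) : 0 ≤ mB cf u x j b w :=
  tsum_nonneg fun d => trB_nonneg h hb w d

/-- **pair class**: common parameters `x1 x2 x3`, then every function -/
theorem pair_rows {m k L b s D b1 b2 : ℕ} {X : NI} {B : Finset ℕ} (hm : 0 < m)
    (hx : Mem (1 / (m : ℝ)) X) (h : Two k L b s B) (hN : L + b + s = 2 * m) (hD : D = L + 1 - b)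
    (hb2 : 100 ≤ b2) (hb2' : 4 * b2 ≤ 500) (hb1' : 4 * b1 ≤ 500)
    (hok : okP X ((m : ℤ) - L) ((m : ℤ) + 1 - b) D s b1 = true) :
    ∃ x1 x2 x3 : ℝ, (0 ≤ x1 ∧ x1 ≤ 1) ∧ (0 ≤ x2 ∧ x2 ≤ 1) ∧ (0 ≤ x3 ∧ x3 ≤ 1) ∧
      ∀ (cf : Cf) (t den : ℕ) (u : ℤ), (t : ℤ) + u = m → 1 ≤ t → 0 < den → u ≤ 29 →
        Rng u (1 / m) ((m : ℤ) - L) → Rng u (1 / m) ((m : ℤ) + 1 - b) →
        |HIx (k + 2) m t cf.v.length (vC cf m den) (tauC cf m den) B (k + 1 + L) * den +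
          HIx (k + 2) m t cf.v.length (vC cf m den) (tauC cf m den) B (k + b) * den -
          ((mW cf u (1 / m) ((m : ℤ) - L) w0 + mW cf u (1 / m) ((m : ℤ) + 1 - b) w0 +
              (mW cf u (1 / m) ((m : ℤ) - L) w1 - mW cf u (1 / m) ((m : ℤ) + 1 - b) w1) / D) +
            x1 * (((parP X ((m : ℤ) - L) ((m : ℤ) + 1 - b) D s b2).dw : ℝ) / (S : ℕ) *
              mW cf u (1 / m) ((m : ℤ) - L) w1) +
            x2 * (((parP X ((m : ℤ) - L) ((m : ℤ) + 1 - b) D s b2).kw : ℝ) / (S : ℕ) *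
              mW cf u (1 / m) ((m : ℤ) - L) w2) +
            x3 * (((parP X ((m : ℤ) - L) ((m : ℤ) + 1 - b) D s b2).ew : ℝ) / (S : ℕ) *
              (mW cf u (1 / m) ((m : ℤ) + 1 - b) w1 -
                (mW cf u (1 / m) ((m : ℤ) + 1 - b) w1 + mW cf u (1 / m) ((m : ℤ) + 1 - b) w2) / D)))| ≤
          ((parP X ((m : ℤ) - L) ((m : ℤ) + 1 - b) D s b2).c3 : ℝ) / (S : ℕ) *
              mB cf u (1 / m) ((m : ℤ) - L) ((b1 : ℝ) / (100 : ℕ)) w3 +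
            ((parP X ((m : ℤ) - L) ((m : ℤ) + 1 - b) D s b2).g1 : ℝ) / (S : ℕ) *
              (mB cf u (1 / m) ((m : ℤ) + 1 - b) ((b2 : ℝ) / (100 : ℕ)) w1 +
                mB cf u (1 / m) ((m : ℤ) + 1 - b) ((b2 : ℝ) / (100 : ℕ)) w2 / D) +
            ((parP X ((m : ℤ) - L) ((m : ℤ) + 1 - b) D s b2).g2 : ℝ) / (S : ℕ) *
              (mB cf u (1 / m) ((m : ℤ) + 1 - b) ((b2 : ℝ) / (100 : ℕ)) w2 +
                mB cf u (1 / m) ((m : ℤ) + 1 - b) ((b2 : ℝ) / (100 : ℕ)) w3 / D) := by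
  have hs := S_posR
  have hbL := h.hbL
  have hD1 : 1 ≤ D := by omega
  have hDR : (D : ℝ) = (L : ℝ) + 1 - b := by
    have h2 : D + b = L + 1 := by omega
    have h3 : ((D : ℝ) + b) = (L : ℝ) + 1 := by exact_mod_cast h2
    linarith
  have hD0 : (0 : ℝ) < D := by exact_mod_cast hD1
  set j1 : ℤ := (m : ℤ) - L with hj1
  set j2 : ℤ := (m : ℤ) + 1 - b with hj2
  unfold okP at hok
  simp only [Bool.and_eq_true, Nat.ble_eq] at hok
  obtain ⟨o1, o2, o3, o4, o5, o6⟩ := hok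
  set z : ℕ := zP X j1 D s with hz
  set E : ℕ := mkE z with hE
  set dh : ℕ := mkd D E with hdh
  set kw : ℕ := mkkc E * dh / S + 1 with hkw
  set iL : ℕ := (iv (3 - j1) X).hi with hiL
  set c3 : ℕ := mkc3 E kw dh iL with hc3
  set e2 : ℕ := epP X j2 s with he2
  set iB : ℕ := (iv (2 - j2) X).hi with hiB
  -- row one
  have hzS : z < S := by omega
  have hz1 : (z : ℝ) / (S : ℕ) < 1 := by
    rw [div_lt_one hs]
    exact_mod_cast hzS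
  have zok := zP_ok (s := s) (b := b) (D := D) hm hx (by rw [hDR]; ring) o1
  have hEr : ee B k L b ≤ (E : ℝ) / (S : ℕ) := (ee_le_z h hz1 zok).trans (mkE_ge hzS)
  have hdl1 : dl B k L b ≤ (dh : ℝ) / (S : ℕ) :=
    (dl_le h hEr hD1 (by omega)).trans (mkd_ge hD1)
  have hkc := mkkc_ge E
  have hkwd : ((mkkc E : ℕ) : ℝ) / (S : ℕ) * ((dh : ℝ) / (S : ℕ)) ≤ (kw : ℝ) / (S : ℕ) := mul_up _ _
  have e3 : (m : ℝ) + ((3 - j1 : ℤ) : ℝ) = (L : ℝ) + 3 := by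
    rw [hj1]
    push_cast
    ring
  have i3 := iv_hi hm hx o1
  rw [e3] at i3
  have hL3 : (0 : ℝ) < (L : ℝ) + 3 := by positivity
  set μ3 : ℝ := ((max kw (dh * iL / S + 1) : ℕ) : ℝ) / (S : ℕ) with hμ3
  have hμa : (kw : ℝ) / (S : ℕ) ≤ μ3 := by
    rw [hμ3]
    refine div_le_div_of_nonneg_right ?_ hs.le
    exact_mod_cast le_max_left _ _
  have hμb : (dh : ℝ) / (S : ℕ) * ((iL : ℝ) / (S : ℕ)) ≤ μ3 := by
    refine (mul_up dh iL).trans ?_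
    rw [hμ3]
    refine div_le_div_of_nonneg_right ?_ hs.le
    exact_mod_cast le_max_right _ _
  have hdh0 : (0 : ℝ) ≤ (dh : ℝ) / (S : ℕ) := by positivity
  have hμc : (dh : ℝ) / (S : ℕ) ≤ μ3 * ((L : ℝ) + 3) := by
    have h1 : (dh : ℝ) / (S : ℕ) * (1 / ((L : ℝ) + 3)) ≤ μ3 :=
      (mul_le_mul_of_nonneg_left i3 hdh0).trans hμb
    rwa [mul_one_div, div_le_iff₀ hL3] at h1
  have hc3r : (E : ℝ) / (S : ℕ) * μ3 ≤ (c3 : ℝ) / (S : ℕ) := mul_up _ _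
  have hβ1 : 1 + (E : ℝ) / (S : ℕ) ≤ (b1 : ℝ) / (100 : ℕ) := by
    have h1 : (((S + E) * 100 : ℕ) : ℝ) ≤ ((b1 * S : ℕ) : ℝ) := by exact_mod_cast o6
    push_cast at h1
    rw [le_div_iff₀ (by norm_num), ← sub_nonneg]
    have h2 : 0 ≤ ((b1 : ℝ) * (S : ℕ) - (((S : ℕ) : ℝ) + E) * 100) / (S : ℕ) :=
      div_nonneg (by linarith) hs.le
    have h3 : ((b1 : ℝ) * (S : ℕ) - (((S : ℕ) : ℝ) + E) * 100) / (S : ℕ) =
        (b1 : ℝ) - (1 + (E : ℝ) / (S : ℕ)) * (100 : ℕ) := by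
      push_cast
      field_simp
    rw [h3] at h2
    exact h2
  have hβ1' : (b1 : ℝ) / (100 : ℕ) ≤ 5 / 4 := by
    have h1 : ((4 * b1 : ℕ) : ℝ) ≤ 500 := by exact_mod_cast hb1'
    push_cast at h1 ⊢
    rw [div_le_iff₀ (by norm_num)]
    linarith
  -- row two
  obtain ⟨hsb, hepP, hiBr⟩ := epP_ok (s := s) hm hx o3 o4
  have hb1p : 1 ≤ b := by
    have i1 := (iv_ok hm hx o5).1
    have e1 : (m : ℝ) + ((1 - j2 : ℤ) : ℝ) = (b : ℝ) := by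
      rw [hj2]
      push_cast
      ring
    rw [e1] at i1
    exact_mod_cast i1
  have hepB : ep B k L b ≤ (e2 : ℝ) / (S : ℕ) := (ep_le h hsb).trans hepP
  have hβ2' : (b2 : ℝ) / (100 : ℕ) ≤ 5 / 4 := by
    have h1 : ((4 * b2 : ℕ) : ℝ) ≤ 500 := by exact_mod_cast hb2'
    push_cast at h1 ⊢
    rw [div_le_iff₀ (by norm_num)]
    linarith
  have hβ21 : (1 : ℝ) ≤ (b2 : ℝ) / (100 : ℕ) := by
    have h1 : (100 : ℝ) ≤ b2 := by exact_mod_cast hb2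
    rw [le_div_iff₀ (by norm_num)]
    push_cast
    linarith
  have hy : (1 : ℝ) / D = 1 / ((L : ℝ) + 1 - b) := by rw [hDR]
  -- parameters
  have hdlow : 1 / (D : ℝ) ≤ dl B k L b := by
    rw [hy]
    exact dl_lower h
  have hdw : dl B k L b - 1 / (D : ℝ) ≤ ((dh - S / D : ℕ) : ℝ) / (S : ℕ) := by
    have h1 := cast_tsub_ge dh (S / D)
    have h2 : (((S / D : ℕ)) : ℝ) ≤ ((S : ℕ) : ℝ) / D := by
      rw [le_div_iff₀ hD0]
      exact div_floor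
    rw [le_div_iff₀ hs]
    have h3 : dl B k L b * (S : ℕ) ≤ dh := by rwa [le_div_iff₀ hs] at hdl1
    have h4 : (dl B k L b - 1 / (D : ℝ)) * (S : ℕ) = dl B k L b * (S : ℕ) - ((S : ℕ) : ℝ) / D := by
      ring
    rw [h4]
    linarith
  obtain ⟨x1, hx1, hx1e⟩ := exists_frac (by linarith : 0 ≤ dl B k L b - 1 / (D : ℝ)) hdw
  have hkpb := kp_bounds h
  have he0 := ee_nonneg h
  have hdl0 : 0 ≤ dl B k L b := by
    have : 0 ≤ 1 / (D : ℝ) := by positivity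
    linarith
  have hkp : kp B k L b ≤ (kw : ℝ) / (S : ℕ) := by
    refine hkpb.2.trans (le_trans ?_ hkwd)
    have h1 : ee B k L b * (1 + ee B k L b) ^ 2 ≤ ((mkkc E : ℕ) : ℝ) / (S : ℕ) := by
      refine le_trans ?_ hkc
      exact mul_le_mul hEr (pow_le_pow_left₀ (by linarith) (by linarith) 2) (by positivity)
        (by positivity)
    calc dl B k L b * ee B k L b * (1 + ee B k L b) ^ 2 =
        (ee B k L b * (1 + ee B k L b) ^ 2) * dl B k L b := by ring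
      _ ≤ ((mkkc E : ℕ) : ℝ) / (S : ℕ) * ((dh : ℝ) / (S : ℕ)) :=
          mul_le_mul h1 hdl1 hdl0 (by positivity)
  obtain ⟨x2, hx2, hx2e⟩ := exists_frac hkpb.1 hkp
  have hep0 := ep_nonneg h
  by_cases hmode : Nat.ble ((S + e2) * 100) (b2 * S) = true
  · have hP : parP X j1 j2 D s b2 =
        ⟨0, dh - S / D, kw, e2, c3, 0, e2 * (max e2 iB) / S + 1⟩ := if_pos hmode
    rw [hP]
    obtain ⟨x3, hx3, hx3e⟩ := exists_frac hep0 hepB
    refine ⟨x1, x2, x3, hx1, hx2, hx3, fun cf t den u ht ht1 hden hu hR1 hR2 => ?_⟩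
    have hβ2 : 1 + (e2 : ℝ) / (S : ℕ) ≤ (b2 : ℝ) / (100 : ℕ) := by
      have h0 : (S + e2) * 100 ≤ b2 * S := Nat.ble_eq.mp hmode
      have h1 : (((S + e2) * 100 : ℕ) : ℝ) ≤ ((b2 * S : ℕ) : ℝ) := by exact_mod_cast h0
      push_cast at h1
      rw [le_div_iff₀ (by norm_num), ← sub_nonneg]
      have h2 : 0 ≤ ((b2 : ℝ) * (S : ℕ) - (((S : ℕ) : ℝ) + e2) * 100) / (S : ℕ) :=
        div_nonneg (by linarith) hs.le
      have h3 : ((b2 : ℝ) * (S : ℕ) - (((S : ℕ) : ℝ) + e2) * 100) / (S : ℕ) =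
          (b2 : ℝ) - (1 + (e2 : ℝ) / (S : ℕ)) * (100 : ℕ) := by
        push_cast
        field_simp
      rw [h3] at h2
      exact h2
    set μ2 : ℝ := ((max e2 iB : ℕ) : ℝ) / (S : ℕ) with hμ2
    have hμ2a : (e2 : ℝ) / (S : ℕ) ≤ μ2 := by
      rw [hμ2]
      refine div_le_div_of_nonneg_right ?_ hs.le
      exact_mod_cast le_max_left _ _
    have hμ2b : 1 ≤ μ2 * ((b : ℝ) + 1) := by
      have hb1 : (0 : ℝ) < (b : ℝ) + 1 := by positivity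
      have h1 : 1 / ((b : ℝ) + 1) ≤ μ2 := by
        refine hiBr.trans ?_
        rw [hμ2]
        refine div_le_div_of_nonneg_right ?_ hs.le
        exact Nat.cast_le.2 (le_max_right e2 iB)
      rwa [div_le_iff₀ hb1] at h1
    have hg2 : (e2 : ℝ) / (S : ℕ) * μ2 ≤ ((e2 * (max e2 iB) / S + 1 : ℕ) : ℝ) / (S : ℕ) := mul_up _ _
    have r1 := row1_val (cf := cf) (E := (E : ℝ) / (S : ℕ)) (δ1 := (dh : ℝ) / (S : ℕ))
      (kc := ((mkkc E : ℕ) : ℝ) / (S : ℕ)) (μ3 := μ3) (β := (b1 : ℝ) / (100 : ℕ)) hm ht ht1 hden hu h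
      hR1 hEr hdl1 hkc (hkwd.trans hμa) hμc hβ1 hβ1'
    have r2 := row2_val (cf := cf) (E := (e2 : ℝ) / (S : ℕ)) (μ2 := μ2) (β := (b2 : ℝ) / (100 : ℕ))
      hm ht ht1 hden hu hb1p h hR2 hy hepB hμ2a hμ2b hβ2 hβ2'
    have q1 := mB_nonneg' (cf := cf) hR1 (b := (b1 : ℝ) / (100 : ℕ)) (by positivity) w3
    have q2 := mB_nonneg' (cf := cf) hR2 (b := (b2 : ℝ) / (100 : ℕ)) (by positivity) w2
    have q3 := mB_nonneg' (cf := cf) hR2 (b := (b2 : ℝ) / (100 : ℕ)) (by positivity) w3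
    set M0 := mW cf u (1 / m) j1 w0
    set M1 := mW cf u (1 / m) j1 w1
    set M2 := mW cf u (1 / m) j1 w2
    set N0 := mW cf u (1 / m) j2 w0
    set N1 := mW cf u (1 / m) j2 w1
    set N2 := mW cf u (1 / m) j2 w2
    set b3 := mB cf u (1 / m) j1 ((b1 : ℝ) / (100 : ℕ)) w3
    set c2 := mB cf u (1 / m) j2 ((b2 : ℝ) / (100 : ℕ)) w2
    set d3 := mB cf u (1 / m) j2 ((b2 : ℝ) / (100 : ℕ)) w3
    set H1 := HIx (k + 2) m t cf.v.length (vC cf m den) (tauC cf m den) B (k + 1 + L) * den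
    set H2 := HIx (k + 2) m t cf.v.length (vC cf m den) (tauC cf m den) B (k + b) * den
    have t1 : (E : ℝ) / (S : ℕ) * μ3 * b3 ≤ (c3 : ℝ) / (S : ℕ) * b3 :=
      mul_le_mul_of_nonneg_right hc3r q1
    have t2 : (e2 : ℝ) / (S : ℕ) * μ2 * (c2 + 1 / (D : ℝ) * d3) ≤
        ((e2 * (max e2 iB) / S + 1 : ℕ) : ℝ) / (S : ℕ) * (c2 + d3 / D) := by
      have e : c2 + 1 / (D : ℝ) * d3 = c2 + d3 / D := by ring
      rw [e]
      refine mul_le_mul_of_nonneg_right hg2 ?_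
      have : 0 ≤ d3 / D := div_nonneg q3 hD0.le
      linarith
    have key : H1 + H2 - ((M0 + N0 + (M1 - N1) / D) + x1 * (((dh - S / D : ℕ) : ℝ) / (S : ℕ) * M1) +
        x2 * ((kw : ℝ) / (S : ℕ) * M2) + x3 * ((e2 : ℝ) / (S : ℕ) * (N1 - (N1 + N2) / D))) =
        (H1 - (M0 + dl B k L b * M1 + kp B k L b * M2)) +
        (H2 - (N0 - 1 / (D : ℝ) * N1 + ep B k L b * ((1 - 1 / (D : ℝ)) * N1 - 1 / (D : ℝ) * N2))) := by
      have f1 : dl B k L b = 1 / (D : ℝ) + x1 * (((dh - S / D : ℕ) : ℝ) / (S : ℕ)) := by linarith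
      rw [f1, hx2e, hx3e]
      ring
    rw [key]
    refine (abs_add_le _ _).trans ?_
    have hg10 : (((0 : ℕ) : ℕ) : ℝ) / (S : ℕ) = 0 := by simp
    rw [hg10, zero_mul, add_zero]
    exact add_le_add (r1.trans t1) (r2.trans t2)
  · have hP : parP X j1 j2 D s b2 = ⟨0, dh - S / D, kw, 0, c3, e2, 0⟩ := if_neg hmode
    rw [hP]
    refine ⟨x1, x2, 0, hx1, hx2, ⟨le_rfl, zero_le_one⟩, fun cf t den u ht ht1 hden hu hR1 hR2 => ?_⟩
    have r1 := row1_val (cf := cf) (E := (E : ℝ) / (S : ℕ)) (δ1 := (dh : ℝ) / (S : ℕ))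
      (kc := ((mkkc E : ℕ) : ℝ) / (S : ℕ)) (μ3 := μ3) (β := (b1 : ℝ) / (100 : ℕ)) hm ht ht1 hden hu h
      hR1 hEr hdl1 hkc (hkwd.trans hμa) hμc hβ1 hβ1'
    have r2 := row2_val1 (cf := cf) (η := (e2 : ℝ) / (S : ℕ)) (β := (b2 : ℝ) / (100 : ℕ))
      hm ht ht1 hden hu hb1p h hsb hR2 hy hepP hβ21 hβ2'
    have q1 := mB_nonneg' (cf := cf) hR1 (b := (b1 : ℝ) / (100 : ℕ)) (by positivity) w3
    set M0 := mW cf u (1 / m) j1 w0
    set M1 := mW cf u (1 / m) j1 w1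
    set M2 := mW cf u (1 / m) j1 w2
    set N0 := mW cf u (1 / m) j2 w0
    set N1 := mW cf u (1 / m) j2 w1
    set N2 := mW cf u (1 / m) j2 w2
    set b3 := mB cf u (1 / m) j1 ((b1 : ℝ) / (100 : ℕ)) w3
    set c1 := mB cf u (1 / m) j2 ((b2 : ℝ) / (100 : ℕ)) w1
    set c2 := mB cf u (1 / m) j2 ((b2 : ℝ) / (100 : ℕ)) w2
    set H1 := HIx (k + 2) m t cf.v.length (vC cf m den) (tauC cf m den) B (k + 1 + L) * den
    set H2 := HIx (k + 2) m t cf.v.length (vC cf m den) (tauC cf m den) B (k + b) * den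
    have t1 : (E : ℝ) / (S : ℕ) * μ3 * b3 ≤ (c3 : ℝ) / (S : ℕ) * b3 :=
      mul_le_mul_of_nonneg_right hc3r q1
    have t2 : (e2 : ℝ) / (S : ℕ) * (c1 + 1 / (D : ℝ) * c2) = (e2 : ℝ) / (S : ℕ) * (c1 + c2 / D) := by
      ring
    have key : H1 + H2 - ((M0 + N0 + (M1 - N1) / D) + x1 * (((dh - S / D : ℕ) : ℝ) / (S : ℕ) * M1) +
        x2 * ((kw : ℝ) / (S : ℕ) * M2) + 0 * (((0 : ℕ) : ℝ) / (S : ℕ) * (N1 - (N1 + N2) / D))) =
        (H1 - (M0 + dl B k L b * M1 + kp B k L b * M2)) + (H2 - (N0 - 1 / (D : ℝ) * N1)) := by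
      have f1 : dl B k L b = 1 / (D : ℝ) + x1 * (((dh - S / D : ℕ) : ℝ) / (S : ℕ)) := by linarith
      rw [f1, hx2e]
      ring
    rw [key]
    refine (abs_add_le _ _).trans ?_
    have hg10 : (((0 : ℕ) : ℕ) : ℝ) / (S : ℕ) = 0 := by simp
    rw [hg10, zero_mul, add_zero]
    rw [t2] at r2
    exact add_le_add (r1.trans t1) r2

end Pool.NW
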