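import Pool.Agent.Work.MP_46fa68_23.Mo6
import Pool.Agent.Work.MP_46fa68_23.Mo5B
import Pool.Agent.Work.MP_46fa68_23.Mo5C

/-!
# Mo7B: far classes and the constant first row (statements of `Mo7Stmt`)
-/

set_option autoImplicit false

open Finset

namespace Pool.NW.B7

open Pool.NV Pool.OB Pool.JM

/-! ### `lin` and `iv` (own copy) -/

theorem ivB {c : ℤ} {m : ℕ} {X : NI} (hm : 0 < m) (hx : Mem (1 / (m : ℝ)) X)
    (h : 1 ≤ (lin c X).lo) : 0 < (m : ℝ) + c ∧ Mem (1 / ((m : ℝ) + c)) (iv c X) := by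
  have hm' : (0 : ℝ) < m := by exact_mod_cast hm
  have hc : (-c).toNat * X.hi ≤ S := by
    cases c with
    | ofNat c =>
      have e : (-(Int.ofNat c)).toNat = 0 := by simp
      rw [e, Nat.zero_mul]
      exact Nat.zero_le _
    | negSucc c =>
      have e0 : (-(Int.negSucc c)).toNat = c + 1 := by simp
      rw [e0]
      change 1 ≤ S - (c + 1) * X.hi at h
      omega
  have h1 := mem_lin hx c hc
  have h2 := pos_of_mem h1 h
  have e1 : 1 + (c : ℝ) * (1 / m) = ((m : ℝ) + c) / m := by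
    field_simp
  rw [e1] at h2 h1
  have h3 : 0 < (m : ℝ) + c := by
    by_contra hn
    have := div_nonpos_of_nonpos_of_nonneg (not_lt.1 hn) hm'.le
    linarith
  refine ⟨h3, ?_⟩
  have h4 := mem_div (A := X) (B := lin c X) h hx h1
  have e2 : 1 / (m : ℝ) / (((m : ℝ) + c) / m) = 1 / ((m : ℝ) + c) := by
    have : (m : ℝ) ≠ 0 := hm'.ne'
    field_simp
  rw [e2] at h4
  exact h4

/-! ### units -/

/-- `x S ≤ n` means `x ≤ n / S` -/
theorem le_units {x : ℝ} {n : ℕ} (h : x * (S : ℕ) ≤ n) : x ≤ (n : ℝ) / (S : ℕ) := by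
  rw [le_div_iff₀ S_posR]
  exact h

theorem div_units {a b : ℕ} (hb : 0 < b) : (a : ℝ) / b ≤ ((a / b + 1 : ℕ) : ℝ) := by
  have hb' : (0 : ℝ) < b := by exact_mod_cast hb
  rw [div_le_iff₀ hb']
  exact div_ceil hb

/-- `z / (1 - z)` -/
theorem mkE_ok {z : ℕ} (hz : z + 1 ≤ S) :
    ((z : ℝ) / (S : ℕ)) / (1 - (z : ℝ) / (S : ℕ)) ≤ (mkE z : ℝ) / (S : ℕ) := by
  have hs := S_posR
  have h1 : 0 < S - z := by omega
  have h2 := div_units (a := z * S) h1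
  have h3 : (((S - z : ℕ)) : ℝ) = (S : ℕ) - z := by
    rw [Nat.cast_sub (by omega)]
  have h4 : (0 : ℝ) < (S : ℕ) - (z : ℝ) := by
    rw [← h3]
    exact_mod_cast h1
  apply le_units
  unfold mkE
  refine le_trans (le_of_eq ?_) h2
  rw [h3]
  push_cast
  have h5 : ((S : ℕ) : ℝ) ≠ 0 := hs.ne'
  have h6 : ((S : ℕ) : ℝ) - z ≠ 0 := h4.ne'
  have h7 : 1 - (z : ℝ) / (S : ℕ) = ((S : ℕ) - z) / (S : ℕ) := by field_simp
  rw [h7]
  field_simp

theorem mkd_ok {D E : ℕ} (hD : 1 ≤ D) :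
    (1 + 1 / (D : ℝ)) * (1 + (E : ℝ) / (S : ℕ)) - 1 ≤ (mkd D E : ℝ) / (S : ℕ) := by
  have hs := S_posR
  have hD' : (0 : ℝ) < D := by exact_mod_cast hD
  have h2 := div_units (a := (D + 1) * (S + E)) (b := D) (by omega)
  have h3 := cast_tsub_ge ((D + 1) * (S + E) / D + 1) S
  apply le_units
  unfold mkd
  refine le_trans ?_ h3
  have h5 : ((S : ℕ) : ℝ) ≠ 0 := hs.ne'
  have e : ((1 + 1 / (D : ℝ)) * (1 + (E : ℝ) / (S : ℕ)) - 1) * (S : ℕ) =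
      (((D + 1) * (S + E) : ℕ) : ℝ) / D - (S : ℕ) := by
    push_cast
    field_simp
  rw [e]
  linarith

theorem mkkc_ok {E : ℕ} :
    (E : ℝ) / (S : ℕ) * (1 + (E : ℝ) / (S : ℕ)) ^ 2 ≤ (mkkc E : ℝ) / (S : ℕ) := by
  have hs := S_posR
  have h2 := div_units (a := E * ((S + E) * (S + E))) (b := S * S) (Nat.mul_pos S_pos S_pos)
  apply le_units
  unfold mkkc
  refine le_trans (le_of_eq ?_) h2
  have h5 : ((S : ℕ) : ℝ) ≠ 0 := hs.ne'
  push_cast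
  field_simp

theorem mul_ok {a b : ℕ} : (a : ℝ) / (S : ℕ) * ((b : ℝ) / (S : ℕ)) ≤ ((a * b / S + 1 : ℕ) : ℝ) / (S : ℕ) := by
  have hs := S_posR
  have h2 := div_units (a := a * b) (b := S) S_pos
  apply le_units
  refine le_trans (le_of_eq ?_) h2
  have h5 : ((S : ℕ) : ℝ) ≠ 0 := hs.ne'
  push_cast
  field_simp

/-- the parameters of the first row from `E` -/
theorem params {k L b s D0 E lo : ℕ} {iL : NI} {B : Finset ℕ} (h : Two k L b s B)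
    (hD0 : 1 ≤ D0) (hD : D0 ≤ L + 1 - b) (hE : ee B k L b ≤ (E : ℝ) / (S : ℕ))
    (hlo : (lo : ℝ) / (S : ℕ) ≤ dl B k L b) (hiL : Mem (1 / ((L : ℝ) + 3)) iL) :
    ((E : ℝ) / (S : ℕ) * (1 + (E : ℝ) / (S : ℕ)) ^ 2 ≤ (mkkc E : ℝ) / (S : ℕ)) ∧
    dl B k L b ≤ (mkd D0 E : ℝ) / (S : ℕ) ∧
    ((mkkc E : ℝ) / (S : ℕ) * ((mkd D0 E : ℝ) / (S : ℕ)) ≤
      ((max (mkkc E * mkd D0 E / S + 1) (mkd D0 E * iL.hi / S + 1) : ℕ) : ℝ) / (S : ℕ)) ∧
    ((mkd D0 E : ℝ) / (S : ℕ) ≤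
      ((max (mkkc E * mkd D0 E / S + 1) (mkd D0 E * iL.hi / S + 1) : ℕ) : ℝ) / (S : ℕ) *
        ((L : ℝ) + 3)) ∧
    (∃ x1 : ℝ, (0 ≤ x1 ∧ x1 ≤ 1) ∧
      dl B k L b = (lo : ℝ) / (S : ℕ) + x1 * (((mkd D0 E - lo : ℕ) : ℝ) / (S : ℕ))) ∧
    (∃ x2 : ℝ, (0 ≤ x2 ∧ x2 ≤ 1) ∧
      kp B k L b = x2 * (((mkkc E * mkd D0 E / S + 1 : ℕ) : ℝ) / (S : ℕ))) := by
  have hs := S_posR
  have hdl := dl_le h hE hD0 hD
  have hd1 : dl B k L b ≤ (mkd D0 E : ℝ) / (S : ℕ) := hdl.trans (mkd_ok hD0)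
  have hkc := mkkc_ok (E := E)
  have hmax : ∀ {a b : ℕ}, (a : ℝ) / (S : ℕ) ≤ ((max a b : ℕ) : ℝ) / (S : ℕ) := fun {a b} => by
    apply div_le_div_of_nonneg_right _ hs.le
    exact_mod_cast le_max_left a b
  have hmax' : ∀ {a b : ℕ}, (b : ℝ) / (S : ℕ) ≤ ((max a b : ℕ) : ℝ) / (S : ℕ) := fun {a b} => by
    apply div_le_div_of_nonneg_right _ hs.le
    exact_mod_cast le_max_right a b
  have hk1 : (mkkc E : ℝ) / (S : ℕ) * ((mkd D0 E : ℝ) / (S : ℕ)) ≤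
      ((mkkc E * mkd D0 E / S + 1 : ℕ) : ℝ) / (S : ℕ) := mul_ok
  refine ⟨hkc, hd1, hk1.trans hmax, ?_, ?_, ?_⟩
  · have hL3 : (0 : ℝ) < (L : ℝ) + 3 := by positivity
    rw [← div_le_iff₀ hL3]
    refine le_trans ?_ hmax'
    have h1 : (mkd D0 E : ℝ) / (S : ℕ) * ((iL.hi : ℝ) / (S : ℕ)) ≤
        ((mkd D0 E * iL.hi / S + 1 : ℕ) : ℝ) / (S : ℕ) := mul_ok
    refine le_trans ?_ h1
    rw [div_eq_mul_one_div]
    exact mul_le_mul_of_nonneg_left (le_units hiL.2) (div_nonneg (Nat.cast_nonneg _) hs.le)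
  · have h1 : (lo : ℝ) / (S : ℕ) ≤ (mkd D0 E : ℝ) / (S : ℕ) := hlo.trans hd1
    have h2 : lo ≤ mkd D0 E := by
      rw [div_le_div_iff_of_pos_right hs] at h1
      exact_mod_cast h1
    have h3 : (((mkd D0 E - lo : ℕ)) : ℝ) = (mkd D0 E : ℝ) - lo := Nat.cast_sub h2
    rcases Nat.eq_zero_or_pos (mkd D0 E - lo) with h4 | h4
    · refine ⟨0, ⟨le_rfl, zero_le_one⟩, ?_⟩
      rw [zero_mul, add_zero]
      rw [h4, Nat.cast_zero] at h3
      have h5 : (mkd D0 E : ℝ) = lo := by linarith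
      rw [h5] at hd1
      exact le_antisymm hd1 hlo
    · have h5 : (0 : ℝ) < ((mkd D0 E - lo : ℕ) : ℝ) / (S : ℕ) := by
        apply div_pos _ hs
        exact_mod_cast h4
      refine ⟨(dl B k L b - (lo : ℝ) / (S : ℕ)) / (((mkd D0 E - lo : ℕ) : ℝ) / (S : ℕ)),
        ⟨div_nonneg (by linarith) h5.le, ?_⟩, ?_⟩
      · rw [div_le_one h5, h3, sub_div]
        linarith
      · rw [div_mul_cancel₀ _ h5.ne']
        ring
  · obtain ⟨μ, hμ0, hμ1, hμ⟩ := exists_mu h hE hkc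
    have hdl0 : 0 ≤ dl B k L b := by
      have h1 := dl_ge h
      have h2 : (0 : ℝ) < 1 / ((L : ℝ) + 1) := by positivity
      linarith
    have h1 : (0 : ℝ) < ((mkkc E * mkd D0 E / S + 1 : ℕ) : ℝ) / (S : ℕ) := by
      apply div_pos _ hs
      exact_mod_cast Nat.succ_pos _
    have h2 : (mkkc E : ℝ) / (S : ℕ) * dl B k L b ≤
        ((mkkc E * mkd D0 E / S + 1 : ℕ) : ℝ) / (S : ℕ) :=
      (mul_le_mul_of_nonneg_left hd1 (div_nonneg (Nat.cast_nonneg _) hs.le)).trans hk1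
    have h3 : 0 ≤ (mkkc E : ℝ) / (S : ℕ) * dl B k L b :=
      mul_nonneg (div_nonneg (Nat.cast_nonneg _) hs.le) hdl0
    have h4 : kp B k L b ≤ ((mkkc E * mkd D0 E / S + 1 : ℕ) : ℝ) / (S : ℕ) := by
      rw [hμ]
      exact (mul_le_of_le_one_left h3 hμ1).trans h2
    have h5 : 0 ≤ kp B k L b := by
      rw [hμ]
      exact mul_nonneg hμ0 h3
    refine ⟨kp B k L b / (((mkkc E * mkd D0 E / S + 1 : ℕ) : ℝ) / (S : ℕ)),
      ⟨div_nonneg h5 h1.le, (div_le_one h1).2 h4⟩, ?_⟩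
    rw [div_mul_cancel₀ _ h1.ne']

/-! ### far class -/

theorem ee_le_zF {m k L b s D0 : ℕ} {X : NI} {B : Finset ℕ} (hm : 0 < m)
    (hx : Mem (1 / (m : ℝ)) X) (h : Two k L b s B) (hN : L + b + s = 2 * m) (hD0 : 1 ≤ D0)
    (hD : D0 ≤ L + 1 - b) (h1 : 1 ≤ (lin (3 - ((m : ℤ) - L)) X).lo)
    (h3 : zF X ((m : ℤ) - L) D0 + 1 ≤ S) :
    ee B k L b ≤ (mkE (zF X ((m : ℤ) - L) D0) : ℝ) / (S : ℕ) := by
  have hs := S_posR
  obtain ⟨-, hi⟩ := ivB hm hx h1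
  have e3 : (m : ℝ) + ((3 - ((m : ℤ) - L) : ℤ) : ℝ) = (L : ℝ) + 3 := by
    push_cast
    ring
  rw [e3] at hi
  set z := zF X ((m : ℤ) - L) D0 with hz
  set I := iv (3 - ((m : ℤ) - L)) X with hI
  have hzlt : (z : ℝ) / (S : ℕ) < 1 := by
    rw [div_lt_one hs]
    have : z < S := by omega
    exact_mod_cast this
  have hD0R : (1 : ℝ) ≤ D0 := by exact_mod_cast hD0
  have hL3 : (0 : ℝ) < (L : ℝ) + 3 := by positivity
  have hza : I.hi ≤ z := le_max_left _ _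
  have hzb : ((D0 : ℤ) + 2 * ((m : ℤ) - L) - 1).toNat * I.hi / (D0 + 1) + 1 ≤ z := le_max_right _ _
  have hzaR : (I.hi : ℝ) ≤ z := by exact_mod_cast hza
  have hzbR : (((((D0 : ℤ) + 2 * ((m : ℤ) - L) - 1).toNat * I.hi / (D0 + 1) + 1 : ℕ)) : ℝ) ≤ z := by
    exact_mod_cast hzb
  refine le_trans ?_ (mkE_ok h3)
  set q : ℝ := (D0 : ℝ) + 2 * ((m : ℝ) - L) - 1 with hq
  rcases le_or_gt q (D0 + 1) with hc | hc
  · refine ee_le_far h hN hD0 hD (r := 1) hzlt le_rfl (by rw [one_mul]; exact hc) ?_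
    exact (le_units hi.2).trans (div_le_div_of_nonneg_right hzaR hs.le)
  · have hD1 : (0 : ℝ) < (D0 : ℝ) + 1 := by linarith
    refine ee_le_far h hN hD0 hD (r := q / (D0 + 1)) hzlt ?_ ?_ ?_
    · rw [le_div_iff₀ hD1]
      linarith
    · rw [div_mul_cancel₀ _ hD1.ne']
    · apply le_units
      have hq0 : 0 ≤ q := by linarith
      have hqz : q = ((((D0 : ℤ) + 2 * ((m : ℤ) - L) - 1).toNat : ℕ) : ℝ) := by
        have h4 : (0 : ℤ) ≤ (D0 : ℤ) + 2 * ((m : ℤ) - L) - 1 := by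
          have h5 : ((((D0 : ℤ) + 2 * ((m : ℤ) - L) - 1 : ℤ)) : ℝ) = q := by
            push_cast
            rw [hq]
          have h6 : (0 : ℝ) ≤ (((D0 : ℤ) + 2 * ((m : ℤ) - L) - 1 : ℤ) : ℝ) := by
            rw [h5]
            exact hq0
          exact_mod_cast h6
        have h7 : (((((D0 : ℤ) + 2 * ((m : ℤ) - L) - 1).toNat : ℕ) : ℤ)) =
            (D0 : ℤ) + 2 * ((m : ℤ) - L) - 1 := Int.toNat_of_nonneg h4
        have h8 : ((((((D0 : ℤ) + 2 * ((m : ℤ) - L) - 1).toNat : ℕ) : ℤ)) : ℝ) =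
            (((D0 : ℤ) + 2 * ((m : ℤ) - L) - 1 : ℤ) : ℝ) := by rw [h7]
        rw [Int.cast_natCast] at h8
        rw [h8]
        push_cast
        rw [hq]
      have h9 := div_units (a := ((D0 : ℤ) + 2 * ((m : ℤ) - L) - 1).toNat * I.hi) (b := D0 + 1)
        (by omega)
      refine le_trans ?_ (h9.trans hzbR)
      rw [Nat.cast_mul, ← hqz, Nat.cast_add, Nat.cast_one]
      have h10 : q / (D0 + 1) / ((L : ℝ) + 3) * (S : ℕ) =
          q / (D0 + 1) * (1 / ((L : ℝ) + 3) * (S : ℕ)) := by ring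
      rw [h10]
      calc q / (D0 + 1) * (1 / ((L : ℝ) + 3) * (S : ℕ)) ≤ q / (D0 + 1) * (I.hi : ℝ) :=
            mul_le_mul_of_nonneg_left hi.2 (by positivity)
        _ = q * (I.hi : ℝ) / (D0 + 1) := by ring

theorem mB_nonneg {cf : Cf} {u : ℤ} {x : ℝ} {j : ℤ} (h : Rng u x j) {b : ℝ} (hb : 0 ≤ b)
    (w : ℕ → ℕ) : 0 ≤ mB cf u x j b w :=
  tsum_nonneg fun d => trB_nonneg h hb w d

end Pool.NW.B7

namespace Pool.NW

open Pool.NV Pool.OB Pool.JM Pool.NW.B7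

/-- **far class**, row 1: `D ≥ D0` -/
theorem far_row {m k L b s D0 b1 : ℕ} {X : NI} {B : Finset ℕ} (hm : 0 < m)
    (hx : Mem (1 / (m : ℝ)) X) (h : Two k L b s B) (hN : L + b + s = 2 * m) (hD : D0 ≤ L + 1 - b)
    (hb1' : 4 * b1 ≤ 500) (hok : okF X ((m : ℤ) - L) D0 b1 = true) :
    ∃ x1 x2 : ℝ, (0 ≤ x1 ∧ x1 ≤ 1) ∧ (0 ≤ x2 ∧ x2 ≤ 1) ∧
      ∀ (cf : Cf) (t den : ℕ) (u : ℤ), (t : ℤ) + u = m → 1 ≤ t → 0 < den → u ≤ 29 →
        Rng u (1 / m) ((m : ℤ) - L) →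
        |HIx (k + 2) m t cf.v.length (vC cf m den) (tauC cf m den) B (k + 1 + L) * den -
          ((mW cf u (1 / m) ((m : ℤ) - L) w0 +
              ((parF X ((m : ℤ) - L) D0).dl : ℝ) / (S : ℕ) * mW cf u (1 / m) ((m : ℤ) - L) w1) +
            x1 * (((parF X ((m : ℤ) - L) D0).dw : ℝ) / (S : ℕ) * mW cf u (1 / m) ((m : ℤ) - L) w1) +
            x2 * (((parF X ((m : ℤ) - L) D0).kw : ℝ) / (S : ℕ) * mW cf u (1 / m) ((m : ℤ) - L) w2))| ≤
          ((parF X ((m : ℤ) - L) D0).c3 : ℝ) / (S : ℕ) *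
              mB cf u (1 / m) ((m : ℤ) - L) ((b1 : ℝ) / (100 : ℕ)) w3 := by
  have hs := S_posR
  unfold okF at hok
  simp only [Bool.and_eq_true, Nat.ble_eq] at hok
  obtain ⟨hD0, hl3, hl1, hz, hbt⟩ := hok
  set z := zF X ((m : ℤ) - L) D0 with hzd
  have hE := ee_le_zF hm hx h hN hD0 hD hl3 hz
  rw [← hzd] at hE
  set E := mkE z with hEd
  obtain ⟨-, hi3⟩ := ivB hm hx hl3
  obtain ⟨-, hi1⟩ := ivB hm hx hl1
  have e3 : (m : ℝ) + ((3 - ((m : ℤ) - L) : ℤ) : ℝ) = (L : ℝ) + 3 := by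
    push_cast
    ring
  have e1 : (m : ℝ) + ((1 - ((m : ℤ) - L) : ℤ) : ℝ) = (L : ℝ) + 1 := by
    push_cast
    ring
  rw [e3] at hi3
  rw [e1] at hi1
  have hlo : ((iv (1 - ((m : ℤ) - L)) X).lo : ℝ) / (S : ℕ) ≤ dl B k L b := by
    refine le_trans ?_ (dl_ge h)
    rw [div_le_iff₀ hs]
    exact hi1.1
  obtain ⟨hkc, hd1, h3, h3', ⟨x1, hx1, hx1e⟩, ⟨x2, hx2, hx2e⟩⟩ := params h hD0 hD hE hlo hi3
  have hp : parF X ((m : ℤ) - L) D0 =
      ⟨(iv (1 - ((m : ℤ) - L)) X).lo, mkd D0 E - (iv (1 - ((m : ℤ) - L)) X).lo,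
        mkkc E * mkd D0 E / S + 1, 0,
        mkc3 E (mkkc E * mkd D0 E / S + 1) (mkd D0 E) (iv (3 - ((m : ℤ) - L)) X).hi, 0, 0⟩ := rfl
  have hβ : 1 + (E : ℝ) / (S : ℕ) ≤ (b1 : ℝ) / (100 : ℕ) := by
    rw [le_div_iff₀ (by norm_num)]
    have hbt' : (((S + E) * 100 : ℕ) : ℝ) ≤ ((b1 * S : ℕ) : ℝ) := by exact_mod_cast hbt
    push_cast at hbt'
    have h5 : ((S : ℕ) : ℝ) ≠ 0 := hs.ne'
    have h6 : (1 + (E : ℝ) / (S : ℕ)) * ((100 : ℕ) : ℝ) = (((S : ℕ) : ℝ) + E) * 100 / (S : ℕ) := by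
      push_cast
      field_simp
    rw [h6, div_le_iff₀ hs]
    exact hbt'
  have hβ2 : (b1 : ℝ) / (100 : ℕ) ≤ 5 / 4 := by
    have h7 : ((4 * b1 : ℕ) : ℝ) ≤ ((500 : ℕ) : ℝ) := by exact_mod_cast hb1'
    push_cast at h7 ⊢
    linarith
  refine ⟨x1, x2, hx1, hx2, ?_⟩
  intro cf t den u ht ht1 hden hu hR
  have key := row1_val (cf := cf) hm ht ht1 hden hu h hR hE hd1 hkc h3 h3' hβ hβ2
  rw [hx1e, hx2e] at key
  rw [hp]
  have hc3 : (E : ℝ) / (S : ℕ) *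
      (((max (mkkc E * mkd D0 E / S + 1) (mkd D0 E * (iv (3 - ((m : ℤ) - L)) X).hi / S + 1) : ℕ) : ℝ) /
        (S : ℕ)) ≤ ((mkc3 E (mkkc E * mkd D0 E / S + 1) (mkd D0 E)
          (iv (3 - ((m : ℤ) - L)) X).hi : ℕ) : ℝ) / (S : ℕ) := mul_ok
  have hmB : 0 ≤ mB cf u (1 / m) ((m : ℤ) - L) ((b1 : ℝ) / (100 : ℕ)) w3 :=
    mB_nonneg hR (div_nonneg (Nat.cast_nonneg _) (Nat.cast_nonneg _)) w3
  refine le_trans (le_of_eq ?_) (key.trans (mul_le_mul_of_nonneg_right hc3 hmB))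
  congr 1
  ring

/-! ### the constant row -/

theorem B7.kapv_negB {u : ℤ} {x : ℝ} {d : ℕ} : ∀ (l : List (List ℤ × List ℤ)) (i : ℤ),
    i + l.length ≤ 0 → kapv u x d l i = 0
  | [], _, _ => rfl
  | c :: l, i, h => by
    rw [List.length_cons] at h
    push_cast at h
    have hi : i < 0 := by
      have : (0 : ℤ) ≤ (l.length : ℤ) := Int.natCast_nonneg _
      omega
    have ih := kapv_negB (u := u) (x := x) (d := d) l (i + 1) (by omega)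
    unfold kapv
    rw [ih, bin_neg hi, bin_neg hi]
    simp

theorem B7.kap_constB {cf : Cf} {u : ℤ} {x : ℝ} {j : ℤ} (h : j - 1 + cf.v.length ≤ 0) (d : ℕ) :
    kap cf u x j d = if d = 0 then pev cf.tau x else 0 := by
  unfold kap
  rw [kapv_negB _ _ h, zero_add]
  have h1 : tlw (j - 1 + cf.v.length) d = if d = 0 then 1 else 0 := by
    generalize j - 1 + (cf.v.length : ℤ) = i at h
    rcases i with i | i
    · have : i = 0 := by
        have h2 : (i : ℤ) ≤ 0 := h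
        omega
      subst this
      rfl
    · rfl
  rw [h1]
  split_ifs <;> simp

/-- constant row 1 -/
theorem const_row {m k L b s t den : ℕ} {cf : Cf} {u : ℤ} {B : Finset ℕ} (hm : 0 < m)
    (ht : (t : ℤ) + u = m) (ht1 : 1 ≤ t) (hden : 0 < den) (h : Two k L b s B)
    (hj : (m : ℤ) - L - 1 + cf.v.length ≤ 0) :
    HIx (k + 2) m t cf.v.length (vC cf m den) (tauC cf m den) B (k + 1 + L) * den =
      pev cf.tau (1 / m) := by
  rw [HIx_row1 hm ht ht1 hden h]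
  unfold rowG
  rw [tsum_eq_single 0]
  · rw [kap_constB hj, if_pos rfl]
    have h0 : gs B k L b 0 = 1 := by
      have h1 := gs_second (μ := max (kp B k L b) (dl B k L b)) h (le_max_left _ _) (by
        have h2 : dl B k L b ≤ max (kp B k L b) (dl B k L b) := le_max_right _ _
        have h3 : 0 ≤ dl B k L b := by
          have h4 := dl_ge h
          have h5 : (0 : ℝ) < 1 / ((L : ℝ) + 1) := by positivity
          linarith
        have h6 : (0 : ℝ) ≤ L := Nat.cast_nonneg L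
        nlinarith) 0
      simp only [Nat.cast_zero, zero_mul, add_zero] at h1
      have h7 := abs_nonpos_iff.1 h1
      linarith
    rw [h0]
    simp [Pd]
  · intro d hd
    rw [kap_constB hj, if_neg hd]
    ring

end Pool.NW
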