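import Pool.Agent.Work.MP_46fa68_23.Mo6
import Pool.Agent.Work.MP_46fa68_23.Mo5B
import Pool.Agent.Work.MP_46fa68_23.Mo5C

/-! STATEMENTS ONLY (to be proved in Mo7A, Mo7B) -/

set_option autoImplicit false

open Finset

namespace Pool.NW

open Pool.NV Pool.OB Pool.JM

/-! ### Mo7A (helper35) -/

/-- `lin` and `iv` -/
theorem iv_ok {c : ℤ} {m : ℕ} {X : NI} (hm : 0 < m) (hx : Mem (1 / (m : ℝ)) X)
    (h : 1 ≤ (lin c X).lo) : 0 < (m : ℝ) + c ∧ Mem (1 / ((m : ℝ) + c)) (iv c X) := sorry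

/-- **pair class**: common parameters `x1 x2 x3`, then every function -/
theorem pair_rows {m k L b s D b1 b2 : ℕ} {X : NI} {B : Finset ℕ} (hm : 0 < m)
    (hx : Mem (1 / (m : ℝ)) X) (h : Two k L b s B) (hN : L + b + s = 2 * m) (hD : D = L + 1 - b)
    (hb2 : 100 ≤ b2) (hb2' : 4 * b2 ≤ 500) (hb1' : 4 * b1 ≤ 500)
    (hok : okP X ((m : ℤ) - L) ((m : ℤ) + 1 - b) D s b1 = true) :
    ∃ x1 x2 x3 : ℝ, (0 ≤ x1 ∧ x1 ≤ 1) ∧ (0 ≤ x2 ∧ x2 ≤ 1) ∧ (0 ≤ x3 ∧ x3 ≤ 1) ∧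
      ∀ (cf : Cf) (t den : ℕ) (u : ℤ), (t : ℤ) + u = m → 1 ≤ t → 0 < den → u ≤ 29 →
        Rng u (1 / m) ((m : ℤ) - L) → Rng u (1 / m) ((m : ℤ) + 1 - b) →
        |HIx (k + 2) m t cf.v.length (vC cf m den) (tauC cf m den) B (k + 1 + L) * den +
          HIx (k + 2) m t cf.v.length (vC cf m den) (tauC cf m den) B (k + b) * den -
          ((mW cf u (1 / m) ((m : ℤ) - L) w0 + mW cf u (1 / m) ((m : ℤ) + 1 - b) w0 +
              (mW cf u (1 / m) ((m : ℤ) - L) w1 - mW cf u (1 / m) ((m : ℤ) + 1 - b) w1) / D) +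
            x1 * (((parP X ((m : ℤ) - L) ((m : ℤ) + 1 - b) D s b2).dw : ℝ) / (S : ℕ) *
              mW cf u (1 / m) ((m : ℤ) - L) w1) +
            x2 * (((parP X ((m : ℤ) - L) ((m : ℤ) + 1 - b) D s b2).kw : ℝ) / (S : ℕ) *
              mW cf u (1 / m) ((m : ℤ) - L) w2) +
            x3 * (((parP X ((m : ℤ) - L) ((m : ℤ) + 1 - b) D s b2).ew : ℝ) / (S : ℕ) *
              (mW cf u (1 / m) ((m : ℤ) + 1 - b) w1 -
                (mW cf u (1 / m) ((m : ℤ) + 1 - b) w1 + mW cf u (1 / m) ((m : ℤ) + 1 - b) w2) / D)))| ≤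
          ((parP X ((m : ℤ) - L) ((m : ℤ) + 1 - b) D s b2).c3 : ℝ) / (S : ℕ) *
              mB cf u (1 / m) ((m : ℤ) - L) ((b1 : ℝ) / (100 : ℕ)) w3 +
            ((parP X ((m : ℤ) - L) ((m : ℤ) + 1 - b) D s b2).g1 : ℝ) / (S : ℕ) *
              (mB cf u (1 / m) ((m : ℤ) + 1 - b) ((b2 : ℝ) / (100 : ℕ)) w1 +
                mB cf u (1 / m) ((m : ℤ) + 1 - b) ((b2 : ℝ) / (100 : ℕ)) w2 / D) +
            ((parP X ((m : ℤ) - L) ((m : ℤ) + 1 - b) D s b2).g2 : ℝ) / (S : ℕ) *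
              (mB cf u (1 / m) ((m : ℤ) + 1 - b) ((b2 : ℝ) / (100 : ℕ)) w2 +
                mB cf u (1 / m) ((m : ℤ) + 1 - b) ((b2 : ℝ) / (100 : ℕ)) w3 / D) := sorry

/-! ### Mo7B (helper14 or helper18) -/

/-- **far class**, row 1: `D ≥ D0` -/
theorem far_row {m k L b s D0 b1 : ℕ} {X : NI} {B : Finset ℕ} (hm : 0 < m)
    (hx : Mem (1 / (m : ℝ)) X) (h : Two k L b s B) (hN : L + b + s = 2 * m) (hD : D0 ≤ L + 1 - b)
    (hb1' : 4 * b1 ≤ 500) (hok : okF X ((m : ℤ) - L) D0 b1 = true) :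
    ∃ x1 x2 : ℝ, (0 ≤ x1 ∧ x1 ≤ 1) ∧ (0 ≤ x2 ∧ x2 ≤ 1) ∧
      ∀ (cf : Cf) (t den : ℕ) (u : ℤ), (t : ℤ) + u = m → 1 ≤ t → 0 < den → u ≤ 29 →
        Rng u (1 / m) ((m : ℤ) - L) →
        |HIx (k + 2) m t cf.v.length (vC cf m den) (tauC cf m den) B (k + 1 + L) * den -
          ((mW cf u (1 / m) ((m : ℤ) - L) w0 +
              ((parF X ((m : ℤ) - L) D0).dl : ℝ) / (S : ℕ) * mW cf u (1 / m) ((m : ℤ) - L) w1) +
            x1 * (((parF X ((m : ℤ) - L) D0).dw : ℝ) / (S : ℕ) * mW cf u (1 / m) ((m : ℤ) - L) w1) +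
            x2 * (((parF X ((m : ℤ) - L) D0).kw : ℝ) / (S : ℕ) * mW cf u (1 / m) ((m : ℤ) - L) w2))| ≤
          ((parF X ((m : ℤ) - L) D0).c3 : ℝ) / (S : ℕ) *
              mB cf u (1 / m) ((m : ℤ) - L) ((b1 : ℝ) / (100 : ℕ)) w3 := sorry

/-- constant row 1 -/
theorem const_row {m k L b s t den : ℕ} {cf : Cf} {u : ℤ} {B : Finset ℕ} (hm : 0 < m)
    (ht : (t : ℤ) + u = m) (ht1 : 1 ≤ t) (hden : 0 < den) (h : Two k L b s B)
    (hj : (m : ℤ) - L - 1 + cf.v.length ≤ 0) :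
    HIx (k + 2) m t cf.v.length (vC cf m den) (tauC cf m den) B (k + 1 + L) * den =
      pev cf.tau (1 / m) := sorry

end Pool.NW
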