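import Pool.Agent.Work.MP_46fa68_23.Mo6

/-!
# Soundness of the cone test
-/

set_option autoImplicit false

open Finset

namespace Pool.NW

open Pool.NV

/-- a triple of reals -/
structure R3 where
  a : ℝ
  k : ℝ
  b : ℝ

def Mem3 (v : R3) (V : P3) : Prop := MemS v.a V.a ∧ MemS v.k V.k ∧ MemS v.b V.b

noncomputable def R3.add (v w : R3) : R3 := ⟨v.a + w.a, v.k + w.k, v.b + w.b⟩

noncomputable def R3.smul (x : ℝ) (v : R3) : R3 := ⟨x * v.a, x * v.k, x * v.b⟩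

theorem mem_add3 {v w : R3} {V W : P3} (hv : Mem3 v V) (hw : Mem3 w W) : Mem3 (v.add w) (add3 V W) :=
  ⟨memS_add hv.1 hw.1, memS_add hv.2.1 hw.2.1, memS_add hv.2.2 hw.2.2⟩

/-- robust cone condition -/
def Rc (e : N3) (v : R3) : Prop :=
  0 ≤ v.a * (S : ℕ) - e.a ∧ 0 ≤ v.k * (S : ℕ) - e.k ∧
    (|v.b| * (S : ℕ) + e.b) ^ 2 ≤ (v.a * (S : ℕ) - e.a) * (v.k * (S : ℕ) - e.k)

theorem Rc_of_tst {v : R3} {V : P3} {e : N3} (hv : Mem3 v V) (h : tst V e = true) : Rc e v := by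
  unfold tst at h
  rw [Bool.and_eq_true, Bool.and_eq_true, Nat.ble_eq, Nat.ble_eq, Nat.ble_eq] at h
  obtain ⟨h1, h2, h3⟩ := h
  have a1 := loS_le hv.1 (by omega)
  have a2 := loS_le hv.2.1 (by omega)
  have a3 := le_abS hv.2.2
  have c1 : ((loS V.a - e.a : ℕ) : ℝ) = (loS V.a : ℝ) - e.a := Nat.cast_sub (by omega)
  have c2 : ((loS V.k - e.k : ℕ) : ℝ) = (loS V.k : ℝ) - e.k := Nat.cast_sub (by omega)
  have h3' : (((abS V.b + e.b) * (abS V.b + e.b) : ℕ) : ℝ) ≤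
      (((loS V.a - e.a) * (loS V.k - e.k) : ℕ) : ℝ) := by exact_mod_cast h3
  rw [Nat.cast_mul, Nat.cast_mul, c1, c2, Nat.cast_add] at h3'
  have h1' : ((e.a + 1 : ℕ) : ℝ) ≤ (loS V.a : ℝ) := by exact_mod_cast h1
  have h2' : ((e.k + 1 : ℕ) : ℝ) ≤ (loS V.k : ℝ) := by exact_mod_cast h2
  push_cast at h1' h2'
  have hS := S_posR
  have hb0 : 0 ≤ |v.b| * (S : ℕ) := mul_nonneg (abs_nonneg _) hS.le
  have he : (0 : ℝ) ≤ e.b := Nat.cast_nonneg _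
  refine ⟨by linarith, by linarith, ?_⟩
  calc (|v.b| * (S : ℕ) + e.b) ^ 2 ≤ ((abS V.b : ℝ) + e.b) ^ 2 :=
        pow_le_pow_left₀ (by linarith) (by linarith) 2
    _ = ((abS V.b : ℝ) + e.b) * ((abS V.b : ℝ) + e.b) := by ring
    _ ≤ ((loS V.a : ℝ) - e.a) * ((loS V.k : ℝ) - e.k) := h3'
    _ ≤ _ := mul_le_mul (by linarith) (by linarith) (by linarith) (by linarith)

theorem quad {x y A0 K0 B0 A1 K1 B1 : ℝ} (hx : 0 ≤ x) (hy : 0 ≤ y) (hA0 : 0 ≤ A0) (hK0 : 0 ≤ K0)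
    (hB0 : 0 ≤ B0) (hA1 : 0 ≤ A1) (hK1 : 0 ≤ K1) (hB1 : 0 ≤ B1) (h0 : B0 ^ 2 ≤ A0 * K0)
    (h1 : B1 ^ 2 ≤ A1 * K1) : (x * B0 + y * B1) ^ 2 ≤ (x * A0 + y * A1) * (x * K0 + y * K1) := by
  have h2 : 2 * (B0 * B1) ≤ A0 * K1 + A1 * K0 := by
    have h3 : (B0 * B1) ^ 2 ≤ (A0 * K1) * (A1 * K0) := by
      calc (B0 * B1) ^ 2 = B0 ^ 2 * B1 ^ 2 := by ring
        _ ≤ (A0 * K0) * (A1 * K1) := mul_le_mul h0 h1 (sq_nonneg _) (mul_nonneg hA0 hK0)
        _ = _ := by ring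
    have h4 : 0 ≤ A0 * K1 + A1 * K0 := by positivity
    have h5 : (2 * (B0 * B1)) ^ 2 ≤ (A0 * K1 + A1 * K0) ^ 2 := by
      nlinarith [sq_nonneg (A0 * K1 - A1 * K0)]
    exact abs_le_of_sq_le_sq' h5 h4 |>.2
  have hxy : 0 ≤ x * y := mul_nonneg hx hy
  nlinarith [mul_le_mul_of_nonneg_left h0 (mul_nonneg hx hx), mul_le_mul_of_nonneg_left h1 (mul_nonneg hy hy),
    mul_le_mul_of_nonneg_left h2 hxy]

/-- **segment** -/
theorem Rc.seg {e : N3} {v w : R3} (h0 : Rc e v) (h1 : Rc e (v.add w)) {x : ℝ} (hx : 0 ≤ x ∧ x ≤ 1) :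
    Rc e (v.add (w.smul x)) := by
  obtain ⟨p1, p2, p3⟩ := h0
  obtain ⟨q1, q2, q3⟩ := h1
  obtain ⟨hx0, hx1⟩ := hx
  have hS := S_posR
  have he : (0 : ℝ) ≤ e.b := Nat.cast_nonneg _
  have hy : 0 ≤ 1 - x := by linarith
  have key := quad hy hx0 p1 p2 (by positivity) q1 q2 (by positivity) p3 q3
  unfold R3.add R3.smul Rc
  simp only [R3.add] at q1 q2 q3 key
  refine ⟨?_, ?_, ?_⟩
  · show 0 ≤ (v.a + x * w.a) * (S : ℕ) - e.a
    nlinarith
  · show 0 ≤ (v.k + x * w.k) * (S : ℕ) - e.k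
    nlinarith
  · show (|v.b + x * w.b| * (S : ℕ) + e.b) ^ 2 ≤
      ((v.a + x * w.a) * (S : ℕ) - e.a) * ((v.k + x * w.k) * (S : ℕ) - e.k)
    have e1 : (v.a + x * w.a) * (S : ℕ) - e.a =
        (1 - x) * (v.a * (S : ℕ) - e.a) + x * ((v.a + w.a) * (S : ℕ) - e.a) := by ring
    have e2 : (v.k + x * w.k) * (S : ℕ) - e.k =
        (1 - x) * (v.k * (S : ℕ) - e.k) + x * ((v.k + w.k) * (S : ℕ) - e.k) := by ring
    rw [e1, e2]
    refine le_trans ?_ key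
    have hb : |v.b + x * w.b| ≤ (1 - x) * |v.b| + x * |v.b + w.b| := by
      calc |v.b + x * w.b| = |(1 - x) * v.b + x * (v.b + w.b)| := by congr 1; ring
        _ ≤ |(1 - x) * v.b| + |x * (v.b + w.b)| := abs_add_le _ _
        _ = _ := by rw [abs_mul, abs_mul, abs_of_nonneg hy, abs_of_nonneg hx0]
    have h3 := mul_le_mul_of_nonneg_right hb hS.le
    refine pow_le_pow_left₀ (by positivity) ?_ 2
    nlinarith

/-- from the robust condition to the function itself -/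
theorem Rc.cone {e : N3} {v F : R3} (h : Rc e v) (ha : |F.a - v.a| * (S : ℕ) ≤ e.a)
    (hk : |F.k - v.k| * (S : ℕ) ≤ e.k) (hb : |F.b - v.b| * (S : ℕ) ≤ e.b) :
    0 ≤ F.a ∧ 0 ≤ F.k ∧ F.b ^ 2 ≤ F.a * F.k := by
  obtain ⟨p1, p2, p3⟩ := h
  have hS := S_posR
  have e1 : v.a * (S : ℕ) - e.a ≤ F.a * (S : ℕ) := by
    have := neg_abs_le (F.a - v.a)
    nlinarith
  have e2 : v.k * (S : ℕ) - e.k ≤ F.k * (S : ℕ) := by
    have := neg_abs_le (F.k - v.k)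
    nlinarith
  have e3 : |F.b| * (S : ℕ) ≤ |v.b| * (S : ℕ) + e.b := by
    have : |F.b| ≤ |v.b| + |F.b - v.b| := by
      calc |F.b| = |v.b + (F.b - v.b)| := by congr 1; ring
        _ ≤ _ := abs_add_le _ _
    nlinarith
  have a0 : 0 ≤ F.a := by
    by_contra hc
    have := mul_neg_of_neg_of_pos (not_le.1 hc) hS
    linarith
  have k0 : 0 ≤ F.k := by
    by_contra hc
    have := mul_neg_of_neg_of_pos (not_le.1 hc) hS
    linarith
  refine ⟨a0, k0, ?_⟩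
  have h1 : (|F.b| * (S : ℕ)) ^ 2 ≤ (F.a * (S : ℕ)) * (F.k * (S : ℕ)) := by
    calc (|F.b| * (S : ℕ)) ^ 2 ≤ (|v.b| * (S : ℕ) + e.b) ^ 2 :=
          pow_le_pow_left₀ (by positivity) e3 2
      _ ≤ _ := p3
      _ ≤ _ := mul_le_mul e1 e2 p2 (by linarith)
  have h2 : F.b ^ 2 * ((S : ℕ) : ℝ) ^ 2 ≤ F.a * F.k * ((S : ℕ) : ℝ) ^ 2 := by
    rw [← sq_abs F.b]
    nlinarith
  exact le_of_mul_le_mul_right h2 (by positivity)

theorem Rc.mono {e : N3} {v v' : R3} (h : Rc e v) (h1 : v' = v) : Rc e v' := h1 ▸ h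

/-- homogeneity: `2 F` in the cone -/
theorem cone_half {F : R3} (h : 0 ≤ 2 * F.a ∧ 0 ≤ 2 * F.k ∧ (2 * F.b) ^ 2 ≤ (2 * F.a) * (2 * F.k)) :
    0 ≤ F.a ∧ 0 ≤ F.k ∧ F.b ^ 2 ≤ F.a * F.k := by
  obtain ⟨h1, h2, h3⟩ := h
  refine ⟨by linarith, by linarith, by nlinarith⟩

/-- **the box test** -/
theorem box_sound {V W1 W2 W3 : P3} {e : N3} (h : box V W1 W2 W3 e = true) {v w1 w2 w3 : R3}
    (hv : Mem3 v V) (h1 : Mem3 w1 W1) (h2 : Mem3 w2 W2) (h3 : Mem3 w3 W3) {x1 x2 x3 : ℝ}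
    (hx1 : 0 ≤ x1 ∧ x1 ≤ 1) (hx2 : 0 ≤ x2 ∧ x2 ≤ 1) (hx3 : 0 ≤ x3 ∧ x3 ≤ 1) {F : R3}
    (ha : |F.a - (v.a + x1 * w1.a + x2 * w2.a + x3 * w3.a)| * (S : ℕ) ≤ e.a)
    (hk : |F.k - (v.k + x1 * w1.k + x2 * w2.k + x3 * w3.k)| * (S : ℕ) ≤ e.k)
    (hb : |F.b - (v.b + x1 * w1.b + x2 * w2.b + x3 * w3.b)| * (S : ℕ) ≤ e.b) :
    0 ≤ F.a ∧ 0 ≤ F.k ∧ F.b ^ 2 ≤ F.a * F.k := by
  have hS := S_posR
  unfold box at h
  rw [Bool.or_eq_true] at h
  rcases h with h | h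
  · -- centre
    have hc := Rc_of_tst (mem_add3 (mem_add3 hv hv) (mem_add3 h1 (mem_add3 h2 h3))) h
    refine cone_half (F := F) ?_
    have key : ∀ {f y a b c : ℝ} {A B C : PN} {n : ℕ}, MemS a A → MemS b B → MemS c C →
        |f - (y + x1 * a + x2 * b + x3 * c)| * (S : ℕ) ≤ (n : ℝ) →
        |2 * f - (y + y + (a + (b + c)))| * (S : ℕ) ≤ ((n + n + (abS A + (abS B + abS C)) : ℕ) : ℝ) := by
      intro f y a b c A B C n hA hB hC hf
      have t1 := le_abS hA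
      have t2 := le_abS hB
      have t3 := le_abS hC
      have e1 : 2 * f - (y + y + (a + (b + c))) = 2 * (f - (y + x1 * a + x2 * b + x3 * c)) +
          ((2 * x1 - 1) * a + ((2 * x2 - 1) * b + (2 * x3 - 1) * c)) := by ring
      have s1 : |(2 * x1 - 1) * a| ≤ |a| := by
        rw [abs_mul]
        exact mul_le_of_le_one_left (abs_nonneg _) (abs_le.2 ⟨by linarith [hx1.1], by linarith [hx1.2]⟩)
      have s2 : |(2 * x2 - 1) * b| ≤ |b| := by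
        rw [abs_mul]
        exact mul_le_of_le_one_left (abs_nonneg _) (abs_le.2 ⟨by linarith [hx2.1], by linarith [hx2.2]⟩)
      have s3 : |(2 * x3 - 1) * c| ≤ |c| := by
        rw [abs_mul]
        exact mul_le_of_le_one_left (abs_nonneg _) (abs_le.2 ⟨by linarith [hx3.1], by linarith [hx3.2]⟩)
      have s4 : |2 * (f - (y + x1 * a + x2 * b + x3 * c))| = 2 * |f - (y + x1 * a + x2 * b + x3 * c)| := by
        rw [abs_mul, abs_two]
      have s5 : |2 * f - (y + y + (a + (b + c)))| ≤ 2 * |f - (y + x1 * a + x2 * b + x3 * c)| +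
          (|a| + (|b| + |c|)) := by
        rw [e1]
        refine (abs_add_le _ _).trans ?_
        rw [s4]
        refine add_le_add le_rfl ((abs_add_le _ _).trans (add_le_add s1 ?_))
        exact (abs_add_le _ _).trans (add_le_add s2 s3)
      push_cast
      nlinarith [mul_le_mul_of_nonneg_right s5 hS.le]
    have := hc.cone (F := ⟨2 * F.a, 2 * F.k, 2 * F.b⟩) (key h1.1 h2.1 h3.1 ha)
      (key h1.2.1 h2.2.1 h3.2.1 hk) (key h1.2.2 h2.2.2 h3.2.2 hb)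
    exact this
  · -- corners
    simp only [Bool.and_eq_true] at h
    obtain ⟨⟨⟨c1, c2⟩, c3, c4⟩, ⟨c5, c6⟩, c7, c8⟩ := h
    have d1 := Rc_of_tst hv c1
    have d2 := Rc_of_tst (mem_add3 hv h3) c2
    have d3 := Rc_of_tst (mem_add3 hv h2) c3
    have d4 := Rc_of_tst (mem_add3 (mem_add3 hv h2) h3) c4
    have d5 := Rc_of_tst (mem_add3 hv h1) c5
    have d6 := Rc_of_tst (mem_add3 (mem_add3 hv h1) h3) c6
    have d7 := Rc_of_tst (mem_add3 (mem_add3 hv h1) h2) c7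
    have d8 := Rc_of_tst (mem_add3 (mem_add3 (mem_add3 hv h1) h2) h3) c8
    have f1 := d1.seg d2 hx3
    have f2 := d3.seg d4 hx3
    have f3 := d5.seg d6 hx3
    have f4 := d7.seg d8 hx3
    -- x2
    have g1 : Rc e ((v.add (w3.smul x3)).add (w2.smul x2)) := by
      refine f1.seg (w := w2) (f2.mono ?_) hx2
      simp only [R3.add, R3.smul, R3.mk.injEq]
      exact ⟨by ring, by ring, by ring⟩
    have g2 : Rc e (((v.add w1).add (w3.smul x3)).add (w2.smul x2)) := by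
      refine f3.seg (w := w2) (f4.mono ?_) hx2
      simp only [R3.add, R3.smul, R3.mk.injEq]
      exact ⟨by ring, by ring, by ring⟩
    have g3 : Rc e (((v.add (w3.smul x3)).add (w2.smul x2)).add (w1.smul x1)) := by
      refine g1.seg (w := w1) (g2.mono ?_) hx1
      simp only [R3.add, R3.smul, R3.mk.injEq]
      exact ⟨by ring, by ring, by ring⟩
    have key : ∀ {f y a b c : ℝ} {n : ℕ}, |f - (y + x1 * a + x2 * b + x3 * c)| * (S : ℕ) ≤ (n : ℝ) →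
        |f - (y + x3 * c + x2 * b + x1 * a)| * (S : ℕ) ≤ (n : ℝ) := by
      intro f y a b c n hf
      refine le_trans (le_of_eq ?_) hf
      congr 2
      ring
    exact g3.cone (key ha) (key hk) (key hb)

end Pool.NW
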