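import Pool.Agent.Work.MP_46fa68_23.Mo8a
import Pool.Agent.Work.MP_46fa68_23.Mo7A
import Pool.Agent.Work.MP_46fa68_23.Mo7B
import Pool.Agent.Work.MP_46fa68_35.Var

/-!
# Layer values and unit conversions of the classes
-/

set_option autoImplicit false

open Finset

namespace Pool.NW

open Pool.NV Pool.OB Pool.JM

/-! ### constant layers -/

theorem bin_neg {i : ℤ} (hi : i < 0) (d : ℕ) : bin i d = 0 := by
  unfold bin
  rcases i with i | i
  · exact absurd hi (by simp)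
  · rfl

theorem tlw_neg {i : ℤ} (hi : i ≤ 0) (d : ℕ) : tlw i d = if d = 0 then 1 else 0 := by
  unfold tlw
  rcases i with i | i
  · have : i = 0 := by
      have h : (i : ℤ) ≤ 0 := hi
      omega
    subst this
    rfl
  · rfl

theorem kapv_zero {u : ℤ} {x : ℝ} {d : ℕ} : ∀ (l : List (List ℤ × List ℤ)) (i : ℤ),
    i + l.length ≤ 0 → kapv u x d l i = 0
  | [], _, _ => rfl
  | c :: l, i, h => by
    rw [List.length_cons] at h
    push_cast at h
    have h1 : bin i d = 0 := bin_neg (by omega) d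
    have h2 : bin i (d - 1) = 0 := bin_neg (by omega) (d - 1)
    unfold kapv
    rw [h1, h2, kapv_zero l (i + 1) (by omega)]
    simp

theorem kap_cst {cf : Cf} {u : ℤ} {x : ℝ} {j : ℤ} (h : j - 1 + cf.v.length ≤ 0) (d : ℕ) :
    kap cf u x j d = if d = 0 then pev cf.tau x else 0 := by
  unfold kap
  rw [kapv_zero cf.v (j - 1) h, tlw_neg h]
  split_ifs <;> simp

theorem lay_cst {cf : Cf} {u : ℤ} {x : ℝ} {X : NI} {j : ℤ} {b : ℝ} (hx : Mem x X)
    (h : j - 1 + cf.v.length ≤ 0) :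
    LyOk cf u x j b ⟨nrm (pevI cf.tau X), zeroS, zeroS, 0, 0, 0⟩ := by
  have e0 : ∀ w : ℕ → ℕ, mW cf u x j w = pev cf.tau x * w 0 := by
    intro w
    unfold mW
    rw [tsum_eq_single 0]
    · unfold trW
      rw [kap_cst h 0, if_pos rfl]
      simp [Pd]
    · intro d hd
      unfold trW
      rw [kap_cst h d, if_neg hd]
      ring
  have eB : ∀ w : ℕ → ℕ, w 0 = 0 → mB cf u x j b w = 0 := by
    intro w hw
    unfold mB
    rw [tsum_congr (g := fun _ => (0 : ℝ)), tsum_zero]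
    intro d
    unfold trB
    rcases Nat.eq_zero_or_pos d with rfl | hd
    · rw [hw]; simp
    · rw [kap_cst h d, if_neg (by omega)]
      simp
  constructor
  · rw [e0]
    simp only [w0, Nat.cast_one, mul_one]
    exact memS_nrm (memS_pev hx cf.tau)
  · rw [e0]
    simp only [w1, Nat.cast_zero, mul_zero]
    exact memS_zero
  · rw [e0]
    simp only [w2, Nat.zero_mul, Nat.cast_zero, mul_zero]
    exact memS_zero
  · rw [eB _ rfl]; simp
  · rw [eB _ rfl]; simp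
  · rw [eB _ rfl]; simp

theorem lvt_spec {F : FD} {X : NI} {j : ℤ} {bt : ℕ} (h : LVt F X j bt = true) :
    RngI F.u X j ∧ 4 * bt ≤ 500 ∧ 100 ≤ bt ∧ F.u ≤ 29 := by
  unfold LVt at h
  rw [Bool.and_eq_true, Bool.and_eq_true, Bool.and_eq_true, decide_eq_true_eq, Nat.ble_eq, Nat.ble_eq,
    decide_eq_true_eq] at h
  exact h

theorem lv_ok {F : FD} {x : ℝ} {X : NI} {j : ℤ} {bt : ℕ} (hx : Mem x X) (h : LVt F X j bt = true) :
    LyOk F.cf F.u x j ((bt : ℝ) / (100 : ℕ)) (LV F X j bt) := by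
  obtain ⟨h1, h2, h3, h4⟩ := lvt_spec h
  unfold LV
  split_ifs with hc
  · exact lay_cst hx hc
  · exact lay_ok hx h1 h4 (by norm_num) (by omega)

/-! ### signed operations -/

theorem memS_sdiv {x : ℝ} {X : PN} {k : ℕ} (hk : 0 < k) (hx : MemS x X) : MemS (x / k) (sdivS X k) := by
  obtain ⟨a, b, h1, h2, rfl⟩ := hx
  exact ⟨a / k, b / k, mem_sdiv hk h1, mem_sdiv hk h2, by ring⟩

theorem mem_units (n : ℕ) : Mem ((n : ℝ) / (S : ℕ)) ⟨n, n⟩ := by
  have hS := S_posR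
  constructor
  · change (n : ℝ) ≤ _
    rw [div_mul_cancel₀ _ hS.ne']
  · change _ ≤ (n : ℝ)
    rw [div_mul_cancel₀ _ hS.ne']

theorem memS_un (n : ℕ) {x : ℝ} {X : PN} (hx : MemS x X) : MemS ((n : ℝ) / (S : ℕ) * x) (unS n X) :=
  memS_mul (mem_units n) hx

/-- product of a coefficient in units and an upper bound in units -/
theorem un_mul {n M : ℕ} {y : ℝ} (hy : y * (S : ℕ) ≤ (M : ℝ)) :
    (n : ℝ) / (S : ℕ) * y * (S : ℕ) ≤ ((n * M / S + 1 : ℕ) : ℝ) := by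
  have hS := S_posR
  have h1 := div_ceil (a := n * M) S_pos
  have h2 : (n : ℝ) / (S : ℕ) * y * (S : ℕ) * (S : ℕ) ≤ ((n * M / S + 1 : ℕ) : ℝ) * (S : ℕ) := by
    refine le_trans ?_ h1
    have e : (n : ℝ) / (S : ℕ) * y * (S : ℕ) * (S : ℕ) = n * (y * (S : ℕ)) := by field_simp
    rw [e]
    push_cast
    exact mul_le_mul_of_nonneg_left hy (Nat.cast_nonneg _)
  exact le_of_mul_le_mul_right h2 hS

/-- `y + z / D` in units -/
theorem un_div {M N D : ℕ} (hD : 0 < D) {y z : ℝ} (hy : y * (S : ℕ) ≤ (M : ℝ)) (hz : z * (S : ℕ) ≤ (N : ℝ)) :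
    (y + z / D) * (S : ℕ) ≤ ((M + (N / D + 1) : ℕ) : ℝ) := by
  have hD' : (0 : ℝ) < D := by exact_mod_cast hD
  have h1 := div_ceil (a := N) hD
  have h2 : z / D * (S : ℕ) ≤ ((N / D + 1 : ℕ) : ℝ) := by
    rw [div_mul_eq_mul_div, div_le_iff₀ hD']
    exact hz.trans h1
  rw [add_mul, Nat.cast_add]
  exact add_le_add hy h2

theorem cast3 (A B C : ℕ) : ((A + (B + C) : ℕ) : ℝ) = (A : ℝ) + ((B : ℝ) + (C : ℝ)) := by
  push_cast
  ring

/-! ### the functions -/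

/-- `HIx`, `HL`, `HI` of a function, times `den` -/
noncomputable def xD (F : FD) (m t den K : ℕ) (B : Finset ℕ) (x : ℕ) : ℝ :=
  HIx K m t F.cf.v.length (vC F.cf m den) (tauC F.cf m den) B x * den

noncomputable def lD (F : FD) (m t den K : ℕ) (B : Finset ℕ) (x : ℕ) : ℝ :=
  HL K m t F.cf.v.length (vC F.cf m den) (tauC F.cf m den) B x * den

/-- the function itself, times `den` -/
noncomputable def fD (F : FD) (m t den K : ℕ) (B : Finset ℕ) : ℝ :=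
  pev F.c0 (1 / m) + HI K m t F.cf.v.length (vC F.cf m den) (tauC F.cf m den) B * den

theorem fD_two {F : FD} {m t den k L b s : ℕ} {B : Finset ℕ} (h : Two k L b s B) :
    fD F m t den (k + 2) B = pev F.c0 (1 / m) + (xD F m t den (k + 2) B (k + 1 + L) +
      xD F m t den (k + 2) B (k + b)) + lD F m t den (k + 2) B (k + b) := by
  unfold fD xD lD
  rw [HI_two _ _ h]
  ring

/-! ### pair classes: one function -/

/-- centre and generators of a pair class, real -/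
noncomputable def cP (F : FD) (x : ℝ) (j1 j2 : ℤ) (D : ℕ) : ℝ :=
  pev F.c0 x + ((mW F.cf F.u x j1 w0 + mW F.cf F.u x j2 w0) +
    (mW F.cf F.u x j1 w1 + -mW F.cf F.u x j2 w1) / D)

noncomputable def g1P (F : FD) (x : ℝ) (j1 : ℤ) (P : Par) : ℝ :=
  (P.dw : ℝ) / (S : ℕ) * mW F.cf F.u x j1 w1

noncomputable def g2P (F : FD) (x : ℝ) (j1 : ℤ) (P : Par) : ℝ :=
  (P.kw : ℝ) / (S : ℕ) * mW F.cf F.u x j1 w2

noncomputable def g3P (F : FD) (x : ℝ) (j2 : ℤ) (D : ℕ) (P : Par) : ℝ :=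
  (P.ew : ℝ) / (S : ℕ) * (mW F.cf F.u x j2 w1 + -((mW F.cf F.u x j2 w1 + mW F.cf F.u x j2 w2) / D))

theorem mem_vP {F : FD} {x : ℝ} {X : NI} {j1 j2 : ℤ} {b1 b2 D : ℕ} (hx : Mem x X) (hD : 0 < D)
    (h1 : LVt F X j1 b1 = true) (h2 : LVt F X j2 b2 = true) :
    MemS (cP F x j1 j2 D) (vP F X j1 j2 b1 b2 D) := by
  have l1 := lv_ok hx h1
  have l2 := lv_ok hx h2
  exact memS_add (memS_pev hx _) (memS_add (memS_add l1.h0 l2.h0)
    (memS_sdiv hD (memS_add l1.h1 (memS_neg l2.h1))))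

theorem mem_wP1 {F : FD} {x : ℝ} {X : NI} {j1 : ℤ} {b1 : ℕ} {P : Par} (hx : Mem x X)
    (h1 : LVt F X j1 b1 = true) : MemS (g1P F x j1 P) (wP1 F X j1 b1 P) :=
  memS_un _ (lv_ok hx h1).h1

theorem mem_wP2 {F : FD} {x : ℝ} {X : NI} {j1 : ℤ} {b1 : ℕ} {P : Par} (hx : Mem x X)
    (h1 : LVt F X j1 b1 = true) : MemS (g2P F x j1 P) (wP2 F X j1 b1 P) :=
  memS_un _ (lv_ok hx h1).h2

theorem mem_wP3 {F : FD} {x : ℝ} {X : NI} {j2 : ℤ} {b2 D : ℕ} {P : Par} (hx : Mem x X) (hD : 0 < D)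
    (h2 : LVt F X j2 b2 = true) : MemS (g3P F x j2 D P) (wP3 F X j2 b2 D P) := by
  have l2 := lv_ok hx h2
  exact memS_un _ (memS_add l2.h1 (memS_neg (memS_sdiv hD (memS_add l2.h1 l2.h2))))

/-- **pair class, one function** -/
theorem pair_fun {F : FD} {m t den k L b s D b1 b2 lo : ℕ} {X : NI} {B : Finset ℕ} {P : Par}
    (hx : Mem (1 / (m : ℝ)) X) (hD : 0 < D) (h : Two k L b s B)
    (h1 : LVt F X ((m : ℤ) - L) b1 = true) (h2 : LVt F X ((m : ℤ) + 1 - b) b2 = true)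
    {x1 x2 x3 : ℝ}
    (hr : |HIx (k + 2) m t F.cf.v.length (vC F.cf m den) (tauC F.cf m den) B (k + 1 + L) * den +
          HIx (k + 2) m t F.cf.v.length (vC F.cf m den) (tauC F.cf m den) B (k + b) * den -
          ((mW F.cf F.u (1 / m) ((m : ℤ) - L) w0 + mW F.cf F.u (1 / m) ((m : ℤ) + 1 - b) w0 +
              (mW F.cf F.u (1 / m) ((m : ℤ) - L) w1 - mW F.cf F.u (1 / m) ((m : ℤ) + 1 - b) w1) / D) +
            x1 * ((P.dw : ℝ) / (S : ℕ) * mW F.cf F.u (1 / m) ((m : ℤ) - L) w1) +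
            x2 * ((P.kw : ℝ) / (S : ℕ) * mW F.cf F.u (1 / m) ((m : ℤ) - L) w2) +
            x3 * ((P.ew : ℝ) / (S : ℕ) *
              (mW F.cf F.u (1 / m) ((m : ℤ) + 1 - b) w1 -
                (mW F.cf F.u (1 / m) ((m : ℤ) + 1 - b) w1 + mW F.cf F.u (1 / m) ((m : ℤ) + 1 - b) w2) / D)))| ≤
          (P.c3 : ℝ) / (S : ℕ) * mB F.cf F.u (1 / m) ((m : ℤ) - L) ((b1 : ℝ) / (100 : ℕ)) w3 +
            (P.g1 : ℝ) / (S : ℕ) *
              (mB F.cf F.u (1 / m) ((m : ℤ) + 1 - b) ((b2 : ℝ) / (100 : ℕ)) w1 +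
                mB F.cf F.u (1 / m) ((m : ℤ) + 1 - b) ((b2 : ℝ) / (100 : ℕ)) w2 / D) +
            (P.g2 : ℝ) / (S : ℕ) *
              (mB F.cf F.u (1 / m) ((m : ℤ) + 1 - b) ((b2 : ℝ) / (100 : ℕ)) w2 +
                mB F.cf F.u (1 / m) ((m : ℤ) + 1 - b) ((b2 : ℝ) / (100 : ℕ)) w3 / D))
    (hlo : |lD F m t den (k + 2) B (k + b)| * (S : ℕ) ≤ (lo : ℝ)) :
    |fD F m t den (k + 2) B - (cP F (1 / m) ((m : ℤ) - L) ((m : ℤ) + 1 - b) D +
      x1 * g1P F (1 / m) ((m : ℤ) - L) P + x2 * g2P F (1 / m) ((m : ℤ) - L) P +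
      x3 * g3P F (1 / m) ((m : ℤ) + 1 - b) D P)| * (S : ℕ) ≤
      ((erP F X ((m : ℤ) - L) ((m : ℤ) + 1 - b) b1 b2 D P + lo : ℕ) : ℝ) := by
  have hS := S_posR
  have l1 := lv_ok hx h1
  have l2 := lv_ok hx h2
  have e1 := un_mul (n := P.c3) l1.h4
  have e2 := un_mul (n := P.g1) (un_div hD l2.h5 l2.h3)
  have e3 := un_mul (n := P.g2) (un_div hD l2.h3 l2.h4)
  have hr' := mul_le_mul_of_nonneg_right hr hS.le
  rw [fD_two h, Nat.cast_add]
  have key : |pev F.c0 (1 / m) + (xD F m t den (k + 2) B (k + 1 + L) + xD F m t den (k + 2) B (k + b)) +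
      lD F m t den (k + 2) B (k + b) - (cP F (1 / m) ((m : ℤ) - L) ((m : ℤ) + 1 - b) D +
      x1 * g1P F (1 / m) ((m : ℤ) - L) P + x2 * g2P F (1 / m) ((m : ℤ) - L) P +
      x3 * g3P F (1 / m) ((m : ℤ) + 1 - b) D P)| ≤
      |HIx (k + 2) m t F.cf.v.length (vC F.cf m den) (tauC F.cf m den) B (k + 1 + L) * den +
          HIx (k + 2) m t F.cf.v.length (vC F.cf m den) (tauC F.cf m den) B (k + b) * den -
          ((mW F.cf F.u (1 / m) ((m : ℤ) - L) w0 + mW F.cf F.u (1 / m) ((m : ℤ) + 1 - b) w0 +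
              (mW F.cf F.u (1 / m) ((m : ℤ) - L) w1 - mW F.cf F.u (1 / m) ((m : ℤ) + 1 - b) w1) / D) +
            x1 * ((P.dw : ℝ) / (S : ℕ) * mW F.cf F.u (1 / m) ((m : ℤ) - L) w1) +
            x2 * ((P.kw : ℝ) / (S : ℕ) * mW F.cf F.u (1 / m) ((m : ℤ) - L) w2) +
            x3 * ((P.ew : ℝ) / (S : ℕ) *
              (mW F.cf F.u (1 / m) ((m : ℤ) + 1 - b) w1 -
                (mW F.cf F.u (1 / m) ((m : ℤ) + 1 - b) w1 + mW F.cf F.u (1 / m) ((m : ℤ) + 1 - b) w2) / D)))| +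
      |lD F m t den (k + 2) B (k + b)| := by
    refine le_trans (le_of_eq ?_) (abs_add_le _ _)
    congr 1
    unfold xD cP g1P g2P g3P
    ring
  have h3 := mul_le_mul_of_nonneg_right key hS.le
  refine h3.trans ?_
  rw [add_mul]
  refine add_le_add (hr'.trans ?_) hlo
  rw [add_mul, add_mul]
  unfold erP
  rw [cast3]
  linarith

/-! ### far classes: one function -/

noncomputable def cF (F : FD) (x : ℝ) (j1 : ℤ) (P : Par) : ℝ :=
  pev F.c0 x + (mW F.cf F.u x j1 w0 + (P.dl : ℝ) / (S : ℕ) * mW F.cf F.u x j1 w1)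

theorem mem_vF {F : FD} {x : ℝ} {X : NI} {j1 : ℤ} {b1 : ℕ} {P : Par} (hx : Mem x X)
    (h1 : LVt F X j1 b1 = true) : MemS (cF F x j1 P) (vF F X j1 b1 P) := by
  have l1 := lv_ok hx h1
  exact memS_add (memS_pev hx _) (memS_add l1.h0 (memS_un _ l1.h1))

theorem far_fun {F : FD} {m t den k L b s b1 lo fr : ℕ} {X : NI} {B : Finset ℕ} {P : Par}
    (hx : Mem (1 / (m : ℝ)) X) (h : Two k L b s B)
    (h1 : LVt F X ((m : ℤ) - L) b1 = true) {x1 x2 x3 : ℝ}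
    (hr : |HIx (k + 2) m t F.cf.v.length (vC F.cf m den) (tauC F.cf m den) B (k + 1 + L) * den -
          ((mW F.cf F.u (1 / m) ((m : ℤ) - L) w0 +
              (P.dl : ℝ) / (S : ℕ) * mW F.cf F.u (1 / m) ((m : ℤ) - L) w1) +
            x1 * ((P.dw : ℝ) / (S : ℕ) * mW F.cf F.u (1 / m) ((m : ℤ) - L) w1) +
            x2 * ((P.kw : ℝ) / (S : ℕ) * mW F.cf F.u (1 / m) ((m : ℤ) - L) w2))| ≤
          (P.c3 : ℝ) / (S : ℕ) * mB F.cf F.u (1 / m) ((m : ℤ) - L) ((b1 : ℝ) / (100 : ℕ)) w3)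
    (hlo : |lD F m t den (k + 2) B (k + b)| * (S : ℕ) ≤ (lo : ℝ))
    (hfr : |xD F m t den (k + 2) B (k + b)| * (S : ℕ) ≤ (fr : ℝ)) :
    |fD F m t den (k + 2) B - (cF F (1 / m) ((m : ℤ) - L) P + x1 * g1P F (1 / m) ((m : ℤ) - L) P +
      x2 * g2P F (1 / m) ((m : ℤ) - L) P + x3 * 0)| * (S : ℕ) ≤
      ((erF F X ((m : ℤ) - L) b1 P + (lo + fr) : ℕ) : ℝ) := by
  have hS := S_posR
  have l1 := lv_ok hx h1
  have e1 := un_mul (n := P.c3) l1.h4
  have hr' := mul_le_mul_of_nonneg_right hr hS.le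
  rw [fD_two h]
  have key : |pev F.c0 (1 / m) + (xD F m t den (k + 2) B (k + 1 + L) + xD F m t den (k + 2) B (k + b)) +
      lD F m t den (k + 2) B (k + b) - (cF F (1 / m) ((m : ℤ) - L) P + x1 * g1P F (1 / m) ((m : ℤ) - L) P +
      x2 * g2P F (1 / m) ((m : ℤ) - L) P + x3 * 0)| ≤
      |HIx (k + 2) m t F.cf.v.length (vC F.cf m den) (tauC F.cf m den) B (k + 1 + L) * den -
          ((mW F.cf F.u (1 / m) ((m : ℤ) - L) w0 +
              (P.dl : ℝ) / (S : ℕ) * mW F.cf F.u (1 / m) ((m : ℤ) - L) w1) +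
            x1 * ((P.dw : ℝ) / (S : ℕ) * mW F.cf F.u (1 / m) ((m : ℤ) - L) w1) +
            x2 * ((P.kw : ℝ) / (S : ℕ) * mW F.cf F.u (1 / m) ((m : ℤ) - L) w2))| +
      (|lD F m t den (k + 2) B (k + b)| + |xD F m t den (k + 2) B (k + b)|) := by
    refine le_trans (le_of_eq ?_) ((abs_add_le _ _).trans (add_le_add le_rfl (abs_add_le _ _)))
    congr 1
    unfold xD cF g1P g2P
    ring
  have h3 := mul_le_mul_of_nonneg_right key hS.le
  refine h3.trans ?_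
  rw [add_mul, add_mul, cast3]
  unfold erF
  linarith

end Pool.NW
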