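import Pool.Agent.Work.MP_46fa68_23.MoL1

/-!
# Mode L: the test and its soundness
-/

set_option autoImplicit false

attribute [local irreducible] Pool.NV.S

open Finset

namespace Pool.NW

open Pool.NV Pool.OB Pool.JM

/-! ### the test -/

/-- lower ends (units) of `dl - 1/D`, `kp`, `ep` -/
def lowP (X : NI) (j1 j2 : ℤ) (D s b2 : ℕ) : N3 :=
  ⟨s * ((iv (2 - j1) X).lo * (iv (2 - j1 + s) X).lo) / S * (D + 1) / D,
    s * ((iv (2 - j1) X).lo * (iv (2 - j1 + s) X).lo) / S * (S - (D + 2) * (iv (4 - j1) X).hi) / (S * D),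
    if Nat.ble ((S + epP X j2 s) * 100) (b2 * S) then
      s * ((iv (2 - j2) X).lo * (iv (2 - j2 + s) X).lo) / S else 0⟩

def okL (X : NI) (j1 j2 : ℤ) (s : ℕ) : Bool :=
  Nat.ble 1 (lin (2 - j1) X).lo && (Nat.ble 1 (lin (2 - j1 + s) X).lo && (Nat.ble 1 (lin (4 - j1) X).lo &&
    (Nat.ble 1 (lin (2 - j2) X).lo && Nat.ble 1 (lin (2 - j2 + s) X).lo)))

/-- direction of `ep` -/
def g3S (F : FD) (X : NI) (j2 : ℤ) (b2 D : ℕ) : PN :=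
  addS (LV F X j2 b2).f1 (negS (sdivS (addS (LV F X j2 b2).f1 (LV F X j2 b2).f2) D))

def vL (F : FD) (X : NI) (j1 j2 : ℤ) (b1 b2 D : ℕ) (l : N3) : PN :=
  addS (vP F X j1 j2 b1 b2 D) (addS (unS l.a (LV F X j1 b1).f1) (addS (unS l.k (LV F X j1 b1).f2)
    (unS l.b (g3S F X j2 b2 D))))

def wL1 (F : FD) (X : NI) (j1 : ℤ) (b1 : ℕ) (P : Par) (l : N3) : PN := unS (P.dw - l.a) (LV F X j1 b1).f1
def wL2 (F : FD) (X : NI) (j1 : ℤ) (b1 : ℕ) (P : Par) (l : N3) : PN := unS (P.kw - l.k) (LV F X j1 b1).f2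
def wL3 (F : FD) (X : NI) (j2 : ℤ) (b2 D : ℕ) (P : Par) (l : N3) : PN := unS (P.ew - l.b) (g3S F X j2 b2 D)

/-- pair class, mode L -/
def tL (Fa Fk Fb : FD) (X : NI) (j1 j2 : ℤ) (D s b1 b2 : ℕ) (lo : N3) : Bool :=
  (okP X j1 j2 D s b1 && okL X j1 j2 s) &&
  ((LVt Fa X j1 b1 && (LVt Fa X j2 b2 && (LVt Fk X j1 b1 && (LVt Fk X j2 b2 &&
    (LVt Fb X j1 b1 && LVt Fb X j2 b2))))) &&
  box ⟨vL Fa X j1 j2 b1 b2 D (lowP X j1 j2 D s b2), vL Fk X j1 j2 b1 b2 D (lowP X j1 j2 D s b2),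
      vL Fb X j1 j2 b1 b2 D (lowP X j1 j2 D s b2)⟩
    ⟨wL1 Fa X j1 b1 (parP X j1 j2 D s b2) (lowP X j1 j2 D s b2),
      wL1 Fk X j1 b1 (parP X j1 j2 D s b2) (lowP X j1 j2 D s b2),
      wL1 Fb X j1 b1 (parP X j1 j2 D s b2) (lowP X j1 j2 D s b2)⟩
    ⟨wL2 Fa X j1 b1 (parP X j1 j2 D s b2) (lowP X j1 j2 D s b2),
      wL2 Fk X j1 b1 (parP X j1 j2 D s b2) (lowP X j1 j2 D s b2),
      wL2 Fb X j1 b1 (parP X j1 j2 D s b2) (lowP X j1 j2 D s b2)⟩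
    ⟨wL3 Fa X j2 b2 D (parP X j1 j2 D s b2) (lowP X j1 j2 D s b2),
      wL3 Fk X j2 b2 D (parP X j1 j2 D s b2) (lowP X j1 j2 D s b2),
      wL3 Fb X j2 b2 D (parP X j1 j2 D s b2) (lowP X j1 j2 D s b2)⟩
    ⟨erP Fa X j1 j2 b1 b2 D (parP X j1 j2 D s b2) + lo.a, erP Fk X j1 j2 b1 b2 D (parP X j1 j2 D s b2) + lo.k,
      erP Fb X j1 j2 b1 b2 D (parP X j1 j2 D s b2) + lo.b⟩)

theorem tL_spec {Fa Fk Fb : FD} {X : NI} {j1 j2 : ℤ} {D s b1 b2 : ℕ} {lo : N3}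
    (h : tL Fa Fk Fb X j1 j2 D s b1 b2 lo = true) :
    (okP X j1 j2 D s b1 = true ∧ okL X j1 j2 s = true) ∧
    (LVt Fa X j1 b1 = true ∧ LVt Fa X j2 b2 = true ∧ LVt Fk X j1 b1 = true ∧
      LVt Fk X j2 b2 = true ∧ LVt Fb X j1 b1 = true ∧ LVt Fb X j2 b2 = true) ∧
  box ⟨vL Fa X j1 j2 b1 b2 D (lowP X j1 j2 D s b2), vL Fk X j1 j2 b1 b2 D (lowP X j1 j2 D s b2),
      vL Fb X j1 j2 b1 b2 D (lowP X j1 j2 D s b2)⟩
    ⟨wL1 Fa X j1 b1 (parP X j1 j2 D s b2) (lowP X j1 j2 D s b2),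
      wL1 Fk X j1 b1 (parP X j1 j2 D s b2) (lowP X j1 j2 D s b2),
      wL1 Fb X j1 b1 (parP X j1 j2 D s b2) (lowP X j1 j2 D s b2)⟩
    ⟨wL2 Fa X j1 b1 (parP X j1 j2 D s b2) (lowP X j1 j2 D s b2),
      wL2 Fk X j1 b1 (parP X j1 j2 D s b2) (lowP X j1 j2 D s b2),
      wL2 Fb X j1 b1 (parP X j1 j2 D s b2) (lowP X j1 j2 D s b2)⟩
    ⟨wL3 Fa X j2 b2 D (parP X j1 j2 D s b2) (lowP X j1 j2 D s b2),
      wL3 Fk X j2 b2 D (parP X j1 j2 D s b2) (lowP X j1 j2 D s b2),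
      wL3 Fb X j2 b2 D (parP X j1 j2 D s b2) (lowP X j1 j2 D s b2)⟩
    ⟨erP Fa X j1 j2 b1 b2 D (parP X j1 j2 D s b2) + lo.a, erP Fk X j1 j2 b1 b2 D (parP X j1 j2 D s b2) + lo.k,
      erP Fb X j1 j2 b1 b2 D (parP X j1 j2 D s b2) + lo.b⟩ = true := by
  unfold tL at h
  simp only [Bool.and_eq_true] at h
  obtain ⟨⟨h1, h1'⟩, ⟨h2, h3, h4, h5, h6, h7⟩, h8⟩ := h
  exact ⟨⟨h1, h1'⟩, ⟨h2, h3, h4, h5, h6, h7⟩, h8⟩

/-- lower end of `1 / (m + c)` -/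
theorem iv_lo {c : ℤ} {m : ℕ} {X : NI} (hm : 0 < m) (hx : Mem (1 / (m : ℝ)) X)
    (h : 1 ≤ (lin c X).lo) : (((iv c X).lo : ℕ) : ℝ) / (S : ℕ) ≤ 1 / ((m : ℝ) + c) ∧ 0 < (m : ℝ) + c := by
  obtain ⟨h1, h2⟩ := iv_ok hm hx h
  refine ⟨?_, h1⟩
  rw [div_le_iff₀ S_posR]
  exact h2.1

/-- `s * (a * b) / S` is a lower bound of `s / (x y)` -/
theorem low_prod {s a b : ℕ} {x y : ℝ} (hx : 0 < x) (hy : 0 < y) (ha : (a : ℝ) / (S : ℕ) ≤ 1 / x)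
    (hb : (b : ℝ) / (S : ℕ) ≤ 1 / y) :
    ((s * (a * b) / S : ℕ) : ℝ) / (S : ℕ) ≤ (s : ℝ) / (x * y) := by
  have hs := S_posR
  have h1 := div_floor (a := s * (a * b)) (b := S)
  have h2 : (a : ℝ) / (S : ℕ) * ((b : ℝ) / (S : ℕ)) ≤ 1 / x * (1 / y) :=
    mul_le_mul ha hb (by positivity) (by positivity)
  have h3 : ((s * (a * b) / S : ℕ) : ℝ) ≤ (s : ℝ) * (a * b) / (S : ℕ) := by
    rw [le_div_iff₀ hs]
    exact_mod_cast h1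
  calc ((s * (a * b) / S : ℕ) : ℝ) / (S : ℕ) ≤ (s : ℝ) * (a * b) / (S : ℕ) / (S : ℕ) :=
        div_le_div_of_nonneg_right h3 hs.le
    _ = (s : ℝ) * ((a : ℝ) / (S : ℕ) * ((b : ℝ) / (S : ℕ))) := by
        field_simp
    _ ≤ (s : ℝ) * (1 / x * (1 / y)) := mul_le_mul_of_nonneg_left h2 (Nat.cast_nonneg _)
    _ = _ := by
        field_simp

/-- shortening of a generator -/
theorem shorten {x : ℝ} {w l : ℕ} (hx : x ≤ 1) (hl : (l : ℝ) / (S : ℕ) ≤ x * ((w : ℝ) / (S : ℕ))) :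
    ∃ y : ℝ, (0 ≤ y ∧ y ≤ 1) ∧
      x * ((w : ℝ) / (S : ℕ)) = (l : ℝ) / (S : ℕ) + y * (((w - l : ℕ) : ℝ) / (S : ℕ)) := by
  have hs := S_posR
  have hw : 0 ≤ (w : ℝ) / (S : ℕ) := by positivity
  have h1 : x * ((w : ℝ) / (S : ℕ)) ≤ (w : ℝ) / (S : ℕ) := by nlinarith
  have h2 : (l : ℝ) ≤ w := by
    have h3 := hl.trans h1
    rwa [div_le_div_iff_of_pos_right hs] at h3
  have h4 : l ≤ w := by exact_mod_cast h2
  have h5 : ((w - l : ℕ) : ℝ) / (S : ℕ) = (w : ℝ) / (S : ℕ) - (l : ℝ) / (S : ℕ) := by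
    rw [Nat.cast_sub h4, sub_div]
  obtain ⟨y, hy, hye⟩ := exists_frac (y := x * ((w : ℝ) / (S : ℕ)) - (l : ℝ) / (S : ℕ))
    (w := ((w - l : ℕ) : ℝ) / (S : ℕ)) (by linarith) (by rw [h5]; linarith)
  exact ⟨y, hy, by linarith⟩

section

variable {Fa Fk Fb : FD} {X : NI} {m den ta tk tb k L b s : ℕ} {B : Finset ℕ}

/-- the lower ends are lower ends -/
theorem lowP_ok {b2 : ℕ} (hm : 0 < m) (hx : Mem (1 / (m : ℝ)) X) (h : Two k L b s B)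
    (hok : okL X ((m : ℤ) - L) ((m : ℤ) + 1 - b) s = true) :
    (((lowP X ((m : ℤ) - L) ((m : ℤ) + 1 - b) (L + 1 - b) s b2).a : ℕ) : ℝ) / (S : ℕ) ≤
        dl B k L b - 1 / ((L + 1 - b : ℕ) : ℝ) ∧
    (((lowP X ((m : ℤ) - L) ((m : ℤ) + 1 - b) (L + 1 - b) s b2).k : ℕ) : ℝ) / (S : ℕ) ≤ kp B k L b ∧
    (((lowP X ((m : ℤ) - L) ((m : ℤ) + 1 - b) (L + 1 - b) s b2).b : ℕ) : ℝ) / (S : ℕ) ≤ ep B k L b := by
  have hs := S_posR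
  have hbL := h.hbL
  have hD1 : 1 ≤ L + 1 - b := by omega
  have hDR : ((L + 1 - b : ℕ) : ℝ) = (L : ℝ) + 1 - b := by
    rw [Nat.cast_sub (by omega)]
    push_cast
    ring
  have hD0 : (0 : ℝ) < ((L + 1 - b : ℕ) : ℝ) := by exact_mod_cast hD1
  unfold okL at hok
  simp only [Bool.and_eq_true, Nat.ble_eq] at hok
  obtain ⟨o1, o2, o3, o4, o5⟩ := hok
  have i1 := (iv_lo hm hx o1).1
  have i2 := (iv_lo hm hx o2).1
  have i3 := iv_hi hm hx o3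
  have i4 := (iv_lo hm hx o4).1
  have i5 := (iv_lo hm hx o5).1
  have q1 : (m : ℝ) + ((2 - ((m : ℤ) - L) : ℤ) : ℝ) = (L : ℝ) + 2 := by push_cast; ring
  have q2 : (m : ℝ) + ((2 - ((m : ℤ) - L) + s : ℤ) : ℝ) = (L : ℝ) + 2 + s := by push_cast; ring
  have q3 : (m : ℝ) + ((4 - ((m : ℤ) - L) : ℤ) : ℝ) = (L : ℝ) + 4 := by push_cast; ring
  have q4 : (m : ℝ) + ((2 - ((m : ℤ) + 1 - b) : ℤ) : ℝ) = (b : ℝ) + 1 := by push_cast; ring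
  have q5 : (m : ℝ) + ((2 - ((m : ℤ) + 1 - b) + s : ℤ) : ℝ) = (b : ℝ) + 1 + s := by push_cast; ring
  rw [q1] at i1
  rw [q2] at i2
  rw [q3] at i3
  rw [q4] at i4
  rw [q5] at i5
  have hL0 : (0 : ℝ) ≤ L := Nat.cast_nonneg _
  have hb0 : (0 : ℝ) ≤ b := Nat.cast_nonneg _
  have hs0 : (0 : ℝ) ≤ s := Nat.cast_nonneg _
  have he0 := ee_nonneg h
  set el : ℕ := s * ((iv (2 - ((m : ℤ) - L)) X).lo * (iv (2 - ((m : ℤ) - L) + s) X).lo) / S with hel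
  set D : ℕ := L + 1 - b with hD
  have hE : (el : ℝ) / (S : ℕ) ≤ ee B k L b :=
    (low_prod (by linarith) (by linarith) i1 i2).trans (ee_ge h)
  have hel0 : (0 : ℝ) ≤ (el : ℝ) / (S : ℕ) := by positivity
  refine ⟨?_, ?_, ?_⟩
  · have h1 : (((el * (D + 1) / D : ℕ)) : ℝ) / (S : ℕ) ≤ (el : ℝ) / (S : ℕ) * (1 + 1 / (D : ℝ)) := by
      have h2 := div_floor (a := el * (D + 1)) (b := D)
      have h3 : ((el * (D + 1) / D : ℕ) : ℝ) ≤ (el : ℝ) * (D + 1) / D := by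
        rw [le_div_iff₀ hD0]
        exact_mod_cast h2
      calc _ ≤ (el : ℝ) * (D + 1) / D / (S : ℕ) := div_le_div_of_nonneg_right h3 hs.le
        _ = _ := by field_simp
    have h4 := dl_eq B k L b
    rw [← hDR] at h4
    have h5 : (el : ℝ) / (S : ℕ) * (1 + 1 / (D : ℝ)) ≤ ee B k L b * (1 + 1 / (D : ℝ)) :=
      mul_le_mul_of_nonneg_right hE (by positivity)
    change (((el * (D + 1) / D : ℕ)) : ℝ) / (S : ℕ) ≤ _
    linarith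
  · change (((el * (S - (D + 2) * (iv (4 - ((m : ℤ) - L)) X).hi) / (S * D) : ℕ)) : ℝ) / (S : ℕ) ≤ _
    set hi4 : ℕ := (iv (4 - ((m : ℤ) - L)) X).hi with hhi4
    rcases Nat.lt_or_ge ((D + 2) * hi4) S with hc | hc
    · have h2 := div_floor (a := el * (S - (D + 2) * hi4)) (b := S * D)
      have h3 : ((el * (S - (D + 2) * hi4) / (S * D) : ℕ) : ℝ) ≤
          (el : ℝ) * (((S : ℕ) : ℝ) - (D + 2) * hi4) / ((S : ℕ) * D) := by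
        rw [le_div_iff₀ (mul_pos hs hD0)]
        have h4 : ((S - (D + 2) * hi4 : ℕ) : ℝ) = ((S : ℕ) : ℝ) - (D + 2) * hi4 := by
          rw [Nat.cast_sub hc.le]
          push_cast
          ring
        rw [← h4]
        exact_mod_cast h2
      have h5 : (el : ℝ) * (((S : ℕ) : ℝ) - (D + 2) * hi4) / ((S : ℕ) * D) / (S : ℕ) =
          (el : ℝ) / (S : ℕ) * ((1 - (D + 2) * ((hi4 : ℝ) / (S : ℕ))) / D) := by
        field_simp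
      have h6 : (1 - (D + 2) * ((hi4 : ℝ) / (S : ℕ))) / (D : ℝ) ≤
          1 / (D : ℝ) - (1 + 2 / (D : ℝ)) / ((L : ℝ) + 4) := by
        have h7 : (1 + 2 / (D : ℝ)) / ((L : ℝ) + 4) = (D + 2) / D * (1 / ((L : ℝ) + 4)) := by
          field_simp
        have h8 : ((D : ℝ) + 2) / D * (1 / ((L : ℝ) + 4)) ≤ (D + 2) / D * ((hi4 : ℝ) / (S : ℕ)) :=
          mul_le_mul_of_nonneg_left i3 (by positivity)
        have h9 : (1 - (D + 2) * ((hi4 : ℝ) / (S : ℕ))) / (D : ℝ) =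
            1 / (D : ℝ) - (D + 2) / D * ((hi4 : ℝ) / (S : ℕ)) := by
          field_simp
        rw [h7, h9]
        linarith
      have h10 : 0 ≤ (1 - (D + 2) * ((hi4 : ℝ) / (S : ℕ))) / (D : ℝ) := by
        refine div_nonneg ?_ hD0.le
        have h11 : (((D + 2) * hi4 : ℕ) : ℝ) < (S : ℕ) := by exact_mod_cast hc
        push_cast at h11
        have h12 : (D + 2) * ((hi4 : ℝ) / (S : ℕ)) = ((D : ℝ) + 2) * hi4 / (S : ℕ) := by ring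
        rw [h12, sub_nonneg, div_le_one hs]
        linarith
      have h13 := kp_ge h
      rw [← hDR] at h13
      have h14 : (1 + 2 * (1 / (D : ℝ))) / ((L : ℝ) + 4) = (1 + 2 / (D : ℝ)) / ((L : ℝ) + 4) := by
        ring
      rw [h14] at h13
      refine le_trans (div_le_div_of_nonneg_right h3 hs.le) ?_
      rw [h5]
      exact (mul_le_mul hE h6 h10 he0).trans h13
    · have : S - (D + 2) * hi4 = 0 := Nat.sub_eq_zero_of_le hc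
      rw [this, Nat.mul_zero, Nat.zero_div, Nat.cast_zero, zero_div]
      exact (kp_bounds h).1
  · change (((if Nat.ble ((S + epP X ((m : ℤ) + 1 - b) s) * 100) (b2 * S) then
      s * ((iv (2 - ((m : ℤ) + 1 - b)) X).lo * (iv (2 - ((m : ℤ) + 1 - b) + s) X).lo) / S else 0 : ℕ)) : ℝ) /
        (S : ℕ) ≤ _
    split_ifs with hc
    · exact (low_prod (by linarith) (by linarith) i4 i5).trans (ep_ge h)
    · rw [Nat.cast_zero, zero_div]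
      exact ep_nonneg h

theorem epP_pos (X : NI) (j2 : ℤ) (s : ℕ) : 0 < epP X j2 s := by
  unfold epP
  exact Nat.succ_pos _

theorem low3_zero {b2 D : ℕ} {j1 j2 : ℤ} (h : (parP X j1 j2 D s b2).ew = 0) (hs : 0 < epP X j2 s) :
    (lowP X j1 j2 D s b2).b = 0 := by
  unfold parP at h
  unfold lowP
  simp only at h ⊢
  split_ifs at h ⊢ with hc
  · simp only at h
    omega
  · rfl

/-- direction of `ep`, real -/
noncomputable def g3R (F : FD) (x : ℝ) (j2 : ℤ) (D : ℕ) : ℝ :=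
  mW F.cf F.u x j2 w1 + -((mW F.cf F.u x j2 w1 + mW F.cf F.u x j2 w2) / D)

/-- centre of the box -/
noncomputable def cL (F : FD) (x : ℝ) (j1 j2 : ℤ) (D : ℕ) (l : N3) : ℝ :=
  cP F x j1 j2 D + ((l.a : ℝ) / (S : ℕ) * mW F.cf F.u x j1 w1 +
    ((l.k : ℝ) / (S : ℕ) * mW F.cf F.u x j1 w2 + (l.b : ℝ) / (S : ℕ) * g3R F x j2 D))

noncomputable def gL (n : ℕ) (y : ℝ) : ℝ := (n : ℝ) / (S : ℕ) * y

theorem mem_g3S {F : FD} {x : ℝ} {j2 : ℤ} {b2 D : ℕ} (hx : Mem x X) (hD : 0 < D)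
    (h2 : LVt F X j2 b2 = true) : MemS (g3R F x j2 D) (g3S F X j2 b2 D) := by
  have q := lv_ok hx h2
  exact memS_add q.h1 (memS_neg (memS_sdiv hD (memS_add q.h1 q.h2)))

theorem mem_vL {F : FD} {x : ℝ} {j1 j2 : ℤ} {b1 b2 D : ℕ} (l : N3) (hx : Mem x X) (hD : 0 < D)
    (h1 : LVt F X j1 b1 = true) (h2 : LVt F X j2 b2 = true) :
    MemS (cL F x j1 j2 D l) (vL F X j1 j2 b1 b2 D l) := by
  have q := lv_ok hx h1
  exact memS_add (mem_vP hx hD h1 h2) (memS_add (memS_un _ q.h1) (memS_add (memS_un _ q.h2)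
      (memS_un _ (mem_g3S hx hD h2))))

theorem key_L {F : FD} {x f x1 x2 x3 y1 y2 y3 : ℝ} {j1 j2 : ℤ} {D n d1 d2 d3 : ℕ} {P : Par} {l : N3}
    (f1 : x1 * ((P.dw : ℝ) / (S : ℕ)) = (l.a : ℝ) / (S : ℕ) + y1 * ((d1 : ℝ) / (S : ℕ)))
    (f2 : x2 * ((P.kw : ℝ) / (S : ℕ)) = (l.k : ℝ) / (S : ℕ) + y2 * ((d2 : ℝ) / (S : ℕ)))
    (f3 : x3 * ((P.ew : ℝ) / (S : ℕ)) = (l.b : ℝ) / (S : ℕ) + y3 * ((d3 : ℝ) / (S : ℕ)))
    (hf : |f - (cP F x j1 j2 D + x1 * g1P F x j1 P + x2 * g2P F x j1 P + x3 * g3P F x j2 D P)| * (S : ℕ) ≤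
      (n : ℝ)) :
    |f - (cL F x j1 j2 D l + y1 * gL d1 (mW F.cf F.u x j1 w1) + y2 * gL d2 (mW F.cf F.u x j1 w2) +
      y3 * gL d3 (g3R F x j2 D))| * (S : ℕ) ≤ (n : ℝ) := by
  have c1 : x1 * g1P F x j1 P = (x1 * ((P.dw : ℝ) / (S : ℕ))) * mW F.cf F.u x j1 w1 := by
    unfold g1P; ring
  have c2 : x2 * g2P F x j1 P = (x2 * ((P.kw : ℝ) / (S : ℕ))) * mW F.cf F.u x j1 w2 := by
    unfold g2P; ring
  have c3 : x3 * g3P F x j2 D P = (x3 * ((P.ew : ℝ) / (S : ℕ))) * g3R F x j2 D := by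
    unfold g3P g3R; ring
  rw [c1, c2, c3, f1, f2, f3] at hf
  have e : cP F x j1 j2 D + ((l.a : ℝ) / (S : ℕ) + y1 * ((d1 : ℝ) / (S : ℕ))) * mW F.cf F.u x j1 w1 +
      ((l.k : ℝ) / (S : ℕ) + y2 * ((d2 : ℝ) / (S : ℕ))) * mW F.cf F.u x j1 w2 +
      ((l.b : ℝ) / (S : ℕ) + y3 * ((d3 : ℝ) / (S : ℕ))) * g3R F x j2 D =
      cL F x j1 j2 D l + y1 * gL d1 (mW F.cf F.u x j1 w1) + y2 * gL d2 (mW F.cf F.u x j1 w2) +
      y3 * gL d3 (g3R F x j2 D) := by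
    unfold cL gL
    ring
  rw [e] at hf
  exact hf

theorem mem_wL {y : ℝ} {Y : PN} (n : ℕ) (h : MemS y Y) : MemS (gL n y) (unS n Y) := memS_un n h

/-- **mode L is sound** -/
theorem tL_sound {b1 b2 : ℕ} {lo : N3} (hm : 0 < m) (hden : 0 < den) (hx : Mem (1 / (m : ℝ)) X)
    (La : Lf Fa m ta) (Lk : Lf Fk m tk) (Lb : Lf Fb m tb) (h : Two k L b s B) (hN : L + b + s = 2 * m)
    (hp : tL Fa Fk Fb X ((m : ℤ) - L) ((m : ℤ) + 1 - b) (L + 1 - b) s b1 b2 lo = true)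
    (hlo : LoOk Fa Fk Fb m ta tk tb den k b B lo) : Cone Fa Fk Fb m ta tk tb den (k + 2) B := by
  have hbL := h.hbL
  obtain ⟨⟨hok, hokL⟩, ⟨a1, a2, k1, k2, b1', b2'⟩, hbox⟩ := tL_spec hp
  have hD0 : 0 < L + 1 - b := by omega
  obtain ⟨x1, x2, x3, hx1, hx2, hx3, he1, he2, he3, hall⟩ := pair_rowsE (b2 := b2) hm hx h hN rfl
    (lvt_spec a2).2.2.1 (lvt_spec a2).2.1 (lvt_spec a1).2.1 hok
  obtain ⟨l1, l2, l3⟩ := lowP_ok (b2 := b2) hm hx h hokL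
  have hz3 : ((lowP X ((m : ℤ) - L) ((m : ℤ) + 1 - b) (L + 1 - b) s b2).b : ℝ) / (S : ℕ) ≤
      x3 * (((parP X ((m : ℤ) - L) ((m : ℤ) + 1 - b) (L + 1 - b) s b2).ew : ℝ) / (S : ℕ)) := by
    rcases he3 with he3 | he3
    · rw [low3_zero he3 (epP_pos _ _ _), he3, Nat.cast_zero, zero_div, mul_zero]
    · rw [← he3]
      exact l3
  have hRa1 := Rng_of hx (lvt_spec a1).1
  have hRa2 := Rng_of hx (lvt_spec a2).1
  have hRk1 := Rng_of hx (lvt_spec k1).1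
  have hRk2 := Rng_of hx (lvt_spec k2).1
  have hRb1 := Rng_of hx (lvt_spec b1').1
  have hRb2 := Rng_of hx (lvt_spec b2').1
  have ra := pair_fun hx hD0 h a1 a2 (hall Fa.cf ta den Fa.u La.1 La.2 hden (lvt_spec a1).2.2.2 hRa1 hRa2)
    hlo.1
  have rk := pair_fun hx hD0 h k1 k2 (hall Fk.cf tk den Fk.u Lk.1 Lk.2 hden (lvt_spec k1).2.2.2 hRk1 hRk2)
    hlo.2.1
  have rb := pair_fun hx hD0 h b1' b2' (hall Fb.cf tb den Fb.u Lb.1 Lb.2 hden (lvt_spec b1').2.2.2 hRb1 hRb2)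
    hlo.2.2
  clear hall hok hokL hp
  generalize parP X ((m : ℤ) - L) ((m : ℤ) + 1 - b) (L + 1 - b) s b2 = P at *
  generalize lowP X ((m : ℤ) - L) ((m : ℤ) + 1 - b) (L + 1 - b) s b2 = l at *
  obtain ⟨y1, hy1, f1⟩ := shorten (w := P.dw) (l := l.a) hx1.2 (by linarith)
  obtain ⟨y2, hy2, f2⟩ := shorten (w := P.kw) (l := l.k) hx2.2 (by rw [← he2]; exact l2)
  obtain ⟨y3, hy3, f3⟩ := shorten (w := P.ew) (l := l.b) hx3.2 hz3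
  exact box_sound hbox
    ⟨mem_vL l hx hD0 a1 a2, mem_vL l hx hD0 k1 k2, mem_vL l hx hD0 b1' b2'⟩
    ⟨mem_wL _ (lv_ok hx a1).h1, mem_wL _ (lv_ok hx k1).h1, mem_wL _ (lv_ok hx b1').h1⟩
    ⟨mem_wL _ (lv_ok hx a1).h2, mem_wL _ (lv_ok hx k1).h2, mem_wL _ (lv_ok hx b1').h2⟩
    ⟨mem_wL _ (mem_g3S hx hD0 a2), mem_wL _ (mem_g3S hx hD0 k2), mem_wL _ (mem_g3S hx hD0 b2')⟩ hy1 hy2 hy3
    (F := ⟨fD Fa m ta den (k + 2) B, fD Fk m tk den (k + 2) B, fD Fb m tb den (k + 2) B⟩)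
    (v := ⟨_, _, _⟩) (w1 := ⟨_, _, _⟩) (w2 := ⟨_, _, _⟩) (w3 := ⟨_, _, _⟩)
    (key_L f1 f2 f3 ra) (key_L f1 f2 f3 rk) (key_L f1 f2 f3 rb)

end

end Pool.NW
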