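import Pool.Agent.Work.MP_46fa68_35.Bot2

/-!
# MoLa: lower bounds of the class parameters for `s` boxes in the rows `≥ 3`

`ee_ge`, `ep_ge` (column shape), `kp_ge`.
-/

set_option autoImplicit false

open Finset

namespace Pool.OB

open Pool.JM

/-- column shape -/
theorem ee_ge {k L b s : ℕ} {B : Finset ℕ} (h : Two k L b s B) :
    s / (((L : ℝ) + 2) * (L + 2 + s)) ≤ ee B k L b := by
  rcases Nat.eq_zero_or_pos b with rfl | hb
  · obtain ⟨h0, -⟩ := h.zero
    subst h0
    simp only [Nat.cast_zero, zero_div]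
    exact ee_nonneg h
  · have h1 := h.Th1_step_ge hb 0
    have h2 := h.Th1_zero
    rw [h2, one_mul] at h1
    simp only [Nat.cast_zero, add_zero, zero_add] at h1
    have hL : (0 : ℝ) ≤ L := Nat.cast_nonneg L
    have hs : (0 : ℝ) ≤ s := Nat.cast_nonneg s
    have h3 : (s : ℝ) / (((L : ℝ) + 2) * (L + 2 + s)) ≤ s / (((L : ℝ) + 1) * (L + 2 + s)) := by
      refine div_le_div_of_nonneg_left hs (by positivity) ?_
      exact mul_le_mul_of_nonneg_right (by linarith) (by positivity)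
    unfold ee
    linarith

theorem ep_ge {k L b s : ℕ} {B : Finset ℕ} (h : Two k L b s B) :
    s / (((b : ℝ) + 1) * (b + 1 + s)) ≤ ep B k L b := by
  rcases Nat.eq_zero_or_pos b with rfl | hb
  · obtain ⟨h0, -⟩ := h.zero
    subst h0
    simp only [Nat.cast_zero, zero_div]
    exact ep_nonneg h
  · have h1 := h.Th2_step_ge hb 0
    have h2 := h.Th2_zero
    rw [h2, one_mul] at h1
    simp only [Nat.cast_zero, add_zero, zero_add] at h1
    have hb1 : (1 : ℝ) ≤ b := by exact_mod_cast hb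
    have hs : (0 : ℝ) ≤ s := Nat.cast_nonneg s
    have h3 : (s : ℝ) / (((b : ℝ) + 1) * (b + 1 + s)) ≤ s / ((b : ℝ) * (b + 1 + s)) := by
      refine div_le_div_of_nonneg_left hs (by positivity) ?_
      exact mul_le_mul_of_nonneg_right (by linarith) (by positivity)
    rw [show (b : ℝ) + s + 1 = b + 1 + s by ring] at h1
    unfold ep
    linarith

/-- the second step is at least almost twice the first one -/
theorem rh_two_ge : ∀ (k a : ℕ) (C : Finset ℕ), C.card = k → (∀ y ∈ C, y < k + a) →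
    2 * (((a : ℝ) + 2) / (a + 3)) * (rh k a C 1 - 1) ≤ rh k a C 2 - 1
  | 0, a, C, hc, _ => by
    rw [card_eq_zero] at hc
    subst hc
    have h : ∀ q, rh 0 a ∅ q = 1 := fun q => by unfold rh; simp
    rw [h, h]
    simp
  | k + 1, a, C, hc, hb => by
    obtain ⟨c, hca, hcC, hmax, hrec⟩ := rh_step hc hb
    have hc' : (C.erase (k + c)).card = k := by rw [card_erase_of_mem hcC, hc]; omega
    have hb' : ∀ y ∈ C.erase (k + c), y < k + (a + 1) := fun y hy => by
      have := hb y (mem_of_mem_erase hy); omega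
    obtain ⟨p1, p2, -⟩ := rh_props k (a + 1) (C.erase (k + c)) hc' hb'
    have IH := rh_two_ge k (a + 1) (C.erase (k + c)) hc' hb'
    have hcaR : (c : ℝ) ≤ a := by exact_mod_cast hca
    have ha : (0 : ℝ) ≤ a := Nat.cast_nonneg a
    have hc0 : (0 : ℝ) ≤ c := Nat.cast_nonneg c
    have hE1 : 1 ≤ rh k (a + 1) (C.erase (k + c)) 1 := by
      rw [← rh_zero' hb']
      exact p2 0
    rw [hrec 1, hrec 2]
    set R1 := rh k (a + 1) (C.erase (k + c)) 1
    set R2 := rh k (a + 1) (C.erase (k + c)) 2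
    have hZc : (0 : ℝ) < (a : ℝ) + 1 - c := by linarith
    have e1 : gg ((a : ℝ) + 1) c ((1 : ℕ) : ℝ) = 1 + c / (((a : ℝ) + 1 - c) * ((a : ℝ) + 2)) := by
      rw [gg_one (by linarith) (by linarith)]
      ring_nf
    have e2 : gg ((a : ℝ) + 1) c ((2 : ℕ) : ℝ) =
        1 + 2 * (((a : ℝ) + 2) / (a + 3)) * (c / (((a : ℝ) + 1 - c) * ((a : ℝ) + 2))) := by
      unfold gg
      have n1 : (a : ℝ) + 1 - c ≠ 0 := hZc.ne'
      have n2 : (a : ℝ) + 2 ≠ 0 := by positivity
      have n3 : (a : ℝ) + 3 ≠ 0 := by positivity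
      have n4 : (a : ℝ) + 1 + 2 ≠ 0 := by positivity
      push_cast
      rw [show (a : ℝ) + 1 + 2 = a + 3 by ring]
      field_simp
      ring
    rw [e1, e2]
    set ε : ℝ := c / (((a : ℝ) + 1 - c) * ((a : ℝ) + 2)) with hε
    have hε0 : 0 ≤ ε := by positivity
    set γ : ℝ := 2 * (((a : ℝ) + 2) / (a + 3)) with hγ
    have hγ1 : 1 ≤ γ := by
      rw [hγ, ← mul_div_assoc, le_div_iff₀ (by positivity)]
      linarith
    have hγ2 : γ ≤ 2 * ((((a + 1 : ℕ) : ℝ) + 2) / (((a + 1 : ℕ) : ℝ) + 3)) := by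
      rw [hγ]
      push_cast
      refine mul_le_mul_of_nonneg_left ?_ (by norm_num)
      rw [div_le_div_iff₀ (by positivity) (by positivity)]
      nlinarith
    have h1 : γ * (R1 - 1) ≤ R2 - 1 :=
      (mul_le_mul_of_nonneg_right hγ2 (by linarith)).trans IH
    have h2 : 0 ≤ R1 - 1 := by linarith
    have h3 : γ * ε * (γ * (R1 - 1)) ≤ γ * ε * (R2 - 1) :=
      mul_le_mul_of_nonneg_left h1 (by positivity)
    have h4 : γ * (ε * (R1 - 1)) ≤ γ * ε * (γ * (R1 - 1)) := by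
      have : 0 ≤ γ * (ε * (R1 - 1)) := by positivity
      nlinarith
    nlinarith

theorem kp_ge {k L b s : ℕ} {B : Finset ℕ} (h : Two k L b s B) :
    ee B k L b * (1 / ((L : ℝ) + 1 - b) - (1 + 2 * (1 / ((L : ℝ) + 1 - b))) / (L + 4)) ≤
      kp B k L b := by
  have h1 := rh_two_ge k (L + 1) _ h.hc (two_hlt h)
  have e1 : ee B k L b = rh k (L + 1) ((B.erase (k + 1 + L)).erase (k + b)) 1 - 1 := rfl
  have e2 : Th1 B k L b 2 = rh k (L + 1) ((B.erase (k + 1 + L)).erase (k + b)) 2 := rfl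
  have e3 := dl_eq B k L b
  have hD := two_D h
  set y : ℝ := 1 / ((L : ℝ) + 1 - b) with hy
  have hy0 : 0 ≤ y := by positivity
  rw [← e1, ← e2] at h1
  push_cast at h1
  rw [show (L : ℝ) + 1 + 2 = L + 3 by ring, show (L : ℝ) + 1 + 3 = L + 4 by ring] at h1
  have e4 : kp B k L b = ((1 + 2 * y) * (Th1 B k L b 2 - 1) - 2 * (1 + y) * ee B k L b) / 2 := by
    have : kp B k L b = ((1 + 2 / ((L : ℝ) + 1 - b)) * Th1 B k L b 2 - 1 - 2 * dl B k L b) / 2 := rfl
    rw [this, show dl B k L b = (1 + y) * (1 + ee B k L b) - 1 by linarith, hy]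
    ring
  rw [e4]
  have hL4 : (0 : ℝ) < (L : ℝ) + 4 := by positivity
  have e5 : 2 * (((L : ℝ) + 3) / (L + 4)) = 2 * (1 - 1 / ((L : ℝ) + 4)) := by
    field_simp
    ring
  rw [e5] at h1
  have h2 := mul_le_mul_of_nonneg_left h1 (by linarith : 0 ≤ 1 + 2 * y)
  have e6 : (1 + 2 * y) * (2 * (1 - 1 / ((L : ℝ) + 4)) * ee B k L b) - 2 * (1 + y) * ee B k L b =
      2 * (ee B k L b * (y - (1 + 2 * y) / (L + 4))) := by
    field_simp
    ring
  linarith

end Pool.OB
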