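import Pool.Agent.Work.MP_46fa68_18.MoP2
import Pool.Agent.Work.MP_46fa68_23.MoLa

/-!
# Pair classes with lower bounds of the effect of the rows `≥ 3` (mode L)

As `tP`, with centre moved by the lower ends `l` of `dl - 1/D`, `kp`, `ep` and generators shortened.
-/

set_option autoImplicit false

attribute [local irreducible] Pool.NV.S

open Finset

namespace Pool.NW

open Pool.NV Pool.OB Pool.JM

/-- **pair class** with the values of the parameters -/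
theorem pair_rowsE {m k L b s D b1 b2 : ℕ} {X : NI} {B : Finset ℕ} (hm : 0 < m)
    (hx : Mem (1 / (m : ℝ)) X) (h : Two k L b s B) (hN : L + b + s = 2 * m) (hD : D = L + 1 - b)
    (hb2 : 100 ≤ b2) (hb2' : 4 * b2 ≤ 500) (hb1' : 4 * b1 ≤ 500)
    (hok : okP X ((m : ℤ) - L) ((m : ℤ) + 1 - b) D s b1 = true) :
    ∃ x1 x2 x3 : ℝ, (0 ≤ x1 ∧ x1 ≤ 1) ∧ (0 ≤ x2 ∧ x2 ≤ 1) ∧ (0 ≤ x3 ∧ x3 ≤ 1) ∧
      (dl B k L b = 1 / (D : ℝ) +
        x1 * (((parP X ((m : ℤ) - L) ((m : ℤ) + 1 - b) D s b2).dw : ℝ) / (S : ℕ))) ∧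
      (kp B k L b = x2 * (((parP X ((m : ℤ) - L) ((m : ℤ) + 1 - b) D s b2).kw : ℝ) / (S : ℕ))) ∧
      ((parP X ((m : ℤ) - L) ((m : ℤ) + 1 - b) D s b2).ew = 0 ∨
        ep B k L b = x3 * (((parP X ((m : ℤ) - L) ((m : ℤ) + 1 - b) D s b2).ew : ℝ) / (S : ℕ))) ∧
      ∀ (cf : Cf) (t den : ℕ) (u : ℤ), (t : ℤ) + u = m → 1 ≤ t → 0 < den → u ≤ 29 →
        Rng u (1 / m) ((m : ℤ) - L) → Rng u (1 / m) ((m : ℤ) + 1 - b) →
        |HIx (k + 2) m t cf.v.length (vC cf m den) (tauC cf m den) B (k + 1 + L) * den +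
          HIx (k + 2) m t cf.v.length (vC cf m den) (tauC cf m den) B (k + b) * den -
          ((mW cf u (1 / m) ((m : ℤ) - L) w0 + mW cf u (1 / m) ((m : ℤ) + 1 - b) w0 +
              (mW cf u (1 / m) ((m : ℤ) - L) w1 - mW cf u (1 / m) ((m : ℤ) + 1 - b) w1) / D) +
            x1 * (((parP X ((m : ℤ) - L) ((m : ℤ) + 1 - b) D s b2).dw : ℝ) / (S : ℕ) *
              mW cf u (1 / m) ((m : ℤ) - L) w1) +
            x2 * (((parP X ((m : ℤ) - L) ((m : ℤ) + 1 - b) D s b2).kw : ℝ) / (S : ℕ) *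
              mW cf u (1 / m) ((m : ℤ) - L) w2) +
            x3 * (((parP X ((m : ℤ) - L) ((m : ℤ) + 1 - b) D s b2).ew : ℝ) / (S : ℕ) *
              (mW cf u (1 / m) ((m : ℤ) + 1 - b) w1 -
                (mW cf u (1 / m) ((m : ℤ) + 1 - b) w1 + mW cf u (1 / m) ((m : ℤ) + 1 - b) w2) / D)))| ≤
          ((parP X ((m : ℤ) - L) ((m : ℤ) + 1 - b) D s b2).c3 : ℝ) / (S : ℕ) *
              mB cf u (1 / m) ((m : ℤ) - L) ((b1 : ℝ) / (100 : ℕ)) w3 +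
            ((parP X ((m : ℤ) - L) ((m : ℤ) + 1 - b) D s b2).g1 : ℝ) / (S : ℕ) *
              (mB cf u (1 / m) ((m : ℤ) + 1 - b) ((b2 : ℝ) / (100 : ℕ)) w1 +
                mB cf u (1 / m) ((m : ℤ) + 1 - b) ((b2 : ℝ) / (100 : ℕ)) w2 / D) +
            ((parP X ((m : ℤ) - L) ((m : ℤ) + 1 - b) D s b2).g2 : ℝ) / (S : ℕ) *
              (mB cf u (1 / m) ((m : ℤ) + 1 - b) ((b2 : ℝ) / (100 : ℕ)) w2 +
                mB cf u (1 / m) ((m : ℤ) + 1 - b) ((b2 : ℝ) / (100 : ℕ)) w3 / D) := by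
  have hs := S_posR
  have hbL := h.hbL
  have hD1 : 1 ≤ D := by omega
  have hDR : (D : ℝ) = (L : ℝ) + 1 - b := by
    have h2 : D + b = L + 1 := by omega
    have h3 : ((D : ℝ) + b) = (L : ℝ) + 1 := by exact_mod_cast h2
    linarith
  have hD0 : (0 : ℝ) < D := by exact_mod_cast hD1
  set j1 : ℤ := (m : ℤ) - L with hj1
  set j2 : ℤ := (m : ℤ) + 1 - b with hj2
  unfold okP at hok
  simp only [Bool.and_eq_true, Nat.ble_eq] at hok
  obtain ⟨o1, o2, o3, o4, o5, o6⟩ := hok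
  set z : ℕ := zP X j1 D s with hz
  set E : ℕ := mkE z with hE
  set dh : ℕ := mkd D E with hdh
  set kw : ℕ := mkkc E * dh / S + 1 with hkw
  set iL : ℕ := (iv (3 - j1) X).hi with hiL
  set c3 : ℕ := mkc3 E kw dh iL with hc3
  set e2 : ℕ := epP X j2 s with he2
  set iB : ℕ := (iv (2 - j2) X).hi with hiB
  -- row one
  have hzS : z < S := by omega
  have hz1 : (z : ℝ) / (S : ℕ) < 1 := by
    rw [div_lt_one hs]
    exact_mod_cast hzS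
  have zok := zP_ok (s := s) (b := b) (D := D) hm hx (by rw [hDR]; ring) o1
  have hEr : ee B k L b ≤ (E : ℝ) / (S : ℕ) := (ee_le_z h hz1 zok).trans (mkE_ge hzS)
  have hdl1 : dl B k L b ≤ (dh : ℝ) / (S : ℕ) :=
    (dl_le h hEr hD1 (by omega)).trans (mkd_ge hD1)
  have hkc := mkkc_ge E
  have hkwd : ((mkkc E : ℕ) : ℝ) / (S : ℕ) * ((dh : ℝ) / (S : ℕ)) ≤ (kw : ℝ) / (S : ℕ) := mul_up _ _
  have e3 : (m : ℝ) + ((3 - j1 : ℤ) : ℝ) = (L : ℝ) + 3 := by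
    rw [hj1]
    push_cast
    ring
  have i3 := iv_hi hm hx o1
  rw [e3] at i3
  have hL3 : (0 : ℝ) < (L : ℝ) + 3 := by positivity
  set μ3 : ℝ := ((max kw (dh * iL / S + 1) : ℕ) : ℝ) / (S : ℕ) with hμ3
  have hμa : (kw : ℝ) / (S : ℕ) ≤ μ3 := by
    rw [hμ3]
    refine div_le_div_of_nonneg_right ?_ hs.le
    exact_mod_cast le_max_left _ _
  have hμb : (dh : ℝ) / (S : ℕ) * ((iL : ℝ) / (S : ℕ)) ≤ μ3 := by
    refine (mul_up dh iL).trans ?_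
    rw [hμ3]
    refine div_le_div_of_nonneg_right ?_ hs.le
    exact_mod_cast le_max_right _ _
  have hdh0 : (0 : ℝ) ≤ (dh : ℝ) / (S : ℕ) := by positivity
  have hμc : (dh : ℝ) / (S : ℕ) ≤ μ3 * ((L : ℝ) + 3) := by
    have h1 : (dh : ℝ) / (S : ℕ) * (1 / ((L : ℝ) + 3)) ≤ μ3 :=
      (mul_le_mul_of_nonneg_left i3 hdh0).trans hμb
    rwa [mul_one_div, div_le_iff₀ hL3] at h1
  have hc3r : (E : ℝ) / (S : ℕ) * μ3 ≤ (c3 : ℝ) / (S : ℕ) := mul_up _ _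
  have hβ1 : 1 + (E : ℝ) / (S : ℕ) ≤ (b1 : ℝ) / (100 : ℕ) := by
    have h1 : (((S + E) * 100 : ℕ) : ℝ) ≤ ((b1 * S : ℕ) : ℝ) := by exact_mod_cast o6
    push_cast at h1
    rw [le_div_iff₀ (by norm_num), ← sub_nonneg]
    have h2 : 0 ≤ ((b1 : ℝ) * (S : ℕ) - (((S : ℕ) : ℝ) + E) * 100) / (S : ℕ) :=
      div_nonneg (by linarith) hs.le
    have h3 : ((b1 : ℝ) * (S : ℕ) - (((S : ℕ) : ℝ) + E) * 100) / (S : ℕ) =
        (b1 : ℝ) - (1 + (E : ℝ) / (S : ℕ)) * (100 : ℕ) := by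
      push_cast
      field_simp
    rw [h3] at h2
    exact h2
  have hβ1' : (b1 : ℝ) / (100 : ℕ) ≤ 5 / 4 := by
    have h1 : ((4 * b1 : ℕ) : ℝ) ≤ 500 := by exact_mod_cast hb1'
    push_cast at h1 ⊢
    rw [div_le_iff₀ (by norm_num)]
    linarith
  -- row two
  obtain ⟨hsb, hepP, hiBr⟩ := epP_ok (s := s) hm hx o3 o4
  have hb1p : 1 ≤ b := by
    have i1 := (iv_ok hm hx o5).1
    have e1 : (m : ℝ) + ((1 - j2 : ℤ) : ℝ) = (b : ℝ) := by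
      rw [hj2]
      push_cast
      ring
    rw [e1] at i1
    exact_mod_cast i1
  have hepB : ep B k L b ≤ (e2 : ℝ) / (S : ℕ) := (ep_le h hsb).trans hepP
  have hβ2' : (b2 : ℝ) / (100 : ℕ) ≤ 5 / 4 := by
    have h1 : ((4 * b2 : ℕ) : ℝ) ≤ 500 := by exact_mod_cast hb2'
    push_cast at h1 ⊢
    rw [div_le_iff₀ (by norm_num)]
    linarith
  have hβ21 : (1 : ℝ) ≤ (b2 : ℝ) / (100 : ℕ) := by
    have h1 : (100 : ℝ) ≤ b2 := by exact_mod_cast hb2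
    rw [le_div_iff₀ (by norm_num)]
    push_cast
    linarith
  have hy : (1 : ℝ) / D = 1 / ((L : ℝ) + 1 - b) := by rw [hDR]
  -- parameters
  have hdlow : 1 / (D : ℝ) ≤ dl B k L b := by
    rw [hy]
    exact dl_lower h
  have hdw : dl B k L b - 1 / (D : ℝ) ≤ ((dh - S / D : ℕ) : ℝ) / (S : ℕ) := by
    have h1 := cast_tsub_ge dh (S / D)
    have h2 : (((S / D : ℕ)) : ℝ) ≤ ((S : ℕ) : ℝ) / D := by
      rw [le_div_iff₀ hD0]
      exact div_floor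
    rw [le_div_iff₀ hs]
    have h3 : dl B k L b * (S : ℕ) ≤ dh := by rwa [le_div_iff₀ hs] at hdl1
    have h4 : (dl B k L b - 1 / (D : ℝ)) * (S : ℕ) = dl B k L b * (S : ℕ) - ((S : ℕ) : ℝ) / D := by
      ring
    rw [h4]
    linarith
  obtain ⟨x1, hx1, hx1e⟩ := exists_frac (by linarith : 0 ≤ dl B k L b - 1 / (D : ℝ)) hdw
  have hkpb := kp_bounds h
  have he0 := ee_nonneg h
  have hdl0 : 0 ≤ dl B k L b := by
    have : 0 ≤ 1 / (D : ℝ) := by positivity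
    linarith
  have hkp : kp B k L b ≤ (kw : ℝ) / (S : ℕ) := by
    refine hkpb.2.trans (le_trans ?_ hkwd)
    have h1 : ee B k L b * (1 + ee B k L b) ^ 2 ≤ ((mkkc E : ℕ) : ℝ) / (S : ℕ) := by
      refine le_trans ?_ hkc
      exact mul_le_mul hEr (pow_le_pow_left₀ (by linarith) (by linarith) 2) (by positivity)
        (by positivity)
    calc dl B k L b * ee B k L b * (1 + ee B k L b) ^ 2 =
        (ee B k L b * (1 + ee B k L b) ^ 2) * dl B k L b := by ring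
      _ ≤ ((mkkc E : ℕ) : ℝ) / (S : ℕ) * ((dh : ℝ) / (S : ℕ)) :=
          mul_le_mul h1 hdl1 hdl0 (by positivity)
  obtain ⟨x2, hx2, hx2e⟩ := exists_frac hkpb.1 hkp
  have hep0 := ep_nonneg h
  by_cases hmode : Nat.ble ((S + e2) * 100) (b2 * S) = true
  · have hP : parP X j1 j2 D s b2 =
        ⟨0, dh - S / D, kw, e2, c3, 0, e2 * (max e2 iB) / S + 1⟩ := if_pos hmode
    rw [hP]
    obtain ⟨x3, hx3, hx3e⟩ := exists_frac hep0 hepB
    refine ⟨x1, x2, x3, hx1, hx2, hx3, by linarith, hx2e, Or.inr hx3e,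
      fun cf t den u ht ht1 hden hu hR1 hR2 => ?_⟩
    have hβ2 : 1 + (e2 : ℝ) / (S : ℕ) ≤ (b2 : ℝ) / (100 : ℕ) := by
      have h0 : (S + e2) * 100 ≤ b2 * S := Nat.ble_eq.mp hmode
      have h1 : (((S + e2) * 100 : ℕ) : ℝ) ≤ ((b2 * S : ℕ) : ℝ) := by exact_mod_cast h0
      push_cast at h1
      rw [le_div_iff₀ (by norm_num), ← sub_nonneg]
      have h2 : 0 ≤ ((b2 : ℝ) * (S : ℕ) - (((S : ℕ) : ℝ) + e2) * 100) / (S : ℕ) :=
        div_nonneg (by linarith) hs.le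
      have h3 : ((b2 : ℝ) * (S : ℕ) - (((S : ℕ) : ℝ) + e2) * 100) / (S : ℕ) =
          (b2 : ℝ) - (1 + (e2 : ℝ) / (S : ℕ)) * (100 : ℕ) := by
        push_cast
        field_simp
      rw [h3] at h2
      exact h2
    set μ2 : ℝ := ((max e2 iB : ℕ) : ℝ) / (S : ℕ) with hμ2
    have hμ2a : (e2 : ℝ) / (S : ℕ) ≤ μ2 := by
      rw [hμ2]
      refine div_le_div_of_nonneg_right ?_ hs.le
      exact_mod_cast le_max_left _ _
    have hμ2b : 1 ≤ μ2 * ((b : ℝ) + 1) := by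
      have hb1 : (0 : ℝ) < (b : ℝ) + 1 := by positivity
      have h1 : 1 / ((b : ℝ) + 1) ≤ μ2 := by
        refine hiBr.trans ?_
        rw [hμ2]
        refine div_le_div_of_nonneg_right ?_ hs.le
        exact Nat.cast_le.2 (le_max_right e2 iB)
      rwa [div_le_iff₀ hb1] at h1
    have hg2 : (e2 : ℝ) / (S : ℕ) * μ2 ≤ ((e2 * (max e2 iB) / S + 1 : ℕ) : ℝ) / (S : ℕ) := mul_up _ _
    have r1 := row1_val (cf := cf) (E := (E : ℝ) / (S : ℕ)) (δ1 := (dh : ℝ) / (S : ℕ))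
      (kc := ((mkkc E : ℕ) : ℝ) / (S : ℕ)) (μ3 := μ3) (β := (b1 : ℝ) / (100 : ℕ)) hm ht ht1 hden hu h
      hR1 hEr hdl1 hkc (hkwd.trans hμa) hμc hβ1 hβ1'
    have r2 := row2_val (cf := cf) (E := (e2 : ℝ) / (S : ℕ)) (μ2 := μ2) (β := (b2 : ℝ) / (100 : ℕ))
      hm ht ht1 hden hu hb1p h hR2 hy hepB hμ2a hμ2b hβ2 hβ2'
    have q1 := mB_nonneg' (cf := cf) hR1 (b := (b1 : ℝ) / (100 : ℕ)) (by positivity) w3
    have q2 := mB_nonneg' (cf := cf) hR2 (b := (b2 : ℝ) / (100 : ℕ)) (by positivity) w2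
    have q3 := mB_nonneg' (cf := cf) hR2 (b := (b2 : ℝ) / (100 : ℕ)) (by positivity) w3
    set M0 := mW cf u (1 / m) j1 w0
    set M1 := mW cf u (1 / m) j1 w1
    set M2 := mW cf u (1 / m) j1 w2
    set N0 := mW cf u (1 / m) j2 w0
    set N1 := mW cf u (1 / m) j2 w1
    set N2 := mW cf u (1 / m) j2 w2
    set b3 := mB cf u (1 / m) j1 ((b1 : ℝ) / (100 : ℕ)) w3
    set c2 := mB cf u (1 / m) j2 ((b2 : ℝ) / (100 : ℕ)) w2
    set d3 := mB cf u (1 / m) j2 ((b2 : ℝ) / (100 : ℕ)) w3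
    set H1 := HIx (k + 2) m t cf.v.length (vC cf m den) (tauC cf m den) B (k + 1 + L) * den
    set H2 := HIx (k + 2) m t cf.v.length (vC cf m den) (tauC cf m den) B (k + b) * den
    have t1 : (E : ℝ) / (S : ℕ) * μ3 * b3 ≤ (c3 : ℝ) / (S : ℕ) * b3 :=
      mul_le_mul_of_nonneg_right hc3r q1
    have t2 : (e2 : ℝ) / (S : ℕ) * μ2 * (c2 + 1 / (D : ℝ) * d3) ≤
        ((e2 * (max e2 iB) / S + 1 : ℕ) : ℝ) / (S : ℕ) * (c2 + d3 / D) := by
      have e : c2 + 1 / (D : ℝ) * d3 = c2 + d3 / D := by ring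
      rw [e]
      refine mul_le_mul_of_nonneg_right hg2 ?_
      have : 0 ≤ d3 / D := div_nonneg q3 hD0.le
      linarith
    have key : H1 + H2 - ((M0 + N0 + (M1 - N1) / D) + x1 * (((dh - S / D : ℕ) : ℝ) / (S : ℕ) * M1) +
        x2 * ((kw : ℝ) / (S : ℕ) * M2) + x3 * ((e2 : ℝ) / (S : ℕ) * (N1 - (N1 + N2) / D))) =
        (H1 - (M0 + dl B k L b * M1 + kp B k L b * M2)) +
        (H2 - (N0 - 1 / (D : ℝ) * N1 + ep B k L b * ((1 - 1 / (D : ℝ)) * N1 - 1 / (D : ℝ) * N2))) := by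
      have f1 : dl B k L b = 1 / (D : ℝ) + x1 * (((dh - S / D : ℕ) : ℝ) / (S : ℕ)) := by linarith
      rw [f1, hx2e, hx3e]
      ring
    rw [key]
    refine (abs_add_le _ _).trans ?_
    have hg10 : (((0 : ℕ) : ℕ) : ℝ) / (S : ℕ) = 0 := by simp
    rw [hg10, zero_mul, add_zero]
    exact add_le_add (r1.trans t1) (r2.trans t2)
  · have hP : parP X j1 j2 D s b2 = ⟨0, dh - S / D, kw, 0, c3, e2, 0⟩ := if_neg hmode
    rw [hP]
    refine ⟨x1, x2, 0, hx1, hx2, ⟨le_rfl, zero_le_one⟩, by linarith, hx2e, Or.inl rfl,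
      fun cf t den u ht ht1 hden hu hR1 hR2 => ?_⟩
    have r1 := row1_val (cf := cf) (E := (E : ℝ) / (S : ℕ)) (δ1 := (dh : ℝ) / (S : ℕ))
      (kc := ((mkkc E : ℕ) : ℝ) / (S : ℕ)) (μ3 := μ3) (β := (b1 : ℝ) / (100 : ℕ)) hm ht ht1 hden hu h
      hR1 hEr hdl1 hkc (hkwd.trans hμa) hμc hβ1 hβ1'
    have r2 := row2_val1 (cf := cf) (η := (e2 : ℝ) / (S : ℕ)) (β := (b2 : ℝ) / (100 : ℕ))
      hm ht ht1 hden hu hb1p h hsb hR2 hy hepP hβ21 hβ2'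
    have q1 := mB_nonneg' (cf := cf) hR1 (b := (b1 : ℝ) / (100 : ℕ)) (by positivity) w3
    set M0 := mW cf u (1 / m) j1 w0
    set M1 := mW cf u (1 / m) j1 w1
    set M2 := mW cf u (1 / m) j1 w2
    set N0 := mW cf u (1 / m) j2 w0
    set N1 := mW cf u (1 / m) j2 w1
    set N2 := mW cf u (1 / m) j2 w2
    set b3 := mB cf u (1 / m) j1 ((b1 : ℝ) / (100 : ℕ)) w3
    set c1 := mB cf u (1 / m) j2 ((b2 : ℝ) / (100 : ℕ)) w1
    set c2 := mB cf u (1 / m) j2 ((b2 : ℝ) / (100 : ℕ)) w2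
    set H1 := HIx (k + 2) m t cf.v.length (vC cf m den) (tauC cf m den) B (k + 1 + L) * den
    set H2 := HIx (k + 2) m t cf.v.length (vC cf m den) (tauC cf m den) B (k + b) * den
    have t1 : (E : ℝ) / (S : ℕ) * μ3 * b3 ≤ (c3 : ℝ) / (S : ℕ) * b3 :=
      mul_le_mul_of_nonneg_right hc3r q1
    have t2 : (e2 : ℝ) / (S : ℕ) * (c1 + 1 / (D : ℝ) * c2) = (e2 : ℝ) / (S : ℕ) * (c1 + c2 / D) := by
      ring
    have key : H1 + H2 - ((M0 + N0 + (M1 - N1) / D) + x1 * (((dh - S / D : ℕ) : ℝ) / (S : ℕ) * M1) +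
        x2 * ((kw : ℝ) / (S : ℕ) * M2) + 0 * (((0 : ℕ) : ℝ) / (S : ℕ) * (N1 - (N1 + N2) / D))) =
        (H1 - (M0 + dl B k L b * M1 + kp B k L b * M2)) + (H2 - (N0 - 1 / (D : ℝ) * N1)) := by
      have f1 : dl B k L b = 1 / (D : ℝ) + x1 * (((dh - S / D : ℕ) : ℝ) / (S : ℕ)) := by linarith
      rw [f1, hx2e]
      ring
    rw [key]
    refine (abs_add_le _ _).trans ?_
    have hg10 : (((0 : ℕ) : ℕ) : ℝ) / (S : ℕ) = 0 := by simp
    rw [hg10, zero_mul, add_zero]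
    rw [t2] at r2
    exact add_le_add (r1.trans t1) r2



end Pool.NW
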