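import Pool.Agent.Work.MP_46fa68_35.Bot2

/-! STATEMENTS ONLY (MoLa.lean: helper35 or helper23) -/

set_option autoImplicit false

open Finset Equiv

namespace Pool.OB

open Pool.JM

theorem ee_ge {k L b s : ℕ} {B : Finset ℕ} (h : Two k L b s B) :
    (s : ℝ) / (((L : ℝ) + 2) * ((L : ℝ) + 2 + s)) ≤ ee B k L b := sorry

theorem ep_ge {k L b s : ℕ} {B : Finset ℕ} (h : Two k L b s B) :
    (s : ℝ) / (((b : ℝ) + 1) * ((b : ℝ) + 1 + s)) ≤ ep B k L b := sorry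

theorem kp_ge {k L b s : ℕ} {B : Finset ℕ} (h : Two k L b s B) :
    ee B k L b * (1 / ((L : ℝ) + 1 - b) - (1 + 2 / ((L : ℝ) + 1 - b)) / ((L : ℝ) + 4)) ≤ kp B k L b :=
  sorry

end Pool.OB
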