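import Pool.Agent.Work.MP_46fa68_23.Nival
import Pool.Agent.Work.MP_46fa68_23.Ival

/-!
# Moments of the one-bead weights, evaluated in the kernel

`rho = 1 / m`, `t = m - 1 - s`, layer `j` (integer).  A one-bead function of helper47's form with the sources
`q' = q - 1 = -1, 0, .., Q - 2` (displacements `p = 0, 1`, weights `nu_{q,0}`, `m * nu_{q,1}`) and the tail `tau`
has at the layer `j` the weight `c (j, d)`, and
`c (j, d) * (m+1-j)! / (m+1-j+d)! = P_d * kap_d`, `P_d = ∏_{i<d} (t+i) / ((i+1) (m+2-j+i))`.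
The coefficients `nu`, `tau` are integer polynomials in `rho`.
`mom` encloses `∑_{d<n} P_d kap_d d^k`.
-/

set_option autoImplicit false

open Finset

namespace Pool.NV

/-! ### signed quantities -/

/-- a signed quantity `p - n` -/
structure PN where
  p : NI
  n : NI
deriving DecidableEq

def MemS (x : ℝ) (X : PN) : Prop := ∃ a b : ℝ, Mem a X.p ∧ Mem b X.n ∧ x = a - b

def zeroN : NI := ⟨0, 0⟩

theorem mem_zeroN : Mem 0 zeroN := by constructor <;> simp [zeroN]

def zeroS : PN := ⟨zeroN, zeroN⟩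

theorem memS_zero : MemS 0 zeroS := ⟨0, 0, mem_zeroN, mem_zeroN, by ring⟩

def addS (X Y : PN) : PN := ⟨add X.p Y.p, add X.n Y.n⟩

theorem memS_add {x y : ℝ} {X Y : PN} (hx : MemS x X) (hy : MemS y Y) : MemS (x + y) (addS X Y) := by
  obtain ⟨a, b, h1, h2, rfl⟩ := hx
  obtain ⟨c, d, h3, h4, rfl⟩ := hy
  exact ⟨a + c, b + d, mem_add h1 h3, mem_add h2 h4, by ring⟩

/-- multiplication by an integer -/
def zmulS (k : ℤ) (X : PN) : PN :=
  match k with
  | Int.ofNat k => ⟨smul k X.p, smul k X.n⟩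
  | Int.negSucc k => ⟨smul (k + 1) X.n, smul (k + 1) X.p⟩

theorem memS_zmul (k : ℤ) {x : ℝ} {X : PN} (hx : MemS x X) : MemS (k * x) (zmulS k X) := by
  obtain ⟨a, b, h1, h2, rfl⟩ := hx
  cases k with
  | ofNat k =>
    refine ⟨k * a, k * b, mem_smul k h1, mem_smul k h2, ?_⟩
    have e : ((Int.ofNat k : ℤ) : ℝ) = (k : ℝ) := by simp
    rw [e]
    ring
  | negSucc k =>
    refine ⟨(k + 1 : ℕ) * b, (k + 1 : ℕ) * a, mem_smul (k + 1) h2, mem_smul (k + 1) h1, ?_⟩
    rw [Int.cast_negSucc]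
    push_cast
    ring

/-- multiplication by a nonnegative quantity -/
def mulS (A : NI) (X : PN) : PN := ⟨mul A X.p, mul A X.n⟩

theorem memS_mul {y x : ℝ} {A : NI} {X : PN} (hy : Mem y A) (hx : MemS x X) :
    MemS (y * x) (mulS A X) := by
  obtain ⟨a, b, h1, h2, rfl⟩ := hx
  exact ⟨y * a, y * b, mem_mul hy h1, mem_mul hy h2, by ring⟩

/-! ### integer polynomials in `rho` -/

def pev : List ℤ → ℝ → ℝ
  | [], _ => 0
  | a :: l, x => a + x * pev l x

def constS (k : ℤ) : PN :=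
  match k with
  | Int.ofNat k => ⟨nat k, zeroN⟩
  | Int.negSucc k => ⟨zeroN, nat (k + 1)⟩

theorem memS_const (k : ℤ) : MemS (k : ℝ) (constS k) := by
  cases k with
  | ofNat k => exact ⟨k, 0, mem_nat k, mem_zeroN, by simp⟩
  | negSucc k =>
    refine ⟨0, (k + 1 : ℕ), mem_zeroN, mem_nat (k + 1), ?_⟩
    rw [Int.cast_negSucc]
    simp

def pevI : List ℤ → NI → PN
  | [], _ => zeroS
  | a :: l, X => addS (constS a) (mulS X (pevI l X))

theorem memS_pev {x : ℝ} {X : NI} (hx : Mem x X) : ∀ l : List ℤ, MemS (pev l x) (pevI l X)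
  | [] => memS_zero
  | a :: l => memS_add (memS_const a) (memS_mul hx (memS_pev hx l))

/-! ### linear factors `1 + c rho` -/

/-- `1 + c rho` -/
def lin (c : ℤ) (X : NI) : NI :=
  match c with
  | Int.ofNat c => ⟨S + c * X.lo, S + c * X.hi⟩
  | Int.negSucc c => ⟨S - (c + 1) * X.hi, S - (c + 1) * X.lo⟩

theorem mem_lin {x : ℝ} {X : NI} (hx : Mem x X) (c : ℤ) (hc : (-c).toNat * X.hi ≤ S) :
    Mem (1 + c * x) (lin c X) := by
  have hs := S_posR
  have h1 := hx.1
  have h2 := hx.2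
  cases c with
  | ofNat c =>
    have hc' : (0 : ℝ) ≤ c := Nat.cast_nonneg _
    have e : ((Int.ofNat c : ℤ) : ℝ) = (c : ℝ) := by simp
    rw [e]
    constructor
    · change ((S + c * X.lo : ℕ) : ℝ) ≤ _
      have := mul_le_mul_of_nonneg_left h1 hc'
      push_cast
      linarith
    · change _ ≤ ((S + c * X.hi : ℕ) : ℝ)
      have := mul_le_mul_of_nonneg_left h2 hc'
      push_cast
      linarith
  | negSucc c =>
    have e0 : (-(Int.negSucc c)).toNat = c + 1 := by simp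
    rw [e0] at hc
    have hle : X.lo ≤ X.hi := by
      have : ((X.lo : ℕ) : ℝ) ≤ ((X.hi : ℕ) : ℝ) := h1.trans h2
      exact_mod_cast this
    have hc1 : (c + 1) * X.lo ≤ S := (Nat.mul_le_mul_left _ hle).trans hc
    have hc' : (0 : ℝ) ≤ ((c + 1 : ℕ) : ℝ) := Nat.cast_nonneg _
    constructor
    · change ((S - (c + 1) * X.hi : ℕ) : ℝ) ≤ _
      have := mul_le_mul_of_nonneg_left h2 hc'
      rw [Nat.cast_sub hc, Int.cast_negSucc]
      push_cast at *
      linarith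
    · change _ ≤ ((S - (c + 1) * X.lo : ℕ) : ℝ)
      have := mul_le_mul_of_nonneg_left h1 hc'
      rw [Nat.cast_sub hc1, Int.cast_negSucc]
      push_cast at *
      linarith

/-! ### the weights -/

/-- `(-1)^i C(a, i)` for `i ≥ 0`, `0` for `i < 0` -/
def bin (i : ℤ) (a : ℕ) : ℤ :=
  match i with
  | Int.ofNat i => if i % 2 = 0 then (a.choose i : ℤ) else -(a.choose i : ℤ)
  | Int.negSucc _ => 0

/-- tail weight: `[d = 0]` at or beyond the threshold, `(-1)^i C(d-1, i-1)` at the distance `i ≥ 1` -/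
def tlw (i : ℤ) (d : ℕ) : ℤ :=
  match i with
  | Int.ofNat 0 => if d = 0 then 1 else 0
  | Int.negSucc _ => if d = 0 then 1 else 0
  | Int.ofNat (i + 1) =>
    match d with
    | 0 => 0
    | d + 1 => if i % 2 = 0 then -(d.choose i : ℤ) else (d.choose i : ℤ)

/-- coefficients: for `q = 0, 1, ..` the pair (`nu_{q,0}`, `nu_{q,1}`), then the tail `tau` -/
structure Cf where
  v : List (List ℤ × List ℤ)
  tau : List ℤ

/-- the factor `d / (1 + (d - 2 - s) rho)` of the sources with displacement one -/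
noncomputable def fac (s : ℕ) (x : ℝ) (d : ℕ) : ℝ := d / (1 + (((d : ℤ) - 2 - s : ℤ) : ℝ) * x)

/-- contribution of the sources `q, q+1, ..` at the layer with `i = q - 1 + j` -/
noncomputable def kapv (s : ℕ) (x : ℝ) (d : ℕ) : List (List ℤ × List ℤ) → ℤ → ℝ
  | [], _ => 0
  | c :: l, i => bin i d * pev c.1 x + bin i (d - 1) * (fac s x d * pev c.2 x) + kapv s x d l (i + 1)

/-- `kap_d` at the layer `j` -/
noncomputable def kap (cf : Cf) (s : ℕ) (x : ℝ) (j : ℤ) (d : ℕ) : ℝ :=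
  kapv s x d cf.v (j - 1) + tlw (j - 1 + cf.v.length) d * pev cf.tau x

/-- evaluated coefficients -/
structure CI where
  v : List (PN × PN)
  tau : PN
  len : ℕ

def evC (cf : Cf) (X : NI) : CI :=
  ⟨cf.v.map fun c => (pevI c.1 X, pevI c.2 X), pevI cf.tau X, cf.v.length⟩

def facI (s : ℕ) (X : NI) (d : ℕ) : NI := div (nat d) (lin ((d : ℤ) - 2 - s) X)

def kapvI (F : NI) (d : ℕ) : List (PN × PN) → ℤ → PN
  | [], _ => zeroS
  | c :: l, i => addS (addS (zmulS (bin i d) c.1) (zmulS (bin i (d - 1)) (mulS F c.2)))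
      (kapvI F d l (i + 1))

def kapI (C : CI) (s : ℕ) (X : NI) (j : ℤ) (d : ℕ) : PN :=
  addS (kapvI (facI s X d) d C.v (j - 1)) (zmulS (tlw (j - 1 + C.len) d) C.tau)

/-- `rho` is small: `32 rho ≤ 1` is more than enough for all the factors -/
def Small (s : ℕ) (X : NI) : Prop := (s + 2) * X.hi < S

instance (s : ℕ) (X : NI) : Decidable (Small s X) := inferInstanceAs (Decidable (_ < _))

theorem mem_facI {s : ℕ} {x : ℝ} {X : NI} (hx : Mem x X) (hX : Small s X) (d : ℕ) :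
    Mem (fac s x d) (facI s X d) := by
  unfold fac facI
  have hX' : (s + 2) * X.hi < S := hX
  have hb : (-((d : ℤ) - 2 - s)).toNat ≤ s + 2 := by omega
  have h1 := mem_lin hx ((d : ℤ) - 2 - s) ((Nat.mul_le_mul_right _ hb).trans hX'.le)
  refine mem_div ?_ (mem_nat d) h1
  -- positivity of the lower end
  rcases hcase : (d : ℤ) - 2 - s with c | c
  · change 0 < S + c * X.lo
    have := S_pos
    omega
  · change 0 < S - (c + 1) * X.hi
    have h2 : c + 1 ≤ s + 2 := by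
      have : (-((d : ℤ) - 2 - s)).toNat = c + 1 := by rw [hcase]; simp
      omega
    have h3 := (Nat.mul_le_mul_right X.hi h2)
    omega

theorem memS_kapvI {s : ℕ} {x : ℝ} {X : NI} (hx : Mem x X) (hX : Small s X) (d : ℕ) :
    ∀ (l : List (List ℤ × List ℤ)) (i : ℤ),
      MemS (kapv s x d l i) (kapvI (facI s X d) d (l.map fun c => (pevI c.1 X, pevI c.2 X)) i)
  | [], _ => memS_zero
  | c :: l, i => by
    refine memS_add (memS_add (memS_zmul _ (memS_pev hx c.1)) (memS_zmul _ ?_)) (memS_kapvI hx hX d l (i + 1))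
    exact memS_mul (mem_facI hx hX d) (memS_pev hx c.2)

theorem memS_kapI {cf : Cf} {s : ℕ} {x : ℝ} {X : NI} (hx : Mem x X) (hX : Small s X) (j : ℤ) (d : ℕ) :
    MemS (kap cf s x j d) (kapI (evC cf X) s X j d) :=
  memS_add (memS_kapvI hx hX d cf.v (j - 1)) (memS_zmul _ (memS_pev hx cf.tau))

/-! ### the steps -/

/-- `(t + i) / ((i + 1) (m + 2 - j + i))` in terms of `rho` -/
noncomputable def stp (s : ℕ) (x : ℝ) (j : ℤ) (i : ℕ) : ℝ :=
  (1 + (((i : ℤ) - 1 - s : ℤ) : ℝ) * x) / ((i + 1 : ℕ) * (1 + (((i : ℤ) + 2 - j : ℤ) : ℝ) * x))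

def stpI (s : ℕ) (X : NI) (j : ℤ) (i : ℕ) : NI :=
  div (lin ((i : ℤ) - 1 - s) X) (smul (i + 1) (lin ((i : ℤ) + 2 - j) X))

/-- `rho` is small for the layer `j` -/
def SmallJ (s : ℕ) (X : NI) (j : ℤ) : Prop := (s + 2) * X.hi < S ∧ (j - 2).toNat * X.hi < S

instance (s : ℕ) (X : NI) (j : ℤ) : Decidable (SmallJ s X j) := inferInstanceAs (Decidable (_ ∧ _))

theorem mem_stpI {s : ℕ} {x : ℝ} {X : NI} {j : ℤ} (hx : Mem x X) (hX : SmallJ s X j) (i : ℕ) :
    Mem (stp s x j i) (stpI s X j i) := by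
  obtain ⟨hX1, hX2⟩ := hX
  unfold stp stpI
  have hb : (-((i : ℤ) - 1 - s)).toNat ≤ s + 2 := by omega
  have hb2 : (-((i : ℤ) + 2 - j)).toNat ≤ (j - 2).toNat := by omega
  have h1 := mem_lin hx ((i : ℤ) - 1 - s) ((Nat.mul_le_mul_right _ hb).trans hX1.le)
  have h2 := mem_lin hx ((i : ℤ) + 2 - j) ((Nat.mul_le_mul_right _ hb2).trans hX2.le)
  refine mem_div ?_ h1 (mem_smul (i + 1) h2)
  change 0 < (i + 1) * (lin ((i : ℤ) + 2 - j) X).lo
  refine Nat.mul_pos (Nat.succ_pos i) ?_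
  rcases hcase : (i : ℤ) + 2 - j with c | c
  · change 0 < S + c * X.lo
    have := S_pos
    omega
  · change 0 < S - (c + 1) * X.hi
    have h2 : c + 1 ≤ (j - 2).toNat := by
      have : (-((i : ℤ) + 2 - j)).toNat = c + 1 := by rw [hcase]; simp
      omega
    have h3 := (Nat.mul_le_mul_right X.hi h2)
    omega

/-! ### the moments -/

/-- `P_d` -/
noncomputable def Pd (s : ℕ) (x : ℝ) (j : ℤ) (d : ℕ) : ℝ := ∏ i ∈ range d, stp s x j i

/-- `∑_{d<n} P_d kap_d d^k` -/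
noncomputable def momR (cf : Cf) (s : ℕ) (x : ℝ) (j : ℤ) (k n : ℕ) : ℝ :=
  ∑ d ∈ range n, Pd s x j d * (kap cf s x j d * (d : ℝ) ^ k)

def one : NI := nat 1

def accM (C : CI) (s : ℕ) (X : NI) (j : ℤ) (k n : ℕ) : Acc :=
  dot one (stpI s X j) (fun d => (zmulS ((d ^ k : ℕ) : ℤ) (kapI C s X j d)).p)
    (fun d => (zmulS ((d ^ k : ℕ) : ℤ) (kapI C s X j d)).n) n

def accI (A : Acc) : IV.Ivl := ⟨(A.lp : ℤ) - (A.ln : ℤ), (A.up : ℤ) - (A.un : ℤ)⟩

/-- enclosure of the moment -/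
def mom (C : CI) (s : ℕ) (X : NI) (j : ℤ) (k n : ℕ) : IV.Ivl := accI (accM C s X j k n)

theorem sc_eq : ((IV.sc : ℤ) : ℝ) = ((S : ℕ) : ℝ) := by
  have h : IV.sc = ((S : ℕ) : ℤ) := by decide
  rw [h]
  norm_cast

theorem mem_mom {cf : Cf} {s : ℕ} {x : ℝ} {X : NI} {j : ℤ} (hx : Mem x X) (hX : SmallJ s X j) (k n : ℕ) :
    IV.Mem (momR cf s x j k n) (mom (evC cf X) s X j k n) := by
  have hs : ∀ d, MemS (((d ^ k : ℕ) : ℤ) * kap cf s x j d) (zmulS ((d ^ k : ℕ) : ℤ) (kapI (evC cf X) s X j d)) :=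
    fun d => memS_zmul _ (memS_kapI hx hX.1 j d)
  choose a b h1 h2 h3 using hs
  have h := dot_sound (a0 := one) (x0 := 1) (s := stp s x j) (c := fun d => kap cf s x j d * (d : ℝ) ^ k)
    (cp := a) (cn := b) (sI := stpI s X j)
    (pI := fun d => (zmulS ((d ^ k : ℕ) : ℤ) (kapI (evC cf X) s X j d)).p)
    (nI := fun d => (zmulS ((d ^ k : ℕ) : ℤ) (kapI (evC cf X) s X j d)).n)
    (by exact_mod_cast mem_nat 1) n (fun i _ => mem_stpI hx hX i) (fun i _ => h1 i) (fun i _ => h2 i)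
    (fun i _ => by
      rw [← h3 i]
      push_cast
      ring)
  have e : momR cf s x j k n = ∑ d ∈ range n, (1 * ∏ i ∈ range d, stp s x j i) * (kap cf s x j d * (d : ℝ) ^ k) := by
    unfold momR Pd
    refine sum_congr rfl fun d _ => ?_
    rw [one_mul]
  rw [e]
  constructor
  · rw [sc_eq]
    refine le_trans (le_of_eq ?_) h.2.1
    change ((((accM (evC cf X) s X j k n).lp : ℤ) - ((accM (evC cf X) s X j k n).ln : ℤ) : ℤ) : ℝ) = _
    push_cast
    rfl
  · rw [sc_eq]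
    refine le_trans h.2.2 (le_of_eq ?_)
    change _ = ((((accM (evC cf X) s X j k n).up : ℤ) - ((accM (evC cf X) s X j k n).un : ℤ) : ℤ) : ℝ)
    push_cast
    rfl

end Pool.NV
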