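import Pool.Agent.Work.MP_46fa68_23.Mom

/-!
# Moments of the one-bead weights: the infinite sums

`momT = ∑'_d P_d kap_d d^k` is enclosed by the first 30 terms (evaluated in the kernel) and an explicit tail.
-/

set_option autoImplicit false

open Finset

namespace Pool.NV

/-! ### sizes -/

theorem stp_nonneg {s : ℕ} {x : ℝ} {j : ℤ} (hx : 0 ≤ x) (h1 : ((s : ℝ) + 1) * x ≤ 1)
    (h2 : ((j : ℝ) - 2) * x < 1) (i : ℕ) : 0 ≤ stp s x j i := by
  unfold stp
  have hi : (0 : ℝ) ≤ (i : ℝ) * x := mul_nonneg (Nat.cast_nonneg _) hx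
  refine div_nonneg ?_ (mul_nonneg (Nat.cast_nonneg _) ?_)
  · push_cast
    nlinarith
  · push_cast
    nlinarith

theorem stp_le {s : ℕ} {x : ℝ} {j : ℤ} (hx : 0 ≤ x) (h2 : ((j : ℝ) - 2) * x < 1)
    (h3 : (2 * (j : ℝ) - 5 - s) * x ≤ 1) (i : ℕ) : stp s x j i ≤ 2 / (i + 1 : ℕ) := by
  unfold stp
  have hi : (0 : ℝ) ≤ (i : ℝ) * x := mul_nonneg (Nat.cast_nonneg _) hx
  have hi1 : (0 : ℝ) < ((i + 1 : ℕ) : ℝ) := by positivity
  have hd : (0 : ℝ) < 1 + (((i : ℤ) + 2 - j : ℤ) : ℝ) * x := by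
    push_cast
    nlinarith
  rw [div_le_div_iff₀ (mul_pos hi1 hd) hi1]
  have : (1 + (((i : ℤ) - 1 - s : ℤ) : ℝ) * x) ≤ 2 * (1 + (((i : ℤ) + 2 - j : ℤ) : ℝ) * x) := by
    push_cast
    nlinarith
  nlinarith

theorem Pd_nonneg {s : ℕ} {x : ℝ} {j : ℤ} (hx : 0 ≤ x) (h1 : ((s : ℝ) + 1) * x ≤ 1)
    (h2 : ((j : ℝ) - 2) * x < 1) (d : ℕ) : 0 ≤ Pd s x j d :=
  prod_nonneg fun i _ => stp_nonneg hx h1 h2 i

theorem Pd_le {s : ℕ} {x : ℝ} {j : ℤ} (hx : 0 ≤ x) (h1 : ((s : ℝ) + 1) * x ≤ 1)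
    (h2 : ((j : ℝ) - 2) * x < 1) (h3 : (2 * (j : ℝ) - 5 - s) * x ≤ 1) :
    ∀ d : ℕ, Pd s x j d ≤ 2 ^ d / d.factorial
  | 0 => by simp [Pd]
  | d + 1 => by
    have ih := Pd_le hx h1 h2 h3 d
    have e : Pd s x j (d + 1) = Pd s x j d * stp s x j d := prod_range_succ _ _
    rw [e]
    have hf : (0 : ℝ) < d.factorial := by exact_mod_cast d.factorial_pos
    calc Pd s x j d * stp s x j d ≤ 2 ^ d / d.factorial * (2 / (d + 1 : ℕ)) :=
          mul_le_mul ih (stp_le hx h2 h3 d) (stp_nonneg hx h1 h2 d) (by positivity)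
      _ = 2 ^ (d + 1) / (d + 1).factorial := by
          rw [Nat.factorial_succ, pow_succ]
          push_cast
          field_simp

theorem abs_bin_le (i : ℤ) (a : ℕ) : |(bin i a : ℝ)| ≤ 2 ^ a := by
  unfold bin
  rcases i with i | i
  · have h : ((a.choose i : ℕ) : ℝ) ≤ 2 ^ a := by exact_mod_cast Nat.choose_le_two_pow a i
    change |(((if i % 2 = 0 then (a.choose i : ℤ) else -(a.choose i : ℤ)) : ℤ) : ℝ)| ≤ _
    split_ifs
    · push_cast
      rw [abs_of_nonneg (Nat.cast_nonneg _)]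
      exact h
    · push_cast
      rw [abs_neg, abs_of_nonneg (Nat.cast_nonneg _)]
      exact h
  · simp

theorem abs_tlw_le (i : ℤ) (d : ℕ) : |(tlw i d : ℝ)| ≤ 2 ^ d := by
  have h1 : (1 : ℝ) ≤ 2 ^ d := one_le_pow₀ (by norm_num)
  unfold tlw
  rcases i with i | i
  · cases i with
    | zero =>
      change |(((if d = 0 then 1 else 0) : ℤ) : ℝ)| ≤ _
      split_ifs
      · simpa using h1
      · simp
    | succ i =>
      cases d with
      | zero => simp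
      | succ d =>
        have h : ((d.choose i : ℕ) : ℝ) ≤ 2 ^ (d + 1) := by
          have h2 := Nat.choose_le_two_pow d i
          have h3 : 2 ^ d ≤ 2 ^ (d + 1) := Nat.pow_le_pow_right (by norm_num) (by omega)
          exact_mod_cast h2.trans h3
        change |(((if i % 2 = 0 then -(d.choose i : ℤ) else (d.choose i : ℤ)) : ℤ) : ℝ)| ≤ _
        split_ifs
        · push_cast
          rw [abs_neg, abs_of_nonneg (Nat.cast_nonneg _)]
          exact h
        · push_cast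
          rw [abs_of_nonneg (Nat.cast_nonneg _)]
          exact h
  · change |(((if d = 0 then 1 else 0) : ℤ) : ℝ)| ≤ _
    split_ifs
    · simpa using h1
    · simp

/-- the total size of the coefficients -/
noncomputable def VR (cf : Cf) (x : ℝ) : ℝ :=
  (cf.v.map fun c => |pev c.1 x| + |pev c.2 x|).sum + |pev cf.tau x|

theorem sum_nonneg' (l : List (List ℤ × List ℤ)) (x : ℝ) :
    0 ≤ (l.map fun c => |pev c.1 x| + |pev c.2 x|).sum := by
  induction l with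
  | nil => simp
  | cons c l ih =>
    rw [List.map_cons, List.sum_cons]
    positivity

theorem abs_kapv_le {s : ℕ} {x : ℝ} {d : ℕ} (hx : 0 ≤ x) (hd : s + 2 ≤ d) :
    ∀ (l : List (List ℤ × List ℤ)) (i : ℤ),
      |kapv s x d l i| ≤ (l.map fun c => |pev c.1 x| + |pev c.2 x|).sum * (d * 2 ^ d)
  | [], i => by simp [kapv]
  | c :: l, i => by
    have ih := abs_kapv_le hx hd l (i + 1)
    have hd1 : (1 : ℝ) ≤ d := by exact_mod_cast (by omega : 1 ≤ d)
    have h2d : (0 : ℝ) < 2 ^ d := by positivity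
    have hden : (1 : ℝ) ≤ 1 + (((d : ℤ) - 2 - s : ℤ) : ℝ) * x := by
      have h0 : (0 : ℝ) ≤ (((d : ℤ) - 2 - s : ℤ) : ℝ) := by
        exact_mod_cast (by omega : (0 : ℤ) ≤ (d : ℤ) - 2 - s)
      have := mul_nonneg h0 hx
      linarith
    have hfac : |fac s x d| ≤ d := by
      unfold fac
      rw [abs_div, abs_of_nonneg (Nat.cast_nonneg d), abs_of_pos (by linarith)]
      exact div_le_self (Nat.cast_nonneg d) hden
    have b1 : |(bin i d : ℝ) * pev c.1 x| ≤ |pev c.1 x| * (d * 2 ^ d) := by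
      rw [abs_mul, mul_comm]
      refine mul_le_mul_of_nonneg_left ?_ (abs_nonneg _)
      refine (abs_bin_le i d).trans ?_
      nlinarith
    have b2 : |(bin i (d - 1) : ℝ) * (fac s x d * pev c.2 x)| ≤ |pev c.2 x| * (d * 2 ^ d) := by
      rw [abs_mul, abs_mul]
      have h1 := abs_bin_le i (d - 1)
      have h2 : (2 : ℝ) ^ (d - 1) ≤ 2 ^ d := pow_le_pow_right₀ (by norm_num) (by omega)
      calc |(bin i (d - 1) : ℝ)| * (|fac s x d| * |pev c.2 x|) ≤ 2 ^ d * (d * |pev c.2 x|) :=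
            mul_le_mul (h1.trans h2) (mul_le_mul_of_nonneg_right hfac (abs_nonneg _))
              (by positivity) h2d.le
        _ = _ := by ring
    unfold kapv
    rw [List.map_cons, List.sum_cons]
    calc |(bin i d : ℝ) * pev c.1 x + (bin i (d - 1) : ℝ) * (fac s x d * pev c.2 x) + kapv s x d l (i + 1)|
        ≤ |(bin i d : ℝ) * pev c.1 x| + |(bin i (d - 1) : ℝ) * (fac s x d * pev c.2 x)| +
          |kapv s x d l (i + 1)| := abs_add_three _ _ _
      _ ≤ |pev c.1 x| * (d * 2 ^ d) + |pev c.2 x| * (d * 2 ^ d) +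
          (l.map fun c => |pev c.1 x| + |pev c.2 x|).sum * (d * 2 ^ d) := by linarith
      _ = _ := by ring

theorem abs_kap_le {cf : Cf} {s : ℕ} {x : ℝ} {j : ℤ} {d : ℕ} (hx : 0 ≤ x) (hd : s + 2 ≤ d) :
    |kap cf s x j d| ≤ VR cf x * (d * 2 ^ d) := by
  have hd1 : (1 : ℝ) ≤ d := by exact_mod_cast (by omega : 1 ≤ d)
  have h2d : (0 : ℝ) < 2 ^ d := by positivity
  unfold kap VR
  have h1 := abs_kapv_le (s := s) hx hd cf.v (j - 1)
  have h2 : |(tlw (j - 1 + cf.v.length) d : ℝ) * pev cf.tau x| ≤ |pev cf.tau x| * (d * 2 ^ d) := by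
    rw [abs_mul, mul_comm]
    refine mul_le_mul_of_nonneg_left ?_ (abs_nonneg _)
    refine (abs_tlw_le _ d).trans ?_
    nlinarith
  calc _ ≤ |kapv s x d cf.v (j - 1)| + |(tlw (j - 1 + cf.v.length) d : ℝ) * pev cf.tau x| := abs_add_le _ _
    _ ≤ _ := by rw [add_mul]; linarith

/-! ### the tail -/

/-- `4^d d^(k+1) / d!` -/
noncomputable def gg (k d : ℕ) : ℝ := 4 ^ d * (d : ℝ) ^ (k + 1) / d.factorial

theorem gg_succ {k d : ℕ} (hk : k ≤ 3) (hd : 30 ≤ d) : gg k (d + 1) ≤ gg k d / 2 := by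
  unfold gg
  have hf : (0 : ℝ) < d.factorial := by exact_mod_cast d.factorial_pos
  have hd' : (30 : ℝ) ≤ d := by exact_mod_cast hd
  have hd0 : (0 : ℝ) < d := by linarith
  rw [Nat.factorial_succ]
  push_cast
  have key : ((d : ℝ) + 1) ^ (k + 1) ≤ (31 / 30) ^ 4 * (d : ℝ) ^ (k + 1) := by
    have h1 : ((d : ℝ) + 1) ≤ 31 / 30 * d := by linarith
    calc ((d : ℝ) + 1) ^ (k + 1) ≤ (31 / 30 * d) ^ (k + 1) :=
          pow_le_pow_left₀ (by linarith) h1 _
      _ = (31 / 30) ^ (k + 1) * (d : ℝ) ^ (k + 1) := mul_pow _ _ _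
      _ ≤ _ := mul_le_mul_of_nonneg_right (pow_le_pow_right₀ (by norm_num) (by omega)) (by positivity)
  rw [div_div, div_le_div_iff₀ (by positivity) (by positivity)]
  have h4 : (0 : ℝ) < 4 ^ d := by positivity
  have hdk : (0 : ℝ) < (d : ℝ) ^ (k + 1) := by positivity
  calc 4 ^ (d + 1) * ((d : ℝ) + 1) ^ (k + 1) * (d.factorial * 2)
      = 8 * 4 ^ d * d.factorial * ((d : ℝ) + 1) ^ (k + 1) := by ring
    _ ≤ 8 * 4 ^ d * d.factorial * ((31 / 30) ^ 4 * (d : ℝ) ^ (k + 1)) :=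
        mul_le_mul_of_nonneg_left key (by positivity)
    _ = (8 * (31 / 30) ^ 4) * (4 ^ d * (d : ℝ) ^ (k + 1) * d.factorial) := by ring
    _ ≤ ((d : ℝ) + 1) * (4 ^ d * (d : ℝ) ^ (k + 1) * d.factorial) := by
        refine mul_le_mul_of_nonneg_right ?_ (by positivity)
        norm_num
        linarith
    _ = _ := by ring

theorem gg_geo {k : ℕ} (hk : k ≤ 3) : ∀ i : ℕ, gg k (30 + i) ≤ gg k 30 * (1 / 2) ^ i
  | 0 => by simp
  | i + 1 => by
    have h := gg_succ (k := k) (d := 30 + i) hk (by omega)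
    have ih := gg_geo hk i
    rw [show 30 + (i + 1) = 30 + i + 1 by ring, pow_succ]
    linarith

theorem gg_30 (k : ℕ) : 2 * gg k 30 * (S : ℕ) ≤ 30 ^ k := by
  unfold gg
  rw [pow_succ (30 : ℕ).cast k]
  have h30 : (0 : ℝ) < 30 ^ k := by positivity
  have hf : ((30 : ℕ).factorial : ℝ) = 265252859812191058636308480000000 := by
    norm_num [Nat.factorial]
  have hS : ((S : ℕ) : ℝ) = 1099511627776 := by norm_num [S]
  rw [hf, hS]
  push_cast
  have e : (2 : ℝ) * (4 ^ 30 * (30 ^ k * 30) / 265252859812191058636308480000000) * 1099511627776 =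
      30 ^ k * (2 * 4 ^ 30 * 30 * 1099511627776 / 265252859812191058636308480000000) := by ring
  rw [e]
  calc (30 : ℝ) ^ k * (2 * 4 ^ 30 * 30 * 1099511627776 / 265252859812191058636308480000000)
      ≤ 30 ^ k * 1 := mul_le_mul_of_nonneg_left (by norm_num) h30.le
    _ = _ := mul_one _

/-- `rho` and `j` are in the range of the tail estimate -/
def Rng (s : ℕ) (x : ℝ) (j : ℤ) : Prop :=
  0 ≤ x ∧ ((s : ℝ) + 1) * x ≤ 1 ∧ ((j : ℝ) - 2) * x < 1 ∧ (2 * (j : ℝ) - 5 - s) * x ≤ 1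

/-- one term -/
noncomputable def trm (cf : Cf) (s : ℕ) (x : ℝ) (j : ℤ) (k d : ℕ) : ℝ :=
  Pd s x j d * (kap cf s x j d * (d : ℝ) ^ k)

theorem VR_nonneg (cf : Cf) (x : ℝ) : 0 ≤ VR cf x :=
  add_nonneg (sum_nonneg' cf.v x) (abs_nonneg _)

theorem abs_trm_le {cf : Cf} {s : ℕ} {x : ℝ} {j : ℤ} (h : Rng s x j) (k : ℕ) {d : ℕ}
    (hd : s + 2 ≤ d) : |trm cf s x j k d| ≤ VR cf x * gg k d := by
  obtain ⟨h0, h1, h2, h3⟩ := h
  unfold trm gg
  have hf : (0 : ℝ) < d.factorial := by exact_mod_cast d.factorial_pos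
  rw [abs_mul, abs_mul, abs_of_nonneg (Pd_nonneg h0 h1 h2 d), abs_of_nonneg (by positivity : (0 : ℝ) ≤ (d : ℝ) ^ k)]
  calc Pd s x j d * (|kap cf s x j d| * (d : ℝ) ^ k)
      ≤ 2 ^ d / d.factorial * ((VR cf x * (d * 2 ^ d)) * (d : ℝ) ^ k) := by
        refine mul_le_mul (Pd_le h0 h1 h2 h3 d) ?_ (by positivity) (by positivity)
        exact mul_le_mul_of_nonneg_right (abs_kap_le h0 hd) (by positivity)
    _ = VR cf x * (4 ^ d * (d : ℝ) ^ (k + 1) / d.factorial) := by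
        have e : (4 : ℝ) ^ d = 2 ^ d * 2 ^ d := by rw [← mul_pow]; norm_num
        rw [e, pow_succ]
        ring

theorem abs_trm_tail {cf : Cf} {s : ℕ} {x : ℝ} {j : ℤ} (h : Rng s x j) (hs : s ≤ 28) {k : ℕ}
    (hk : k ≤ 3) (i : ℕ) : |trm cf s x j k (i + 30)| ≤ VR cf x * gg k 30 * (1 / 2) ^ i := by
  rw [show i + 30 = 30 + i by ring]
  refine (abs_trm_le h k (by omega)).trans ?_
  rw [mul_assoc]
  exact mul_le_mul_of_nonneg_left (gg_geo hk i) (VR_nonneg _ _)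

theorem summable_trm {cf : Cf} {s : ℕ} {x : ℝ} {j : ℤ} (h : Rng s x j) (hs : s ≤ 28) {k : ℕ}
    (hk : k ≤ 3) : Summable fun d => |trm cf s x j k d| := by
  rw [← summable_nat_add_iff 30]
  refine Summable.of_nonneg_of_le (fun i => abs_nonneg _) (fun i => abs_trm_tail h hs hk i) ?_
  exact (summable_geometric_of_lt_one (by norm_num) (by norm_num)).mul_left _

theorem tail_le {cf : Cf} {s : ℕ} {x : ℝ} {j : ℤ} (h : Rng s x j) (hs : s ≤ 28) {k : ℕ}
    (hk : k ≤ 3) : (∑' i, |trm cf s x j k (i + 30)|) * (S : ℕ) ≤ VR cf x * 30 ^ k := by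
  have h1 : ∑' i, |trm cf s x j k (i + 30)| ≤ ∑' i : ℕ, VR cf x * gg k 30 * (1 / 2) ^ i := by
    refine Summable.tsum_le_tsum (fun i => abs_trm_tail h hs hk i) ?_ ?_
    · exact (summable_nat_add_iff 30).2 (summable_trm h hs hk)
    · exact (summable_geometric_of_lt_one (by norm_num) (by norm_num)).mul_left _
  rw [tsum_mul_left, tsum_geometric_of_lt_one (by norm_num) (by norm_num)] at h1
  have h2 := gg_30 k
  have h3 := VR_nonneg cf x
  have hS := S_posR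
  calc (∑' i, |trm cf s x j k (i + 30)|) * (S : ℕ)
      ≤ (VR cf x * gg k 30 * (1 - 1 / 2)⁻¹) * (S : ℕ) := mul_le_mul_of_nonneg_right h1 hS.le
    _ = VR cf x * (2 * gg k 30 * (S : ℕ)) := by norm_num; ring
    _ ≤ VR cf x * 30 ^ k := mul_le_mul_of_nonneg_left h2 h3

/-- the full moment -/
noncomputable def momT (cf : Cf) (s : ℕ) (x : ℝ) (j : ℤ) (k : ℕ) : ℝ := ∑' d, trm cf s x j k d

/-- the full absolute moment -/
noncomputable def momA (cf : Cf) (s : ℕ) (x : ℝ) (j : ℤ) (k : ℕ) : ℝ := ∑' d, |trm cf s x j k d|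

theorem momT_sub {cf : Cf} {s : ℕ} {x : ℝ} {j : ℤ} (h : Rng s x j) (hs : s ≤ 28) {k : ℕ}
    (hk : k ≤ 3) : |momT cf s x j k - momR cf s x j k 30| * (S : ℕ) ≤ VR cf x * 30 ^ k := by
  have h0 := summable_trm (cf := cf) h hs hk
  have h1 : momT cf s x j k = momR cf s x j k 30 + ∑' i, trm cf s x j k (i + 30) :=
    (h0.of_abs.sum_add_tsum_nat_add 30).symm
  rw [h1, add_sub_cancel_left]
  have h2 : |∑' i, trm cf s x j k (i + 30)| ≤ ∑' i, |trm cf s x j k (i + 30)| := by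
    have h3 : Summable fun i => ‖trm cf s x j k (i + 30)‖ := (summable_nat_add_iff 30).2 h0
    exact norm_tsum_le_tsum_norm h3
  exact (mul_le_mul_of_nonneg_right h2 S_posR.le).trans (tail_le h hs hk)

/-! ### evaluation of the size -/

def szS (X : PN) : ℕ := X.p.hi + X.n.hi

def VN (C : CI) : ℕ := (C.v.map fun c => szS c.1 + szS c.2).sum + szS C.tau

theorem abs_le_szS {x : ℝ} {X : PN} (h : MemS x X) : |x| * (S : ℕ) ≤ ((szS X : ℕ) : ℝ) := by
  obtain ⟨a, b, h1, h2, rfl⟩ := h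
  have ha := h1.nonneg
  have hb := h2.nonneg
  have h3 : |a - b| ≤ a + b := by
    rw [abs_le]
    constructor <;> linarith
  unfold szS
  push_cast
  calc |a - b| * (S : ℕ) ≤ (a + b) * (S : ℕ) := mul_le_mul_of_nonneg_right h3 S_posR.le
    _ ≤ _ := by rw [add_mul]; linarith [h1.2, h2.2]

theorem VR_le {cf : Cf} {x : ℝ} {X : NI} (hx : Mem x X) :
    VR cf x * (S : ℕ) ≤ ((VN (evC cf X) : ℕ) : ℝ) := by
  unfold VR VN evC
  rw [add_mul]
  push_cast
  refine add_le_add ?_ (abs_le_szS (memS_pev hx cf.tau))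
  induction cf.v with
  | nil => simp
  | cons c l ih =>
    simp only [List.map_cons, List.sum_cons]
    rw [add_mul, add_mul]
    push_cast
    have h1 := abs_le_szS (memS_pev hx c.1)
    have h2 := abs_le_szS (memS_pev hx c.2)
    linarith

/-- the tail in units of the last place -/
def tl (C : CI) (k : ℕ) : ℕ := (VN C / S + 1) * 30 ^ k

theorem VR_tl {cf : Cf} {x : ℝ} {X : NI} (hx : Mem x X) (k : ℕ) :
    VR cf x * 30 ^ k ≤ ((tl (evC cf X) k : ℕ) : ℝ) := by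
  unfold tl
  have h1 := VR_le (cf := cf) hx
  have h2 := div_ceil (a := VN (evC cf X)) S_pos
  have h3 : VR cf x ≤ ((VN (evC cf X) / S + 1 : ℕ) : ℝ) :=
    le_of_mul_le_mul_right (h1.trans h2) S_posR
  rw [Nat.cast_mul, Nat.cast_pow]
  exact mul_le_mul_of_nonneg_right h3 (by positivity)

/-- widen an interval by `w` units -/
def wid (A : IV.Ivl) (w : ℕ) : IV.Ivl := ⟨A.lo - w, A.hi + w⟩

theorem mem_wid {x y : ℝ} {A : IV.Ivl} {w : ℕ} (hx : IV.Mem x A) (h : |y - x| * (S : ℕ) ≤ w) :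
    IV.Mem y (wid A w) := by
  obtain ⟨h1, h2⟩ := hx
  rw [sc_eq] at h1 h2
  have h3 := abs_le.1 (le_of_eq (rfl : |y - x| = |y - x|))
  have hS := S_posR
  have h4 : -(w : ℝ) ≤ (y - x) * (S : ℕ) := by
    have := mul_le_mul_of_nonneg_right h3.1 hS.le
    linarith
  have h5 : (y - x) * (S : ℕ) ≤ w := by
    have := mul_le_mul_of_nonneg_right h3.2 hS.le
    linarith
  constructor
  · rw [sc_eq]
    change ((A.lo - (w : ℤ) : ℤ) : ℝ) ≤ _
    push_cast
    linarith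
  · rw [sc_eq]
    change _ ≤ ((A.hi + (w : ℤ) : ℤ) : ℝ)
    push_cast
    linarith

/-- **enclosure of the full moment** -/
def momI (C : CI) (s : ℕ) (X : NI) (j : ℤ) (k : ℕ) : IV.Ivl := wid (mom C s X j k 30) (tl C k)

/-- decidable range condition -/
def RngI (s : ℕ) (X : NI) (j : ℤ) : Prop := SmallJ s X j ∧ (2 * j - 5 - s).toNat * X.hi ≤ S

instance (s : ℕ) (X : NI) (j : ℤ) : Decidable (RngI s X j) := inferInstanceAs (Decidable (_ ∧ _))

theorem Rng_of {s : ℕ} {x : ℝ} {X : NI} {j : ℤ} (hx : Mem x X) (h : RngI s X j) : Rng s x j := by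
  obtain ⟨⟨h1, h2⟩, h3⟩ := h
  have h0 := hx.nonneg
  have hS := S_posR
  have hh := hx.2
  refine ⟨h0, ?_, ?_, ?_⟩
  · have h4 : (((s + 2) * X.hi : ℕ) : ℝ) < (S : ℕ) := by exact_mod_cast h1
    push_cast at h4
    have h5 : ((s : ℝ) + 1) * (x * (S : ℕ)) ≤ 1 * (S : ℕ) := by
      have h6 : ((s : ℝ) + 1) * (x * (S : ℕ)) ≤ ((s : ℝ) + 2) * X.hi :=
        mul_le_mul (by linarith) hh (mul_nonneg h0 hS.le) (by positivity)
      linarith
    rw [← mul_assoc] at h5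
    exact le_of_mul_le_mul_right h5 hS
  · have h4 : (((j - 2).toNat * X.hi : ℕ) : ℝ) < (S : ℕ) := by exact_mod_cast h2
    push_cast at h4
    have h7 : ((j : ℝ) - 2) ≤ (((j - 2).toNat : ℕ) : ℝ) := by
      have : j - 2 ≤ ((j - 2).toNat : ℤ) := Int.self_le_toNat _
      exact_mod_cast this
    have h5 : (((j : ℝ) - 2) * x) * (S : ℕ) < 1 * (S : ℕ) := by
      have h6 : ((j : ℝ) - 2) * (x * (S : ℕ)) ≤ (((j - 2).toNat : ℕ) : ℝ) * X.hi := by
        refine (mul_le_mul_of_nonneg_right h7 (mul_nonneg h0 hS.le)).trans ?_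
        exact mul_le_mul_of_nonneg_left hh (Nat.cast_nonneg _)
      rw [mul_assoc, one_mul]
      exact lt_of_le_of_lt h6 h4
    exact lt_of_mul_lt_mul_right h5 hS.le
  · have h4 : (((2 * j - 5 - s).toNat * X.hi : ℕ) : ℝ) ≤ (S : ℕ) := by exact_mod_cast h3
    push_cast at h4
    have h7 : (2 * (j : ℝ) - 5 - s) ≤ (((2 * j - 5 - s).toNat : ℕ) : ℝ) := by
      have : 2 * j - 5 - s ≤ ((2 * j - 5 - s).toNat : ℤ) := Int.self_le_toNat _
      exact_mod_cast this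
    have h5 : ((2 * (j : ℝ) - 5 - s) * x) * (S : ℕ) ≤ 1 * (S : ℕ) := by
      have h6 : (2 * (j : ℝ) - 5 - s) * (x * (S : ℕ)) ≤ (((2 * j - 5 - s).toNat : ℕ) : ℝ) * X.hi := by
        refine (mul_le_mul_of_nonneg_right h7 (mul_nonneg h0 hS.le)).trans ?_
        exact mul_le_mul_of_nonneg_left hh (Nat.cast_nonneg _)
      rw [mul_assoc, one_mul]
      exact h6.trans h4
    exact le_of_mul_le_mul_right h5 hS

theorem mem_momI {cf : Cf} {s : ℕ} {x : ℝ} {X : NI} {j : ℤ} (hx : Mem x X) (hX : RngI s X j)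
    (hs : s ≤ 28) {k : ℕ} (hk : k ≤ 3) : IV.Mem (momT cf s x j k) (momI (evC cf X) s X j k) := by
  refine mem_wid (mem_mom hx hX.1 k 30) ?_
  exact (momT_sub (Rng_of hx hX) hs hk).trans (VR_tl hx k)

/-! ### absolute moments -/

/-- upper bound of `P_d |kap_d| d^k` in units -/
def atr (a : NI) (X : PN) (w : ℕ) : ℕ := a.hi * (w * ((X.p.hi - X.n.lo) + (X.n.hi - X.p.lo))) / S + 1

theorem le_atr {y x : ℝ} {a : NI} {X : PN} (hy : Mem y a) (hx : MemS x X) (w : ℕ) :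
    y * (|x| * w) * (S : ℕ) ≤ ((atr a X w : ℕ) : ℝ) := by
  obtain ⟨p, n, h1, h2, rfl⟩ := hx
  have hy0 := hy.nonneg
  have hS := S_posR
  have c1 := cast_tsub_ge X.p.hi X.n.lo
  have c2 := cast_tsub_ge X.n.hi X.p.lo
  have z1 : (0 : ℝ) ≤ ((X.p.hi - X.n.lo : ℕ) : ℝ) := Nat.cast_nonneg _
  have z2 : (0 : ℝ) ≤ ((X.n.hi - X.p.lo : ℕ) : ℝ) := Nat.cast_nonneg _
  have h3 : |p - n| * (S : ℕ) ≤ (((X.p.hi - X.n.lo) + (X.n.hi - X.p.lo) : ℕ) : ℝ) := by
    push_cast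
    rcases le_total 0 (p - n) with h | h
    · rw [abs_of_nonneg h, sub_mul]
      linarith [h1.2, h2.1]
    · rw [abs_of_nonpos h, neg_mul, sub_mul]
      linarith [h1.1, h2.2]
  have h4 := div_ceil (a := a.hi * (w * ((X.p.hi - X.n.lo) + (X.n.hi - X.p.lo)))) S_pos
  have h5 : y * (|p - n| * w) * (S : ℕ) * (S : ℕ) ≤
      ((a.hi * (w * ((X.p.hi - X.n.lo) + (X.n.hi - X.p.lo))) : ℕ) : ℝ) := by
    rw [Nat.cast_mul, Nat.cast_mul w]
    calc y * (|p - n| * w) * (S : ℕ) * (S : ℕ) = (y * (S : ℕ)) * (w * (|p - n| * (S : ℕ))) := by ring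
      _ ≤ (a.hi : ℝ) * (w * (((X.p.hi - X.n.lo) + (X.n.hi - X.p.lo) : ℕ) : ℝ)) :=
          mul_le_mul hy.2 (mul_le_mul_of_nonneg_left h3 (Nat.cast_nonneg _)) (by positivity)
            (Nat.cast_nonneg _)
  exact le_of_mul_le_mul_right (h5.trans h4) hS

/-- state: product, sum -/
def adot (C : CI) (s : ℕ) (X : NI) (j : ℤ) (k : ℕ) : ℕ → NI × ℕ
  | 0 => (one, 0)
  | n + 1 =>
    let A := adot C s X j k n
    (mul A.1 (stpI s X j n), A.2 + atr A.1 (kapI C s X j n) (n ^ k))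

theorem le_adot {cf : Cf} {s : ℕ} {x : ℝ} {X : NI} {j : ℤ} (hx : Mem x X) (hX : SmallJ s X j) (k : ℕ)
    (hP : ∀ d, 0 ≤ Pd s x j d) : ∀ n : ℕ,
    Mem (Pd s x j n) (adot (evC cf X) s X j k n).1 ∧
      (∑ d ∈ range n, |trm cf s x j k d|) * (S : ℕ) ≤ (((adot (evC cf X) s X j k n).2 : ℕ) : ℝ)
  | 0 => by
    refine ⟨?_, by simp [adot]⟩
    have : Pd s x j 0 = ((1 : ℕ) : ℝ) := by simp [Pd]
    rw [this]
    exact mem_nat 1
  | n + 1 => by
    obtain ⟨i1, i2⟩ := le_adot (cf := cf) hx hX k hP n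
    refine ⟨?_, ?_⟩
    · have e : Pd s x j (n + 1) = Pd s x j n * stp s x j n := prod_range_succ _ _
      rw [e]
      exact mem_mul i1 (mem_stpI hx hX n)
    · rw [sum_range_succ, add_mul]
      have h := le_atr i1 (memS_kapI (cf := cf) hx hX.1 j n) (n ^ k)
      have e : |trm cf s x j k n| = Pd s x j n * (|kap cf s x j n| * ((n ^ k : ℕ) : ℝ)) := by
        unfold trm
        rw [abs_mul, abs_mul, abs_of_nonneg (hP n)]
        push_cast
        rw [abs_of_nonneg (by positivity : (0 : ℝ) ≤ (n : ℝ) ^ k)]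
      rw [e]
      change _ ≤ (((adot (evC cf X) s X j k n).2 +
        atr (adot (evC cf X) s X j k n).1 (kapI (evC cf X) s X j n) (n ^ k) : ℕ) : ℝ)
      rw [Nat.cast_add]
      linarith

/-- upper bound of the absolute moment, in units -/
def absI (C : CI) (s : ℕ) (X : NI) (j : ℤ) (k : ℕ) : ℕ := (adot C s X j k 30).2 + tl C k

theorem momA_le {cf : Cf} {s : ℕ} {x : ℝ} {X : NI} {j : ℤ} (hx : Mem x X) (hX : RngI s X j)
    (hs : s ≤ 28) {k : ℕ} (hk : k ≤ 3) :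
    momA cf s x j k * (S : ℕ) ≤ ((absI (evC cf X) s X j k : ℕ) : ℝ) := by
  have hR := Rng_of hx hX
  have h0 := summable_trm (cf := cf) hR hs hk
  have h1 : momA cf s x j k = ∑ d ∈ range 30, |trm cf s x j k d| + ∑' i, |trm cf s x j k (i + 30)| :=
    (h0.sum_add_tsum_nat_add 30).symm
  rw [h1, add_mul]
  unfold absI
  rw [Nat.cast_add]
  refine add_le_add (le_adot hx hX.1 k (fun d => Pd_nonneg hR.1 hR.2.1 hR.2.2.1 d) 30).2 ?_
  exact (tail_le hR hs hk).trans (VR_tl hx k)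

end Pool.NV
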