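import Pool.Agent.Work.MP_46fa68_23.Mom2

/-!
# Weighted absolute moments and the two linearisation lemmas

`momB cf s x j b w = ∑'_d P_d b^d |kap_d| w_d` for `1 ≤ b ≤ 11/10` and weights `w_d ≤ d^3`.
`row1_lin`, `row2_lin`: a one-bead sum with multipliers near `1 + d delta` resp. `(1 - d/D) theta_d`.
-/

set_option autoImplicit false

open Finset

namespace Pool.NV

/-- one term of the weighted absolute moment -/
noncomputable def trB (cf : Cf) (s : ℕ) (x : ℝ) (j : ℤ) (b : ℝ) (w : ℕ → ℕ) (d : ℕ) : ℝ :=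
  (Pd s x j d * b ^ d) * (|kap cf s x j d| * w d)

noncomputable def momB (cf : Cf) (s : ℕ) (x : ℝ) (j : ℤ) (b : ℝ) (w : ℕ → ℕ) : ℝ :=
  ∑' d, trB cf s x j b w d

/-- `(22/5)^d d^4 / d!` -/
noncomputable def gb (d : ℕ) : ℝ := (22 / 5) ^ d * (d : ℝ) ^ 4 / d.factorial

theorem gb_succ {d : ℕ} (hd : 30 ≤ d) : gb (d + 1) ≤ gb d / 2 := by
  unfold gb
  have hf : (0 : ℝ) < d.factorial := by exact_mod_cast d.factorial_pos
  have hd' : (30 : ℝ) ≤ d := by exact_mod_cast hd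
  have hd0 : (0 : ℝ) < d := by linarith
  rw [Nat.factorial_succ]
  push_cast
  have key : ((d : ℝ) + 1) ^ 4 ≤ (31 / 30) ^ 4 * (d : ℝ) ^ 4 := by
    have h1 : ((d : ℝ) + 1) ≤ 31 / 30 * d := by linarith
    calc ((d : ℝ) + 1) ^ 4 ≤ (31 / 30 * d) ^ 4 := pow_le_pow_left₀ (by linarith) h1 _
      _ = _ := mul_pow _ _ _
  rw [div_div, div_le_div_iff₀ (by positivity) (by positivity)]
  have h4 : (0 : ℝ) < (22 / 5) ^ d := by positivity
  calc (22 / 5) ^ (d + 1) * ((d : ℝ) + 1) ^ 4 * (d.factorial * 2)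
      = 44 / 5 * (22 / 5) ^ d * d.factorial * ((d : ℝ) + 1) ^ 4 := by ring
    _ ≤ 44 / 5 * (22 / 5) ^ d * d.factorial * ((31 / 30) ^ 4 * (d : ℝ) ^ 4) :=
        mul_le_mul_of_nonneg_left key (by positivity)
    _ = (44 / 5 * (31 / 30) ^ 4) * ((22 / 5) ^ d * (d : ℝ) ^ 4 * d.factorial) := by ring
    _ ≤ ((d : ℝ) + 1) * ((22 / 5) ^ d * (d : ℝ) ^ 4 * d.factorial) := by
        refine mul_le_mul_of_nonneg_right ?_ (by positivity)
        norm_num
        linarith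
    _ = _ := by ring

theorem gb_geo : ∀ i : ℕ, gb (30 + i) ≤ gb 30 * (1 / 2) ^ i
  | 0 => by simp
  | i + 1 => by
    have h := gb_succ (d := 30 + i) (by omega)
    have ih := gb_geo i
    rw [show 30 + (i + 1) = 30 + i + 1 by ring, pow_succ]
    linarith

theorem gb_30 : 2 * gb 30 * (S : ℕ) ≤ 200000 := by
  unfold gb
  have hf : ((30 : ℕ).factorial : ℝ) = 265252859812191058636308480000000 := by
    norm_num [Nat.factorial]
  have hS : ((S : ℕ) : ℝ) = 1099511627776 := by norm_num [S]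
  rw [hf, hS]
  norm_num

theorem trB_nonneg {cf : Cf} {s : ℕ} {x : ℝ} {j : ℤ} (h : Rng s x j) {b : ℝ} (hb : 0 ≤ b)
    (w : ℕ → ℕ) (d : ℕ) : 0 ≤ trB cf s x j b w d :=
  mul_nonneg (mul_nonneg (Pd_nonneg h.1 h.2.1 h.2.2.1 d) (pow_nonneg hb _))
    (mul_nonneg (abs_nonneg _) (Nat.cast_nonneg _))

theorem trB_le {cf : Cf} {s : ℕ} {x : ℝ} {j : ℤ} (h : Rng s x j) {b : ℝ} (hb : 0 ≤ b)
    (hb2 : b ≤ 11 / 10) {w : ℕ → ℕ} (hw : ∀ d, w d ≤ d ^ 3) {d : ℕ} (hd : s + 2 ≤ d) :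
    trB cf s x j b w d ≤ VR cf x * gb d := by
  obtain ⟨h0, h1, h2, h3⟩ := h
  unfold trB gb
  have hf : (0 : ℝ) < d.factorial := by exact_mod_cast d.factorial_pos
  have hwd : ((w d : ℕ) : ℝ) ≤ (d : ℝ) ^ 3 := by exact_mod_cast hw d
  have hbp : b ^ d ≤ (11 / 10) ^ d := pow_le_pow_left₀ hb hb2 d
  calc (Pd s x j d * b ^ d) * (|kap cf s x j d| * w d)
      ≤ (2 ^ d / d.factorial * (11 / 10) ^ d) * ((VR cf x * (d * 2 ^ d)) * (d : ℝ) ^ 3) := by
        refine mul_le_mul ?_ ?_ (by positivity) (by positivity)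
        · exact mul_le_mul (Pd_le h0 h1 h2 h3 d) hbp (pow_nonneg hb _) (by positivity)
        · exact mul_le_mul (abs_kap_le h0 hd) hwd (Nat.cast_nonneg _)
            (mul_nonneg (VR_nonneg _ _) (by positivity))
    _ = VR cf x * ((22 / 5) ^ d * (d : ℝ) ^ 4 / d.factorial) := by
        have e : (22 / 5 : ℝ) ^ d = 2 ^ d * 2 ^ d * (11 / 10) ^ d := by
          rw [← mul_pow, ← mul_pow]; norm_num
        rw [e]
        ring

theorem trB_tail {cf : Cf} {s : ℕ} {x : ℝ} {j : ℤ} (h : Rng s x j) (hs : s ≤ 28) {b : ℝ} (hb : 0 ≤ b)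
    (hb2 : b ≤ 11 / 10) {w : ℕ → ℕ} (hw : ∀ d, w d ≤ d ^ 3) (i : ℕ) :
    trB cf s x j b w (i + 30) ≤ VR cf x * gb 30 * (1 / 2) ^ i := by
  rw [show i + 30 = 30 + i by ring]
  refine (trB_le h hb hb2 hw (by omega)).trans ?_
  rw [mul_assoc]
  exact mul_le_mul_of_nonneg_left (gb_geo i) (VR_nonneg _ _)

theorem summable_trB {cf : Cf} {s : ℕ} {x : ℝ} {j : ℤ} (h : Rng s x j) (hs : s ≤ 28) {b : ℝ}
    (hb : 0 ≤ b) (hb2 : b ≤ 11 / 10) {w : ℕ → ℕ} (hw : ∀ d, w d ≤ d ^ 3) :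
    Summable fun d => trB cf s x j b w d := by
  rw [← summable_nat_add_iff 30]
  refine Summable.of_nonneg_of_le (fun i => trB_nonneg h hb w _) (fun i => trB_tail h hs hb hb2 hw i) ?_
  exact (summable_geometric_of_lt_one (by norm_num) (by norm_num)).mul_left _

theorem trB_tail_le {cf : Cf} {s : ℕ} {x : ℝ} {j : ℤ} (h : Rng s x j) (hs : s ≤ 28) {b : ℝ}
    (hb : 0 ≤ b) (hb2 : b ≤ 11 / 10) {w : ℕ → ℕ} (hw : ∀ d, w d ≤ d ^ 3) :
    (∑' i, trB cf s x j b w (i + 30)) * (S : ℕ) ≤ VR cf x * 200000 := by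
  have h1 : ∑' i, trB cf s x j b w (i + 30) ≤ ∑' i : ℕ, VR cf x * gb 30 * (1 / 2) ^ i := by
    refine Summable.tsum_le_tsum (fun i => trB_tail h hs hb hb2 hw i) ?_ ?_
    · exact (summable_nat_add_iff 30).2 (summable_trB h hs hb hb2 hw)
    · exact (summable_geometric_of_lt_one (by norm_num) (by norm_num)).mul_left _
  rw [tsum_mul_left, tsum_geometric_of_lt_one (by norm_num) (by norm_num)] at h1
  have h2 := gb_30
  have h3 := VR_nonneg cf x
  have hS := S_posR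
  calc (∑' i, trB cf s x j b w (i + 30)) * (S : ℕ)
      ≤ (VR cf x * gb 30 * (1 - 1 / 2)⁻¹) * (S : ℕ) := mul_le_mul_of_nonneg_right h1 hS.le
    _ = VR cf x * (2 * gb 30 * (S : ℕ)) := by norm_num; ring
    _ ≤ VR cf x * 200000 := mul_le_mul_of_nonneg_left h2 h3

/-- state: product `P_n b^n`, sum; `b = bn / bd` -/
def bdot (C : CI) (s : ℕ) (X : NI) (j : ℤ) (bn bd : ℕ) (w : ℕ → ℕ) : ℕ → NI × ℕ
  | 0 => (one, 0)
  | n + 1 =>
    let A := bdot C s X j bn bd w n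
    (mul A.1 (sdiv (smul bn (stpI s X j n)) bd), A.2 + atr A.1 (kapI C s X j n) (w n))

theorem le_bdot {cf : Cf} {s : ℕ} {x : ℝ} {X : NI} {j : ℤ} (hx : Mem x X) (hX : SmallJ s X j)
    {bn bd : ℕ} (hbd : 0 < bd) (w : ℕ → ℕ) : ∀ n : ℕ,
    Mem (Pd s x j n * ((bn : ℝ) / bd) ^ n) (bdot (evC cf X) s X j bn bd w n).1 ∧
      (∑ d ∈ range n, trB cf s x j ((bn : ℝ) / bd) w d) * (S : ℕ) ≤
        (((bdot (evC cf X) s X j bn bd w n).2 : ℕ) : ℝ)
  | 0 => by
    refine ⟨?_, by simp [bdot]⟩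
    have : Pd s x j 0 * ((bn : ℝ) / bd) ^ 0 = ((1 : ℕ) : ℝ) := by simp [Pd]
    rw [this]
    exact mem_nat 1
  | n + 1 => by
    obtain ⟨i1, i2⟩ := le_bdot (cf := cf) hx hX hbd w n
    refine ⟨?_, ?_⟩
    · have e : Pd s x j (n + 1) * ((bn : ℝ) / bd) ^ (n + 1) =
          (Pd s x j n * ((bn : ℝ) / bd) ^ n) * (bn * stp s x j n / bd) := by
        have : Pd s x j (n + 1) = Pd s x j n * stp s x j n := prod_range_succ _ _
        rw [this, pow_succ]
        ring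
      rw [e]
      exact mem_mul i1 (mem_sdiv hbd (mem_smul bn (mem_stpI hx hX n)))
    · rw [sum_range_succ, add_mul]
      have h := le_atr i1 (memS_kapI (cf := cf) hx hX.1 j n) (w n)
      change _ ≤ (((bdot (evC cf X) s X j bn bd w n).2 +
        atr (bdot (evC cf X) s X j bn bd w n).1 (kapI (evC cf X) s X j n) (w n) : ℕ) : ℝ)
      rw [Nat.cast_add]
      unfold trB at i2 ⊢
      linarith

/-- upper bound of `momB`, in units -/
def momBI (C : CI) (s : ℕ) (X : NI) (j : ℤ) (bn bd : ℕ) (w : ℕ → ℕ) : ℕ :=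
  (bdot C s X j bn bd w 30).2 + (VN C / S + 1) * 200000

theorem momB_le {cf : Cf} {s : ℕ} {x : ℝ} {X : NI} {j : ℤ} (hx : Mem x X) (hX : RngI s X j)
    (hs : s ≤ 28) {bn bd : ℕ} (hbd : 0 < bd) (hb : 10 * bn ≤ 11 * bd) {w : ℕ → ℕ}
    (hw : ∀ d, w d ≤ d ^ 3) :
    momB cf s x j ((bn : ℝ) / bd) w * (S : ℕ) ≤ ((momBI (evC cf X) s X j bn bd w : ℕ) : ℝ) := by
  have hR := Rng_of hx hX
  have hbd' : (0 : ℝ) < bd := by exact_mod_cast hbd
  have hb0 : (0 : ℝ) ≤ (bn : ℝ) / bd := by positivity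
  have hb1 : (bn : ℝ) / bd ≤ 11 / 10 := by
    rw [div_le_div_iff₀ hbd' (by norm_num)]
    have : ((10 * bn : ℕ) : ℝ) ≤ ((11 * bd : ℕ) : ℝ) := by exact_mod_cast hb
    push_cast at this
    linarith
  have h0 := summable_trB (cf := cf) hR hs hb0 hb1 hw
  have h1 : momB cf s x j ((bn : ℝ) / bd) w = ∑ d ∈ range 30, trB cf s x j ((bn : ℝ) / bd) w d +
      ∑' i, trB cf s x j ((bn : ℝ) / bd) w (i + 30) := (h0.sum_add_tsum_nat_add 30).symm
  rw [h1, add_mul]
  unfold momBI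
  rw [Nat.cast_add]
  refine add_le_add (le_bdot hx hX.1 hbd w 30).2 ?_
  refine (trB_tail_le hR hs hb0 hb1 hw).trans ?_
  have h2 := VR_tl (cf := cf) hx 0
  unfold tl at h2
  rw [pow_zero, mul_one, pow_zero, mul_one] at h2
  push_cast at h2 ⊢
  nlinarith

/-! ### linearisation -/

/-- the weights `d (d - 1)` -/
def w2 (d : ℕ) : ℕ := d * (d - 1)

theorem w2_le (d : ℕ) : w2 d ≤ d ^ 3 := by
  unfold w2
  rcases Nat.eq_zero_or_pos d with rfl | hd
  · simp
  · calc d * (d - 1) ≤ d * d := Nat.mul_le_mul_left _ (Nat.sub_le _ _)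
      _ ≤ d * d * d := Nat.le_mul_of_pos_right _ hd
      _ = d ^ 3 := by ring

/-- the one-bead sum with multipliers `g` (times the common denominator) -/
noncomputable def rowS (cf : Cf) (s : ℕ) (x : ℝ) (j : ℤ) (g : ℕ → ℝ) : ℝ :=
  ∑' d, Pd s x j d * kap cf s x j d * g d

/-- **Row 1.**  Multipliers between `1 + d dl` and `1 + d dl + d (d-1) c b^d`. -/
theorem row1_lin {cf : Cf} {s : ℕ} {x : ℝ} {j : ℤ} (h : Rng s x j) (hs : s ≤ 28) {b : ℝ} (hb : 0 ≤ b)
    (hb2 : b ≤ 11 / 10) {dl c : ℝ} {g : ℕ → ℝ} (hg1 : ∀ d : ℕ, 1 + d * dl ≤ g d)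
    (hg2 : ∀ d : ℕ, g d ≤ 1 + d * dl + d * (d - 1) * c * b ^ d) (_hc : 0 ≤ c) :
    Summable (fun d => Pd s x j d * kap cf s x j d * g d) ∧
    |rowS cf s x j g - (momT cf s x j 0 + dl * momT cf s x j 1)| ≤ c * momB cf s x j b w2 := by
  have hP := fun d => Pd_nonneg h.1 h.2.1 h.2.2.1 (s := s) (x := x) (j := j) d
  have s0 := (summable_trm (cf := cf) h hs (by norm_num : 0 ≤ 3)).of_abs
  have s1 := (summable_trm (cf := cf) h hs (by norm_num : 1 ≤ 3)).of_abs
  have sB := summable_trB (cf := cf) h hs hb hb2 w2_le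
  have hw : ∀ d : ℕ, ((w2 d : ℕ) : ℝ) = (d : ℝ) * (d - 1) := by
    intro d
    unfold w2
    rcases Nat.eq_zero_or_pos d with rfl | hd
    · simp
    · rw [Nat.cast_mul, Nat.cast_sub hd]
      simp
  have hdiff : ∀ d, |Pd s x j d * kap cf s x j d * (g d - (1 + d * dl))| ≤ c * trB cf s x j b w2 d := by
    intro d
    unfold trB
    have e1 : |g d - (1 + d * dl)| ≤ d * (d - 1) * c * b ^ d := by
      rw [abs_of_nonneg (by linarith [hg1 d])]
      linarith [hg2 d]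
    rw [abs_mul, abs_mul, abs_of_nonneg (hP d), hw d]
    calc Pd s x j d * |kap cf s x j d| * |g d - (1 + d * dl)|
        ≤ Pd s x j d * |kap cf s x j d| * (d * (d - 1) * c * b ^ d) :=
          mul_le_mul_of_nonneg_left e1 (mul_nonneg (hP d) (abs_nonneg _))
      _ = _ := by ring
  have sd : Summable fun d => Pd s x j d * kap cf s x j d * (g d - (1 + d * dl)) :=
    Summable.of_norm_bounded (sB.mul_left c) fun d => by
      rw [Real.norm_eq_abs]
      exact hdiff d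
  have hlin : ∀ d, Pd s x j d * kap cf s x j d * g d =
      (trm cf s x j 0 d + dl * trm cf s x j 1 d) +
        Pd s x j d * kap cf s x j d * (g d - (1 + d * dl)) := by
    intro d
    unfold trm
    ring
  have sl : Summable fun d => trm cf s x j 0 d + dl * trm cf s x j 1 d := s0.add (s1.mul_left dl)
  refine ⟨(sl.add sd).congr fun d => (hlin d).symm, ?_⟩
  have e : rowS cf s x j g = (momT cf s x j 0 + dl * momT cf s x j 1) +
      ∑' d, Pd s x j d * kap cf s x j d * (g d - (1 + d * dl)) := by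
    unfold rowS momT
    rw [tsum_congr hlin, sl.tsum_add sd, s0.tsum_add (s1.mul_left dl), tsum_mul_left]
  rw [e, add_sub_cancel_left]
  refine (norm_tsum_le_tsum_norm (f := fun d => Pd s x j d * kap cf s x j d * (g d - (1 + d * dl))) ?_).trans ?_
  · exact sd.norm
  · unfold momB
    rw [← tsum_mul_left]
    exact Summable.tsum_le_tsum (fun d => hdiff d) sd.norm (sB.mul_left c)

/-- **Row 2.**  Multipliers `(1 - d y) θ_d` with `1 ≤ θ_d ≤ 1 + d η`, `0 ≤ y`. -/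
theorem row2_lin {cf : Cf} {s : ℕ} {x : ℝ} {j : ℤ} (h : Rng s x j) (hs : s ≤ 28) {y η : ℝ}
    (_hy : 0 ≤ y) {g : ℕ → ℝ} (hg : ∀ d : ℕ, |g d - (1 - d * y)| ≤ (1 + d * y) * (d * η)) :
    Summable (fun d => Pd s x j d * kap cf s x j d * g d) ∧
    |rowS cf s x j g - (momT cf s x j 0 - y * momT cf s x j 1)| ≤
      η * (momA cf s x j 1 + y * momA cf s x j 2) := by
  have hP := fun d => Pd_nonneg h.1 h.2.1 h.2.2.1 (s := s) (x := x) (j := j) d
  have s0 := (summable_trm (cf := cf) h hs (by norm_num : 0 ≤ 3)).of_abs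
  have s1a := summable_trm (cf := cf) h hs (by norm_num : 1 ≤ 3)
  have s2a := summable_trm (cf := cf) h hs (by norm_num : 2 ≤ 3)
  have s1 := s1a.of_abs
  have hdiff : ∀ d, |Pd s x j d * kap cf s x j d * (g d - (1 - d * y))| ≤
      η * (|trm cf s x j 1 d| + y * |trm cf s x j 2 d|) := by
    intro d
    unfold trm
    rw [abs_mul, abs_mul, abs_mul (Pd s x j d), abs_mul (Pd s x j d), abs_mul (kap cf s x j d),
      abs_mul (kap cf s x j d), abs_of_nonneg (hP d), abs_of_nonneg (by positivity : (0 : ℝ) ≤ (d : ℝ) ^ 1),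
      abs_of_nonneg (by positivity : (0 : ℝ) ≤ (d : ℝ) ^ 2)]
    calc Pd s x j d * |kap cf s x j d| * |g d - (1 - d * y)|
        ≤ Pd s x j d * |kap cf s x j d| * ((1 + d * y) * (d * η)) :=
          mul_le_mul_of_nonneg_left (hg d) (mul_nonneg (hP d) (abs_nonneg _))
      _ = _ := by ring
  have sR : Summable fun d => η * (|trm cf s x j 1 d| + y * |trm cf s x j 2 d|) :=
    (s1a.add (s2a.mul_left y)).mul_left η
  have sd : Summable fun d => Pd s x j d * kap cf s x j d * (g d - (1 - d * y)) :=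
    Summable.of_norm_bounded sR fun d => by
      rw [Real.norm_eq_abs]
      exact hdiff d
  have hlin : ∀ d, Pd s x j d * kap cf s x j d * g d =
      (trm cf s x j 0 d + (-y) * trm cf s x j 1 d) +
        Pd s x j d * kap cf s x j d * (g d - (1 - d * y)) := by
    intro d
    unfold trm
    ring
  have sl : Summable fun d => trm cf s x j 0 d + (-y) * trm cf s x j 1 d := s0.add (s1.mul_left (-y))
  refine ⟨(sl.add sd).congr fun d => (hlin d).symm, ?_⟩
  have e : rowS cf s x j g = (momT cf s x j 0 - y * momT cf s x j 1) +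
      ∑' d, Pd s x j d * kap cf s x j d * (g d - (1 - d * y)) := by
    unfold rowS momT
    rw [tsum_congr hlin, sl.tsum_add sd, s0.tsum_add (s1.mul_left (-y)), tsum_mul_left]
    ring
  rw [e, add_sub_cancel_left]
  refine (norm_tsum_le_tsum_norm (f := fun d => Pd s x j d * kap cf s x j d * (g d - (1 - d * y))) ?_).trans ?_
  · exact sd.norm
  · unfold momA
    rw [← tsum_mul_left, ← s1a.tsum_add (s2a.mul_left y), ← tsum_mul_left]
    exact Summable.tsum_le_tsum (fun d => hdiff d) sd.norm sR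

end Pool.NV
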