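import Mathlib

/-!
# Fast interval arithmetic in the kernel (natural numbers, outward rounding)

`NI` = interval of nonnegative reals, end points in units of `2 ^ (-40)`.  Only `Nat` operations occur, so
`decide +kernel` evaluates them with big number arithmetic (about 20 000 operations per second).
Signed quantities are differences; `dot` evaluates `∑_{d<n} c_d ∏_{i<d} s_i` with signed coefficients `c_d`
and positive steps `s_i`.
-/

set_option autoImplicit false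

open Finset

namespace Pool.NV

/-- the scale `2 ^ 40` -/
def S : ℕ := 1099511627776

theorem S_pos : 0 < S := by decide

theorem S_posR : (0 : ℝ) < (S : ℕ) := by exact_mod_cast S_pos

structure NI where
  lo : ℕ
  hi : ℕ
deriving DecidableEq

/-- the real `x` lies in the interval -/
def Mem (x : ℝ) (I : NI) : Prop := ((I.lo : ℕ) : ℝ) ≤ x * (S : ℕ) ∧ x * (S : ℕ) ≤ ((I.hi : ℕ) : ℝ)

theorem Mem.nonneg {x : ℝ} {I : NI} (h : Mem x I) : 0 ≤ x := by
  by_contra hc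
  have h1 := mul_neg_of_neg_of_pos (not_le.1 hc) S_posR
  have h2 := h.1
  have h3 : (0 : ℝ) ≤ (I.lo : ℕ) := Nat.cast_nonneg _
  linarith

theorem div_floor {a b : ℕ} : ((a / b : ℕ) : ℝ) * b ≤ a := by
  exact_mod_cast Nat.div_mul_le_self a b

theorem div_ceil {a b : ℕ} (hb : 0 < b) : (a : ℝ) ≤ ((a / b + 1 : ℕ) : ℝ) * b := by
  have h := Nat.lt_div_mul_add (a := a) hb
  have h' : a ≤ (a / b + 1) * b := by nlinarith
  exact_mod_cast h'

/-! ### constants -/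

/-- the natural number `p` -/
def nat (p : ℕ) : NI := ⟨p * S, p * S⟩

theorem mem_nat (p : ℕ) : Mem (p : ℝ) (nat p) := by
  constructor <;> simp [nat]

/-- the rational number `p / q` -/
def rat (p q : ℕ) : NI := ⟨p * S / q, p * S / q + 1⟩

theorem mem_rat {p q : ℕ} (hq : 0 < q) : Mem ((p : ℝ) / q) (rat p q) := by
  have hq' : (0 : ℝ) < q := by exact_mod_cast hq
  have h1 := div_floor (a := p * S) (b := q)
  have h2 := div_ceil (a := p * S) hq
  push_cast at h1 h2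
  constructor
  · rw [div_mul_eq_mul_div, le_div_iff₀ hq']
    exact h1
  · rw [div_mul_eq_mul_div, div_le_iff₀ hq']
    exact_mod_cast h2

/-! ### operations -/

def add (A B : NI) : NI := ⟨A.lo + B.lo, A.hi + B.hi⟩

theorem mem_add {x y : ℝ} {A B : NI} (hx : Mem x A) (hy : Mem y B) : Mem (x + y) (add A B) := by
  obtain ⟨h1, h2⟩ := hx
  obtain ⟨h3, h4⟩ := hy
  constructor
  · change (((A.lo + B.lo : ℕ)) : ℝ) ≤ _
    rw [add_mul]; push_cast; linarith
  · change _ ≤ (((A.hi + B.hi : ℕ)) : ℝ)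
    rw [add_mul]; push_cast; linarith

def mul (A B : NI) : NI := ⟨A.lo * B.lo / S, A.hi * B.hi / S + 1⟩

theorem mem_mul {x y : ℝ} {A B : NI} (hx : Mem x A) (hy : Mem y B) : Mem (x * y) (mul A B) := by
  have hx0 := hx.nonneg
  have hy0 := hy.nonneg
  obtain ⟨h1, h2⟩ := hx
  obtain ⟨h3, h4⟩ := hy
  have hs := S_posR
  have e : x * (S : ℕ) * (y * (S : ℕ)) = x * y * (S : ℕ) * (S : ℕ) := by ring
  constructor
  · have h5 := div_floor (a := A.lo * B.lo) (b := S)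
    have h6 : ((A.lo * B.lo : ℕ) : ℝ) ≤ x * y * (S : ℕ) * (S : ℕ) := by
      rw [← e]
      push_cast
      exact mul_le_mul h1 h3 (Nat.cast_nonneg _) ((Nat.cast_nonneg _).trans h1)
    exact le_of_mul_le_mul_right (h5.trans h6) hs
  · have h5 := div_ceil (a := A.hi * B.hi) S_pos
    have h6 : x * y * (S : ℕ) * (S : ℕ) ≤ ((A.hi * B.hi : ℕ) : ℝ) := by
      rw [← e]
      push_cast
      exact mul_le_mul h2 h4 (mul_nonneg hy0 hs.le) (Nat.cast_nonneg _)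
    exact le_of_mul_le_mul_right (h6.trans h5) hs

/-- multiplication by a natural number -/
def smul (k : ℕ) (A : NI) : NI := ⟨k * A.lo, k * A.hi⟩

theorem mem_smul {x : ℝ} {A : NI} (k : ℕ) (hx : Mem x A) : Mem (k * x) (smul k A) := by
  obtain ⟨h1, h2⟩ := hx
  have hk : (0 : ℝ) ≤ k := Nat.cast_nonneg _
  constructor
  · change (((k * A.lo : ℕ)) : ℝ) ≤ _
    have := mul_le_mul_of_nonneg_left h1 hk
    push_cast; linarith
  · change _ ≤ (((k * A.hi : ℕ)) : ℝ)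
    have := mul_le_mul_of_nonneg_left h2 hk
    push_cast; linarith

/-- division by a natural number -/
def sdiv (A : NI) (k : ℕ) : NI := ⟨A.lo / k, A.hi / k + 1⟩

theorem mem_sdiv {x : ℝ} {A : NI} {k : ℕ} (hk : 0 < k) (hx : Mem x A) : Mem (x / k) (sdiv A k) := by
  obtain ⟨h1, h2⟩ := hx
  have hk' : (0 : ℝ) < k := by exact_mod_cast hk
  constructor
  · change (((A.lo / k : ℕ)) : ℝ) ≤ _
    rw [div_mul_eq_mul_div, le_div_iff₀ hk']
    exact (div_floor (a := A.lo) (b := k)).trans h1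
  · change _ ≤ (((A.hi / k + 1 : ℕ)) : ℝ)
    rw [div_mul_eq_mul_div, div_le_iff₀ hk']
    exact h2.trans (div_ceil hk)

/-- quotient -/
def div (A B : NI) : NI := ⟨A.lo * S / B.hi, A.hi * S / B.lo + 1⟩

theorem mem_div {x y : ℝ} {A B : NI} (hB : 0 < B.lo) (hx : Mem x A) (hy : Mem y B) :
    Mem (x / y) (div A B) := by
  have hx0 := hx.nonneg
  obtain ⟨h1, h2⟩ := hx
  obtain ⟨h3, h4⟩ := hy
  have hs := S_posR
  have hB' : (0 : ℝ) < B.lo := by exact_mod_cast hB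
  have hy0 : 0 < y := by
    by_contra h
    have := mul_nonpos_of_nonpos_of_nonneg (not_lt.1 h) hs.le
    linarith
  constructor
  · change (((A.lo * S / B.hi : ℕ)) : ℝ) ≤ _
    have h5 := div_floor (a := A.lo * S) (b := B.hi)
    have h6 : ((A.lo * S / B.hi : ℕ) : ℝ) * (y * (S : ℕ)) ≤ x * (S : ℕ) * (S : ℕ) := by
      calc ((A.lo * S / B.hi : ℕ) : ℝ) * (y * (S : ℕ)) ≤ ((A.lo * S / B.hi : ℕ) : ℝ) * B.hi :=
            mul_le_mul_of_nonneg_left h4 (Nat.cast_nonneg _)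
        _ ≤ ((A.lo * S : ℕ) : ℝ) := h5
        _ ≤ x * (S : ℕ) * (S : ℕ) := by
            push_cast
            exact mul_le_mul_of_nonneg_right h1 hs.le
    have h7 : ((A.lo * S / B.hi : ℕ) : ℝ) * y ≤ x * (S : ℕ) := by
      have : (((A.lo * S / B.hi : ℕ) : ℝ) * y) * (S : ℕ) ≤ (x * (S : ℕ)) * (S : ℕ) := by linarith
      exact le_of_mul_le_mul_right this hs
    rw [div_mul_eq_mul_div, le_div_iff₀ hy0]
    exact h7
  · change _ ≤ (((A.hi * S / B.lo + 1 : ℕ)) : ℝ)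
    have h5 := div_ceil (a := A.hi * S) hB
    have h6 : x * (S : ℕ) * (S : ℕ) ≤ ((A.hi * S / B.lo + 1 : ℕ) : ℝ) * (y * (S : ℕ)) := by
      calc x * (S : ℕ) * (S : ℕ) ≤ ((A.hi * S : ℕ) : ℝ) := by
            push_cast
            exact mul_le_mul_of_nonneg_right h2 hs.le
        _ ≤ ((A.hi * S / B.lo + 1 : ℕ) : ℝ) * B.lo := h5
        _ ≤ _ := mul_le_mul_of_nonneg_left h3 (Nat.cast_nonneg _)
    have h7 : x * (S : ℕ) ≤ ((A.hi * S / B.lo + 1 : ℕ) : ℝ) * y := by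
      have : (x * (S : ℕ)) * (S : ℕ) ≤ (((A.hi * S / B.lo + 1 : ℕ) : ℝ) * y) * (S : ℕ) := by linarith
      exact le_of_mul_le_mul_right this hs
    rw [div_mul_eq_mul_div, div_le_iff₀ hy0]
    exact h7

/-- difference of two intervals, when it is nonnegative -/
def sub (A B : NI) : NI := ⟨A.lo - B.hi, A.hi - B.lo⟩

theorem mem_sub {x y : ℝ} {A B : NI} (hAB : B.hi ≤ A.lo) (hx : Mem x A) (hy : Mem y B) :
    Mem (x - y) (sub A B) := by
  obtain ⟨h1, h2⟩ := hx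
  obtain ⟨h3, h4⟩ := hy
  constructor
  · change (((A.lo - B.hi : ℕ)) : ℝ) ≤ _
    rw [sub_mul, Nat.cast_sub hAB]
    linarith
  · change _ ≤ (((A.hi - B.lo : ℕ)) : ℝ)
    rw [sub_mul]
    have h5 : ((A.hi : ℕ) : ℝ) - ((B.lo : ℕ) : ℝ) ≤ ((A.hi - B.lo : ℕ) : ℝ) := by
      rw [sub_le_iff_le_add]
      have h6 : A.hi ≤ A.hi - B.lo + B.lo := by omega
      exact_mod_cast h6
    linarith

/-- the interval between two intervals -/
def span (A B : NI) : NI := ⟨A.lo, B.hi⟩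

theorem mem_span {x y z : ℝ} {A B : NI} (hx : Mem x A) (hy : Mem y B) (h1 : x ≤ z) (h2 : z ≤ y) :
    Mem z (span A B) :=
  ⟨hx.1.trans (mul_le_mul_of_nonneg_right h1 S_posR.le),
    (mul_le_mul_of_nonneg_right h2 S_posR.le).trans hy.2⟩

theorem mem_mono {x : ℝ} {A B : NI} (h : Mem x A) (h1 : B.lo ≤ A.lo) (h2 : A.hi ≤ B.hi) :
    Mem x B := by
  refine ⟨le_trans ?_ h.1, h.2.trans ?_⟩
  · exact_mod_cast h1
  · exact_mod_cast h2

theorem lt_of_mem {x y : ℝ} {A B : NI} (hx : Mem x A) (hy : Mem y B) (h : A.hi < B.lo) : x < y := by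
  have h' : ((A.hi : ℕ) : ℝ) < B.lo := by exact_mod_cast h
  have := lt_of_le_of_lt hx.2 (lt_of_lt_of_le h' hy.1)
  exact lt_of_mul_lt_mul_right this S_posR.le

theorem le_of_mem {x y : ℝ} {A B : NI} (hx : Mem x A) (hy : Mem y B) (h : A.hi ≤ B.lo) : x ≤ y := by
  have h' : ((A.hi : ℕ) : ℝ) ≤ B.lo := by exact_mod_cast h
  have := hx.2.trans (h'.trans hy.1)
  exact le_of_mul_le_mul_right this S_posR

theorem pos_of_mem {x : ℝ} {A : NI} (hx : Mem x A) (h : 0 < A.lo) : 0 < x := by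
  have h' : (0 : ℝ) < A.lo := by exact_mod_cast h
  by_contra hc
  have := mul_nonpos_of_nonpos_of_nonneg (not_lt.1 hc) S_posR.le
  linarith [hx.1]

/-! ### cells -/

/-- the `i`-th cell of width `1 / k` -/
def cell (k : ℕ) (i : ℕ) : NI := ⟨i * S / k, (i + 1) * S / k + 1⟩

theorem exists_cell {k n : ℕ} (hk : 0 < k) (hn : 0 < n) {x : ℝ} (h0 : 0 ≤ x) (h1 : x ≤ n / k) :
    ∃ i, i < n ∧ (i : ℝ) / k ≤ x ∧ x ≤ ((i : ℝ) + 1) / k ∧ Mem x (cell k i) := by
  have hk' : (0 : ℝ) < k := by exact_mod_cast hk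
  have key : ∃ i : ℕ, i < n ∧ (i : ℝ) ≤ x * k ∧ x * k ≤ i + 1 := by
    by_cases hx : x * k < n
    · refine ⟨⌊x * k⌋₊, ?_, Nat.floor_le (by positivity), (Nat.lt_floor_add_one _).le⟩
      rw [Nat.floor_lt (by positivity)]
      exact hx
    · refine ⟨n - 1, by omega, ?_, ?_⟩
      · rw [Nat.cast_sub hn]
        push_cast
        linarith [not_lt.1 hx]
      · rw [Nat.cast_sub hn]
        push_cast
        have := (le_div_iff₀ hk').1 h1
        linarith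
  obtain ⟨i, hi, h2, h3⟩ := key
  have h4 : (i : ℝ) / k ≤ x := by rw [div_le_iff₀ hk']; exact h2
  have h5 : x ≤ ((i : ℝ) + 1) / k := by rw [le_div_iff₀ hk']; exact h3
  refine ⟨i, hi, h4, h5, ?_⟩
  have c1 := mem_rat (p := i) hk
  have c2 := mem_rat (p := i + 1) hk
  push_cast at c2
  exact mem_span c1 c2 h4 h5

/-! ### the main loop -/

/-- lower bound of `a * c`, positive part minus negative part, `c ∈ [cp.lo - cn.hi, ..]` -/
structure Acc where
  /-- current product `∏_{i<d} s_i` -/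
  a : NI
  /-- lower bound of the sum = `lp - ln` -/
  lp : ℕ
  ln : ℕ
  /-- upper bound of the sum = `up - un` -/
  up : ℕ
  un : ℕ

/-- add the term `a * (p - n)` -/
def step (A : Acc) (s p n : NI) : Acc :=
  { a := mul A.a s
    lp := A.lp + A.a.lo * (p.lo - n.hi) / S
    ln := A.ln + (A.a.hi * (n.hi - p.lo) / S + 1)
    up := A.up + (A.a.hi * (p.hi - n.lo) / S + 1)
    un := A.un + A.a.lo * (n.lo - p.hi) / S }

def dot (a0 : NI) (s p n : ℕ → NI) : ℕ → Acc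
  | 0 => ⟨a0, 0, 0, 0, 0⟩
  | k + 1 => step (dot a0 s p n k) (s k) (p k) (n k)

theorem cast_tsub_ge (a b : ℕ) : (a : ℝ) - b ≤ ((a - b : ℕ) : ℝ) := by
  rw [sub_le_iff_le_add]
  have : a ≤ a - b + b := by omega
  exact_mod_cast this

/-- lower bound of one term -/
theorem term_lo {x c cp cn : ℝ} {X P N : NI} (hx : Mem x X) (hp : Mem cp P) (hn : Mem cn N)
    (hc : c = cp - cn) :
    (((X.lo * (P.lo - N.hi) / S : ℕ)) : ℝ) - ((X.hi * (N.hi - P.lo) / S + 1 : ℕ) : ℝ) ≤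
      x * c * (S : ℕ) := by
  have hx0 := hx.nonneg
  have hs := S_posR
  obtain ⟨h1, h2⟩ := hx
  have hlow : ((P.lo : ℝ)) - (N.hi : ℝ) ≤ c * (S : ℕ) := by
    rw [hc, sub_mul]; linarith [hp.1, hn.2]
  rcases le_total N.hi P.lo with h | h
  · have e0 : N.hi - P.lo = 0 := Nat.sub_eq_zero_of_le h
    have e1 : ((P.lo - N.hi : ℕ) : ℝ) = (P.lo : ℝ) - (N.hi : ℝ) := Nat.cast_sub h
    have h5 := div_floor (a := X.lo * (P.lo - N.hi)) (b := S)
    have h6 : ((X.lo * (P.lo - N.hi) : ℕ) : ℝ) ≤ x * c * (S : ℕ) * (S : ℕ) := by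
      push_cast
      rw [e1]
      calc (X.lo : ℝ) * ((P.lo : ℝ) - (N.hi : ℝ)) ≤ (x * (S : ℕ)) * (c * (S : ℕ)) :=
            mul_le_mul h1 hlow (by rw [← e1]; exact Nat.cast_nonneg _) (mul_nonneg hx0 hs.le)
        _ = _ := by ring
    have h7 := le_of_mul_le_mul_right (h5.trans h6) hs
    rw [e0, mul_zero, Nat.zero_div]
    push_cast at h7 ⊢
    linarith
  · have e0 : P.lo - N.hi = 0 := Nat.sub_eq_zero_of_le h
    have e1 : ((N.hi - P.lo : ℕ) : ℝ) = (N.hi : ℝ) - (P.lo : ℝ) := Nat.cast_sub h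
    have h5 := div_ceil (a := X.hi * (N.hi - P.lo)) S_pos
    have h6 : -(((X.hi * (N.hi - P.lo) : ℕ)) : ℝ) ≤ x * c * (S : ℕ) * (S : ℕ) := by
      push_cast
      rw [e1]
      have h8 : x * (S : ℕ) * ((N.hi : ℝ) - (P.lo : ℝ)) ≤ (X.hi : ℝ) * ((N.hi : ℝ) - (P.lo : ℝ)) :=
        mul_le_mul_of_nonneg_right h2 (by rw [← e1]; exact Nat.cast_nonneg _)
      have h9 : (x * (S : ℕ)) * (-((N.hi : ℝ) - (P.lo : ℝ))) ≤ (x * (S : ℕ)) * (c * (S : ℕ)) :=
        mul_le_mul_of_nonneg_left (by linarith) (mul_nonneg hx0 hs.le)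
      calc -((X.hi : ℝ) * ((N.hi : ℝ) - (P.lo : ℝ))) ≤ (x * (S : ℕ)) * (-((N.hi : ℝ) - (P.lo : ℝ))) := by
            linarith
        _ ≤ _ := h9
        _ = _ := by ring
    have h7 : -(((X.hi * (N.hi - P.lo) / S + 1 : ℕ)) : ℝ) * (S : ℕ) ≤ x * c * (S : ℕ) * (S : ℕ) := by
      linarith
    have h8 := le_of_mul_le_mul_right h7 hs
    rw [e0, mul_zero, Nat.zero_div]
    push_cast at h8 ⊢
    linarith

/-- upper bound of one term -/
theorem term_hi {x c cp cn : ℝ} {X P N : NI} (hx : Mem x X) (hp : Mem cp P) (hn : Mem cn N)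
    (hc : c = cp - cn) :
    x * c * (S : ℕ) ≤
      ((X.hi * (P.hi - N.lo) / S + 1 : ℕ) : ℝ) - (((X.lo * (N.lo - P.hi) / S : ℕ)) : ℝ) := by
  have hx0 := hx.nonneg
  have hs := S_posR
  obtain ⟨h1, h2⟩ := hx
  have hup : c * (S : ℕ) ≤ (P.hi : ℝ) - (N.lo : ℝ) := by
    rw [hc, sub_mul]; linarith [hp.2, hn.1]
  rcases le_total N.lo P.hi with h | h
  · have e0 : N.lo - P.hi = 0 := Nat.sub_eq_zero_of_le h
    have e1 : ((P.hi - N.lo : ℕ) : ℝ) = (P.hi : ℝ) - (N.lo : ℝ) := Nat.cast_sub h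
    have h5 := div_ceil (a := X.hi * (P.hi - N.lo)) S_pos
    have h6 : x * c * (S : ℕ) * (S : ℕ) ≤ ((X.hi * (P.hi - N.lo) : ℕ) : ℝ) := by
      push_cast
      rw [e1]
      have hn0 : (0 : ℝ) ≤ (P.hi : ℝ) - (N.lo : ℝ) := by rw [← e1]; exact Nat.cast_nonneg _
      calc x * c * (S : ℕ) * (S : ℕ) = (x * (S : ℕ)) * (c * (S : ℕ)) := by ring
        _ ≤ (x * (S : ℕ)) * ((P.hi : ℝ) - (N.lo : ℝ)) :=
            mul_le_mul_of_nonneg_left hup (mul_nonneg hx0 hs.le)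
        _ ≤ _ := mul_le_mul_of_nonneg_right h2 hn0
    have h7 := le_of_mul_le_mul_right (h6.trans h5) hs
    rw [e0, mul_zero, Nat.zero_div]
    push_cast at h7 ⊢
    linarith
  · have e0 : P.hi - N.lo = 0 := Nat.sub_eq_zero_of_le h
    have e1 : ((N.lo - P.hi : ℕ) : ℝ) = (N.lo : ℝ) - (P.hi : ℝ) := Nat.cast_sub h
    have h5 := div_floor (a := X.lo * (N.lo - P.hi)) (b := S)
    have h6 : x * c * (S : ℕ) * (S : ℕ) ≤ -(((X.lo * (N.lo - P.hi) / S : ℕ)) : ℝ) * (S : ℕ) := by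
      have h8 : (X.lo : ℝ) * ((N.lo : ℝ) - (P.hi : ℝ)) ≤ x * (S : ℕ) * ((N.lo : ℝ) - (P.hi : ℝ)) :=
        mul_le_mul_of_nonneg_right h1 (by rw [← e1]; exact Nat.cast_nonneg _)
      have h9 : (x * (S : ℕ)) * (c * (S : ℕ)) ≤ (x * (S : ℕ)) * (-((N.lo : ℝ) - (P.hi : ℝ))) :=
        mul_le_mul_of_nonneg_left (by linarith) (mul_nonneg hx0 hs.le)
      push_cast at h5
      rw [e1] at h5
      have h10 : x * c * (S : ℕ) * (S : ℕ) = (x * (S : ℕ)) * (c * (S : ℕ)) := by ring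
      rw [h10]
      linarith
    have h7 := le_of_mul_le_mul_right h6 hs
    rw [e0, mul_zero, Nat.zero_div]
    push_cast at h7 ⊢
    linarith

/-- **Soundness of the main loop.** -/
theorem dot_sound {a0 : NI} {x0 : ℝ} {s c cp cn : ℕ → ℝ} {sI pI nI : ℕ → NI} (h0 : Mem x0 a0) :
    ∀ k : ℕ, (∀ i, i < k → Mem (s i) (sI i)) → (∀ i, i < k → Mem (cp i) (pI i)) →
      (∀ i, i < k → Mem (cn i) (nI i)) → (∀ i, i < k → c i = cp i - cn i) →
      Mem (x0 * ∏ i ∈ range k, s i) (dot a0 sI pI nI k).a ∧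
      (((dot a0 sI pI nI k).lp : ℕ) : ℝ) - (((dot a0 sI pI nI k).ln : ℕ) : ℝ) ≤
        (∑ d ∈ range k, (x0 * ∏ i ∈ range d, s i) * c d) * (S : ℕ) ∧
      (∑ d ∈ range k, (x0 * ∏ i ∈ range d, s i) * c d) * (S : ℕ) ≤
        (((dot a0 sI pI nI k).up : ℕ) : ℝ) - (((dot a0 sI pI nI k).un : ℕ) : ℝ)
  | 0, _, _, _, _ => by
    refine ⟨?_, ?_, ?_⟩
    · rw [prod_range_zero, mul_one]
      exact h0
    · simp [dot]
    · simp [dot]
  | k + 1, h1, h2, h3, h4 => by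
    obtain ⟨i1, i2, i3⟩ := dot_sound h0 k (fun i hi => h1 i (by omega)) (fun i hi => h2 i (by omega))
      (fun i hi => h3 i (by omega)) (fun i hi => h4 i (by omega))
    have t1 := term_lo i1 (h2 k (by omega)) (h3 k (by omega)) (h4 k (by omega))
    have t2 := term_hi i1 (h2 k (by omega)) (h3 k (by omega)) (h4 k (by omega))
    refine ⟨?_, ?_, ?_⟩
    · rw [prod_range_succ, ← mul_assoc]
      exact mem_mul i1 (h1 k (by omega))
    · rw [sum_range_succ, add_mul]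
      change ((((dot a0 sI pI nI k).lp + (dot a0 sI pI nI k).a.lo * ((pI k).lo - (nI k).hi) / S : ℕ)) : ℝ) -
        ((((dot a0 sI pI nI k).ln + ((dot a0 sI pI nI k).a.hi * ((nI k).hi - (pI k).lo) / S + 1) : ℕ)) : ℝ) ≤ _
      rw [Nat.cast_add, Nat.cast_add (dot a0 sI pI nI k).ln]
      linarith
    · rw [sum_range_succ, add_mul]
      change _ ≤ ((((dot a0 sI pI nI k).up + ((dot a0 sI pI nI k).a.hi * ((pI k).hi - (nI k).lo) / S + 1) : ℕ)) : ℝ) -
        ((((dot a0 sI pI nI k).un + (dot a0 sI pI nI k).a.lo * ((nI k).lo - (pI k).hi) / S : ℕ)) : ℝ)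
      rw [Nat.cast_add, Nat.cast_add (dot a0 sI pI nI k).un]
      linarith

end Pool.NV
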